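import Mathlib
import Pool.Agent.H906R3.YM.Approx
import Pool.Agent.H906R3.YM.Conc

/-!
# Kogut-Susskind Hamiltonian at strong 't Hooft coupling: common definitions

Setting of `Pool.Agent.H906R3.YM`: `L : LD G N n` (a compact group `G` of unitary matrices with an
orthonormal basis `X a` of its Lie algebra), `E` a finite set of links, `Sm L E` the algebra of the
smooth functions on `E → G`, `L.Dv j` (`j : E × Fin n`) the derivations (derivatives along
`U_e ↦ exp (t X_a) U_e`), `L.ev U : Sm L E →ₐ[ℝ] ℝ` the evaluation at `U`, `L.I μ` the Haar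
integral, `Gam D f h = ∑ D_j f D_j h`, `Lap D f = ∑ D_j D_j f`.
-/

open MeasureTheory Matrix Set
open scoped Matrix.Norms.Frobenius ContDiff
open Pool.Agent.H906R3.YM

namespace Run7.h208.KS

set_option linter.unusedSectionVars false

noncomputable section

section defs

variable {G : Type*} [Group G] [TopologicalSpace G] {N n : ℕ} {L : LD G N n}
  {E : Type*} [Fintype E] [DecidableEq E]

/-- the scaled Hamiltonian `Q - Δ / 2` -/
def Hop (Q u : Sm L E) : Sm L E := Q * u - (1 / 2 : ℝ) • Lap (L.Dv (E := E)) u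

/-- the function and its derivatives of order at most two are bounded by `K` -/
def C2 (u : Sm L E) (K : ℝ) : Prop := ∀ U, |L.ev U u| ≤ K ∧
  ∀ i, |L.ev U (L.Dv i u)| ≤ K ∧ ∀ j, |L.ev U (L.Dv i (L.Dv j u))| ≤ K

/-- `Q` belongs to a finite dimensional space of functions, which is stable under all derivations -/
def DFin (Q : Sm L E) : Prop := ∃ W : Submodule ℝ (Sm L E), W.FG ∧ Q ∈ W ∧
  ∀ j, ∀ f ∈ W, L.Dv j f ∈ W

/-- Hessian bound: `|D (D_q φ)| ≤ h |q|` for all constant vectors `q`, at every point -/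
def HB (φ : Sm L E) (h : ℝ) : Prop := ∀ (U : E → G) (q : E × Fin n → ℝ),
  ∑ i, (∑ j, q j * L.ev U (L.Dv i (L.Dv j φ))) ^ 2 ≤ h ^ 2 * ∑ j, q j ^ 2

/-- iterated derivative, `Dw [j₁, j₂, …] f = D_{j₁} D_{j₂} … f` -/
def Dw (α : List (E × Fin n)) (f : Sm L E) : Sm L E := α.foldr (fun j g => L.Dv j g) f

/-- Time dependent functions on `[0, T]`: up to `k` derivatives `D_α u` are continuous in `(t, U)`
and differentiable in `t`, with derivative `D_α v`. -/
def Sol (T : ℝ) (k : ℕ) (u v : ℝ → Sm L E) : Prop := ∀ α : List (E × Fin n), α.length ≤ k →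
  ContinuousOn (fun p : ℝ × (E → G) => L.ev p.2 (Dw α (u p.1))) (Icc 0 T ×ˢ univ) ∧
  ∀ U, ∀ t ∈ Icc 0 T, HasDerivWithinAt (fun s => L.ev U (Dw α (u s))) (L.ev U (Dw α (v t)))
    (Icc 0 T) t

/-- `½ Δ φ - ½ |D φ|² + Q`, the local energy of `exp (-φ)` -/
def GS (Q φ : Sm L E) : Sm L E :=
  (1 / 2 : ℝ) • Lap (L.Dv (E := E)) φ - (1 / 2 : ℝ) • Gam (L.Dv (E := E)) φ φ + Q

/-- linear symmetries of the Hamiltonian `Q - Δ / 2` which fix the constants -/
structure Sym (Q : Sm L E) (S : Sm L E →ₗ[ℝ] Sm L E) : Prop where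
  one : S 1 = 1
  lap : ∀ f, S (Lap (L.Dv (E := E)) f) = Lap (L.Dv (E := E)) (S f)
  mul : ∀ f, S (Q * f) = Q * S f

/-- pull back by the left multiplication with `k` -/
def lm (k : E → G) : Sm L E →ₐ[ℝ] Sm L E where
  toFun F := ⟨fun U => F.1 (k * U), by
    obtain ⟨F, f, hf, h⟩ := F
    refine ⟨fun M => f (fun e => L.rho (k e) * M e), ?_, fun U => ?_⟩
    · refine hf.comp ?_
      rw [contDiff_pi]
      intro e
      exact contDiff_const.mul (contDiff_apply ℝ (Mat N) e)
    · show F (k * U) = f (fun e => L.rho (k e) * L.rho (U e))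
      rw [h]
      congr 1
      funext e
      show L.rho (k e * U e) = _
      rw [map_mul]⟩
  map_one' := rfl
  map_mul' _ _ := rfl
  map_zero' := rfl
  map_add' _ _ := rfl
  commutes' _ := rfl

@[simp] lemma ev_lm (k : E → G) (F : Sm L E) (U : E → G) : L.ev U (lm k F) = L.ev (k * U) F := rfl

/-- `z` on the links of `S`, `1` on the other links -/
def zS (S : Finset E) (z : G) : E → G := fun e => if e ∈ S then z else 1

/-- the derivations of the links of `S` -/
def DS (S : Finset E) (j : S × Fin n) : Derivation ℝ (Sm L E) (Sm L E) := L.Dv (j.1.1, j.2)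

end defs

/-- the function algebra with the derivations of the links of `S` only -/
def fnS {G : Type*} [Group G] [TopologicalSpace G] {N n : ℕ} (L : LD G N n)
    [IsTopologicalGroup G] [CompactSpace G] [SecondCountableTopology G]
    [MeasurableSpace G] [BorelSpace G] (μ : Measure G) [IsProbabilityMeasure μ]
    [μ.IsMulLeftInvariant] {E : Type*} [Fintype E] [DecidableEq E] (S : Finset E) :
    Fn (Sm L E) (E → G) (S × Fin n) where
  ev := L.ev
  ext _ _ h := ev_ext h
  D := DS S
  I := L.I μ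
  I_D := fun _ => I_D_zero μ _
  I_mono _ _ h := I_mono μ h

/-- Path bound for the supremum norm: `|F (k U) - F (U)| ≤ R sup |D F|` for all `k`. -/
def PathS {G : Type*} [Group G] [TopologicalSpace G] {N n : ℕ} (L : LD G N n)
    (E : Type*) [Fintype E] [DecidableEq E] (R : ℝ) : Prop :=
  ∀ (k : E → G) (F : Sm L E) (B : ℝ), (∀ U j, |L.ev U (L.Dv j F)| ≤ B) →
    ∀ U, |L.ev (k * U) F - L.ev U F| ≤ R * B

/-- Path bound for the `L²` norm: the links which `k` moves belong to `S`. -/
def PathI {G : Type*} [Group G] [TopologicalSpace G] {N n : ℕ} (L : LD G N n)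
    [MeasurableSpace G] (μ : Measure G) (E : Type*) [Fintype E] [DecidableEq E]
    (R : ℝ) : Prop :=
  ∀ (S : Finset E) (k : E → G), (∀ e, e ∉ S → k e = 1) → ∀ F : Sm L E,
    ∫ U, (L.ev (k * U) F - L.ev U F) ^ 2 ∂(ME μ E) ≤
      R * ∫ U, L.ev U (Gam (DS S) F F) ∂(ME μ E)

/-- lower bound of the Casimir operator of the adjoint representation -/
def Cas {G : Type*} [Group G] [TopologicalSpace G] {N n : ℕ} (L : LD G N n) (c : ℝ) : Prop :=
  ∀ q : Fin n → ℝ, c * ∑ k, q k ^ 2 ≤ ∑ a, ∑ b, (∑ k, L.sc a b k * q k) ^ 2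

end

end Run7.h208.KS
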