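import Pool.Agent.Run7.h208.KS.Base

/-!
# Piece BOCH: the Bochner inequality
-/

open MeasureTheory Matrix Set
open scoped Matrix.Norms.Frobenius ContDiff
open Pool.Agent.H906R3.YM

namespace Run7.h208.KS

set_option linter.unusedSectionVars false

noncomputable section

section alg

variable {A : Type*} [CommRing A] [Algebra ℝ A] {J : Type*} [Fintype J]
  (D : J → Derivation ℝ A A) (σ : J → J → J → ℝ)

/-- a double sum with coefficients which are antisymmetric vanishes -/
lemma eq_zero_of_eq_neg {V : Type*} [AddCommGroup V] [Module ℝ V] {S : V} (h : S = -S) : S = 0 := by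
  have h3 : (2 : ℝ) • S = 0 := by
    rw [two_smul]
    nth_rewrite 2 [h]
    exact add_neg_cancel S
  have h4 := congrArg (fun x => (1 / 2 : ℝ) • x) h3
  simpa [smul_smul] using h4

/-- the derivations commute with the Laplacian (the proof of `Lap_Dv`) -/
theorem lap_comm (hσ : ∀ i l u, D i (D l u) - D l (D i u) = ∑ k, σ i l k • D k u)
    (ha : ∀ i j k, σ i j k = -σ k j i) (j : J) (u : A) : Lap D (D j u) = D j (Lap D u) := by
  unfold Lap
  rw [map_sum, ← sub_eq_zero, ← Finset.sum_sub_distrib]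
  have h1 : ∀ i, D i (D i (D j u)) - D j (D i (D i u)) =
      ∑ k, σ i j k • (D i (D k u) + D k (D i u)) := by
    intro i
    have a1 := hσ i j u
    have a2 := hσ i j (D i u)
    have a3 := congrArg (D i) a1
    rw [map_sub, map_sum] at a3
    have a4 : D i (D i (D j u)) - D j (D i (D i u)) =
        (D i (D i (D j u)) - D i (D j (D i u))) +
        (D i (D j (D i u)) - D j (D i (D i u))) := by abel
    rw [a4, a3, a2, ← Finset.sum_add_distrib]
    refine Finset.sum_congr rfl fun k _ => ?_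
    rw [Derivation.map_smul, smul_add]
  rw [Finset.sum_congr rfl fun i _ => h1 i]
  apply eq_zero_of_eq_neg
  conv_lhs => rw [Finset.sum_comm]
  rw [← Finset.sum_neg_distrib]
  refine Finset.sum_congr rfl fun i _ => ?_
  rw [← Finset.sum_neg_distrib]
  refine Finset.sum_congr rfl fun k _ => ?_
  rw [ha, neg_smul, add_comm]

/-- the derivatives of `½ Gam f f` -/
lemma D_half_Gam (i : J) (f : A) :
    D i ((1 / 2 : ℝ) • Gam D f f) = ∑ j, D j f * D i (D j f) := by
  unfold Gam
  rw [Derivation.map_smul, map_sum, Finset.smul_sum]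
  refine Finset.sum_congr rfl fun j _ => ?_
  rw [Derivation.leibniz, smul_eq_mul, ← two_smul ℝ (D j f * D i (D j f)), smul_smul]
  norm_num

/-- **Bochner identity**. -/
theorem bochner (hσ : ∀ i l u, D i (D l u) - D l (D i u) = ∑ k, σ i l k • D k u)
    (ha : ∀ i j k, σ i j k = -σ k j i) (φ f : A) :
    Gam D f ((1 / 2 : ℝ) • Lap D f - Gam D φ f) =
      (1 / 2 : ℝ) • Lap D ((1 / 2 : ℝ) • Gam D f f) - Gam D φ ((1 / 2 : ℝ) • Gam D f f)
        - (1 / 2 : ℝ) • ∑ i, ∑ j, D i (D j f) * D i (D j f)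
        - ∑ i, ∑ j, D i f * D i (D j φ) * D j f := by
  have hsub : ∀ u v : A, Gam D f (u - v) = Gam D f u - Gam D f v := by
    intro u v
    unfold Gam
    rw [← Finset.sum_sub_distrib]
    refine Finset.sum_congr rfl fun j _ => ?_
    rw [map_sub]; ring
  rw [hsub, Gam_smul]
  -- the Laplacian of `½ |D f|²`
  have hL : Lap D ((1 / 2 : ℝ) • Gam D f f) =
      ∑ i, ∑ j, D i (D j f) * D i (D j f) + Gam D f (Lap D f) := by
    have h1 : ∀ i, D i (D i ((1 / 2 : ℝ) • Gam D f f)) =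
        ∑ j, D i (D j f) * D i (D j f) + ∑ j, D j f * D i (D i (D j f)) := by
      intro i
      rw [D_half_Gam, map_sum, ← Finset.sum_add_distrib]
      refine Finset.sum_congr rfl fun j _ => ?_
      rw [Derivation.leibniz, smul_eq_mul, smul_eq_mul]; ring
    have h2 : Gam D f (Lap D f) = ∑ i, ∑ j, D j f * D i (D i (D j f)) := by
      rw [Finset.sum_comm]
      unfold Gam
      refine Finset.sum_congr rfl fun j _ => ?_
      rw [← lap_comm D σ hσ ha, ← Finset.mul_sum]
      rfl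
    rw [h2, ← Finset.sum_add_distrib]
    unfold Lap
    exact Finset.sum_congr rfl fun i _ => h1 i
  -- the first order term
  have hG : Gam D f (Gam D φ f) = Gam D φ ((1 / 2 : ℝ) • Gam D f f) +
      ∑ i, ∑ j, D i f * D i (D j φ) * D j f := by
    have h1 : Gam D f (Gam D φ f) = ∑ i, ∑ j, D i f * D i (D j φ) * D j f +
        ∑ i, ∑ j, D i f * D j φ * D i (D j f) := by
      rw [← Finset.sum_add_distrib]
      unfold Gam
      refine Finset.sum_congr rfl fun i _ => ?_
      rw [map_sum, Finset.mul_sum, ← Finset.sum_add_distrib]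
      refine Finset.sum_congr rfl fun j _ => ?_
      rw [Derivation.leibniz, smul_eq_mul, smul_eq_mul]; ring
    have h2 : Gam D φ ((1 / 2 : ℝ) • Gam D f f) = ∑ i, ∑ j, D i f * D j φ * D j (D i f) := by
      rw [Finset.sum_comm]
      unfold Gam
      refine Finset.sum_congr rfl fun j _ => ?_
      have h3 := D_half_Gam D j f
      unfold Gam at h3
      rw [h3, Finset.mul_sum]
      refine Finset.sum_congr rfl fun i _ => ?_
      ring
    have h3 : ∑ i, ∑ j, D i f * D j φ * D i (D j f) - ∑ i, ∑ j, D i f * D j φ * D j (D i f) = 0 := by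
      rw [← Finset.sum_sub_distrib]
      have h4 : ∀ i, (∑ j, D i f * D j φ * D i (D j f) - ∑ j, D i f * D j φ * D j (D i f)) =
          ∑ j, ∑ k, σ i j k • (D i f * D j φ * D k f) := by
        intro i
        rw [← Finset.sum_sub_distrib]
        refine Finset.sum_congr rfl fun j _ => ?_
        rw [← mul_sub, hσ, Finset.mul_sum]
        exact Finset.sum_congr rfl fun k _ => mul_smul_comm _ _ _
      rw [Finset.sum_congr rfl fun i _ => h4 i]
      apply eq_zero_of_eq_neg
      have hT : ∀ i j k, σ k j i • (D k f * D j φ * D i f) = -(σ i j k • (D i f * D j φ * D k f)) := by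
        intro i j k
        rw [ha k j i, neg_smul]
        congr 2
        ring
      calc ∑ i, ∑ j, ∑ k, σ i j k • (D i f * D j φ * D k f)
          = ∑ j, ∑ i, ∑ k, σ i j k • (D i f * D j φ * D k f) := Finset.sum_comm
        _ = ∑ j, ∑ i, ∑ k, σ k j i • (D k f * D j φ * D i f) :=
            Finset.sum_congr rfl fun j _ => Finset.sum_comm
        _ = ∑ i, ∑ j, ∑ k, σ k j i • (D k f * D j φ * D i f) := Finset.sum_comm
        _ = ∑ i, ∑ j, ∑ k, -(σ i j k • (D i f * D j φ * D k f)) :=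
            Finset.sum_congr rfl fun i _ => Finset.sum_congr rfl fun j _ =>
              Finset.sum_congr rfl fun k _ => hT i j k
        _ = -∑ i, ∑ j, ∑ k, σ i j k • (D i f * D j φ * D k f) := by
            simp only [Finset.sum_neg_distrib]
    rw [h1, h2]
    rw [sub_eq_zero] at h3
    rw [h3, add_comm]
  rw [hL, hG, smul_add]
  abel

/-- the antisymmetric part of the second derivatives -/
theorem anti_part (hσ : ∀ i l u, D i (D l u) - D l (D i u) = ∑ k, σ i l k • D k u)
    (e : A →ₐ[ℝ] ℝ) (f : A) {c : ℝ}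
    (hc : ∀ q : J → ℝ, c * ∑ k, q k ^ 2 ≤ ∑ i, ∑ j, (∑ k, σ i j k * q k) ^ 2) :
    c / 4 * ∑ k, (e (D k f)) ^ 2 ≤ ∑ i, ∑ j, (e (D i (D j f))) ^ 2 := by
  have h1 := hc fun k => e (D k f)
  have h2 : ∀ i j, ∑ k, σ i j k * e (D k f) = e (D i (D j f)) - e (D j (D i f)) := by
    intro i j
    rw [← map_sub, hσ, map_sum]
    exact Finset.sum_congr rfl fun k _ => by rw [map_smul, smul_eq_mul]
  simp only [h2] at h1
  have h3 : ∑ i, ∑ j, (e (D i (D j f)) - e (D j (D i f))) ^ 2 ≤
      ∑ i, ∑ j, (2 * e (D i (D j f)) ^ 2 + 2 * e (D j (D i f)) ^ 2) :=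
    Finset.sum_le_sum fun i _ => Finset.sum_le_sum fun j _ => by
      nlinarith [sq_nonneg (e (D i (D j f)) + e (D j (D i f)))]
  have h4 : ∑ i, ∑ j, (2 * e (D i (D j f)) ^ 2 + 2 * e (D j (D i f)) ^ 2) =
      4 * ∑ i, ∑ j, e (D i (D j f)) ^ 2 := by
    simp only [Finset.sum_add_distrib, ← Finset.mul_sum]
    rw [Finset.sum_comm (f := fun i j => e (D j (D i f)) ^ 2)]
    ring
  linarith

/-- the general inequality -/
theorem boch_gen (hσ : ∀ i l u, D i (D l u) - D l (D i u) = ∑ k, σ i l k • D k u)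
    (ha : ∀ i j k, σ i j k = -σ k j i) (e : A →ₐ[ℝ] ℝ) {c h : ℝ}
    (hc : ∀ q : J → ℝ, c * ∑ k, q k ^ 2 ≤ ∑ i, ∑ j, (∑ k, σ i j k * q k) ^ 2) (φ f : A)
    (hφ : ∀ q : J → ℝ, ∑ i, (∑ j, q j * e (D i (D j φ))) ^ 2 ≤ h ^ 2 * ∑ j, q j ^ 2)
    (hh : 0 ≤ h) :
    e (Gam D f ((1 / 2 : ℝ) • Lap D f - Gam D φ f)) ≤
      e ((1 / 2 : ℝ) • Lap D ((1 / 2 : ℝ) • Gam D f f)
        - Gam D φ ((1 / 2 : ℝ) • Gam D f f)) - (c / 8 - h) * e (Gam D f f) := by
  rw [bochner D σ hσ ha φ f]
  have hg : e (Gam D f f) = ∑ k, (e (D k f)) ^ 2 := by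
    unfold Gam
    rw [map_sum]
    exact Finset.sum_congr rfl fun k _ => by rw [map_mul, sq]
  have h2 : e (∑ i, ∑ j, D i (D j f) * D i (D j f)) = ∑ i, ∑ j, (e (D i (D j f))) ^ 2 := by
    simp only [map_sum]
    exact Finset.sum_congr rfl fun i _ => Finset.sum_congr rfl fun j _ => by rw [map_mul, sq]
  have h3 : e (∑ i, ∑ j, D i f * D i (D j φ) * D j f) =
      ∑ i, e (D i f) * ∑ j, e (D j f) * e (D i (D j φ)) := by
    simp only [map_sum]
    refine Finset.sum_congr rfl fun i _ => ?_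
    rw [Finset.mul_sum]
    exact Finset.sum_congr rfl fun j _ => by rw [map_mul, map_mul]; ring
  have h4 := anti_part D σ hσ e f hc
  -- Cauchy-Schwarz for the Hessian term
  have h5 : |∑ i, e (D i f) * ∑ j, e (D j f) * e (D i (D j φ))| ≤ h * ∑ k, (e (D k f)) ^ 2 := by
    apply abs_le_of_sq_le_sq _ (mul_nonneg hh (Finset.sum_nonneg fun k _ => sq_nonneg _))
    have h6 := Finset.sum_mul_sq_le_sq_mul_sq Finset.univ (fun i => e (D i f))
      (fun i => ∑ j, e (D j f) * e (D i (D j φ)))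
    have h7 := hφ fun j => e (D j f)
    calc _ ≤ _ := h6
      _ ≤ (∑ k, e (D k f) ^ 2) * (h ^ 2 * ∑ k, e (D k f) ^ 2) :=
          mul_le_mul_of_nonneg_left h7 (Finset.sum_nonneg fun k _ => sq_nonneg _)
      _ = _ := by ring
  have h8 := (abs_le.1 h5).1
  rw [map_sub, map_sub, map_smul, h2, h3, hg, smul_eq_mul]
  nlinarith

end alg

variable {G : Type*} [Group G] [TopologicalSpace G] {N n : ℕ} {L : LD G N n}
  {E : Type*} [Fintype E] [DecidableEq E]

/-- the Casimir bound for the derivations of all links -/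
lemma cas_sig {c : ℝ} (hc : Cas L c) (q : E × Fin n → ℝ) :
    c * ∑ k, q k ^ 2 ≤ ∑ i, ∑ j, (∑ k, L.sig i j k * q k) ^ 2 := by
  have h1 : ∀ i j : E × Fin n, (∑ k, L.sig i j k * q k) ^ 2 =
      if i.1 = j.1 then (∑ b, L.sc i.2 j.2 b * q (i.1, b)) ^ 2 else 0 := by
    intro i j
    have h2 := sum_sig (L := L) i j q
    simp only [smul_eq_mul] at h2
    rw [h2]
    split_ifs
    · rw [neg_sq]
    · norm_num
  have h2 : ∑ i : E × Fin n, ∑ j : E × Fin n, (∑ k, L.sig i j k * q k) ^ 2 =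
      ∑ e, ∑ a, ∑ b, (∑ k, L.sc a b k * q (e, k)) ^ 2 := by
    simp only [h1]
    rw [Fintype.sum_prod_type]
    refine Finset.sum_congr rfl fun e _ => Finset.sum_congr rfl fun a _ => ?_
    rw [Fintype.sum_prod_type]
    rw [Finset.sum_eq_single e]
    · simp
    · intro e' _ he
      exact Finset.sum_eq_zero fun b _ => if_neg fun h => he h.symm
    · simp
  rw [h2, Fintype.sum_prod_type, Finset.mul_sum]
  exact Finset.sum_le_sum fun e _ => hc fun k => q (e, k)

theorem boch_full {c h : ℝ} (hc : Cas L c) {φ : Sm L E} (hφ : HB φ h) (hh : 0 ≤ h) (f : Sm L E)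
    (U : E → G) :
    L.ev U (Gam L.Dv f ((1 / 2 : ℝ) • Lap L.Dv f - Gam L.Dv φ f)) ≤
      L.ev U ((1 / 2 : ℝ) • Lap L.Dv ((1 / 2 : ℝ) • Gam L.Dv f f)
        - Gam L.Dv φ ((1 / 2 : ℝ) • Gam L.Dv f f)) - (c / 8 - h) * L.ev U (Gam L.Dv f f) := by
  have h1 : ∀ (i l : E × Fin n) (u : Sm L E), L.Dv i (L.Dv l u) - L.Dv l (L.Dv i u) =
      ∑ k, L.sig i l k • L.Dv k u := fun i l u => Dv_comm i l u
  have h2 : ∀ i j k : E × Fin n, L.sig i j k = -L.sig k j i := fun i j k => sig_anti i j k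
  exact boch_gen (L.Dv (E := E)) (L.sig (S := E)) h1 h2 (L.ev U) (cas_sig hc) φ f (hφ U) hh

/-- sums over the links of a block -/
lemma sum_block (S : Finset E) (y : E × Fin n → ℝ) :
    ∑ j : S × Fin n, y (j.1.1, j.2) = ∑ j : E × Fin n, if j.1 ∈ S then y j else 0 := by
  rw [Fintype.sum_prod_type, Fintype.sum_prod_type]
  have h1 : ∀ e : E, (∑ a : Fin n, if (e, a).1 ∈ S then y (e, a) else 0) =
      if e ∈ S then ∑ a : Fin n, y (e, a) else 0 := by
    intro e
    by_cases h : e ∈ S <;> simp [h]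
  rw [Finset.sum_congr rfl fun e _ => h1 e, ← Finset.sum_filter, Finset.filter_mem_eq_inter,
    Finset.univ_inter]
  exact Finset.sum_coe_sort S fun e => ∑ a : Fin n, y (e, a)

theorem boch_block {c h : ℝ} (hc : Cas L c) {φ : Sm L E} (hφ : HB φ h) (hh : 0 ≤ h) (S : Finset E)
    (f : Sm L E) (U : E → G) :
    L.ev U (Gam (DS S) f ((1 / 2 : ℝ) • Lap (DS S) f - Gam (DS S) φ f)) ≤
      L.ev U ((1 / 2 : ℝ) • Lap (DS S) ((1 / 2 : ℝ) • Gam (DS S) f f)
        - Gam (DS S) φ ((1 / 2 : ℝ) • Gam (DS S) f f)) - (c / 8 - h) * L.ev U (Gam (DS S) f f) := by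
  have h2 : ∀ i j k : S × Fin n, L.sig i j k = -L.sig k j i := fun i j k => sig_anti i j k
  refine boch_gen (DS (L := L) S) (L.sig (S := S)) ?_ h2 (L.ev U)
    (cas_sig (E := S) hc) φ f ?_ hh
  · intro i l u
    have h1 := Dv_comm (L := L) (E := E) (i.1.1, i.2) (l.1.1, l.2) u
    rw [sum_sig] at h1
    rw [sum_sig]
    refine h1.trans ?_
    by_cases hil : i.1 = l.1
    · rw [if_pos hil, if_pos (congrArg Subtype.val hil)]
      rfl
    · rw [if_neg hil, if_neg fun hh => hil (Subtype.ext hh)]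
  · intro q
    set q' : E × Fin n → ℝ := fun j => if h : j.1 ∈ S then q (⟨j.1, h⟩, j.2) else 0 with hq'
    have hq : ∀ j : S × Fin n, q' (j.1.1, j.2) = q j := by
      intro j
      simp only [hq']
      rw [dif_pos j.1.2]
    have h0 : ∀ j : E × Fin n, j.1 ∉ S → q' j = 0 := by
      intro j hj
      simp only [hq']
      rw [dif_neg hj]
    have h1 := hφ U q'
    have h2 : ∑ j : E × Fin n, q' j ^ 2 = ∑ j : S × Fin n, q j ^ 2 := by
      have h3 := sum_block (n := n) S fun j => q' j ^ 2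
      simp only [hq] at h3
      rw [h3]
      refine Finset.sum_congr rfl fun j _ => ?_
      split_ifs with h
      · rfl
      · rw [h0 j h]; norm_num
    have h4 : ∀ i : E × Fin n, ∑ j : E × Fin n, q' j * L.ev U (L.Dv i (L.Dv j φ)) =
        ∑ j : S × Fin n, q j * L.ev U (L.Dv i (L.Dv (j.1.1, j.2) φ)) := by
      intro i
      have h3 := sum_block (n := n) S fun j => q' j * L.ev U (L.Dv i (L.Dv j φ))
      simp only [hq] at h3
      rw [h3]
      refine Finset.sum_congr rfl fun j _ => ?_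
      split_ifs with h
      · rfl
      · rw [h0 j h, zero_mul]
    simp only [h4, h2] at h1
    refine le_trans ?_ h1
    have h5 := sum_block (n := n) S fun i =>
      (∑ j : S × Fin n, q j * L.ev U (L.Dv i (L.Dv (j.1.1, j.2) φ))) ^ 2
    refine le_trans (le_of_eq h5) ?_
    refine Finset.sum_le_sum fun i _ => ?_
    split_ifs
    · exact le_rfl
    · exact sq_nonneg _

end

end Run7.h208.KS
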