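import Pool.Agent.Run7.h208.KS.Cut

/-!
# Charged states: all cuts of one direction
-/

open MeasureTheory Matrix Set
open scoped Matrix.Norms.Frobenius ContDiff
open Pool.Agent.H906R3.YM

namespace Run7.h208.KS

set_option linter.unusedSectionVars false

noncomputable section

section pairs

variable {A : Type*} [AddCommGroup A] [Module ℝ A]

/-- complex multiplication of a pair (real part, imaginary part) -/
def cm (ww : ℂ) : A × A →ₗ[ℝ] A × A where
  toFun f := (ww.re • f.1 - ww.im • f.2, ww.im • f.1 + ww.re • f.2)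
  map_add' f g := by
    simp only [Prod.fst_add, Prod.snd_add, smul_add, Prod.mk_add_mk]
    congr 1 <;> abel
  map_smul' c f := by
    simp only [Prod.smul_fst, Prod.smul_snd, RingHom.id_apply, Prod.smul_mk, smul_sub, smul_add]
    congr 1
    · rw [smul_comm c, smul_comm c ww.im]
    · rw [smul_comm c, smul_comm c ww.re]

lemma cm_apply (ww : ℂ) (f : A × A) :
    cm ww f = (ww.re • f.1 - ww.im • f.2, ww.im • f.1 + ww.re • f.2) := rfl

lemma cm_one (f : A × A) : cm 1 f = f := by
  rw [cm_apply]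
  simp

lemma cm_mul (ww η : ℂ) (f : A × A) : cm ww (cm η f) = cm (ww * η) f := by
  rw [cm_apply, cm_apply, cm_apply]
  simp only [Complex.mul_re, Complex.mul_im, smul_sub, smul_add, smul_smul, sub_smul, add_smul]
  congr 1 <;> abel

lemma cm_fix {ww : ℂ} (hww : ww ≠ 1) {f : A × A} (h : cm ww f = f) : f = 0 := by
  have h1 : cm (ww - 1) f = 0 := by
    have h2 : cm (ww - 1) f = cm ww f - f := by
      rw [cm_apply, cm_apply]
      refine Prod.ext ?_ ?_
      · simp only [Complex.sub_re, Complex.one_re, Complex.sub_im, Complex.one_im, sub_zero,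
          Prod.fst_sub, sub_smul, one_smul]
        abel
      · simp only [Complex.sub_re, Complex.one_re, Complex.sub_im, Complex.one_im, sub_zero,
          Prod.snd_sub, sub_smul, one_smul]
        abel
    rw [h2, h, sub_self]
  have h3 := cm_mul (ww - 1)⁻¹ (ww - 1) f
  rw [h1, map_zero, inv_mul_cancel₀ (sub_ne_zero.2 hww), cm_one] at h3
  exact h3.symm

/-- the diagonal operator -/
def dgo (T : A →ₗ[ℝ] A) : A × A →ₗ[ℝ] A × A := LinearMap.prodMap T T

lemma dgo_apply (T : A →ₗ[ℝ] A) (f : A × A) : dgo T f = (T f.1, T f.2) := rfl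

lemma dgo_cm (T : A →ₗ[ℝ] A) (ww : ℂ) (f : A × A) : dgo T (cm ww f) = cm ww (dgo T f) := by
  rw [cm_apply, dgo_apply, dgo_apply, cm_apply]
  simp only [map_sub, map_add, map_smul]

lemma dgo_pow (T : A →ₗ[ℝ] A) (i : ℕ) : dgo T ^ i = dgo (T ^ i) := by
  induction i with
  | zero => rfl
  | succ i ih => rw [pow_succ, pow_succ, ih]; rfl

lemma avg_dg (m : ℕ) (T : A →ₗ[ℝ] A) (f : A × A) : avg m (dgo T) f = (avg m T f.1, avg m T f.2) := by
  rw [avg_apply, avg_apply, avg_apply]
  have h1 : ∀ i, (dgo T ^ i) f = ((T ^ i) f.1, (T ^ i) f.2) := fun i => by rw [dgo_pow]; rfl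
  rw [Finset.sum_congr rfl fun i _ => h1 i]
  refine Prod.ext ?_ ?_
  · rw [Prod.smul_fst, Prod.fst_sum]
  · rw [Prod.smul_snd, Prod.snd_sum]

/-- the sum of the forms of the two components -/
def b2 (b : A → A → ℝ) (f g : A × A) : ℝ := b f.1 g.1 + b f.2 g.2

lemma b2_PF {b : A → A → ℝ} (hb : PF b) : PF (b2 b) where
  add u v w := by
    unfold b2
    rw [Prod.fst_add, Prod.snd_add, hb.add, hb.add]; ring
  smul c u w := by
    unfold b2
    rw [Prod.smul_fst, Prod.smul_snd, hb.smul, hb.smul]; ring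
  symm u v := by unfold b2; rw [hb.symm, hb.symm u.2]
  nonneg u := add_nonneg (hb.nonneg _) (hb.nonneg _)

end pairs

section comm

variable {V : Type*} [AddCommGroup V] [Module ℝ V]

lemma pow_comm' {T S : V →ₗ[ℝ] V} (h : ∀ f, T (S f) = S (T f)) (i : ℕ) (f : V) :
    (T ^ i) (S f) = S ((T ^ i) f) := by
  induction i with
  | zero => rfl
  | succ i ih =>
    have e1 : (T ^ (i + 1)) (S f) = T ((T ^ i) (S f)) := by rw [pow_succ']; rfl
    have e2 : (T ^ (i + 1)) f = T ((T ^ i) f) := by rw [pow_succ']; rfl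
    rw [e1, e2, ih, h]

lemma avg_comm {T S : V →ₗ[ℝ] V} (h : ∀ f, T (S f) = S (T f)) (m : ℕ) (f : V) :
    avg m T (S f) = S (avg m T f) := by
  rw [avg_apply, avg_apply, map_smul, map_sum]
  congr 1
  exact Finset.sum_congr rfl fun i _ => pow_comm' h i f

lemma avg_congr {T S : V →ₗ[ℝ] V} (h : ∀ f, T (S f) = S (T f)) (m : ℕ) {f : V} (hf : T f = S f) :
    avg m T f = avg m S f := by
  rw [avg_apply, avg_apply]
  congr 1
  refine Finset.sum_congr rfl fun i hi => ?_
  clear hi
  induction i with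
  | zero => rfl
  | succ i ih =>
    have e1 : (T ^ (i + 1)) f = (T ^ i) (T f) := by rw [pow_succ]; rfl
    have e2 : (S ^ (i + 1)) f = S ((S ^ i) f) := by rw [pow_succ']; rfl
    rw [e1, e2, hf, pow_comm' h, ih]

end comm

variable {G : Type*} [Group G] {D l : ℕ} [NeZero l]

/-- the gauge transformation by `z` on the sites of `s` -/
def gz (z : G) (s : Finset (Fin D → ZMod l)) : (Fin D → ZMod l) → G :=
  fun v => if v ∈ s then z else 1

/-- the sites with `0 ≤ v_i ≤ a` -/
def slab (i : Fin D) (a : ZMod l) : Finset (Fin D → ZMod l) :=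
  Finset.univ.filter fun v => (v i).val ≤ a.val

/-- `F` carries the static charges `q` with respect to `z`, which acts as `ww` -/
def Chg (z : G) (ww : ℂ) (q : (Fin D → ZMod l) → ℤ) (F : (Ed D l → G) → ℂ) : Prop :=
  ∀ (s : Finset (Fin D → ZMod l)) (U : Ed D l → G),
    F (gt (gz z s) U) = ww ^ (∑ v ∈ s, q v) * F U

/-- the total charge of a slab -/
def sg (q : (Fin D → ZMod l) → ℤ) (i : Fin D) (a : ZMod l) : ℤ := ∑ v ∈ slab i a, q v

lemma gt_slab {z : G} (hz : ∀ g, z * g = g * z) (i : Fin D) (a : ZMod l) (U : Ed D l → G) :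
    zS (cutS i a) z * U = gt (gz z (slab i a)) (zS (cutS i (-1 : ZMod l)) z * U) := by
  have hneg : (-1 : ZMod l).val + 1 = l := by
    have h1 : (-1 : ZMod l).val = l - 1 := by
      have h2 := ZMod.val_neg_one (l - 1)
      have h3 : l - 1 + 1 = l := Nat.sub_add_cancel (NeZero.one_le)
      revert h2
      rw [Nat.succ_eq_add_one]
      generalize hk : l - 1 + 1 = k at *
      subst h3
      intro h2
      exact h2
    have h3 : 1 ≤ l := NeZero.one_le
    omega
  funext e
  obtain ⟨v, j⟩ := e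
  have hzi : ∀ g : G, z⁻¹ * g = g * z⁻¹ := fun g => by
    rw [inv_mul_eq_iff_eq_mul, ← mul_assoc, hz g, mul_assoc, mul_inv_cancel, mul_one]
  show (zS (cutS i a) z * U) (v, j) = gz z (slab i a) v *
    (zS (cutS i (-1 : ZMod l)) z * U) (v, j) * (gz z (slab i a) (v + eT j))⁻¹
  simp only [Pi.mul_apply, zS, gz, slab, cutS, Finset.mem_filter, Finset.mem_univ, true_and]
  by_cases hj : j = i
  · subst hj
    have hv : (v + (eT j : Fin D → ZMod l)) j = v j + 1 := by simp [eT]
    rw [hv]
    simp only [true_and]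
    have hlt := ZMod.val_lt (v j)
    have halt := ZMod.val_lt a
    by_cases hp : (v j).val + 1 < l
    · have hq : (v j + 1).val = (v j).val + 1 := by
        rw [ZMod.val_add]
        have h1 : (1 : ZMod l).val = 1 := ZMod.val_one'' (by omega)
        rw [h1, Nat.mod_eq_of_lt hp]
      have hne : v j ≠ -1 := by
        intro h
        rw [h] at hp
        omega
      rw [hq, if_neg hne, one_mul]
      by_cases hva : v j = a
      · rw [if_pos hva, hva, if_pos le_rfl, if_neg (by omega), inv_one, mul_one]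
      · have hva' : (v j).val ≠ a.val := fun h => hva (ZMod.val_injective l h)
        rw [if_neg hva, one_mul]
        by_cases h1 : (v j).val ≤ a.val
        · rw [if_pos h1, if_pos (by omega), hz, mul_assoc, mul_inv_cancel, mul_one]
        · rw [if_neg h1, if_neg (by omega), inv_one, mul_one, one_mul]
    · have hvl : v j = -1 := by
        apply ZMod.val_injective l
        omega
      have hq : (v j + 1).val = 0 := by rw [hvl, neg_add_cancel, ZMod.val_zero]
      rw [hq, if_pos (Nat.zero_le _), if_pos hvl]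
      by_cases hva : v j = a
      · rw [if_pos hva, hva, if_pos le_rfl, hz (U (v, j)), ← mul_assoc, mul_assoc, mul_inv_cancel,
          mul_one, ← hz]
      · rw [if_neg hva, if_neg (by
          intro h
          apply hva
          apply ZMod.val_injective l
          rw [hvl] at h ⊢
          omega), one_mul, one_mul, hz, mul_assoc, mul_inv_cancel, mul_one]
  · have hv : (v + (eT j : Fin D → ZMod l)) i = v i := by
      simp [eT, Pi.single_eq_of_ne (Ne.symm hj)]
    rw [hv]
    simp only [hj, false_and, if_false, one_mul]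
    by_cases h1 : (v i).val ≤ a.val
    · rw [if_pos h1, hz, mul_assoc, mul_inv_cancel, mul_one]
    · rw [if_neg h1, inv_one, mul_one, one_mul]

section ineq

variable [TopologicalSpace G] {N n : ℕ} {L : LD G N n}

section gen
variable {E : Type*} [Fintype E] [DecidableEq E]

/-- the complex function with given real and imaginary parts -/
def toC (f : Sm L E × Sm L E) (U : E → G) : ℂ := ⟨L.ev U f.1, L.ev U f.2⟩

lemma toC_ext {f g : Sm L E × Sm L E} (h : ∀ U, toC f U = toC g U) : f = g :=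
  Prod.ext (ev_ext fun U => congrArg Complex.re (h U)) (ev_ext fun U => congrArg Complex.im (h U))

lemma toC_cm (w : ℂ) (f : Sm L E × Sm L E) (U : E → G) : toC (cm w f) U = w * toC f U := by
  rw [cm_apply]
  refine Complex.ext ?_ ?_
  · show L.ev U (w.re • f.1 - w.im • f.2) = _
    rw [map_sub, map_smul, map_smul, Complex.mul_re, smul_eq_mul, smul_eq_mul]
    rfl
  · show L.ev U (w.im • f.1 + w.re • f.2) = _
    rw [map_add, map_smul, map_smul, Complex.mul_im, smul_eq_mul, smul_eq_mul, add_comm]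
    rfl

lemma toC_lm (k : E → G) (f : Sm L E × Sm L E) (U : E → G) :
    toC (dgo (lm k).toLinearMap f) U = toC f (k * U) := rfl

lemma Gam_DS (S : Finset E) (f h : Sm L E) :
    Gam (DS S) f h = ∑ e ∈ S, ∑ a, L.Dv (e, a) f * L.Dv (e, a) h := by
  unfold Gam DS
  rw [Fintype.sum_prod_type, ← Finset.sum_coe_sort S fun e => ∑ a, L.Dv (e, a) f * L.Dv (e, a) h]

end gen

lemma Gam_cuts (f h : Sm L (Ed D l)) :
    ∑ i : Fin D, ∑ a : ZMod l, Gam (DS (cutS i a)) f h = Gam L.Dv f h := by
  simp only [Gam_DS]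
  unfold Gam
  refine Eq.trans ?_ (Fintype.sum_prod_type fun j : Ed D l × Fin n => L.Dv j f * L.Dv j h).symm
  obtain ⟨g, hg⟩ : ∃ g : Ed D l → Sm L (Ed D l), g = fun e => ∑ a, L.Dv (e, a) f * L.Dv (e, a) h :=
    ⟨_, rfl⟩
  have h1 : ∀ e, ∑ a, L.Dv (e, a) f * L.Dv (e, a) h = g e := fun e => by rw [hg]
  simp only [h1]
  unfold cutS
  simp only [Finset.sum_filter]
  rw [Finset.sum_congr rfl fun i _ => Finset.sum_comm, Finset.sum_comm]
  refine Finset.sum_congr rfl fun e _ => ?_
  rw [Finset.sum_eq_single e.2 (fun i _ hi => Finset.sum_eq_zero fun a _ => by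
    rw [if_neg fun hh => hi hh.1.symm]) (by simp), Finset.sum_eq_single (e.1 e.2)
    (fun a _ ha => by rw [if_neg fun hh => ha hh.2.symm]) (by simp), if_pos ⟨rfl, rfl⟩]

variable [IsTopologicalGroup G] [CompactSpace G] [SecondCountableTopology G]
  [MeasurableSpace G] [BorelSpace G] (μ : Measure G) [IsProbabilityMeasure μ]
  [μ.IsMulLeftInvariant] [μ.IsOpenPosMeasure] [μ.IsMulRightInvariant]

/-- **All cuts of one direction.** -/
theorem dir_ineq (hN : 0 < N) {c h κ R : ℝ} (hc : Cas L c) {φ : Sm L (Ed D l)} (hφ : HB φ h)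
    (hh : 0 ≤ h) (hκ : 0 < κ) (hκ' : κ ≤ c / 8 - h) (hR : PathI L μ (Ed D l) R) {z : G}
    (hz : ∀ g, z * g = g * z) {m : ℕ} (hm : 0 < m) (hzm : z ^ m = 1) {w : ℂ} (hw : w ≠ 0)
    {q : (Fin D → ZMod l) → ℤ} (i : Fin D) (hS : ∀ a, lm (zS (cutS i a) z) φ = φ)
    (f : Sm L (Ed D l) × Sm L (Ed D l)) (hf : Chg z w q (toC f)) {M : ℕ}
    (hM : ∀ a, (Finset.univ.filter fun a' => w ^ sg q i a' = w ^ sg q i a).card ≤ M) :
    κ * ((l : ℝ) - M) * b2 (bI μ φ) f f ≤
      1 / 2 * ∑ a : ZMod l, b2 (bG μ φ (cutS i a)) f f := by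
  obtain ⟨T, hT⟩ : ∃ T : ZMod l → (Sm L (Ed D l) →ₗ[ℝ] Sm L (Ed D l)),
    T = fun a => (lm (zS (cutS i a) z)).toLinearMap := ⟨_, rfl⟩
  have hTC : ∀ a (g : Sm L (Ed D l) × Sm L (Ed D l)) U,
      toC (dgo (T a) g) U = toC g (zS (cutS i a) z * U) := by
    intro a g U
    rw [hT]; rfl
  have hcomm : ∀ a b (g : Sm L (Ed D l) × Sm L (Ed D l)),
      dgo (T a) (dgo (T b) g) = dgo (T b) (dgo (T a) g) := by
    intro a b g
    refine toC_ext fun U => ?_
    rw [hTC, hTC, hTC, hTC]
    congr 1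
    funext e
    simp only [Pi.mul_apply]
    rw [← mul_assoc, ← mul_assoc, zS_central hz]
  have hTm : ∀ a, dgo (T a) ^ m = 1 := by
    intro a
    have h1 : T a ^ m = 1 := by
      refine LinearMap.ext fun F => ?_
      rw [hT]
      show ((lm (L := L) (zS (cutS i a) z)).toLinearMap ^ m) F = F
      rw [lm_pow, zS_pow, hzm, zS_one]
      refine ev_ext fun U => ?_
      rw [ev_lm, one_mul]
    rw [dgo_pow, h1]
    rfl
  have hTb : ∀ a u v, b2 (bI μ φ) (dgo (T a) u) (dgo (T a) v) = b2 (bI μ φ) u v := by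
    intro a u v
    unfold b2
    rw [dgo_apply, dgo_apply, hT]
    show bI μ φ (lm (zS (cutS i a) z) u.1) (lm (zS (cutS i a) z) v.1) +
      bI μ φ (lm (zS (cutS i a) z) u.2) (lm (zS (cutS i a) z) v.2) = _
    rw [bI_lm μ (hS a), bI_lm μ (hS a)]
  -- the translates by different cuts
  have hrel : ∀ a, dgo (T a) f = cm (w ^ sg q i a) (dgo (T (-1)) f) := by
    intro a
    refine toC_ext fun U => ?_
    rw [hTC, toC_cm, hTC, gt_slab hz i a U, hf]
    rfl
  have hrel2 : ∀ a b, dgo (T a) f = cm (w ^ sg q i a * (w ^ sg q i b)⁻¹) (dgo (T b) f) := by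
    intro a b
    rw [hrel b, cm_mul, inv_mul_cancel_right₀ (zpow_ne_zero _ hw), ← hrel a]
  have hb2 := b2_PF (bI_PF μ φ)
  have hbes := hb2.bessel (fun a : ZMod l => w ^ sg q i a) (fun a => avg m (dgo (T a)) f) f
    (fun a => hb2.avg_left hm (hTm a) (hTb a) f f)
    (fun a b hab => by
      refine avg_congr (hcomm a b) m ?_
      have hab' : w ^ sg q i a = w ^ sg q i b := hab
      rw [hrel2 a b, hab', mul_inv_cancel₀ (zpow_ne_zero _ hw), cm_one])
    (fun a b hab => by
      have hab' : w ^ sg q i a ≠ w ^ sg q i b := hab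
      have hη : w ^ sg q i a * (w ^ sg q i b)⁻¹ ≠ 1 := by
        intro h1
        exact hab' ((mul_inv_eq_one₀ (zpow_ne_zero _ hw)).1 h1)
      rw [hb2.avg_left hm (hTm a) (hTb a)]
      have hg : avg m (dgo (T a)) (avg m (dgo (T b)) f) = 0 := by
        refine cm_fix hη ?_
        have e1 : dgo (T a) (avg m (dgo (T b)) f) =
            cm (w ^ sg q i a * (w ^ sg q i b)⁻¹) (avg m (dgo (T b)) f) := by
          rw [← avg_comm (hcomm b a), hrel2 a b, avg_comm (fun g => dgo_cm _ _ g), avg_T (hTm b)]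
        rw [← avg_comm (fun g => dgo_cm _ _ g), ← e1, avg_T (hTm a)]
      rw [hg, hb2.symm, hb2.zero]) hM
  have hcut : ∀ a, κ * (b2 (bI μ φ) f f -
      b2 (bI μ φ) (avg m (dgo (T a)) f) (avg m (dgo (T a)) f)) ≤
        1 / 2 * b2 (bG μ φ (cutS i a)) f f := by
    intro a
    have h1 := cut_ineq μ hN hc hφ hh hκ hκ' hR (cutS i a) hz hm hzm (hS a) f.1
    have h2 := cut_ineq μ hN hc hφ hh hκ hκ' hR (cutS i a) hz hm hzm (hS a) f.2
    rw [avg_dg]
    unfold b2
    rw [hT]
    dsimp only at h1 h2 ⊢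
    nlinarith [h1, h2]
  have hsum := Finset.sum_le_sum fun a (_ : a ∈ (Finset.univ : Finset (ZMod l))) => hcut a
  rw [← Finset.mul_sum, ← Finset.mul_sum, Finset.sum_sub_distrib, Finset.sum_const,
    Finset.card_univ, ZMod.card, nsmul_eq_mul] at hsum
  refine le_trans ?_ hsum
  have h3 : κ * ((l : ℝ) - M) * b2 (bI μ φ) f f = κ * (l * b2 (bI μ φ) f f -
      M * b2 (bI μ φ) f f) := by ring
  rw [h3]
  exact mul_le_mul_of_nonneg_left (by linarith) hκ.le

end ineq

end

end Run7.h208.KS
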