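import Pool.Agent.Run7.h208.KS.VTf

/-!
# Piece VT: the magnetic energy
-/

open MeasureTheory Matrix Set
open scoped Matrix.Norms.Frobenius ContDiff
open Pool.Agent.H906R3.YM

namespace Run7.h208.KS

set_option linter.unusedSectionVars false

noncomputable section

variable {G : Type*} [Group G] [TopologicalSpace G] {N n : ℕ} {L : LD G N n} {D l : ℕ} [NeZero l]

/-- **Second derivatives of the magnetic energy.** For vectors `w`, `q` put `W_e = ∑ w_{e,a} X_a`,
`Y_e = ∑ q_{e,a} X_a` (so `‖W_e‖² = ∑ w_{e,a}²` in the Frobenius norm). Each of the sixteen terms of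
`∑ w_i q_j D_i D_j tr (U_1 U_2 U_3⁻¹ U_4⁻¹)` is `± tr (A W B Y)` with unitary `A`, `B`, hence at most
`‖W‖ ‖Y‖`; so the plaquette contributes at most
`(∑_{e ∈ p} ‖W_e‖) (∑_{e ∈ p} ‖Y_e‖) ≤ 4 (∑ ‖W_e‖²)^{1/2} (∑ ‖Y_e‖²)^{1/2}`; every link lies in
`2 (D - 1)` plaquettes (with multiplicity). -/
theorem HB_VT (hD : 1 ≤ D) : HB (VT L D l) (8 * (D - 1)) := HB_VT' hD

/-- the entries (real and imaginary parts) of `ρ (U_e)` span a finite dimensional space stable under
the derivations; sums and products (`Submodule.FG.mul`) -/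
theorem DFin_VT : DFin (VT L D l) := by
  have hV : Stb (⨆ e, Wl L e : Submodule ℝ (Sm L (Ed D l))) := Stb.iSup fun e => Stb.link e
  set V : Submodule ℝ (Sm L (Ed D l)) := ⨆ e, Wl L e with hVdef
  have hW := (Stb.one (L := L) (E := Ed D l)).sup (((hV.mul hV).mul hV).mul hV)
  refine ⟨_, hW.1, ?_, hW.2⟩
  have hl : ∀ e, EW V (fun U : Ed D l → G => L.rho (U e)) := fun e =>
    (EW.link e).mono (le_iSup (fun e => (Wl L e : Submodule ℝ (Sm L (Ed D l)))) e)
  have sl : ∀ e, SmM L (fun U : Ed D l → G => L.rho (U e)) := fun e => SmM.link e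
  unfold VT
  refine Submodule.sum_mem _ fun p _ => ?_
  obtain ⟨⟨x, μ, ν⟩, hμν⟩ := p
  have h1 := (((hl (x, μ)).mul (hl (x + eT μ, ν)) (sl _) (sl _)).mul
    ((hl (x + eT ν, μ)).ct (sl _)) ((sl _).mul (sl _)) (sl _).ct).mul
    ((hl (x, ν)).ct (sl _)) (((sl _).mul (sl _)).mul (sl _).ct) (sl _).ct
  have s1 := ((((sl (x, μ)).mul (sl (x + eT μ, ν))).mul (sl (x + eT ν, μ)).ct).mul
    (sl (x, ν)).ct)
  have h2 : lin (ip 1) (fun U : Ed D l → G => 1 - L.rho (plqT U x μ ν)) (SmM_plqT x μ ν) =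
      (ip (N := N) 1 1) • (1 : Sm L (Ed D l)) - lin (ip 1) _ s1 := by
    refine ev_ext fun U => ?_
    rw [map_sub, map_smul]
    show ip 1 (1 - L.rho (plqT U x μ ν)) = ip 1 1 * 1 - ip 1 (L.rho (U (x, μ)) *
      L.rho (U (x + eT μ, ν)) * (L.rho (U (x + eT ν, μ)))ᴴ * (L.rho (U (x, ν)))ᴴ)
    rw [map_sub, mul_one]
    unfold plqT
    rw [map_mul L.rho, map_mul L.rho, map_mul L.rho, L.rho_inv, L.rho_inv]
  show lin (ip 1) (fun U : Ed D l → G => 1 - L.rho (plqT U x μ ν)) (SmM_plqT x μ ν) ∈ _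
  rw [h2, sub_eq_add_neg]
  refine Submodule.add_mem_sup (Submodule.smul_mem _ _ (Submodule.mem_span_singleton_self _)) ?_
  exact Submodule.neg_mem _ (h1 (ip 1) s1)

theorem DFin.smul {E : Type*} [Fintype E] [DecidableEq E] {Q : Sm L E} (h : DFin Q) (a : ℝ) :
    DFin (a • Q) := by
  obtain ⟨W, h1, h2, h3⟩ := h
  exact ⟨W, h1, W.smul_mem a h2, h3⟩

/-- the links in direction `i` with `x_i = a` -/
def cutS (i : Fin D) (a : ZMod l) : Finset (Ed D l) :=
  Finset.univ.filter fun e => e.2 = i ∧ e.1 i = a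

/-- centre symmetry of a cut: every plaquette contains two links of the cut with opposite
orientations or none -/
theorem lm_VT {z : G} (hz : ∀ g, z * g = g * z) (i : Fin D) (a : ZMod l) :
    lm (zS (cutS i a) z) (VT L D l) = VT L D l := by
  refine ev_ext fun U => ?_
  rw [ev_lm, VT_apply, VT_apply]
  refine Finset.sum_congr rfl fun p _ => ?_
  obtain ⟨⟨x, μ, ν⟩, hμν⟩ := p
  congr 1
  show plqT _ x μ ν = plqT U x μ ν
  have hne : μ ≠ ν := ne_of_lt hμν
  set k : Ed D l → G := zS (cutS i a) z with hk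
  have hkc : ∀ e g, k e * g = g * k e := by
    intro e g
    rw [hk]
    unfold zS
    split_ifs
    · exact hz g
    · rw [one_mul, mul_one]
  have k13 : k (x + eT ν, μ) = k (x, μ) := by
    rw [hk]
    unfold zS cutS
    simp only [Finset.mem_filter, Finset.mem_univ, true_and]
    by_cases hi : μ = i
    · subst hi
      have : (x + eT ν : Fin D → ZMod l) μ = x μ := by
        unfold eT
        rw [Pi.add_apply, Pi.single_eq_of_ne hne, add_zero]
      rw [this]
    · simp [hi]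
  have k24 : k (x + eT μ, ν) = k (x, ν) := by
    rw [hk]
    unfold zS cutS
    simp only [Finset.mem_filter, Finset.mem_univ, true_and]
    by_cases hi : ν = i
    · subst hi
      have : (x + eT μ : Fin D → ZMod l) ν = x ν := by
        unfold eT
        rw [Pi.add_apply, Pi.single_eq_of_ne hne.symm, add_zero]
      rw [this]
    · simp [hi]
  unfold plqT
  simp only [Pi.mul_apply]
  rw [k13, k24]
  set k1 := k (x, μ)
  set k2 := k (x, ν)
  have c1 : ∀ g, k1 * g = g * k1 := hkc _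
  have c2 : ∀ g, k2 * g = g * k2 := hkc _
  generalize U (x, μ) = A
  generalize U (x + eT μ, ν) = B
  generalize U (x + eT ν, μ) = C
  generalize U (x, ν) = H
  have e1 : k1 * A * (k2 * B) = (k1 * k2) * (A * B) := by
    calc k1 * A * (k2 * B) = k1 * (A * k2) * B := by group
      _ = k1 * (k2 * A) * B := by rw [c2 A]
      _ = _ := by group
  have e2 : (k1 * C)⁻¹ * (k2 * H)⁻¹ = ((k1 * k2) * (H * C))⁻¹ := by
    have e3 : k2 * H * (k1 * C) = (k1 * k2) * (H * C) := by
      calc k2 * H * (k1 * C) = k2 * (H * k1) * C := by group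
        _ = k2 * (k1 * H) * C := by rw [c1 H]
        _ = (k2 * k1) * (H * C) := by group
        _ = _ := by rw [c2 k1]
    rw [← e3]
    group
  have e4 : ∀ g, (k1 * k2) * g = g * (k1 * k2) := by
    intro g
    rw [mul_assoc, c2 g, ← mul_assoc, c1 g, mul_assoc]
  rw [mul_assoc, e1, e2]
  calc (k1 * k2) * (A * B) * ((k1 * k2) * (H * C))⁻¹
      = (k1 * k2) * (A * B * (H * C)⁻¹) * (k1 * k2)⁻¹ := by group
    _ = (A * B * (H * C)⁻¹) * (k1 * k2) * (k1 * k2)⁻¹ := by rw [e4]
    _ = _ := by group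

theorem gs_VT (γ : (Fin D → ZMod l) → G) : gs γ (VT L D l) = VT L D l :=
  Pool.Agent.H906R3.YM.gs_VT γ


/-- gauge transformations and central translations are symmetries of the Hamiltonian -/
theorem Sym_gs (γ : (Fin D → ZMod l) → G) (a : ℝ) :
    Sym (a • VT L D l) (gs (L := L) γ).toLinearMap where
  one := map_one (gs (L := L) γ)
  lap f := (Lap_gs γ f).symm
  mul f := by
    show gs γ ((a • VT L D l) * f) = (a • VT L D l) * gs γ f
    rw [map_mul, map_smul, Pool.Agent.H906R3.YM.gs_VT]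

lemma Dv_lm {E : Type*} [Fintype E] [DecidableEq E] {k : E → G} (hk : ∀ e g, k e * g = g * k e)
    (j : E × Fin n) (F : Sm L E) : L.Dv j (lm k F) = lm k (L.Dv j F) := by
  refine ev_ext fun U => ?_
  rw [ev_lm, ev_apply, ev_apply, Dv_apply, Dv_apply]
  unfold LD.dF
  congr 1
  funext t
  show F.1 (k * L.shift j.1 j.2 t U) = F.1 (L.shift j.1 j.2 t (k * U))
  refine congrArg F.1 (funext fun e => ?_)
  unfold LD.shift
  simp only [Pi.mul_apply]
  rw [← mul_assoc, hk, mul_assoc]

theorem Sym_lm {z : G} (hz : ∀ g, z * g = g * z) (i : Fin D) (b : ZMod l) (a : ℝ) :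
    Sym (a • VT L D l) (lm (L := L) (zS (cutS i b) z)).toLinearMap where
  one := map_one (lm (L := L) (zS (cutS i b) z))
  lap f := by
    have hk : ∀ e g, zS (cutS (l := l) i b) z e * g = g * zS (cutS (l := l) i b) z e := by
      intro e g
      unfold zS
      split_ifs
      · exact hz g
      · rw [one_mul, mul_one]
    show lm _ (Lap L.Dv f) = Lap L.Dv (lm _ f)
    unfold Lap
    rw [map_sum]
    refine Finset.sum_congr rfl fun j _ => ?_
    rw [Dv_lm hk, Dv_lm hk]
  mul f := by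
    show lm _ ((a • VT L D l) * f) = (a • VT L D l) * lm _ f
    rw [map_mul, map_smul, lm_VT hz]

end

end Run7.h208.KS
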