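import Pool.Agent.Run7.h208.KS.Gap
import Pool.Agent.Run7.h208.KS.VTb

/-!
# Cuts, one cut at a time
-/

open MeasureTheory Matrix Set
open scoped Matrix.Norms.Frobenius ContDiff
open Pool.Agent.H906R3.YM

namespace Run7.h208.KS

set_option linter.unusedSectionVars false

noncomputable section

section abs

/-- symmetric bilinear forms which are not negative -/
structure PF {V : Type*} [AddCommGroup V] [Module ℝ V] (b : V → V → ℝ) : Prop where
  add : ∀ u v w, b (u + v) w = b u w + b v w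
  smul : ∀ (c : ℝ) u w, b (c • u) w = c * b u w
  symm : ∀ u v, b u v = b v u
  nonneg : ∀ u, 0 ≤ b u u

variable {V : Type*} [AddCommGroup V] [Module ℝ V] {b : V → V → ℝ}

lemma PF.add' (hb : PF b) (u v w : V) : b w (u + v) = b w u + b w v := by
  rw [hb.symm, hb.add, hb.symm u, hb.symm v]

lemma PF.smul' (hb : PF b) (c : ℝ) (u w : V) : b w (c • u) = c * b w u := by
  rw [hb.symm, hb.smul, hb.symm u]

lemma PF.zero (hb : PF b) (w : V) : b 0 w = 0 := by
  have := hb.smul 0 0 w
  rwa [zero_smul, zero_mul] at this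

lemma PF.sum (hb : PF b) {ι : Type*} (s : Finset ι) (u : ι → V) (w : V) :
    b (∑ i ∈ s, u i) w = ∑ i ∈ s, b (u i) w := by
  classical
  induction s using Finset.induction_on with
  | empty => rw [Finset.sum_empty, Finset.sum_empty, hb.zero]
  | insert i s hi ih => rw [Finset.sum_insert hi, Finset.sum_insert hi, hb.add, ih]

lemma PF.sum' (hb : PF b) {ι : Type*} (s : Finset ι) (u : ι → V) (w : V) :
    b w (∑ i ∈ s, u i) = ∑ i ∈ s, b w (u i) := by
  rw [hb.symm, hb.sum]
  exact Finset.sum_congr rfl fun i _ => hb.symm _ _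

lemma PF.sub_sq (hb : PF b) (u v : V) : b (u - v) (u - v) = b u u - 2 * b u v + b v v := by
  have h1 : u - v = u + (-1 : ℝ) • v := by rw [neg_one_smul, sub_eq_add_neg]
  rw [h1, hb.add, hb.add', hb.smul, hb.smul', hb.add', hb.smul', hb.symm v u]
  ring

/-- the average over the powers of `T` -/
def avg (m : ℕ) (T : V →ₗ[ℝ] V) : V →ₗ[ℝ] V := (1 / (m : ℝ)) • ∑ i ∈ Finset.range m, T ^ i

lemma avg_apply (m : ℕ) (T : V →ₗ[ℝ] V) (f : V) :
    avg m T f = (1 / (m : ℝ)) • ∑ i ∈ Finset.range m, (T ^ i) f := by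
  unfold avg
  rw [LinearMap.smul_apply, LinearMap.sum_apply]

variable {m : ℕ} {T : V →ₗ[ℝ] V}

lemma T_avg (hT : T ^ m = 1) (f : V) : T (avg m T f) = avg m T f := by
  rw [avg_apply, map_smul, map_sum]
  congr 1
  have h1 : ∀ i, T ((T ^ i) f) = (T ^ (i + 1)) f := fun i => by
    rw [pow_succ']; rfl
  simp only [h1]
  have h2 := Finset.sum_range_succ (fun i => (T ^ i) f) m
  have h3 := Finset.sum_range_succ' (fun i => (T ^ i) f) m
  rw [h2] at h3
  have h4 : (T ^ m) f = (T ^ 0) f := by rw [hT, pow_zero]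
  rw [h4] at h3
  exact (add_right_cancel h3).symm

lemma avg_T (hT : T ^ m = 1) (f : V) : avg m T (T f) = avg m T f := by
  have h1 : avg m T (T f) = T (avg m T f) := by
    rw [avg_apply, avg_apply, map_smul, map_sum]
    congr 1
    refine Finset.sum_congr rfl fun i _ => ?_
    have h2 : (T ^ i) (T f) = (T ^ i * T) f := rfl
    have h3 : T ((T ^ i) f) = (T * T ^ i) f := rfl
    rw [h2, h3, ← pow_succ, ← pow_succ']
  rw [h1, T_avg hT]

lemma pow_fix {f : V} (h : T f = f) (i : ℕ) : (T ^ i) f = f := by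
  induction i with
  | zero => rfl
  | succ i ih => rw [pow_succ']; show T ((T ^ i) f) = f; rw [ih, h]

lemma avg_fix (hm : 0 < m) {f : V} (h : T f = f) : avg m T f = f := by
  rw [avg_apply, Finset.sum_congr rfl fun i _ => pow_fix h i, Finset.sum_const, Finset.card_range,
    ← Nat.cast_smul_eq_nsmul ℝ, smul_smul, one_div, inv_mul_cancel₀ (by positivity), one_smul]

lemma sum_sub_avg (hm : 0 < m) (hT : T ^ m = 1) (f : V) :
    ∑ i ∈ Finset.range m, (T ^ i) (f - avg m T f) = 0 := by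
  have h1 : ∀ i, (T ^ i) (f - avg m T f) = (T ^ i) f - avg m T f := fun i => by
    rw [map_sub, pow_fix (T_avg hT f)]
  rw [Finset.sum_congr rfl fun i _ => h1 i, Finset.sum_sub_distrib, Finset.sum_const,
    Finset.card_range, avg_apply, ← Nat.cast_smul_eq_nsmul ℝ, smul_smul, one_div,
    mul_inv_cancel₀ (by positivity), one_smul, sub_self]

/-- `b (A f) g = b (A f) (A g)` -/
lemma PF.avg_left (hb : PF b) (hm : 0 < m) (hT : T ^ m = 1) (hTb : ∀ u v, b (T u) (T v) = b u v)
    (f g : V) : b (avg m T f) g = b (avg m T f) (avg m T g) := by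
  have h1 : ∀ i, b (avg m T f) ((T ^ i) g) = b (avg m T f) g := by
    intro i
    induction i with
    | zero => rfl
    | succ i ih =>
      have h2 : (T ^ (i + 1)) g = T ((T ^ i) g) := by rw [pow_succ']; rfl
      have h3 := hTb (avg m T f) ((T ^ i) g)
      rw [T_avg hT] at h3
      rw [h2, h3, ih]
  rw [avg_apply m T g, hb.smul', hb.sum', Finset.sum_congr rfl fun i _ => h1 i, Finset.sum_const,
    Finset.card_range, nsmul_eq_mul]
  field_simp

lemma PF.sub_avg (hb : PF b) (hm : 0 < m) (hT : T ^ m = 1) (hTb : ∀ u v, b (T u) (T v) = b u v)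
    (f : V) : b (f - avg m T f) (f - avg m T f) = b f f - b (avg m T f) (avg m T f) := by
  have h1 := hb.avg_left hm hT hTb f f
  have h2 := hb.symm f (avg m T f)
  rw [hb.sub_sq, h2, h1]
  ring

/-- **Averages over mutually disjoint cuts.** `A a` averages (`b (A a f) f = b (A a f) (A a f)`),
`A a f = A a' f` for equivalent `a`, `a'`, `b (A a f) (A a' f) = 0` otherwise, at most `M` equivalent
elements. Then `∑ b (A a f) (A a f) ≤ M b f f`. -/
lemma PF.bessel (hb : PF b) {ι κ : Type*} [Fintype ι] [DecidableEq κ] (cl : ι → κ) (A : ι → V) (f : V)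
    (h1 : ∀ a, b (A a) f = b (A a) (A a))
    (h2 : ∀ a a', cl a = cl a' → A a = A a') (h3 : ∀ a a', cl a ≠ cl a' → b (A a) (A a') = 0)
    {M : ℕ} (hM : ∀ a, (Finset.univ.filter fun a' => cl a' = cl a).card ≤ M) :
    ∑ a, b (A a) (A a) ≤ M * b f f := by
  rcases Nat.eq_zero_or_pos M with h0 | h0
  · have : IsEmpty ι := by
      by_contra hne
      rw [not_isEmpty_iff] at hne
      obtain ⟨a⟩ := hne
      have h4 := hM a
      rw [h0, Nat.le_zero, Finset.card_eq_zero] at h4
      have h5 : a ∈ Finset.univ.filter fun a' => cl a' = cl a := by simp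
      rw [h4] at h5
      simp at h5
    simp [h0]
  have hM0 : (0 : ℝ) < M := by exact_mod_cast h0
  obtain ⟨X, hX⟩ : ∃ X, X = ∑ a, b (A a) (A a) := ⟨_, rfl⟩
  have hS1 : b f (∑ a, A a) = X := by
    rw [hb.sum', hX]
    exact Finset.sum_congr rfl fun a _ => by rw [hb.symm, h1]
  have hS2 : b (∑ a, A a) (∑ a, A a) ≤ M * X := by
    rw [hb.sum, hX, Finset.mul_sum]
    refine Finset.sum_le_sum fun a _ => ?_
    rw [hb.sum']
    have h4 : ∀ a', b (A a) (A a') = if cl a' = cl a then b (A a) (A a) else 0 := by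
      intro a'
      split_ifs with h
      · rw [h2 a' a h]
      · exact h3 a a' fun hh => h hh.symm
    rw [Finset.sum_congr rfl fun a' _ => h4 a', ← Finset.sum_filter, Finset.sum_const, nsmul_eq_mul]
    have h5 : ((Finset.univ.filter fun a' => cl a' = cl a).card : ℝ) ≤ M := by exact_mod_cast hM a
    exact mul_le_mul_of_nonneg_right h5 (hb.nonneg _)
  have h4 := hb.nonneg (f - (1 / (M : ℝ)) • ∑ a, A a)
  rw [hb.sub_sq, hb.smul', hb.smul, hb.smul', hS1] at h4
  have h5 : 1 / (M : ℝ) * (1 / M * b (∑ a, A a) (∑ a, A a)) ≤ 1 / (M : ℝ) * (1 / M * (M * X)) := by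
    gcongr
  have h6 : 1 / (M : ℝ) * (1 / M * (M * X)) = X / M := by field_simp
  rw [h6] at h5
  have h7 : 2 * (1 / (M : ℝ) * X) = 2 * (X / M) := by ring
  rw [h7] at h4
  rw [← hX]
  have h8 : X / M ≤ b f f := by linarith
  rw [div_le_iff₀ hM0] at h8
  linarith

end abs

variable {G : Type*} [Group G] [TopologicalSpace G] {N n : ℕ} {L : LD G N n}
  [IsTopologicalGroup G] [CompactSpace G] [SecondCountableTopology G]
  [MeasurableSpace G] [BorelSpace G] (μ : Measure G) [IsProbabilityMeasure μ]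
  [μ.IsMulLeftInvariant] [μ.IsOpenPosMeasure] [μ.IsMulRightInvariant]
  {E : Type*} [Fintype E] [DecidableEq E]

lemma I_lm (k : E → G) (F : Sm L E) : L.I μ (lm k F) = L.I μ F := by
  rw [I_apply, I_apply]
  exact integral_mul_left_eq_self (μ := ME μ E) F.1 k

lemma GamS_lm {k : E → G} (hk : ∀ e g, k e * g = g * k e) (S : Finset E) (F H : Sm L E) :
    Gam (DS S) (lm k F) (lm k H) = lm k (Gam (DS S) F H) := by
  unfold Gam
  rw [map_sum]
  refine Finset.sum_congr rfl fun j _ => ?_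
  rw [map_mul]
  unfold DS
  rw [Dv_lm hk, Dv_lm hk]

lemma expS_lm (k : E → G) (F : Sm L E) : lm k (expS F) = expS (lm k F) := rfl

lemma zS_central {z : G} (hz : ∀ g, z * g = g * z) (S : Finset E) (e : E) (g : G) :
    zS S z e * g = g * zS S z e := by
  unfold zS
  split_ifs
  · exact hz g
  · rw [one_mul, mul_one]

lemma zS_mul (S : Finset E) (z w : G) : zS S z * zS S w = zS S (z * w) := by
  funext e
  simp only [zS, Pi.mul_apply]
  split_ifs
  · rfl
  · rw [one_mul]

lemma zS_one (S : Finset E) : zS S (1 : G) = 1 := by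
  funext e
  simp [zS]

lemma zS_pow (S : Finset E) (z : G) (i : ℕ) : zS S z ^ i = zS S (z ^ i) := by
  induction i with
  | zero => rw [pow_zero, pow_zero, zS_one]
  | succ i ih => rw [pow_succ, pow_succ, ih, zS_mul]

lemma lm_mul (k k' : E → G) (F : Sm L E) : lm k (lm k' F) = lm (k' * k) F := by
  refine ev_ext fun U => ?_
  rw [ev_lm, ev_lm, ev_lm, mul_assoc]

lemma lm_pow (k : E → G) (i : ℕ) (F : Sm L E) :
    ((lm (L := L) k).toLinearMap ^ i) F = lm (k ^ i) F := by
  induction i with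
  | zero =>
    refine ev_ext fun U => ?_
    rw [pow_zero, pow_zero, ev_lm, one_mul]
    rfl
  | succ i ih =>
    have h1 : ((lm (L := L) k).toLinearMap ^ (i + 1)) F =
        lm k (((lm (L := L) k).toLinearMap ^ i) F) := by rw [pow_succ']; rfl
    rw [h1, ih, lm_mul, pow_succ]

/-- the weighted scalar product -/
def bI (φ f h : Sm L E) : ℝ := L.I μ (f * h * nu φ)

lemma nu_pos (φ : Sm L E) (U : E → G) : 0 < L.ev U (nu φ) := Real.exp_pos _

lemma bI_PF (φ : Sm L E) : PF (bI μ φ) where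
  add u v w := by unfold bI; rw [add_mul, add_mul, map_add]
  smul c u w := by unfold bI; rw [smul_mul_assoc, smul_mul_assoc, map_smul, smul_eq_mul]
  symm u v := by unfold bI; rw [mul_comm u v]
  nonneg u := I_nonneg μ fun U => by
    rw [map_mul, map_mul]
    exact mul_nonneg (mul_self_nonneg _) (nu_pos φ U).le

/-- the Dirichlet form of a block -/
def bG (φ : Sm L E) (S : Finset E) (f h : Sm L E) : ℝ := L.I μ (Gam (DS S) f h * nu φ)

lemma bG_PF (φ : Sm L E) (S : Finset E) : PF (bG μ φ S) where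
  add u v w := by
    unfold bG
    rw [Gam_comm (u + v) w, Gam_add, Gam_comm w u, Gam_comm w v, add_mul, map_add]
  smul c u w := by
    unfold bG
    rw [Gam_comm (c • u) w, Gam_smul, Gam_comm w u, smul_mul_assoc, map_smul, smul_eq_mul]
  symm u v := by unfold bG; rw [Gam_comm]
  nonneg u := I_nonneg μ fun U => by
    rw [map_mul]
    refine mul_nonneg ?_ (nu_pos φ U).le
    unfold Gam
    rw [map_sum]
    exact Finset.sum_nonneg fun j _ => by rw [map_mul]; exact mul_self_nonneg _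

variable {φ : Sm L E} {k : E → G}

lemma nu_lm (h : lm k φ = φ) : lm k (nu φ) = nu φ := by
  unfold nu
  rw [expS_lm, map_smul, h]

lemma bI_lm (h : lm k φ = φ) (u v : Sm L E) : bI μ φ (lm k u) (lm k v) = bI μ φ u v := by
  unfold bI
  rw [← I_lm μ k (u * v * nu φ), map_mul (lm k), map_mul (lm k), nu_lm h]

lemma bG_lm (hk : ∀ e g, k e * g = g * k e) (h : lm k φ = φ) (S : Finset E) (u v : Sm L E) :
    bG μ φ S (lm k u) (lm k v) = bG μ φ S u v := by
  unfold bG
  rw [GamS_lm hk, ← I_lm μ k (Gam (DS S) u v * nu φ), map_mul (lm k), nu_lm h]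

/-- **One cut.** `κ (|f|² - |A f|²) ≤ ½ ∫ Γ_S(f, f) ν`. -/
theorem cut_ineq (hN : 0 < N) {c h κ R : ℝ} (hc : Cas L c) (hφ : HB φ h) (hh : 0 ≤ h)
    (hκ : 0 < κ) (hκ' : κ ≤ c / 8 - h) (hR : PathI L μ E R) (S : Finset E) {z : G}
    (hz : ∀ g, z * g = g * z) {m : ℕ} (hm : 0 < m) (hzm : z ^ m = 1)
    (hS : lm (zS S z) φ = φ) (f : Sm L E) :
    κ * (bI μ φ f f - bI μ φ (avg m (lm (zS S z)).toLinearMap f)
      (avg m (lm (zS S z)).toLinearMap f)) ≤ 1 / 2 * bG μ φ S f f := by
  set T : Sm L E →ₗ[ℝ] Sm L E := (lm (zS S z)).toLinearMap with hT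
  have hTm : T ^ m = 1 := by
    refine LinearMap.ext fun F => ?_
    rw [hT, lm_pow, zS_pow, hzm, zS_one]
    refine ev_ext fun U => ?_
    rw [ev_lm, one_mul]
    rfl
  have hTb : ∀ u v, bI μ φ (T u) (T v) = bI μ φ u v := fun u v => bI_lm μ hS u v
  have hTG : ∀ u v, bG μ φ S (T u) (T v) = bG μ φ S u v := fun u v =>
    bG_lm μ (zS_central hz S) hS S u v
  have h1 := gap_cut μ hN hc hφ hh hκ hκ' hR S hz hm hzm hS (f - avg m T f) (by
    have h2 := sum_sub_avg hm hTm f
    rw [← h2]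
    refine Finset.sum_congr rfl fun i _ => ?_
    rw [hT, lm_pow, zS_pow])
  have h2 := (bI_PF μ φ).sub_avg hm hTm hTb f
  have h3 := (bG_PF μ φ S).sub_avg hm hTm hTG f
  have h4 := (bG_PF μ φ S).nonneg (avg m T f)
  have h5 : κ * bI μ φ (f - avg m T f) (f - avg m T f) ≤
      1 / 2 * bG μ φ S (f - avg m T f) (f - avg m T f) := h1
  rw [h2, h3] at h5
  linarith

end

end Run7.h208.KS
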