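import Pool.Agent.Run7.h208.KS.Hess

/-!
# Piece GROUND: approximate ground state with Hessian bound
-/

open MeasureTheory Matrix Set
open scoped Matrix.Norms.Frobenius ContDiff
open Pool.Agent.H906R3.YM

namespace Run7.h208.KS

set_option linter.unusedSectionVars false

noncomputable section

variable {G : Type*} [Group G] [TopologicalSpace G] {N n : ℕ} {L : LD G N n}
  {E : Type*} [Fintype E] [DecidableEq E]

section abs

variable {A : Type*} [CommRing A] [Algebra ℝ A] {J : Type*} [Fintype J]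
  (D : J → Derivation ℝ A A)

/-- the equation for the quotient `f = v / u` -/
lemma quot_abs {Q u v w e φ f r r2 : A} (heu : e * u = 1) (hD : ∀ j, D j u = -(u * D j φ))
    (hf : f = v * e) (hv : v = -(Q * u - (1 / 2 : ℝ) • Lap D u) + r)
    (hw : w = -(Q * v - (1 / 2 : ℝ) • Lap D v) + r2) :
    w * e + v * (-(v * (e * e))) =
      ((1 / 2 : ℝ) • Lap D f - Gam D φ f) + (r2 - f * r) * e := by
  have hvf : v = f * u := by
    rw [hf]
    linear_combination (-v) * heu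
  have h1 : Gam D f u = -(u * Gam D φ f) := by
    unfold Gam
    rw [Finset.mul_sum, ← Finset.sum_neg_distrib]
    exact Finset.sum_congr rfl fun j _ => by rw [hD]; ring
  have h2 : Lap D v = Lap D f * u + f * Lap D u - (2 : ℝ) • (u * Gam D φ f) := by
    rw [hvf, Lap_mul, h1, smul_neg, ← sub_eq_add_neg]
  have h3 : (1 / 2 : ℝ) • Lap D v = ((1 / 2 : ℝ) • Lap D f) * u + f * ((1 / 2 : ℝ) • Lap D u) -
      u * Gam D φ f := by
    rw [h2, smul_sub, smul_add, smul_smul, smul_mul_assoc, mul_smul_comm]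
    norm_num
  obtain ⟨a, ha⟩ : ∃ a, a = (1 / 2 : ℝ) • Lap D f := ⟨_, rfl⟩
  obtain ⟨b, hb⟩ : ∃ b, b = (1 / 2 : ℝ) • Lap D u := ⟨_, rfl⟩
  obtain ⟨g, hg⟩ : ∃ g, g = Gam D φ f := ⟨_, rfl⟩
  rw [h3, ← ha, ← hb, ← hg] at hw
  rw [← hb] at hv
  rw [← ha, ← hg]
  have hw2 : w = -(f * (r - v)) - u * g + a * u + r2 := by
    rw [hw]
    linear_combination (-f) * hv - Q * hvf
  rw [hw2]
  linear_combination (a - g) * heu + v * e * hf

end abs

/-- the equation for the quotient `f = v / u` -/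
lemma quot_eq {Q u v w φ r r2 : Sm L E} (hφ : u = expS (-φ)) (hv : v = -Hop Q u + r)
    (hw : w = -Hop Q v + r2) :
    w * expS φ + v * (-(v * (expS φ * expS φ))) =
      ((1 / 2 : ℝ) • Lap (L.Dv (E := E)) (v * expS φ) - Gam (L.Dv (E := E)) φ (v * expS φ)) +
        (r2 - v * expS φ * r) * expS φ := by
  refine quot_abs (A := Sm L E) (L.Dv (E := E)) (Q := Q) (u := u) ?_ (fun j => ?_) rfl hv hw
  · rw [hφ, mul_comm, expS_neg_mul]
  · rw [hφ, Dv_expS, map_neg]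
    exact mul_neg (expS (-φ)) ((L.Dv (E := E)) j φ)

/-- first order analogue of `C2_gam` -/
lemma C2_gam1 {f : Sm L E} {K : ℝ} (h : C2 f K) (U : E → G) :
    L.ev U (Gam (L.Dv (E := E)) f f) ≤ (Fintype.card (E × Fin n) * K) ^ 2 := by
  rw [ev_Gam_self]
  have h2 : ∀ i ∈ (Finset.univ : Finset (E × Fin n)),
      L.ev U ((L.Dv (E := E)) i f) ^ 2 ≤ K ^ 2 := by
    intro i _
    rw [← sq_abs]
    exact pow_le_pow_left₀ (abs_nonneg _) ((h U).2 i).1 2
  refine (Finset.sum_le_card_nsmul _ _ _ h2).trans ?_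
  rw [Finset.card_univ, nsmul_eq_mul, mul_pow]
  refine mul_le_mul_of_nonneg_right ?_ (sq_nonneg K)
  exact_mod_cast Nat.le_self_pow two_ne_zero _

/-- one derivative is bounded by the norm of the gradient -/
lemma abs_le_of_gam {f : Sm L E} {U : E → G} {b : ℝ} (hb : 0 ≤ b)
    (h : L.ev U (Gam (L.Dv (E := E)) f f) ≤ b ^ 2) (j : E × Fin n) :
    |L.ev U ((L.Dv (E := E)) j f)| ≤ b := by
  refine abs_le_of_sq_le_sq ?_ hb
  rw [ev_Gam_self] at h
  exact (Finset.single_le_sum (f := fun i => L.ev U ((L.Dv (E := E)) i f) ^ 2)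
    (fun _ _ => sq_nonneg _) (Finset.mem_univ j)).trans h

/-- the maximum principle for the square of the norm of a vector, barrier
`b t = b0 exp (- κ t) + d1` -/
lemma max_vec {J X : Type*} [Fintype J] [TopologicalSpace X] [CompactSpace X] {T κ b0 d1 : ℝ}
    (hT : 0 ≤ T) (hb0 : 0 ≤ b0) (hd1 : 0 < d1) {x x' : J → ℝ → X → ℝ}
    (hc : ∀ i, ContinuousOn (fun p : ℝ × X => x i p.1 p.2) (Icc 0 T ×ˢ univ))
    (hd : ∀ i U, ∀ t ∈ Icc 0 T, HasDerivWithinAt (fun s => x i s U) (x' i t U) (Icc 0 T) t)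
    (h0 : ∀ U, ∑ i, x i 0 U ^ 2 ≤ b0 ^ 2)
    (hm : ∀ t ∈ Icc 0 T, ∀ (U : X) (b : ℝ), 0 < b → ∑ i, x i t U ^ 2 = b ^ 2 →
      (∀ V : X, ∑ i, x i t V ^ 2 ≤ b ^ 2) →
      ∑ i, x i t U * x' i t U < -κ * b ^ 2 + κ * d1 * b) :
    ∀ t ∈ Icc 0 T, ∀ (U : X), ∑ i, x i t U ^ 2 < (b0 * Real.exp (-(κ * t)) + d1) ^ 2 := by
  have key := maxp (X := X) hT
    (W := fun t y => ∑ i, x i t y ^ 2)
    (W' := fun t y => 2 * ∑ i, x i t y * x' i t y)
    (B := fun t => (b0 * Real.exp (-(κ * t)) + d1) ^ 2)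
    (B' := fun t => 2 * (-κ * (b0 * Real.exp (-(κ * t)) + d1) ^ 2 +
      κ * d1 * (b0 * Real.exp (-(κ * t)) + d1))) ?_ ?_ ?_ ?_ ?_
  · exact key
  · refine continuousOn_finsetSum _ fun i _ => ?_
    exact (hc i).pow 2
  · intro U t ht
    have h2 : HasDerivWithinAt (fun s => ∑ i, x i s U ^ 2)
        (∑ i, 2 * (x i t U * x' i t U)) (Icc 0 T) t := by
      refine HasDerivWithinAt.fun_sum fun i _ => ?_
      have h3 := (hd i U t ht).fun_pow 2
      refine h3.congr_deriv ?_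
      simp
      ring
    refine h2.congr_deriv ?_
    rw [← Finset.mul_sum]
  · intro t _
    have h1 : HasDerivAt (fun t : ℝ => -(κ * t)) (-(κ * 1)) t :=
      ((hasDerivAt_id' t).const_mul κ).fun_neg
    have h2 := ((h1.exp.const_mul b0).add_const d1).fun_pow 2
    refine (h2.congr_deriv ?_).hasDerivWithinAt
    simp
    ring
  · intro U
    refine (h0 U).trans_lt ?_
    show b0 ^ 2 < (b0 * Real.exp (-(κ * 0)) + d1) ^ 2
    rw [mul_zero, neg_zero, Real.exp_zero, mul_one]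
    nlinarith
  · intro t ht U hW hmax
    have hb : 0 < b0 * Real.exp (-(κ * t)) + d1 := by positivity
    have := hm t ht U _ hb hW hmax
    show 2 * ∑ i, x i t U * x' i t U < 2 * _
    linarith

/-- Decay of the gradient of `f = v / u`: `f' = ½ Δ f - Γ(φ, f) + small`, so by `boch_full` and
`maxp` `½ |D f|² ≤ ½ (b exp (- κ t) + δ)²`, `κ = c / 8 - h`, where `b` bounds `|D f|` at `t = 0`
(`f ≈ - Q` there). Statement: for `T` large the gradient of `v / u = - (½ Δ φ - ½ |D φ|² + Q) + small`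
is at most `δ` at the time `T`. -/
theorem grad_decay [CompactSpace G] {c h s : ℝ} (hc : Cas L c) {Q : Sm L E} (hQ : HB Q s)
    (hs : 0 ≤ s) (hh : 0 < h) (hh2 : h ^ 2 + s < c / 8 * h) {δ : ℝ} (hδ : 0 < δ) :
    ∃ T : ℝ, 0 ≤ T ∧ ∀ C : ℝ, ∃ ε : ℝ, 0 < ε ∧ ∀ u v w : ℝ → Sm L E, Sol T 2 u v → Sol T 2 v w →
      u 0 = 1 →
      (∀ t ∈ Icc 0 T, C2 (v t + Hop Q (u t)) ε ∧ C2 (w t + Hop Q (v t)) ε ∧
        C2 (u t) C ∧ C2 (v t) C) →
      ∀ φ : Sm L E, (∀ U, L.ev U φ = -Real.log (L.ev U (u T))) → ∀ U j,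
        |L.ev U (L.Dv j (GS Q φ))| ≤ δ := by
  obtain ⟨κ, hκ⟩ : ∃ κ : ℝ, κ = c / 8 - h := ⟨_, rfl⟩
  have hκ0 : 0 < κ := by
    rw [hκ]
    by_contra hcon
    push Not at hcon
    nlinarith
  obtain ⟨K, hK, hQK⟩ := exists_C2 Q
  obtain ⟨ν, hν⟩ : ∃ ν : ℝ, ν = Fintype.card (E × Fin n) := ⟨_, rfl⟩
  have hν0 : 0 ≤ ν := by rw [hν]; positivity
  obtain ⟨b0, hb0⟩ : ∃ b0 : ℝ, b0 = ν * (K + 1) := ⟨_, rfl⟩
  have hb00 : 0 ≤ b0 := by rw [hb0]; positivity
  -- the choice of `T`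
  obtain ⟨T, hT, hTe⟩ : ∃ T : ℝ, 0 ≤ T ∧ b0 * Real.exp (-(κ * T)) ≤ δ / 4 := by
    have h1 : Filter.Tendsto (fun T : ℝ => b0 * Real.exp (-(κ * T))) Filter.atTop (nhds (b0 * 0)) := by
      refine Filter.Tendsto.const_mul b0 (Real.tendsto_exp_neg_atTop_nhds_zero.comp ?_)
      exact Filter.tendsto_id.const_mul_atTop hκ0
    rw [mul_zero] at h1
    have h2 := (h1.eventually (gt_mem_nhds (show (0 : ℝ) < δ / 4 by positivity))).and
      (Filter.eventually_ge_atTop 0)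
    obtain ⟨T, hT1, hT2⟩ := h2.exists
    exact ⟨T, hT2, hT1.le⟩
  refine ⟨T, hT, fun C => ?_⟩
  obtain ⟨m, hm, hpos⟩ := flow_pos Q hT
  obtain ⟨ε1, hε1, hhess⟩ := hess_flow hc hQ hs hh hh2 hT C
  obtain ⟨M, hM⟩ : ∃ M : ℝ, M = 1 / m + |C| / m ^ 2 + 2 * |C| ^ 2 / m ^ 3 := ⟨_, rfl⟩
  have hM0 : 0 < M := by rw [hM]; positivity
  -- `C2 ((r2 - f r) e) (ε K1)`
  obtain ⟨K1, hK1⟩ : ∃ K1 : ℝ, K1 = 4 * (1 + 4 * (4 * |C| * M)) * M := ⟨_, rfl⟩
  have hK10 : 0 < K1 := by rw [hK1]; positivity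
  obtain ⟨ε, hε⟩ : ∃ ε : ℝ, ε = min (min (min m ε1) 1)
      (min (κ * (δ / 4) / (2 * (ν * K1 + 1))) (δ / (2 * (4 * M)))) := ⟨_, rfl⟩
  have e1 : ε ≤ m := by rw [hε]; exact (min_le_left _ _).trans ((min_le_left _ _).trans (min_le_left _ _))
  have e2 : ε ≤ ε1 := by rw [hε]; exact (min_le_left _ _).trans ((min_le_left _ _).trans (min_le_right _ _))
  have e3 : ε ≤ 1 := by rw [hε]; exact (min_le_left _ _).trans (min_le_right _ _)
  have e4 : ε ≤ κ * (δ / 4) / (2 * (ν * K1 + 1)) := by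
    rw [hε]; exact (min_le_right _ _).trans (min_le_left _ _)
  have e5 : ε ≤ δ / (2 * (4 * M)) := by
    rw [hε]; exact (min_le_right _ _).trans (min_le_right _ _)
  have hε0 : 0 < ε := by
    rw [hε]
    refine lt_min (lt_min (lt_min hm hε1) one_pos) (lt_min ?_ ?_) <;> positivity
  have e6 : ν * (ε * K1) < κ * (δ / 4) := by
    rw [le_div_iff₀ (by positivity)] at e4
    nlinarith [mul_nonneg (mul_nonneg hν0 hε0.le) hK10.le, mul_pos hκ0 hδ]
  have e7 : 4 * ε * M ≤ δ / 2 := by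
    rw [le_div_iff₀ (by positivity)] at e5
    nlinarith
  clear hε e4 e5
  refine ⟨ε, hε0, fun u v w hS hS2 h0 hr ψ hψ => ?_⟩
  have hup : ∀ t ∈ Icc 0 T, ∀ U, m < L.ev U (u t) :=
    hpos u v (hS.mono (by norm_num)) h0 fun t ht U =>
      (((hr t ht).1 U).1).trans e1
  have hup0 : ∀ t ∈ Icc 0 T, ∀ U, 0 < L.ev U (u t) := fun t ht U => hm.trans (hup t ht U)
  -- the logarithm
  have hex : ∀ t, ∃ φ : Sm L E, t ∈ Icc 0 T → ∀ U, L.ev U φ = -Real.log (L.ev U (u t)) := by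
    intro t
    by_cases ht : t ∈ Icc 0 T
    · obtain ⟨φ, hφ⟩ := exists_log (hup0 t ht)
      exact ⟨φ, fun _ => hφ⟩
    · exact ⟨0, fun h => absurd h ht⟩
  choose φ hφ using hex
  have hψφ : ψ = φ T := ev_ext fun U => by rw [hψ, hφ T (right_mem_Icc.2 hT)]
  have hinvS := hS.inv hup0 hφ
  have hfS := hS2.mul hinvS
  have huφ : ∀ t ∈ Icc 0 T, u t = expS (-(φ t)) := by
    intro t ht
    refine ev_ext fun U => ?_
    rw [ev_expS, map_neg, hφ t ht, neg_neg, Real.exp_log (hup0 t ht U)]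
  have hinv : ∀ t ∈ Icc 0 T, expS (φ t) * u t = 1 := by
    intro t ht
    rw [huφ t ht, mul_comm, expS_neg_mul]
  have hHB : ∀ t ∈ Icc 0 T, HB (φ t) h := fun t ht =>
    hhess u v hS h0 (fun t ht => ⟨((hr t ht).1).mono e2, (hr t ht).2.2.1⟩) t ht (φ t) (hφ t ht)
  obtain ⟨r, hrd⟩ : ∃ r : ℝ → Sm L E, r = fun t => v t + Hop Q (u t) := ⟨_, rfl⟩
  obtain ⟨r2, hr2d⟩ : ∃ r2 : ℝ → Sm L E, r2 = fun t => w t + Hop Q (v t) := ⟨_, rfl⟩
  have hvr : ∀ t, v t = -Hop Q (u t) + r t := by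
    intro t
    rw [hrd]
    beta_reduce
    rw [add_comm (v t), neg_add_cancel_left]
  have hwr : ∀ t, w t = -Hop Q (v t) + r2 t := by
    intro t
    rw [hr2d]
    beta_reduce
    rw [add_comm (w t), neg_add_cancel_left]
  have hrC : ∀ t ∈ Icc 0 T, C2 (r t) ε := fun t ht => by rw [hrd]; exact (hr t ht).1
  have hr2C : ∀ t ∈ Icc 0 T, C2 (r2 t) ε := fun t ht => by rw [hr2d]; exact (hr t ht).2.1
  have heC : ∀ t ∈ Icc 0 T, C2 (expS (φ t)) M := by
    intro t ht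
    rw [hM]
    exact C2_inv (hinv t ht) hm (fun U => (hup t ht U).le) (((hr t ht).2.2.1).mono (le_abs_self C))
  have hvC : ∀ t ∈ Icc 0 T, C2 (v t) |C| := fun t ht => ((hr t ht).2.2.2).mono (le_abs_self C)
  have hfC : ∀ t ∈ Icc 0 T, C2 (v t * expS (φ t)) (4 * |C| * M) := fun t ht =>
    (hvC t ht).mul (heC t ht)
  have hrho : ∀ t ∈ Icc 0 T, C2 ((r2 t - v t * expS (φ t) * r t) * expS (φ t)) (ε * K1) := by
    intro t ht
    have h1 := (((hr2C t ht).add (((hfC t ht).mul (hrC t ht)).smul (-1))).mul (heC t ht))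
    rw [neg_one_smul, ← sub_eq_add_neg] at h1
    refine h1.mono (le_of_eq ?_)
    rw [hK1, abs_neg, abs_one]
    ring
  -- the initial value
  have hφ0 : φ 0 = 0 := by
    refine ev_ext fun V => ?_
    rw [hφ 0 (left_mem_Icc.2 hT), h0, map_one, Real.log_one, neg_zero, map_zero]
  have hHop1 : Hop Q (1 : Sm L E) = Q := by
    unfold Hop
    rw [Lap_one', smul_zero, sub_zero, mul_one]
  have hf0 : v 0 * expS (φ 0) = r 0 + (-1 : ℝ) • Q := by
    rw [hφ0, expS_zero, mul_one, hvr 0, h0, hHop1, neg_one_smul, add_comm]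
  have hf0C : C2 (v 0 * expS (φ 0)) (K + 1) := by
    rw [hf0]
    refine ((hrC 0 (left_mem_Icc.2 hT)).add (hQK.smul (-1))).mono ?_
    rw [abs_neg, abs_one, one_mul]
    linarith
  have key := max_vec (J := E × Fin n) (X := E → G) (κ := κ) (b0 := b0) (d1 := δ / 4) hT hb00
    (by positivity)
    (x := fun i t U => L.ev U ((L.Dv (E := E)) i (v t * expS (φ t))))
    (x' := fun i t U => L.ev U ((L.Dv (E := E)) i (w t * expS (φ t) +
      v t * (-(v t * (expS (φ t) * expS (φ t))))))) ?_ ?_ ?_ ?_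
  · -- conclusion
    have hTT : T ∈ Icc 0 T := right_mem_Icc.2 hT
    intro U j
    have h1 := key T hTT U
    have h2 : |L.ev U ((L.Dv (E := E)) j (v T * expS (φ T)))| ≤ δ / 2 := by
      have h3 : b0 * Real.exp (-(κ * T)) + δ / 4 ≤ δ / 2 := by linarith
      refine (abs_le_of_gam (b := b0 * Real.exp (-(κ * T)) + δ / 4) (by positivity) ?_ j).trans h3
      rw [ev_Gam_self]
      exact h1.le
    have h3 := log_eq (huφ T hTT) (hvr T)
    have h4 : GS Q ψ = r T * expS (φ T) - v T * expS (φ T) := by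
      rw [hψφ]
      have h5 : GS Q (φ T) = r T * expS (φ T) + (GS Q (φ T) - r T * expS (φ T)) := by abel
      rw [h5, ← h3]
      abel
    have h5 := (((hrC T hTT).mul (heC T hTT)) U).2 j
    rw [h4, map_sub, map_sub]
    refine (abs_sub _ _).trans ?_
    linarith [h5.1]
  · intro i
    exact (hfS [i] (by simp)).1
  · intro i U t ht
    exact (hfS [i] (by simp)).2 U t ht
  · intro U
    have h1 := C2_gam1 hf0C U
    rw [ev_Gam_self] at h1
    rw [hb0, hν]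
    exact h1
  · -- the touching point
    intro t ht U b hb hW hmax
    obtain ⟨f, hf⟩ : ∃ f, f = v t * expS (φ t) := ⟨_, rfl⟩
    have g1 : ∀ V, L.ev V (Gam (L.Dv (E := E)) f f) =
        ∑ i, L.ev V ((L.Dv (E := E)) i (v t * expS (φ t))) ^ 2 := by
      intro V
      rw [ev_Gam_self, hf]
    have g2 : L.ev U (Gam (L.Dv (E := E)) f f) = b ^ 2 := by
      rw [g1]; exact hW
    have hF : ∀ V, L.ev V ((1 / 2 : ℝ) • Gam (L.Dv (E := E)) f f) ≤
        L.ev U ((1 / 2 : ℝ) • Gam (L.Dv (E := E)) f f) := by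
      intro V
      rw [map_smul, map_smul, g2, smul_eq_mul, smul_eq_mul, g1]
      have := hmax V
      linarith
    have b1 := boch_full hc (hHB t ht) hh.le f U
    have b2 := sp_max_lap hF
    have b3 := sp_max_gam hF (φ t)
    rw [map_sub, map_smul, b3, g2, smul_eq_mul, sub_zero, ← hκ] at b1
    obtain ⟨ρ, hρ⟩ : ∃ ρ, ρ = (r2 t - v t * expS (φ t) * r t) * expS (φ t) := ⟨_, rfl⟩
    have hρC : C2 ρ (ε * K1) := by rw [hρ]; exact hrho t ht
    have c1 := gam_cs (f := f) (g := ρ) (U := U) (b := ν * (ε * K1)) hb.le (by positivity) g2.le (by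
      rw [hν]; exact C2_gam1 hρC U)
    have e1 : w t * expS (φ t) + v t * (-(v t * (expS (φ t) * expS (φ t)))) =
        ((1 / 2 : ℝ) • Lap (L.Dv (E := E)) f - Gam (L.Dv (E := E)) (φ t) f) + ρ := by
      rw [hf, hρ]
      exact quot_eq (huφ t ht) (hvr t) (hwr t)
    have c3 : ∑ i, L.ev U ((L.Dv (E := E)) i (v t * expS (φ t))) *
        L.ev U ((L.Dv (E := E)) i (w t * expS (φ t) +
          v t * (-(v t * (expS (φ t) * expS (φ t)))))) =
        L.ev U (Gam (L.Dv (E := E)) f ((1 / 2 : ℝ) • Lap (L.Dv (E := E)) f -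
          Gam (L.Dv (E := E)) (φ t) f)) + L.ev U (Gam (L.Dv (E := E)) f ρ) := by
      rw [← map_add, ← Gam_add, ← e1, ev_Gam, hf]
    rw [c3]
    have d1 := (abs_le.1 c1).2
    have d2 : b * (ν * (ε * K1)) < b * (κ * (δ / 4)) := mul_lt_mul_of_pos_left e6 hb
    nlinarith

/-- **Approximate ground state with Hessian bound and symmetries.** -/
theorem ground [CompactSpace G] {c h s R : ℝ} (hc : Cas L c) {Q : Sm L E} (hD : DFin Q)
    (hQ : HB Q s) (hs : 0 ≤ s) (hh : 0 < h) (hh2 : h ^ 2 + s < c / 8 * h)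
    (hR : 0 ≤ R) (hP : PathS L E R) {δ : ℝ} (hδ : 0 < δ) :
    ∃ (φ : Sm L E) (Eθ : ℝ), HB φ h ∧ (∀ U, |L.ev U (GS Q φ) - Eθ| ≤ δ) ∧
      ∀ S : Sm L E →ₐ[ℝ] Sm L E, (∃ τ : (E → G) → (E → G), ∀ U F, L.ev U (S F) = L.ev (τ U) F) →
        Sym Q S.toLinearMap → S φ = φ := by
  obtain ⟨T, hT, hgrad⟩ := grad_decay hc hQ hs hh hh2 (δ := δ / (R + 1)) (by positivity)
  obtain ⟨C, hC, hflow⟩ := flow (L := L) hD hT
  obtain ⟨ε1, hε1, hgrad⟩ := hgrad C
  obtain ⟨ε2, hε2, hhess⟩ := hess_flow hc hQ hs hh hh2 hT C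
  obtain ⟨m, hm, hpos⟩ := flow_pos Q hT
  obtain ⟨u, v, w, hS, hS2, h0, hr, hsym⟩ := hflow (min m (min ε1 ε2)) (lt_min hm (lt_min hε1 hε2))
  have hTT : T ∈ Icc 0 T := right_mem_Icc.2 hT
  have hup : ∀ t ∈ Icc 0 T, ∀ U, m < L.ev U (u t) :=
    hpos u v (hS 0) h0 fun t ht U => (((hr t ht).1 U).1).trans (min_le_left _ _)
  have hup0 : ∀ U, 0 < L.ev U (u T) := fun U => hm.trans (hup T hTT U)
  obtain ⟨φ, hφ⟩ := exists_log hup0
  refine ⟨φ, L.ev 1 (GS Q φ), ?_, ?_, ?_⟩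
  · exact hhess u v (hS 2) h0 (fun t ht => ⟨((hr t ht).1).mono
      ((min_le_right _ _).trans (min_le_right _ _)), (hr t ht).2.2.1⟩) T hTT φ hφ
  · have h1 := hgrad u v w (hS 2) (hS2 2) h0 (fun t ht => ⟨((hr t ht).1).mono
      ((min_le_right _ _).trans (min_le_left _ _)), ((hr t ht).2.1).mono
      ((min_le_right _ _).trans (min_le_left _ _)), (hr t ht).2.2⟩) φ hφ
    intro U
    have h2 := hP U (GS Q φ) (δ / (R + 1)) h1 1
    rw [mul_one] at h2
    refine h2.trans ?_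
    rw [mul_div_assoc', div_le_iff₀ (by positivity)]
    nlinarith
  · rintro S ⟨τ, hτ⟩ hSy
    have h1 : S (u T) = u T := hsym S.toLinearMap hSy T
    refine ev_ext fun U => ?_
    rw [hτ, hφ, ← hτ, h1, hφ]

end

end Run7.h208.KS
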