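import Pool.Agent.Run7.h208.KS.Charge
import Pool.Agent.Run7.h208.KS.Ground

/-!
# Assembly: mass gap and confinement for the abstract data
-/

open MeasureTheory Matrix Set
open scoped Matrix.Norms.Frobenius ContDiff
open Pool.Agent.H906R3.YM

namespace Run7.h208.KS

set_option linter.unusedSectionVars false

noncomputable section

variable {G : Type*} [Group G] [TopologicalSpace G] {N n : ℕ} {L : LD G N n}
  [IsTopologicalGroup G] [CompactSpace G] [SecondCountableTopology G]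
  [MeasurableSpace G] [BorelSpace G] (μ : Measure G) [IsProbabilityMeasure μ]
  [μ.IsMulLeftInvariant] [μ.IsOpenPosMeasure] [μ.IsMulRightInvariant]

section gen

variable {E : Type*} [Fintype E] [DecidableEq E]

/-- the scaled energy `½ ∫ |D F|² + ∫ Q F²` -/
def en (Q F : Sm L E) : ℝ := 1 / 2 * L.I μ (Gam (L.Dv (E := E)) F F) + L.I μ (Q * (F * F))

lemma HH_expS (Q φ : Sm L E) : HH (L.Dv (E := E)) 1 Q (expS (-φ)) = GS Q φ * expS (-φ) := by
  have h1 : ∀ j, L.Dv j (expS (-φ)) = -(expS (-φ) * L.Dv j φ) := fun j => by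
    rw [Dv_expS, map_neg]; ring
  have h2 : ∀ j, L.Dv j (L.Dv j (expS (-φ))) =
      expS (-φ) * (L.Dv j φ * L.Dv j φ) - expS (-φ) * L.Dv j (L.Dv j φ) := fun j => by
    rw [h1, map_neg, Derivation.leibniz, h1, smul_eq_mul, smul_eq_mul]; ring
  have h3 : Lap (L.Dv (E := E)) (expS (-φ)) =
      expS (-φ) * Gam (L.Dv (E := E)) φ φ - expS (-φ) * Lap (L.Dv (E := E)) φ := by
    unfold Lap Gam
    rw [Finset.mul_sum, Finset.mul_sum, ← Finset.sum_sub_distrib]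
    exact Finset.sum_congr rfl fun j _ => h2 j
  unfold HH GS
  rw [h3]
  refine ev_ext fun U => ?_
  simp only [map_add, map_sub, map_neg, map_smul, map_mul, smul_eq_mul]
  ring

lemma nu_eq (φ : Sm L E) : nu φ = expS (-φ) * expS (-φ) := by
  refine ev_ext fun U => ?_
  rw [map_mul]
  show Real.exp (L.ev U (-(2 : ℝ) • φ)) = Real.exp (L.ev U (-φ)) * Real.exp (L.ev U (-φ))
  rw [← Real.exp_add, map_smul, map_neg, smul_eq_mul]
  congr 1
  ring

lemma en_eq (Q φ f : Sm L E) : en μ Q (f * expS (-φ)) =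
    1 / 2 * L.I μ (Gam (L.Dv (E := E)) f f * nu φ) + L.I μ (GS Q φ * (f * f) * nu φ) := by
  obtain ⟨u, hu⟩ : ∃ u : Sm L E, u = expS (-φ) := ⟨_, rfl⟩
  have h1 := (fnE L μ E).enr_eq 1 Q 0 (f * u) (f * u)
  have h2 : (fnE L μ E).enr 1 Q 0 (f * u) (f * u) = L.I μ (f * u * HH L.Dv 1 Q (f * u)) := by
    unfold Fn.enr
    rw [zero_smul, sub_zero]
  rw [h2, HH_mul] at h1
  have h3 := I_hX (D := L.Dv (E := E)) (L.I μ) (fun j u => I_D_zero μ j u) f f u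
  have h4 : HH L.Dv 1 Q u = GS Q φ * u := by rw [hu]; exact HH_expS Q φ
  have h5 : f * u * (f * HH L.Dv 1 Q u - (1 ^ 2 : ℝ) • XX L.Dv f u) =
      GS Q φ * (f * f) * (u * u) - f * u * XX L.Dv f u := by
    rw [h4, one_pow, one_smul]; ring
  rw [h5, map_sub, h3] at h1
  unfold en
  rw [nu_eq, ← hu]
  have h6 : L.I μ (Gam (L.Dv (E := E)) (f * u) (f * u)) =
    (fnE L μ E).I (Gam (fnE L μ E).D (f * u) (f * u)) := rfl
  have h7 : L.I μ (Q * (f * u * (f * u))) = (fnE L μ E).I (Q * (f * u * (f * u))) := rfl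
  rw [h6, h7]
  linarith

lemma expS_mul_neg (φ : Sm L E) : expS φ * expS (-φ) = 1 := by
  refine ev_ext fun U => ?_
  rw [map_mul, map_one]
  show Real.exp (L.ev U φ) * Real.exp (L.ev U (-φ)) = 1
  rw [← Real.exp_add, map_neg, add_neg_cancel, Real.exp_zero]

variable {Q φ : Sm L E} {Eθ δ : ℝ}

/-- lower bound of the energy -/
lemma en_lower (hE : ∀ U, |L.ev U (GS Q φ) - Eθ| ≤ δ) (F : Sm L E) :
    1 / 2 * L.I μ (Gam (L.Dv (E := E)) (F * expS φ) (F * expS φ) * nu φ) +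
      (Eθ - δ) * L.I μ (F * F) ≤ en μ Q F := by
  obtain ⟨f, hf⟩ : ∃ f : Sm L E, f = F * expS φ := ⟨_, rfl⟩
  have h1 : f * expS (-φ) = F := by rw [hf, mul_assoc, expS_mul_neg, mul_one]
  have h2 := en_eq μ Q φ f
  rw [h1] at h2
  rw [h2, ← hf]
  have h3 : (Eθ - δ) * L.I μ (F * F) ≤ L.I μ (GS Q φ * (f * f) * nu φ) := by
    rw [← smul_eq_mul, ← map_smul]
    refine I_mono μ fun U => ?_
    rw [map_smul, smul_eq_mul, map_mul (L.ev U) (GS Q φ * (f * f)), map_mul (L.ev U) (GS Q φ)]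
    have h4 : L.ev U (F * F) = L.ev U (f * f) * L.ev U (nu φ) := by
      rw [← map_mul, ← h1, nu_eq]
      congr 1; ring
    rw [h4]
    have h5 : 0 ≤ L.ev U (f * f) * L.ev U (nu φ) :=
      mul_nonneg (by rw [map_mul]; exact mul_self_nonneg _) (nu_pos φ U).le
    have h6 := (abs_le.1 (hE U)).1
    nlinarith
  linarith

/-- upper bound of the energy of the approximate ground state -/
lemma en_upper (hE : ∀ U, |L.ev U (GS Q φ) - Eθ| ≤ δ) :
    en μ Q (expS (-φ)) ≤ (Eθ + δ) * L.I μ (nu φ) := by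
  have h2 := en_eq μ Q φ 1
  rw [one_mul] at h2
  have h3 : Gam (L.Dv (E := E)) (1 : Sm L E) 1 = 0 := by
    unfold Gam
    refine Finset.sum_eq_zero fun j _ => ?_
    rw [Derivation.map_one_eq_zero, zero_mul]
  have h4 : (Eθ + δ) * L.I μ (nu φ) = L.I μ ((Eθ + δ) • nu φ) := by rw [map_smul, smul_eq_mul]
  rw [h2, h3, zero_mul, map_zero, mul_zero, zero_add, mul_one, mul_one, h4]
  refine I_mono μ fun U => ?_
  rw [map_smul, smul_eq_mul, map_mul]
  have h6 := (abs_le.1 (hE U)).2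
  exact mul_le_mul_of_nonneg_right (by linarith) (nu_pos φ U).le

lemma I_nu_pos (φ : Sm L E) : 0 < L.I μ (nu φ) := by
  have h1 : ∀ U, 0 ≤ (nu φ).1 U := fun U => (nu_pos φ U).le
  exact Continuous.integral_pos_of_hasCompactSupport_nonneg_nonzero (μ := ME μ E)
    (f := (nu φ).1) (x := fun _ => 1) (Sm_cont _) (HasCompactSupport.of_compactSpace _) h1
    (nu_pos φ _).ne'

end gen

variable {D l : ℕ} [NeZero l]

/-- the ground energy is at most `Eθ + δ` -/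
lemma ground_le {Q φ : Sm L (Ed D l)} {Eθ δ E0 : ℝ} (hE : ∀ U, |L.ev U (GS Q φ) - Eθ| ≤ δ)
    (hφ : Inv φ) (hE0 : ∀ u : Sm L (Ed D l), Inv u → E0 * L.I μ (u * u) ≤ en μ Q u) :
    E0 ≤ Eθ + δ := by
  have hinv : Inv (expS (-φ)) := fun γ => by
    have h1 : gs γ (expS (-φ)) = expS (gs γ (-φ)) := rfl
    rw [h1, map_neg, hφ]
  have h1 := hE0 _ hinv
  have h2 := en_upper μ hE
  rw [← nu_eq] at h1
  exact le_of_mul_le_mul_right (h1.trans h2) (I_nu_pos μ φ)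

/-- the approximate ground state with all its properties -/
lemma exists_gs {c h R : ℝ} (hD : 1 ≤ D) (hc : Cas L c) {a : ℝ} (ha : 0 ≤ a) (hh : 0 < h)
    (hh2 : h ^ 2 + a * (8 * (D - 1)) < c / 8 * h) (hR : 0 ≤ R) (hP : PathS L (Ed D l) R)
    {δ : ℝ} (hδ : 0 < δ) :
    ∃ (φ : Sm L (Ed D l)) (Eθ : ℝ), HB φ h ∧
      (∀ U, |L.ev U (GS (a • VT L D l) φ) - Eθ| ≤ δ) ∧ Inv φ ∧
      ∀ z : G, (∀ g, z * g = g * z) → ∀ i b, lm (zS (cutS i b) z) φ = φ := by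
  have hD1 : (0 : ℝ) ≤ D - 1 := by
    have : (1 : ℝ) ≤ D := by exact_mod_cast hD
    linarith
  have hQ : HB (a • VT L D l) (a * (8 * (D - 1))) := by
    intro U q
    have h1 := HB_VT (L := L) (l := l) hD U q
    have h2 : ∀ i, ∑ j, q j * L.ev U (L.Dv i (L.Dv j (a • VT L D l))) =
        a * ∑ j, q j * L.ev U (L.Dv i (L.Dv j (VT L D l))) := by
      intro i
      rw [Finset.mul_sum]
      refine Finset.sum_congr rfl fun j _ => ?_
      rw [Derivation.map_smul, Derivation.map_smul, map_smul, smul_eq_mul]; ring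
    rw [Finset.sum_congr rfl fun i _ => by rw [h2 i, mul_pow], ← Finset.mul_sum, mul_pow, mul_assoc]
    exact mul_le_mul_of_nonneg_left h1 (sq_nonneg a)
  obtain ⟨φ, Eθ, h1, h2, h3⟩ := ground hc (DFin_VT.smul a) hQ (by positivity) hh hh2 hR hP hδ
  refine ⟨φ, Eθ, h1, h2, fun γ => h3 (gs γ) ⟨gt γ, fun U F => rfl⟩ (Sym_gs γ a), ?_⟩
  intro z hz i b
  exact h3 (lm (zS (cutS i b) z)) ⟨fun U => zS (cutS i b) z * U, fun U F => rfl⟩ (Sym_lm hz i b a)

/-- the scaled energy of a complex function -/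
def en2 {E : Type*} [Fintype E] [DecidableEq E] (Q : Sm L E) (F : Sm L E × Sm L E) : ℝ :=
  en μ Q F.1 + en μ Q F.2

/-- **Mass gap**, complex wave functions. -/
theorem ks_gap (hN : 0 < N) {c h R R' : ℝ} (hD : 1 ≤ D) (hc : Cas L c) {a : ℝ} (ha : 0 ≤ a)
    (hh : 0 < h) (hh2 : h ^ 2 + a * (8 * (D - 1)) < c / 8 * h) (hhc : h < c / 8)
    (hR : 0 ≤ R) (hP : PathS L (Ed D l) R) (hP' : PathI L μ (Ed D l) R') {E0 : ℝ}
    (hE0 : ∀ u : Sm L (Ed D l), Inv u → E0 * L.I μ (u * u) ≤ en μ (a • VT L D l) u)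
    {P1 P2 : Sm L (Ed D l) × Sm L (Ed D l)}
    (h11 : L.I μ (P1.1 * P1.1) + L.I μ (P1.2 * P1.2) = 1)
    (h22 : L.I μ (P2.1 * P2.1) + L.I μ (P2.2 * P2.2) = 1)
    (h12 : L.I μ (P1.1 * P2.1) + L.I μ (P1.2 * P2.2) = 0)
    (h12' : L.I μ (P1.1 * P2.2) - L.I μ (P1.2 * P2.1) = 0) {E1 : ℝ}
    (hE1 : ∀ α β : ℂ, en2 μ (a • VT L D l) (cm α P1 + cm β P2) ≤
      E1 * (‖α‖ ^ 2 + ‖β‖ ^ 2)) :
    E0 + (c / 8 - h) ≤ E1 := by
  refine le_of_forall_pos_le_add fun δ hδ => ?_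
  obtain ⟨φ, Eθ, hφ, hE, hinv, -⟩ := exists_gs (L := L) (l := l) hD hc ha hh hh2 hR hP (half_pos hδ)
  -- the combination orthogonal to the ground state
  obtain ⟨u, hu⟩ : ∃ u : Sm L (Ed D l), u = expS (-φ) := ⟨_, rfl⟩
  obtain ⟨α, β, hαβ, hort⟩ : ∃ α β : ℂ, ‖α‖ ^ 2 + ‖β‖ ^ 2 = 1 ∧
      α * (⟨L.I μ (P1.1 * u), L.I μ (P1.2 * u)⟩ : ℂ) +
        β * (⟨L.I μ (P2.1 * u), L.I μ (P2.2 * u)⟩ : ℂ) = 0 := by
    obtain ⟨x, hx⟩ : ∃ x : ℂ, x = ⟨L.I μ (P1.1 * u), L.I μ (P1.2 * u)⟩ := ⟨_, rfl⟩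
    obtain ⟨y, hy⟩ : ∃ y : ℂ, y = ⟨L.I μ (P2.1 * u), L.I μ (P2.2 * u)⟩ := ⟨_, rfl⟩
    rw [← hx, ← hy]
    by_cases h0 : ‖x‖ ^ 2 + ‖y‖ ^ 2 = 0
    · have hx0 : x = 0 := by
        have : ‖x‖ ^ 2 = 0 := by nlinarith [sq_nonneg ‖x‖, sq_nonneg ‖y‖]
        simpa using this
      exact ⟨1, 0, by simp, by rw [hx0]; ring⟩
    · have hpos : 0 < ‖x‖ ^ 2 + ‖y‖ ^ 2 := lt_of_le_of_ne (by positivity) (Ne.symm h0)
      obtain ⟨r, hr⟩ : ∃ r, r = Real.sqrt (‖x‖ ^ 2 + ‖y‖ ^ 2) := ⟨_, rfl⟩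
      have hr2 : r ^ 2 = ‖x‖ ^ 2 + ‖y‖ ^ 2 := by rw [hr]; exact Real.sq_sqrt hpos.le
      have hr0 : 0 < r := by rw [hr]; exact Real.sqrt_pos.2 hpos
      refine ⟨y / r, -x / r, ?_, ?_⟩
      · rw [norm_div, norm_div, norm_neg, Complex.norm_real, Real.norm_of_nonneg hr0.le, div_pow,
          div_pow, ← add_div, hr2, add_comm, div_self hpos.ne']
      · ring
  obtain ⟨F, hF⟩ : ∃ F : Sm L (Ed D l) × Sm L (Ed D l), F = cm α P1 + cm β P2 := ⟨_, rfl⟩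
  have hF1 : F.1 = α.re • P1.1 - α.im • P1.2 + (β.re • P2.1 - β.im • P2.2) := by rw [hF]; rfl
  have hF2 : F.2 = α.im • P1.1 + α.re • P1.2 + (β.im • P2.1 + β.re • P2.2) := by rw [hF]; rfl
  have hnα : ‖α‖ ^ 2 = α.re ^ 2 + α.im ^ 2 := by
    rw [← Complex.normSq_eq_norm_sq, Complex.normSq_apply]; ring
  have hnβ : ‖β‖ ^ 2 = β.re ^ 2 + β.im ^ 2 := by
    rw [← Complex.normSq_eq_norm_sq, Complex.normSq_apply]; ring
  have hFF : L.I μ (F.1 * F.1) + L.I μ (F.2 * F.2) = 1 := by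
    have h1 : F.1 * F.1 + F.2 * F.2 =
        (α.re ^ 2 + α.im ^ 2) • (P1.1 * P1.1 + P1.2 * P1.2) +
        (β.re ^ 2 + β.im ^ 2) • (P2.1 * P2.1 + P2.2 * P2.2) +
        (2 * (α.re * β.re + α.im * β.im)) • (P1.1 * P2.1 + P1.2 * P2.2) -
        (2 * (α.re * β.im - α.im * β.re)) • (P1.1 * P2.2 - P1.2 * P2.1) := by
      refine ev_ext fun U => ?_
      rw [hF1, hF2]
      simp only [map_mul, map_add, map_sub, map_smul, smul_eq_mul]
      ring
    rw [← map_add, h1, map_sub, map_add, map_add, map_smul, map_smul, map_smul, map_smul,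
      map_add, map_add, map_add, map_sub, h11, h22, h12, h12']
    simp only [smul_eq_mul, mul_one, mul_zero, add_zero, sub_zero]
    rw [← hnα, ← hnβ]
    exact hαβ
  have hre := congrArg Complex.re hort
  have him := congrArg Complex.im hort
  simp only [Complex.add_re, Complex.mul_re, Complex.add_im, Complex.mul_im, Complex.zero_re,
    Complex.zero_im] at hre him
  have hFu1 : L.I μ (F.1 * u) = 0 := by
    rw [hF1]
    simp only [add_mul, sub_mul, smul_mul_assoc, map_add, map_sub, map_smul, smul_eq_mul]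
    linarith
  have hFu2 : L.I μ (F.2 * u) = 0 := by
    rw [hF2]
    simp only [add_mul, smul_mul_assoc, map_add, map_smul, smul_eq_mul]
    linarith
  have key : ∀ f : Sm L (Ed D l), L.I μ (f * u) = 0 →
      (c / 8 - h + (Eθ - δ / 2)) * L.I μ (f * f) ≤ en μ (a • VT L D l) f := by
    intro f hfu
    have h1 := en_lower μ hE f
    have h2 := gap_all μ hN hc hφ hh.le (κ := c / 8 - h) (by linarith) le_rfl hP' (f * expS φ) (by
      rw [nu_eq, ← hu]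
      have h3 : f * expS φ * (u * u) = f * u * (expS φ * u) := by ring
      rw [h3, hu, expS_mul_neg, mul_one, ← hu]
      exact hfu)
    have h3 : f * expS φ * (f * expS φ) * nu φ = f * f := by
      rw [nu_eq]
      have h4 : f * expS φ * (f * expS φ) * (expS (-φ) * expS (-φ)) =
        f * f * (expS φ * expS (-φ)) * (expS φ * expS (-φ)) := by ring
      rw [h4, expS_mul_neg, mul_one, mul_one]
    rw [h3] at h2
    linarith
  have h4 := hE1 α β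
  rw [← hF, hαβ, mul_one] at h4
  unfold en2 at h4
  have h5 := ground_le μ hE hinv hE0
  have h6 := key _ hFu1
  have h7 := key _ hFu2
  have h8 : (c / 8 - h + (Eθ - δ / 2)) * L.I μ (F.1 * F.1) +
      (c / 8 - h + (Eθ - δ / 2)) * L.I μ (F.2 * F.2) = c / 8 - h + (Eθ - δ / 2) := by
    rw [← mul_add, hFF, mul_one]
  linarith

/-- **Confinement.** -/
theorem ks_conf (hN : 0 < N) {c h R R' : ℝ} (hD : 1 ≤ D) (hc : Cas L c) {a : ℝ} (ha : 0 ≤ a)
    (hh : 0 < h) (hh2 : h ^ 2 + a * (8 * (D - 1)) < c / 8 * h) (hhc : h < c / 8)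
    (hR : 0 ≤ R) (hP : PathS L (Ed D l) R) (hP' : PathI L μ (Ed D l) R') {E0 : ℝ}
    (hE0 : ∀ u : Sm L (Ed D l), Inv u → E0 * L.I μ (u * u) ≤ en μ (a • VT L D l) u)
    {z : G} (hz : ∀ g, z * g = g * z) {m : ℕ} (hm : 0 < m) (hzm : z ^ m = 1) {w : ℂ} (hw : w ≠ 0)
    {q : (Fin D → ZMod l) → ℤ} (F : Sm L (Ed D l) × Sm L (Ed D l)) (hF : Chg z w q (toC F))
    {M : Fin D → ℕ}
    (hM : ∀ i a, (Finset.univ.filter fun a' => w ^ sg q i a' = w ^ sg q i a).card ≤ M i) :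
    (E0 + (c / 8 - h) * ∑ i, ((l : ℝ) - M i)) * (L.I μ (F.1 * F.1) + L.I μ (F.2 * F.2)) ≤
      en2 μ (a • VT L D l) F := by
  unfold en2
  obtain ⟨Z, hZ⟩ : ∃ Z, Z = L.I μ (F.1 * F.1) + L.I μ (F.2 * F.2) := ⟨_, rfl⟩
  have hZ0 : 0 ≤ Z := by rw [hZ]; exact add_nonneg (I_sq_nonneg μ _) (I_sq_nonneg μ _)
  refine le_of_forall_pos_le_add fun δ' hδ' => ?_
  obtain ⟨δ, hδ, hδδ⟩ : ∃ δ : ℝ, 0 < δ ∧ 2 * δ * Z ≤ δ' :=
    ⟨δ' / (2 * (Z + 1)), by positivity, by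
      have : 2 * (δ' / (2 * (Z + 1))) * Z = δ' * (Z / (Z + 1)) := by field_simp
      rw [this]
      have h1 : Z / (Z + 1) ≤ 1 := by rw [div_le_one (by positivity)]; linarith
      nlinarith⟩
  obtain ⟨φ, Eθ, hφ, hE, hinv, hcen⟩ := exists_gs (L := L) (l := l) hD hc ha hh hh2 hR hP hδ
  obtain ⟨f, hf⟩ : ∃ f : Sm L (Ed D l) × Sm L (Ed D l), f = (F.1 * expS φ, F.2 * expS φ) := ⟨_, rfl⟩
  have hchg : Chg z w q (toC f) := by
    intro s U
    have h1 : ∀ V, toC f V = (Real.exp (L.ev V φ) : ℂ) * toC F V := by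
      intro V
      rw [hf]
      refine Complex.ext ?_ ?_
      · rw [Complex.re_ofReal_mul]
        show L.ev V (F.1 * expS φ) = _
        rw [map_mul, mul_comm]; rfl
      · rw [Complex.im_ofReal_mul]
        show L.ev V (F.2 * expS φ) = _
        rw [map_mul, mul_comm]; rfl
    have h2 : L.ev (gt (gz z s) U) φ = L.ev U φ := by
      have h3 : L.ev (gt (gz z s) U) φ = L.ev U (gs (gz z s) φ) := rfl
      rw [h3, hinv]
    rw [h1, h1, h2, hF]
    ring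
  have hdir : ∀ i, (c / 8 - h) * ((l : ℝ) - M i) * b2 (bI μ φ) f f ≤
      1 / 2 * ∑ a : ZMod l, b2 (bG μ φ (cutS i a)) f f := fun i =>
    dir_ineq μ hN hc hφ hh.le (by linarith) le_rfl hP' hz hm hzm hw i (fun a => hcen z hz i a) f
      hchg (hM i)
  have hsum := Finset.sum_le_sum fun i (_ : i ∈ (Finset.univ : Finset (Fin D))) => hdir i
  rw [← Finset.mul_sum] at hsum
  have hbb : b2 (bI μ φ) f f = Z := by
    have h3 : ∀ F : Sm L (Ed D l), F * expS φ * (F * expS φ) * nu φ = F * F := fun F => by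
      rw [nu_eq]
      have h4 : F * expS φ * (F * expS φ) * (expS (-φ) * expS (-φ)) =
        F * F * (expS φ * expS (-φ)) * (expS φ * expS (-φ)) := by ring
      rw [h4, expS_mul_neg, mul_one, mul_one]
    unfold b2 bI
    rw [hf, hZ]
    dsimp only
    rw [h3, h3]
  have hG : ∀ g : Sm L (Ed D l), ∑ i : Fin D, ∑ a : ZMod l, bG μ φ (cutS i a) g g =
      L.I μ (Gam L.Dv g g * nu φ) := by
    intro g
    unfold bG
    rw [← Gam_cuts g g, Finset.sum_mul, map_sum]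
    refine Finset.sum_congr rfl fun i _ => ?_
    rw [Finset.sum_mul, map_sum]
  have hbG : ∑ i : Fin D, ∑ a : ZMod l, b2 (bG μ φ (cutS i a)) f f =
      L.I μ (Gam L.Dv f.1 f.1 * nu φ) + L.I μ (Gam L.Dv f.2 f.2 * nu φ) := by
    unfold b2
    simp only [Finset.sum_add_distrib]
    rw [hG, hG]
  have hl1 : ∑ i : Fin D, (c / 8 - h) * ((l : ℝ) - M i) * b2 (bI μ φ) f f =
      (c / 8 - h) * (∑ i, ((l : ℝ) - M i)) * Z := by
    rw [hbb, ← Finset.sum_mul, ← Finset.mul_sum]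
  rw [hl1, hbG] at hsum
  have h1 := en_lower μ hE F.1
  have h2 := en_lower μ hE F.2
  have h5 := ground_le μ hE hinv hE0
  have hf1 : F.1 * expS φ = f.1 := by rw [hf]
  have hf2 : F.2 * expS φ = f.2 := by rw [hf]
  rw [hf1] at h1
  rw [hf2] at h2
  rw [← hZ]
  have h6 : (Eθ - δ) * L.I μ (F.1 * F.1) + (Eθ - δ) * L.I μ (F.2 * F.2) = (Eθ - δ) * Z := by
    rw [hZ]; ring
  have h7 : (E0 - 2 * δ) * Z ≤ (Eθ - δ) * Z := mul_le_mul_of_nonneg_right (by linarith) hZ0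
  have h8 : (E0 + (c / 8 - h) * ∑ i, ((l : ℝ) - M i)) * Z =
      (E0 - 2 * δ) * Z + (c / 8 - h) * (∑ i, ((l : ℝ) - M i)) * Z + 2 * δ * Z := by ring
  rw [h8]
  linarith

end

end Run7.h208.KS
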