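import Pool.Agent.Run7.h208.KS.Base

/-!
# Piece ODE: linear ordinary differential equations in a finite dimensional stable subspace
-/

open MeasureTheory Matrix Set
open scoped Matrix.Norms.Frobenius ContDiff
open Pool.Agent.H906R3.YM

namespace Run7.h208.KS

set_option linter.unusedSectionVars false

noncomputable section

/-- Let `W` be a finitely generated subspace, stable under `M`, with `x₀ ∈ W`. Then `u' = M u`,
`u 0 = x₀` has a solution `u = ∑ x_i(t) b_i` with `b_i` in the span of the vectors `M ^ k x₀`.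
Proof: `W₀ = span {M ^ k x₀}` is a subspace of `W`, hence finitely generated, and `M`-stable;
choose generators `b`, a matrix `A` with `M b_i = ∑ A_ki b_k`, and `x t = exp (t A) x(0)`. -/
theorem lin_ode {V : Type*} [AddCommGroup V] [Module ℝ V] (M : V →ₗ[ℝ] V) (W : Submodule ℝ V)
    (hW : W.FG) (hM : ∀ v ∈ W, M v ∈ W) {x₀ : V} (hx : x₀ ∈ W) :
    ∃ (d : ℕ) (b : Fin d → V) (x y z : ℝ → Fin d → ℝ),
      (∀ i, b i ∈ Submodule.span ℝ (Set.range fun k : ℕ => (M ^ k) x₀)) ∧
      (∀ i t, HasDerivAt (fun s => x s i) (y t i) t) ∧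
      (∀ i t, HasDerivAt (fun s => y s i) (z t i) t) ∧
      ∑ i, x 0 i • b i = x₀ ∧
      (∀ t, ∑ i, y t i • b i = M (∑ i, x t i • b i)) ∧
      (∀ t, ∑ i, z t i • b i = M (∑ i, y t i • b i)) := by
  classical
  set W₀ : Submodule ℝ V := Submodule.span ℝ (Set.range fun k : ℕ => (M ^ k) x₀) with hW₀
  have hk : ∀ k, (M ^ k) x₀ ∈ W := by
    intro k
    induction k with
    | zero => simpa using hx
    | succ k ih =>
      rw [pow_succ', Module.End.mul_apply]
      exact hM _ ih
  have hle : W₀ ≤ W := Submodule.span_le.2 (by rintro _ ⟨k, rfl⟩; exact hk k)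
  have : Module.Finite ℝ W := Module.Finite.iff_fg.2 hW
  have : FiniteDimensional ℝ W₀ := Submodule.finiteDimensional_of_le hle
  have hMW : ∀ v ∈ W₀, M v ∈ W₀ := by
    intro v hv
    induction hv using Submodule.span_induction with
    | mem x h =>
      obtain ⟨k, rfl⟩ := h
      refine Submodule.subset_span ⟨k + 1, ?_⟩
      simp only [pow_succ', Module.End.mul_apply]
    | zero => rw [map_zero]; exact W₀.zero_mem
    | add u v _ _ hu hv => rw [map_add]; exact W₀.add_mem hu hv
    | smul c u _ hu => rw [map_smul]; exact W₀.smul_mem c hu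
  have hx₀ : x₀ ∈ W₀ := Submodule.subset_span ⟨0, by simp⟩
  let M₀ : W₀ →ₗ[ℝ] W₀ := M.restrict hMW
  let B := Module.finBasis ℝ W₀
  let e : W₀ ≃ₗ[ℝ] (Fin (Module.finrank ℝ W₀) → ℝ) := B.equivFun
  let A : (Fin (Module.finrank ℝ W₀) → ℝ) →L[ℝ] (Fin (Module.finrank ℝ W₀) → ℝ) :=
    LinearMap.toContinuousLinearMap (e.toLinearMap ∘ₗ M₀ ∘ₗ e.symm.toLinearMap)
  have hA : ∀ v, e.symm (A v) = M₀ (e.symm v) := by
    intro v
    show e.symm (e (M₀ (e.symm v))) = _
    rw [LinearEquiv.symm_apply_apply]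
  let x00 : Fin (Module.finrank ℝ W₀) → ℝ := e ⟨x₀, hx₀⟩
  let x : ℝ → Fin (Module.finrank ℝ W₀) → ℝ := fun t => (NormedSpace.exp (t • A)) x00
  have hxd : ∀ t, HasDerivAt x (A (x t)) t := by
    intro t
    have h1 := hasDerivAt_exp_smul_const' (𝕂 := ℝ) A t
    have h2 := h1.clm_apply (hasDerivAt_const t x00)
    simpa using h2
  have hyd : ∀ t, HasDerivAt (fun s => A (x s)) (A (A (x t))) t := by
    intro t
    exact A.hasFDerivAt.comp_hasDerivAt t (hxd t)
  have hsum : ∀ v : Fin (Module.finrank ℝ W₀) → ℝ, ∑ i, v i • ((B i : W₀) : V) =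
      ((e.symm v : W₀) : V) := by
    intro v
    rw [Module.Basis.equivFun_symm_apply]
    push_cast
    rfl
  refine ⟨Module.finrank ℝ W₀, fun i => (B i : V), x, fun t => A (x t), fun t => A (A (x t)),
    fun i => (B i).2, fun i t => hasDerivAt_pi.1 (hxd t) i, fun i t => hasDerivAt_pi.1 (hyd t) i,
    ?_, ?_, ?_⟩
  · rw [hsum]
    have : x 0 = x00 := by
      show (NormedSpace.exp ((0 : ℝ) • A)) x00 = x00
      rw [zero_smul, NormedSpace.exp_zero]
      rfl
    rw [this]
    show ((e.symm (e ⟨x₀, hx₀⟩) : W₀) : V) = x₀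
    rw [LinearEquiv.symm_apply_apply]
  · intro t
    rw [hsum, hsum, hA]
    rfl
  · intro t
    rw [hsum, hsum, hA]
    rfl

variable {G : Type*} [Group G] [TopologicalSpace G] {N n : ℕ} {L : LD G N n}
  {E : Type*} [Fintype E] [DecidableEq E]

/-- finite sums `∑ x_i(t) b_i` with differentiable coefficients -/
theorem sol_of_sum {T : ℝ} {k : ℕ} {d : ℕ} (b : Fin d → Sm L E) (x y : ℝ → Fin d → ℝ)
    (h : ∀ i t, HasDerivAt (fun s => x s i) (y t i) t) :
    Sol T k (fun t => ∑ i, x t i • b i) (fun t => ∑ i, y t i • b i) := by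
  intro α _
  have hD : ∀ w : Fin d → ℝ, Dw α (∑ i, w i • b i) = ∑ i, w i • Dw α (b i) := by
    intro w
    clear * -
    induction α with
    | nil => rfl
    | cons j α ih =>
      show L.Dv j (Dw α (∑ i, w i • b i)) = _
      rw [ih, map_sum]
      exact Finset.sum_congr rfl fun i _ => Derivation.map_smul _ _ _
  have hev : ∀ (U : E → G) (w : Fin d → ℝ),
      L.ev U (Dw α (∑ i, w i • b i)) = ∑ i, w i * L.ev U (Dw α (b i)) := by
    intro U w
    rw [hD, map_sum]
    exact Finset.sum_congr rfl fun i _ => by rw [map_smul, smul_eq_mul]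
  simp only [hev]
  refine ⟨?_, ?_⟩
  · refine Continuous.continuousOn ?_
    refine continuous_finsetSum _ fun i _ => ?_
    refine Continuous.mul ?_ ?_
    · have hc : Continuous fun s => x s i :=
        continuous_iff_continuousAt.2 fun t => (h i t).continuousAt
      exact hc.comp continuous_fst
    · exact (Sm_cont (Dw α (b i))).comp continuous_snd
  · intro U t _
    exact HasDerivWithinAt.fun_sum fun i _ => ((h i t).hasDerivWithinAt).mul_const _

/-- the operator `(A_0, …, A_m) ↦ (½ Δ A_j + Q A_{j-1})_j` (with `A_{-1} = 0`) of the Dyson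
series -/
def dys (Q : Sm L E) (m : ℕ) : (Fin (m + 1) → Sm L E) →ₗ[ℝ] (Fin (m + 1) → Sm L E) where
  toFun A := fun j => (1 / 2 : ℝ) • Lap (L.Dv (E := E)) (A j) +
    (if h : 0 < j.1 then Q * A ⟨j.1 - 1, by omega⟩ else 0)
  map_add' A B := by
    funext j
    have h1 : Lap (L.Dv (E := E)) ((A + B) j) =
        Lap (L.Dv (E := E)) (A j) + Lap (L.Dv (E := E)) (B j) := by
      unfold Lap
      rw [← Finset.sum_add_distrib]
      exact Finset.sum_congr rfl fun i _ => by rw [Pi.add_apply, map_add, map_add]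
    rw [h1, smul_add, Pi.add_apply]
    by_cases h : 0 < j.1
    · simp only [h, dif_pos, Pi.add_apply, mul_add]; abel
    · simp only [h, dif_neg, not_false_iff, add_zero]
  map_smul' c A := by
    funext j
    have h1 : Lap (L.Dv (E := E)) ((c • A) j) = c • Lap (L.Dv (E := E)) (A j) := by
      unfold Lap
      rw [Finset.smul_sum]
      exact Finset.sum_congr rfl fun i _ => by
        rw [Pi.smul_apply, Derivation.map_smul, Derivation.map_smul]
    rw [RingHom.id_apply, h1, smul_comm, Pi.smul_apply, smul_add]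
    by_cases h : 0 < j.1
    · simp only [h, dif_pos, Pi.smul_apply, mul_smul_comm]
    · simp only [h, dif_neg, not_false_iff, smul_zero]

lemma Dv_pow_stable {W : Submodule ℝ (Sm L E)} (hW : ∀ j, ∀ f ∈ W, L.Dv j f ∈ W) (k : ℕ) :
    ∀ j, ∀ f ∈ W ^ k, L.Dv j f ∈ W ^ k := by
  induction k with
  | zero =>
    intro j f hf
    rw [pow_zero] at hf ⊢
    obtain ⟨r, rfl⟩ := Submodule.mem_one.1 hf
    rw [Derivation.map_algebraMap]
    exact Submodule.zero_mem _
  | succ k ih =>
    intro j f hf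
    rw [pow_succ] at hf ⊢
    refine Submodule.mul_induction_on hf ?_ ?_
    · intro u hu v hv
      rw [Derivation.leibniz, smul_eq_mul, smul_eq_mul]
      refine Submodule.add_mem _ (Submodule.mul_mem_mul hu (hW j v hv)) ?_
      rw [mul_comm v]
      exact Submodule.mul_mem_mul (ih j u hu) hv
    · intro u v hu hv
      rw [map_add]
      exact Submodule.add_mem _ hu hv

lemma Lap_pow_stable {W : Submodule ℝ (Sm L E)} (hW : ∀ j, ∀ f ∈ W, L.Dv j f ∈ W) (k : ℕ)
    {f : Sm L E} (hf : f ∈ W ^ k) : Lap (L.Dv (E := E)) f ∈ W ^ k :=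
  Submodule.sum_mem _ fun j _ => Dv_pow_stable hW k j _ (Dv_pow_stable hW k j _ hf)

lemma dys_apply (Q : Sm L E) (m : ℕ) (A : Fin (m + 1) → Sm L E) (j : Fin (m + 1)) :
    dys Q m A j = (1 / 2 : ℝ) • Lap (L.Dv (E := E)) (A j) +
      (if h : 0 < j.1 then Q * A ⟨j.1 - 1, by omega⟩ else 0) := rfl

/-- `DFin Q` gives a finitely generated `dys`-stable space with the vector `(1, 0, …, 0)`:
`W_0 = span {1}`, `W_{j+1} = W_Q * W_j` (`Submodule.FG.mul`), `W = ∏ W_j`. -/
theorem dys_stable {Q : Sm L E} (hQ : DFin Q) (m : ℕ) :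
    ∃ W : Submodule ℝ (Fin (m + 1) → Sm L E), W.FG ∧ (∀ v ∈ W, dys Q m v ∈ W) ∧
      (Pi.single 0 1 : Fin (m + 1) → Sm L E) ∈ W := by
  obtain ⟨WQ, hfg, hQW, hD⟩ := hQ
  refine ⟨Submodule.pi Set.univ fun j : Fin (m + 1) => WQ ^ (j : ℕ),
    Submodule.fg_pi fun j => Submodule.FG.pow hfg _, ?_, ?_⟩
  · intro v hv j _
    have hv' : ∀ i : Fin (m + 1), v i ∈ WQ ^ (i : ℕ) := fun i => hv i trivial
    rw [dys_apply]
    refine Submodule.add_mem _ (Submodule.smul_mem _ _ (Lap_pow_stable hD _ (hv' j))) ?_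
    split_ifs with h
    · have h1 := hv' ⟨j.1 - 1, by omega⟩
      have h2 := Submodule.mul_mem_mul h1 hQW
      rw [← pow_succ, mul_comm] at h2
      have h3 : j.1 - 1 + 1 = (j : ℕ) := by omega
      simpa only [h3] using h2
    · exact Submodule.zero_mem _
  · intro j _
    by_cases h : j = 0
    · subst h
      rw [Pi.single_eq_same]
      show (1 : Sm L E) ∈ WQ ^ 0
      rw [pow_zero]
      exact Submodule.one_le.1 le_rfl
    · rw [Pi.single_eq_of_ne h]
      exact Submodule.zero_mem _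

/-- **The terms of the Dyson series.** `A' = B`, `B' = C` -/
theorem dyson {Q : Sm L E} (hQ : DFin Q) (m : ℕ) (T : ℝ) :
    ∃ A B C : ℕ → ℝ → Sm L E,
      (∀ j k, Sol T k (A j) (B j)) ∧ (∀ j k, Sol T k (B j) (C j)) ∧
      A 0 0 = 1 ∧ (∀ j, 0 < j → A j 0 = 0) ∧
      (∀ t, B 0 t = (1 / 2 : ℝ) • Lap (L.Dv (E := E)) (A 0 t)) ∧
      (∀ t, C 0 t = (1 / 2 : ℝ) • Lap (L.Dv (E := E)) (B 0 t)) ∧
      (∀ j, j < m → ∀ t, B (j + 1) t =
        (1 / 2 : ℝ) • Lap (L.Dv (E := E)) (A (j + 1) t) + Q * A j t) ∧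
      (∀ j, j < m → ∀ t, C (j + 1) t =
        (1 / 2 : ℝ) • Lap (L.Dv (E := E)) (B (j + 1) t) + Q * B j t) ∧
      (∀ S, Sym Q S → ∀ j t, S (A j t) = A j t) := by
  classical
  obtain ⟨W, hfg, hst, hmem⟩ := dys_stable hQ m
  obtain ⟨d, b, x, y, z, hb, hx, hy, h0, h1, h2⟩ := lin_ode (dys Q m) W hfg hst hmem
  let bb : ℕ → Fin d → Sm L E := fun j i => if h : j < m + 1 then b i ⟨j, h⟩ else 0
  have hbb : ∀ (j : ℕ) (h : j < m + 1) (w : Fin d → ℝ),
      ∑ i, w i • bb j i = (∑ i, w i • b i) ⟨j, h⟩ := by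
    intro j h w
    rw [Finset.sum_apply]
    refine Finset.sum_congr rfl fun i _ => ?_
    simp only [bb, dif_pos h, Pi.smul_apply]
  have hbz : ∀ (j : ℕ) (h : ¬ j < m + 1) (w : Fin d → ℝ), ∑ i, w i • bb j i = 0 := by
    intro j h w
    refine Finset.sum_eq_zero fun i _ => ?_
    simp only [bb, dif_neg h, smul_zero]
  refine ⟨fun j t => ∑ i, x t i • bb j i, fun j t => ∑ i, y t i • bb j i,
    fun j t => ∑ i, z t i • bb j i, fun j k => sol_of_sum (bb j) x y hx,
    fun j k => sol_of_sum (bb j) y z hy, ?_, ?_, ?_, ?_, ?_, ?_, ?_⟩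
  · simp only []
    rw [hbb 0 (by omega), h0]
    exact Pi.single_eq_same _ _
  · intro j hj
    simp only []
    by_cases h : j < m + 1
    · rw [hbb j h, h0]
      refine Pi.single_eq_of_ne ?_ _
      intro hh
      have := congrArg Fin.val hh
      simp at this
      omega
    · exact hbz j h _
  · intro t
    simp only []
    rw [hbb 0 (by omega), hbb 0 (by omega), h1, dys_apply]
    simp
  · intro t
    simp only []
    rw [hbb 0 (by omega), hbb 0 (by omega), h2, dys_apply]
    simp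
  · intro j hj t
    simp only []
    rw [hbb (j + 1) (by omega), hbb (j + 1) (by omega), hbb j (by omega), h1, dys_apply]
    simp
  · intro j hj t
    simp only []
    rw [hbb (j + 1) (by omega), hbb (j + 1) (by omega), hbb j (by omega), h2, dys_apply]
    simp
  · intro S hS j t
    have hfix : ∀ v : Fin (m + 1) → Sm L E, (∀ i, S (v i) = v i) →
        ∀ i, S (dys Q m v i) = dys Q m v i := by
      intro v hv i
      rw [dys_apply, map_add, map_smul, hS.lap, hv]
      congr 1
      split_ifs with h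
      · rw [hS.mul, hv]
      · rw [map_zero]
    have hpow : ∀ (k : ℕ) (i : Fin (m + 1)), S (((dys Q m) ^ k) (Pi.single 0 1) i) =
        ((dys Q m) ^ k) (Pi.single 0 1) i := by
      intro k
      induction k with
      | zero =>
        intro i
        rw [pow_zero, Module.End.one_apply]
        by_cases h : i = 0
        · subst h
          rw [Pi.single_eq_same]
          exact hS.one
        · rw [Pi.single_eq_of_ne h, map_zero]
      | succ k ih =>
        intro i
        rw [pow_succ', Module.End.mul_apply]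
        exact hfix _ ih i
    have hspan : ∀ v ∈ Submodule.span ℝ (Set.range fun k : ℕ =>
        ((dys Q m) ^ k) (Pi.single 0 1 : Fin (m + 1) → Sm L E)), ∀ i, S (v i) = v i := by
      intro v hv
      induction hv using Submodule.span_induction with
      | mem u hu =>
        obtain ⟨k, rfl⟩ := hu
        exact hpow k
      | zero => intro i; rw [Pi.zero_apply, map_zero]
      | add u v _ _ hu hv => intro i; rw [Pi.add_apply, map_add, hu, hv]
      | smul c u _ hu => intro i; rw [Pi.smul_apply, map_smul, hu]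
    simp only []
    rw [map_sum]
    refine Finset.sum_congr rfl fun i _ => ?_
    rw [map_smul]
    congr 1
    by_cases h : j < m + 1
    · simp only [bb, dif_pos h]
      exact hspan _ (hb i) _
    · simp only [bb, dif_neg h, map_zero]

end

end Run7.h208.KS
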