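import Pool.Agent.Run7.h208.KS.Base
import Pool.Agent.H906R3.YM.Trial

/-!
# Piece SOLC: calculus of time dependent functions (`Sol`), logarithm
-/

open MeasureTheory Matrix Set
open scoped Matrix.Norms.Frobenius ContDiff
open Pool.Agent.H906R3.YM

namespace Run7.h208.KS

set_option linter.unusedSectionVars false

noncomputable section

variable {G : Type*} [Group G] [TopologicalSpace G] {N n : ℕ} {L : LD G N n}
  {E : Type*} [Fintype E] [DecidableEq E] {T : ℝ} {k : ℕ}

lemma Dw_nil (f : Sm L E) : Dw [] f = f := rfl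

lemma Dw_cons (j : E × Fin n) (α : List (E × Fin n)) (f : Sm L E) :
    Dw (j :: α) f = L.Dv j (Dw α f) := rfl

lemma Dw_append (α β : List (E × Fin n)) (f : Sm L E) : Dw (α ++ β) f = Dw α (Dw β f) := by
  unfold Dw
  rw [List.foldr_append]

lemma Dw_add (α : List (E × Fin n)) (f g : Sm L E) : Dw α (f + g) = Dw α f + Dw α g := by
  induction α with
  | nil => rfl
  | cons j α ih => rw [Dw_cons, Dw_cons, Dw_cons, ih, map_add]

lemma Dw_smul (α : List (E × Fin n)) (c : ℝ) (f : Sm L E) : Dw α (c • f) = c • Dw α f := by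
  induction α with
  | nil => rfl
  | cons j α ih => rw [Dw_cons, Dw_cons, ih, Derivation.map_smul]

lemma Sol.mono {u v : ℝ → Sm L E} {k' : ℕ} (h : Sol T k u v) (hk : k' ≤ k) : Sol T k' u v :=
  fun α hα => h α (hα.trans hk)

lemma Sol.D {u v : ℝ → Sm L E} (h : Sol T (k + 1) u v) (j : E × Fin n) :
    Sol T k (fun t => L.Dv j (u t)) (fun t => L.Dv j (v t)) := by
  intro α hα
  have h1 := h (α ++ [j]) (by simp; exact hα)
  simp only [Dw_append] at h1
  exact h1

lemma Dw_zero (α : List (E × Fin n)) : Dw α (0 : Sm L E) = 0 := by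
  induction α with
  | nil => rfl
  | cons j α ih => rw [Dw_cons, ih, map_zero]

lemma Sol.const (f : Sm L E) : Sol T k (fun _ => f) (fun _ => 0) := by
  intro α _
  refine ⟨((Sm_cont (Dw α f)).comp continuous_snd).continuousOn, fun U t _ => ?_⟩
  rw [Dw_zero, map_zero]
  exact hasDerivWithinAt_const _ _ _

lemma Sol.add {u v u' v' : ℝ → Sm L E} (h : Sol T k u v) (h' : Sol T k u' v') :
    Sol T k (fun t => u t + u' t) (fun t => v t + v' t) := by
  intro α hα
  obtain ⟨c1, d1⟩ := h α hα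
  obtain ⟨c2, d2⟩ := h' α hα
  refine ⟨?_, fun U t ht => ?_⟩
  · have h1 := c1.add c2
    simp only [Dw_add, map_add]
    exact h1
  · have h1 := (d1 U t ht).add (d2 U t ht)
    simp only [Dw_add, map_add]
    exact h1

lemma Sol.smul {u v : ℝ → Sm L E} (h : Sol T k u v) (c : ℝ) :
    Sol T k (fun t => c • u t) (fun t => c • v t) := by
  intro α hα
  obtain ⟨c1, d1⟩ := h α hα
  refine ⟨?_, fun U t ht => ?_⟩
  · have h1 := c1.const_smul c
    simp only [Dw_smul, map_smul]
    exact h1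
  · have h1 := (d1 U t ht).const_smul c
    simp only [Dw_smul, map_smul]
    exact h1

lemma Sol.sum {ι : Type*} (s : Finset ι) {u v : ι → ℝ → Sm L E} (h : ∀ i ∈ s, Sol T k (u i) (v i)) :
    Sol T k (fun t => ∑ i ∈ s, u i t) (fun t => ∑ i ∈ s, v i t) := by
  classical
  induction s using Finset.induction_on with
  | empty =>
    simp only [Finset.sum_empty]
    exact Sol.const 0
  | insert a s ha ih =>
    simp only [Finset.sum_insert ha]
    exact (h a (Finset.mem_insert_self a s)).add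
      (ih fun i hi => h i (Finset.mem_insert_of_mem hi))

lemma Sol.of_succ {u v : ℝ → Sm L E} (h0 : Sol T 0 u v)
    (h : ∀ j, Sol T k (fun t => L.Dv j (u t)) (fun t => L.Dv j (v t))) : Sol T (k + 1) u v := by
  intro α hα
  rcases List.eq_nil_or_concat α with rfl | ⟨β, j, rfl⟩
  · exact h0 [] (by simp)
  · have h1 := h j β (by simpa using hα)
    rw [List.concat_eq_append]
    simp only [Dw_append]
    exact h1

lemma Sol.congr {u v v' : ℝ → Sm L E} (h : Sol T k u v) (h' : ∀ t ∈ Icc 0 T, v t = v' t) :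
    Sol T k u v' := by
  intro α hα
  obtain ⟨c1, d1⟩ := h α hα
  refine ⟨c1, fun U t ht => ?_⟩
  rw [← h' t ht]
  exact d1 U t ht

lemma Sol.congr_left {u u' v : ℝ → Sm L E} (h : Sol T k u v) (h' : ∀ t ∈ Icc 0 T, u' t = u t) :
    Sol T k u' v := by
  intro α hα
  obtain ⟨c1, d1⟩ := h α hα
  refine ⟨c1.congr fun p hp => ?_, fun U t ht => (d1 U t ht).congr (fun s hs => ?_) ?_⟩
  · rw [h' p.1 hp.1]
  · rw [h' s hs]
  · rw [h' t ht]

/-- by induction on `k`: for a word `α ++ [j]` use `D_j (u u') = D_j u * u' + u * D_j u'` -/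
lemma Sol.mul {u v u' v' : ℝ → Sm L E} (h : Sol T k u v) (h' : Sol T k u' v') :
    Sol T k (fun t => u t * u' t) (fun t => v t * u' t + u t * v' t) := by
  induction k generalizing u v u' v' with
  | zero =>
    intro α hα
    obtain rfl : α = [] := List.eq_nil_of_length_eq_zero (by simpa using hα)
    obtain ⟨c1, d1⟩ := h [] (by simp)
    obtain ⟨c2, d2⟩ := h' [] (by simp)
    simp only [Dw_nil] at c1 d1 c2 d2 ⊢
    refine ⟨?_, fun U t ht => ?_⟩
    · simp only [map_mul]
      exact c1.mul c2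
    · simp only [map_mul, map_add]
      exact (d1 U t ht).mul (d2 U t ht)
  | succ k ih =>
    refine Sol.of_succ ((ih (h.mono (Nat.le_succ k)) (h'.mono (Nat.le_succ k))).mono
      (Nat.zero_le _)) fun j => ?_
    have h1 := ih (h.D j) (h'.mono (Nat.le_succ k))
    have h2 := ih (h.mono (Nat.le_succ k)) (h'.D j)
    have h3 := h1.add h2
    refine (h3.congr_left fun t _ => ?_).congr fun t _ => ?_
    · rw [Derivation.leibniz, smul_eq_mul, smul_eq_mul]; ring
    · rw [map_add, Derivation.leibniz, Derivation.leibniz]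
      simp only [smul_eq_mul]; ring


/-- minus the logarithm of a positive smooth function, through a smooth function on `ℝ` equal to
`-log x` for `x ≥ m` (use `Real.smoothTransition`) -/
theorem exists_log [CompactSpace G] {u : Sm L E} (hu : ∀ U, 0 < L.ev U u) :
    ∃ φ : Sm L E, ∀ U, L.ev U φ = -Real.log (L.ev U u) := by
  obtain ⟨m, hm, hmu⟩ : ∃ m : ℝ, 0 < m ∧ ∀ U, m ≤ L.ev U u := by
    obtain ⟨U0, _, h0⟩ := isCompact_univ.exists_isMinOn (univ_nonempty (α := E → G))
      (Sm_cont u).continuousOn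
    exact ⟨L.ev U0 u, hu U0, fun U => h0 (mem_univ U)⟩
  set g : ℝ → ℝ := fun x => Real.smoothTransition ((x - m / 2) / (m / 2)) with hg
  have hgs : ContDiff ℝ ∞ g := by
    refine Real.smoothTransition.contDiff.comp ?_
    exact (contDiff_id.sub contDiff_const).div_const _
  have hg0 : ∀ x, x ≤ m / 2 → g x = 0 := fun x hx => by
    refine Real.smoothTransition.zero_of_nonpos ?_
    exact div_nonpos_of_nonpos_of_nonneg (by linarith) (by linarith)
  have hg1 : ∀ x, m ≤ x → g x = 1 := fun x hx => by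
    refine Real.smoothTransition.one_of_one_le ?_
    rw [le_div_iff₀ (by linarith)]
    linarith
  have hf : ContDiff ℝ ∞ (fun x => -(g x * Real.log x)) := by
    rw [contDiff_iff_contDiffAt]
    intro x
    rcases le_or_gt x (m / 4) with hx | hx
    · have h1 : (fun x => -(g x * Real.log x)) =ᶠ[nhds x] fun _ => (0 : ℝ) := by
        filter_upwards [Iio_mem_nhds (show x < m / 2 by linarith)] with y hy
        rw [hg0 y (le_of_lt hy)]
        simp
      exact contDiffAt_const.congr_of_eventuallyEq h1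
    · have hx0 : x ≠ 0 := by
        have h4 : 0 < m / 4 := by linarith
        exact (lt_trans h4 hx).ne'
      exact (hgs.contDiffAt.mul (Real.contDiffAt_log.2 hx0)).neg
  obtain ⟨F, f, hFf, hF⟩ := u
  refine ⟨⟨fun U => -(g (F U) * Real.log (F U)), fun M => -(g (f M) * Real.log (f M)),
    hf.comp hFf, fun U => by simp only [hF]⟩, fun U => ?_⟩
  have h1 : m ≤ F U := hmu U
  show -(g (F U) * Real.log (F U)) = -Real.log (F U)
  rw [hg1 _ h1, one_mul]

lemma ev_exp_log {u φ : Sm L E} {U : E → G} (hu : 0 < L.ev U u)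
    (hφ : L.ev U φ = -Real.log (L.ev U u)) : L.ev U (expS φ) = (L.ev U u)⁻¹ := by
  show Real.exp (φ.1 U) = _
  have h1 : φ.1 U = -Real.log (L.ev U u) := hφ
  rw [h1, Real.exp_neg, Real.exp_log hu]

lemma mul_exp_log {u φ : Sm L E} (hu : ∀ U, 0 < L.ev U u)
    (hφ : ∀ U, L.ev U φ = -Real.log (L.ev U u)) : u * expS φ = 1 := by
  refine ev_ext (L := L) fun U => ?_
  rw [map_mul, ev_exp_log (hu U) (hφ U), map_one, mul_inv_cancel₀ (hu U).ne']

lemma Dv_log {u φ : Sm L E} (hu : ∀ U, 0 < L.ev U u)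
    (hφ : ∀ U, L.ev U φ = -Real.log (L.ev U u)) (j : E × Fin n) :
    L.Dv j φ = -(L.Dv j u * expS φ) := by
  have h1 := mul_exp_log hu hφ
  have h2 := congrArg (L.Dv j) h1
  rw [Derivation.leibniz, Derivation.map_one_eq_zero, Dv_expS, smul_eq_mul, smul_eq_mul] at h2
  have h3 : u * (expS φ * L.Dv j φ) = L.Dv j φ := by rw [← mul_assoc, h1, one_mul]
  rw [h3] at h2
  rw [eq_neg_iff_add_eq_zero, mul_comm (L.Dv j u)]
  exact h2

lemma Dv_exp_log {u φ : Sm L E} (hu : ∀ U, 0 < L.ev U u)
    (hφ : ∀ U, L.ev U φ = -Real.log (L.ev U u)) (j : E × Fin n) :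
    L.Dv j (expS φ) = -(L.Dv j u * (expS φ * expS φ)) := by
  rw [Dv_expS, Dv_log hu hφ]
  ring

/-- `exp (φ t) = 1 / u t`; by induction on `k`, `D_j (1 / u) = - D_j u / u ^ 2` -/
theorem Sol.inv {u v φ : ℝ → Sm L E} (h : Sol T k u v) (hu : ∀ t ∈ Icc 0 T, ∀ U, 0 < L.ev U (u t))
    (hφ : ∀ t ∈ Icc 0 T, ∀ U, L.ev U (φ t) = -Real.log (L.ev U (u t))) :
    Sol T k (fun t => expS (φ t)) (fun t => -(v t * (expS (φ t) * expS (φ t)))) := by
  induction k with
  | zero =>
    intro α hα
    obtain rfl : α = [] := List.eq_nil_of_length_eq_zero (by simpa using hα)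
    obtain ⟨c1, d1⟩ := h [] (by simp)
    simp only [Dw_nil] at c1 d1 ⊢
    have hw : ∀ t ∈ Icc 0 T, ∀ U, L.ev U (expS (φ t)) = (L.ev U (u t))⁻¹ := fun t ht U =>
      ev_exp_log (hu t ht U) (hφ t ht U)
    refine ⟨(c1.inv₀ fun p hp => (hu p.1 hp.1 p.2).ne').congr fun p hp => hw p.1 hp.1 p.2,
      fun U t ht => ?_⟩
    have h1 := (d1 U t ht).fun_inv (hu t ht U).ne'
    refine (h1.congr (fun s hs => hw s hs U) (hw t ht U)).congr_deriv ?_
    rw [map_neg, map_mul, map_mul, hw t ht U]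
    field_simp
  | succ k ih =>
    have ih := ih (h.mono (Nat.le_succ k))
    refine Sol.of_succ (ih.mono (Nat.zero_le _)) fun j => ?_
    have h1 := ((h.D j).mul (ih.mul ih)).smul (-1)
    refine (h1.congr_left fun t ht => ?_).congr fun t ht => ?_
    · rw [Dv_exp_log (hu t ht) (hφ t ht), neg_one_smul]
    · simp only [map_neg, Derivation.leibniz, smul_eq_mul, Dv_exp_log (hu t ht) (hφ t ht), neg_smul,
        one_smul]
      ring

/-- `φ t = - log (u t)` -/
theorem Sol.log {u v φ : ℝ → Sm L E} (h : Sol T k u v) (hu : ∀ t ∈ Icc 0 T, ∀ U, 0 < L.ev U (u t))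
    (hφ : ∀ t ∈ Icc 0 T, ∀ U, L.ev U (φ t) = -Real.log (L.ev U (u t))) :
    Sol T k φ (fun t => -(v t * expS (φ t))) := by
  have h0 : Sol T 0 φ (fun t => -(v t * expS (φ t))) := by
    intro α hα
    obtain rfl : α = [] := List.eq_nil_of_length_eq_zero (by simpa using hα)
    obtain ⟨c1, d1⟩ := h [] (by simp)
    simp only [Dw_nil] at c1 d1 ⊢
    refine ⟨((c1.log fun p hp => (hu p.1 hp.1 p.2).ne').neg).congr fun p hp => hφ p.1 hp.1 p.2,
      fun U t ht => ?_⟩
    have h1 := ((d1 U t ht).log (hu t ht U).ne').neg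
    refine (h1.congr (fun s hs => hφ s hs U) (hφ t ht U)).congr_deriv ?_
    rw [map_neg, map_mul, ev_exp_log (hu t ht U) (hφ t ht U)]
    rw [div_eq_mul_inv]
  cases k with
  | zero => exact h0
  | succ k =>
    refine Sol.of_succ h0 fun j => ?_
    have hi := Sol.inv (h.mono (Nat.le_succ k)) hu hφ
    have h1 := ((h.D j).mul hi).smul (-1)
    refine (h1.congr_left fun t ht => ?_).congr fun t ht => ?_
    · rw [Dv_log (hu t ht) (hφ t ht), neg_one_smul]
    · simp only [map_neg, Derivation.leibniz, smul_eq_mul, Dv_exp_log (hu t ht) (hφ t ht), neg_smul,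
        one_smul]
      ring

end

end Run7.h208.KS
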