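import Pool.Agent.Run7.h208.KS.MaxP
import Pool.Agent.Run7.h208.KS.SolC
import Pool.Agent.Run7.h208.KS.Boch
import Pool.Agent.Run7.h208.KS.Ode
import Pool.Agent.H906R3.YM.Equi

/-!
# Piece FLOW: the flow `u' = - (Q - Δ/2) u`, `u 0 = 1`, up to a small error
-/

open MeasureTheory Matrix Set
open scoped Matrix.Norms.Frobenius ContDiff
open Pool.Agent.H906R3.YM

namespace Run7.h208.KS

set_option linter.unusedSectionVars false

noncomputable section

variable {G : Type*} [Group G] [TopologicalSpace G] {N n : ℕ} {L : LD G N n}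
  {E : Type*} [Fintype E] [DecidableEq E]

/-- one-sided form of the heat bound -/
lemma heat_one [CompactSpace G] {T : ℝ} (hT : 0 ≤ T) {A B F : ℝ → Sm L E}
    (hc : ContinuousOn (fun p : ℝ × (E → G) => L.ev p.2 (A p.1)) (Icc 0 T ×ˢ univ))
    (hd : ∀ U, ∀ t ∈ Icc 0 T, HasDerivWithinAt (fun s => L.ev U (A s)) (L.ev U (B t)) (Icc 0 T) t)
    (hB : ∀ t ∈ Icc 0 T, B t = (1 / 2 : ℝ) • Lap (L.Dv (E := E)) (A t) + F t) {b b' : ℝ → ℝ}
    (hb : ∀ t ∈ Icc 0 T, HasDerivWithinAt b (b' t) (Icc 0 T) t)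
    (h0 : ∀ U, L.ev U (A 0) ≤ b 0) (hF : ∀ t ∈ Icc 0 T, ∀ U, L.ev U (F t) ≤ b' t) :
    ∀ t ∈ Icc 0 T, ∀ U, L.ev U (A t) ≤ b t := by
  intro t ht U
  have key : ∀ η : ℝ, 0 < η → L.ev U (A t) < b t + η * (1 + t) := by
    intro η hη
    refine maxp (X := E → G) hT (W := fun t U => L.ev U (A t)) (W' := fun t U => L.ev U (B t))
      (B := fun t => b t + η * (1 + t)) (B' := fun t => b' t + η) hc hd ?_ ?_ ?_ t ht U
    · intro t ht
      have h1 : HasDerivWithinAt (fun t : ℝ => η * (1 + t)) η (Icc 0 T) t := by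
        have := ((hasDerivAt_id t).const_add 1).const_mul η
        simpa using this.hasDerivWithinAt
      exact (hb t ht).add h1
    · intro U
      have := h0 U
      show L.ev U (A 0) < b 0 + η * (1 + 0)
      linarith
    · intro t ht U hU hmax
      have h1 : ∀ V, L.ev V (A t) ≤ L.ev U (A t) := fun V => by
        have := hmax V
        rw [← hU] at this
        exact this
      have h2 := sp_max_lap h1
      have h3 := hF t ht U
      show L.ev U (B t) < b' t + η
      rw [hB t ht, map_add, map_smul, smul_eq_mul]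
      linarith
  have ht0 : 0 ≤ t := ht.1
  by_contra hcon
  rw [not_le] at hcon
  have h1 : 0 < (L.ev U (A t) - b t) / (1 + t) := div_pos (by linarith) (by linarith)
  have h2 := key _ h1
  rw [div_mul_cancel₀ _ (by linarith : (1 + t) ≠ 0)] at h2
  linarith

/-- `A' = ½ Δ A + F`, `|A 0| ≤ a`, `|F t| ≤ b' t`, `b 0 = a` imply `|A t| ≤ b t`: the maximum
principle `maxp` for `±A` with the barriers `b t + η (1 + t)`, `η → 0`. -/
theorem heat_bound [CompactSpace G] {T : ℝ} (hT : 0 ≤ T) {A B F : ℝ → Sm L E} (hS : Sol T 0 A B)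
    (hB : ∀ t ∈ Icc 0 T, B t = (1 / 2 : ℝ) • Lap (L.Dv (E := E)) (A t) + F t) {b b' : ℝ → ℝ}
    (hb : ∀ t ∈ Icc 0 T, HasDerivWithinAt b (b' t) (Icc 0 T) t)
    (h0 : ∀ U, |L.ev U (A 0)| ≤ b 0) (hF : ∀ t ∈ Icc 0 T, ∀ U, |L.ev U (F t)| ≤ b' t) :
    ∀ t ∈ Icc 0 T, ∀ U, |L.ev U (A t)| ≤ b t := by
  obtain ⟨hc, hd⟩ := hS [] (by simp)
  simp only [Dw_nil] at hc hd
  intro t ht U
  have h1 := heat_one hT hc hd hB hb (fun U => (abs_le.1 (h0 U)).2)
    (fun t ht U => (abs_le.1 (hF t ht U)).2) t ht U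
  have h2 := heat_one (A := fun t => -A t) (B := fun t => -B t) (F := fun t => -F t) hT
    (hc.neg.congr fun p _ => map_neg _ _)
    (by
      intro U t ht
      have e : (fun s => L.ev U (-A s)) = -(fun s => L.ev U (A s)) := by
        funext s; exact map_neg _ _
      show HasDerivWithinAt (fun s => L.ev U (-A s)) (L.ev U (-B t)) (Icc 0 T) t
      rw [e, map_neg]
      exact (hd U t ht).neg)
    (by
      intro t ht
      show -B t = (1 / 2 : ℝ) • Lap (L.Dv (E := E)) (-A t) + -F t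
      have h3 : Lap (L.Dv (E := E)) (-A t) = -Lap (L.Dv (E := E)) (A t) := by
        unfold Lap
        rw [← Finset.sum_neg_distrib]
        exact Finset.sum_congr rfl fun i _ => by rw [map_neg, map_neg]
      rw [h3, hB t ht, smul_neg, neg_add]) hb
    (fun U => by
      show L.ev U (-A 0) ≤ b 0
      rw [map_neg]
      have := (abs_le.1 (h0 U)).1
      linarith)
    (fun t ht U => by
      show L.ev U (-F t) ≤ b' t
      rw [map_neg]
      have := (abs_le.1 (hF t ht U)).1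
      linarith) t ht U
  have h3 : L.ev U (-A t) = -L.ev U (A t) := map_neg _ _
  rw [h3] at h2
  exact abs_le.2 ⟨by linarith, h1⟩

lemma C2.nonneg {u : Sm L E} {K : ℝ} (hu : C2 u K) : 0 ≤ K :=
  (abs_nonneg _).trans (hu (fun _ => 1)).1

theorem C2.mul {u v : Sm L E} {K K' : ℝ} (hu : C2 u K) (hv : C2 v K') : C2 (u * v) (4 * K * K') := by
  have hK := hu.nonneg
  have hK' := hv.nonneg
  have hKK : 0 ≤ K * K' := mul_nonneg hK hK'
  have hm : ∀ a b : ℝ, |a| ≤ K → |b| ≤ K' → |a * b| ≤ K * K' := fun a b ha hb => by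
    rw [abs_mul]; exact mul_le_mul ha hb (abs_nonneg _) hK
  intro U
  obtain ⟨hu0, hu1⟩ := hu U
  obtain ⟨hv0, hv1⟩ := hv U
  refine ⟨?_, fun i => ⟨?_, fun j => ?_⟩⟩
  · rw [map_mul]
    have := hm _ _ hu0 hv0
    linarith
  · rw [Derivation.leibniz, smul_eq_mul, smul_eq_mul, map_add, map_mul, map_mul]
    have h1 := hm _ _ hu0 (hv1 i).1
    have h2 := hm _ _ (hu1 i).1 hv0
    rw [mul_comm] at h2
    have h3 := abs_add_le (L.ev U u * L.ev U (L.Dv i v)) (L.ev U v * L.ev U (L.Dv i u))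
    linarith
  · have e1 : L.ev U (L.Dv i (L.Dv j (u * v))) =
        (L.ev U u * L.ev U (L.Dv i (L.Dv j v)) + L.ev U (L.Dv i u) * L.ev U (L.Dv j v)) +
        (L.ev U (L.Dv j u) * L.ev U (L.Dv i v) + L.ev U (L.Dv i (L.Dv j u)) * L.ev U v) := by
      rw [Derivation.leibniz, map_add, smul_eq_mul, smul_eq_mul, Derivation.leibniz,
        Derivation.leibniz, map_add, map_add, map_add]
      simp only [smul_eq_mul, map_mul]
      ring
    rw [e1]
    have h1 := hm _ _ hu0 ((hv1 i).2 j)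
    have h2 := hm _ _ (hu1 i).1 (hv1 j).1
    have h3 := hm _ _ (hu1 j).1 (hv1 i).1
    have h4 := hm _ _ ((hu1 i).2 j) hv0
    have a1 := abs_add_le (L.ev U u * L.ev U (L.Dv i (L.Dv j v)) +
      L.ev U (L.Dv i u) * L.ev U (L.Dv j v))
      (L.ev U (L.Dv j u) * L.ev U (L.Dv i v) + L.ev U (L.Dv i (L.Dv j u)) * L.ev U v)
    have a2 := abs_add_le (L.ev U u * L.ev U (L.Dv i (L.Dv j v)))
      (L.ev U (L.Dv i u) * L.ev U (L.Dv j v))
    have a3 := abs_add_le (L.ev U (L.Dv j u) * L.ev U (L.Dv i v))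
      (L.ev U (L.Dv i (L.Dv j u)) * L.ev U v)
    linarith

theorem C2.add {u v : Sm L E} {K K' : ℝ} (hu : C2 u K) (hv : C2 v K') : C2 (u + v) (K + K') := by
  intro U
  obtain ⟨hu0, hu1⟩ := hu U
  obtain ⟨hv0, hv1⟩ := hv U
  refine ⟨?_, fun i => ⟨?_, fun j => ?_⟩⟩
  · rw [map_add]
    exact (abs_add_le _ _).trans (add_le_add hu0 hv0)
  · rw [map_add, map_add]
    exact (abs_add_le _ _).trans (add_le_add (hu1 i).1 (hv1 i).1)
  · rw [map_add, map_add, map_add]
    exact (abs_add_le _ _).trans (add_le_add ((hu1 i).2 j) ((hv1 i).2 j))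

theorem C2.smul {u : Sm L E} {K : ℝ} (hu : C2 u K) (c : ℝ) : C2 (c • u) (|c| * K) := by
  intro U
  obtain ⟨hu0, hu1⟩ := hu U
  have hm : ∀ a : ℝ, |a| ≤ K → |c * a| ≤ |c| * K := fun a ha => by
    rw [abs_mul]; exact mul_le_mul_of_nonneg_left ha (abs_nonneg _)
  refine ⟨?_, fun i => ⟨?_, fun j => ?_⟩⟩
  · rw [map_smul, smul_eq_mul]; exact hm _ hu0
  · rw [Derivation.map_smul, map_smul, smul_eq_mul]; exact hm _ (hu1 i).1
  · rw [Derivation.map_smul, Derivation.map_smul, map_smul, smul_eq_mul]; exact hm _ ((hu1 i).2 j)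

theorem C2.mono {u : Sm L E} {K K' : ℝ} (hu : C2 u K) (h : K ≤ K') : C2 u K' := by
  intro U
  obtain ⟨hu0, hu1⟩ := hu U
  exact ⟨hu0.trans h, fun i => ⟨(hu1 i).1.trans h, fun j => ((hu1 i).2 j).trans h⟩⟩

lemma C2.zero : C2 (0 : Sm L E) 0 := by
  intro U
  simp

lemma C2.one : C2 (1 : Sm L E) 1 := by
  intro U
  refine ⟨by simp, fun i => ⟨?_, fun j => ?_⟩⟩
  · rw [Derivation.map_one_eq_zero]; simp
  · rw [Derivation.map_one_eq_zero]; simp

lemma exists_bd [CompactSpace G] (u : Sm L E) : ∃ K, 0 ≤ K ∧ ∀ U, |L.ev U u| ≤ K := by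
  have hcont := Sm_cont u
  obtain ⟨C, hC⟩ := (isCompact_univ.image hcont.norm).bddAbove
  refine ⟨max C 0, le_max_right _ _, fun U => ?_⟩
  exact (hC ⟨U, trivial, rfl⟩ : |u.1 U| ≤ C).trans (le_max_left _ _)

/-- smooth functions on the compact space are bounded together with their derivatives -/
theorem exists_C2 [CompactSpace G] (u : Sm L E) : ∃ K, 0 < K ∧ C2 u K := by
  obtain ⟨K0, hK0, h0⟩ := exists_bd u
  choose K1 hK1 h1 using fun i => exists_bd (L.Dv i u)
  choose K2 hK2 h2 using fun (p : (E × Fin n) × (E × Fin n)) => exists_bd (L.Dv p.1 (L.Dv p.2 u))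
  have s1 : ∀ i, K1 i ≤ ∑ i, K1 i := fun i =>
    Finset.single_le_sum (fun i _ => hK1 i) (Finset.mem_univ i)
  have s2 : ∀ p, K2 p ≤ ∑ p, K2 p := fun p =>
    Finset.single_le_sum (fun p _ => hK2 p) (Finset.mem_univ p)
  have n1 : 0 ≤ ∑ i, K1 i := Finset.sum_nonneg fun i _ => hK1 i
  have n2 : 0 ≤ ∑ p, K2 p := Finset.sum_nonneg fun p _ => hK2 p
  refine ⟨1 + K0 + ∑ i, K1 i + ∑ p, K2 p, by linarith, fun U => ⟨?_, fun i => ⟨?_, fun j => ?_⟩⟩⟩
  · have := h0 U; linarith
  · have := h1 i U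
    have := s1 i
    linarith
  · have := h2 (i, j) U
    have := s2 (i, j)
    simp only at *
    linarith

/-- the same bound for all derivatives of order at most two (`lap_comm` or `Lap_Dv`) -/
theorem heat_C2 [CompactSpace G] {T : ℝ} (hT : 0 ≤ T) {A B F : ℝ → Sm L E} (hS : Sol T 2 A B)
    (hB : ∀ t ∈ Icc 0 T, B t = (1 / 2 : ℝ) • Lap (L.Dv (E := E)) (A t) + F t) {b b' : ℝ → ℝ}
    (hb : ∀ t ∈ Icc 0 T, HasDerivWithinAt b (b' t) (Icc 0 T) t)
    (h0 : C2 (A 0) (b 0)) (hF : ∀ t ∈ Icc 0 T, C2 (F t) (b' t)) :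
    ∀ t ∈ Icc 0 T, C2 (A t) (b t) := by
  have hD : ∀ i : E × Fin n, ∀ t ∈ Icc 0 T, L.Dv i (B t) =
      (1 / 2 : ℝ) • Lap (L.Dv (E := E)) (L.Dv i (A t)) + L.Dv i (F t) := by
    intro i t ht
    rw [hB t ht, map_add, Derivation.map_smul, Lap_Dv]
  have hDD : ∀ i j : E × Fin n, ∀ t ∈ Icc 0 T, L.Dv i (L.Dv j (B t)) =
      (1 / 2 : ℝ) • Lap (L.Dv (E := E)) (L.Dv i (L.Dv j (A t))) + L.Dv i (L.Dv j (F t)) := by
    intro i j t ht
    rw [hD j t ht, map_add, Derivation.map_smul, Lap_Dv i (L.Dv j (A t))]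
  intro t ht U
  refine ⟨?_, fun i => ⟨?_, fun j => ?_⟩⟩
  · exact heat_bound hT (hS.mono (by omega)) hB hb (fun U => (h0 U).1)
      (fun t ht U => (hF t ht U).1) t ht U
  · exact heat_bound hT ((hS.D (k := 1) i).mono (by omega)) (hD i) hb
      (fun U => ((h0 U).2 i).1) (fun t ht U => ((hF t ht U).2 i).1) t ht U
  · exact heat_bound hT ((hS.D (k := 1) j).D (k := 0) i) (hDD i j) hb
      (fun U => ((h0 U).2 i).2 j) (fun t ht U => ((hF t ht U).2 i).2 j) t ht U

lemma hasDeriv_pow (K : ℝ) (j : ℕ) (s : Set ℝ) (t : ℝ) :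
    HasDerivWithinAt (fun t : ℝ => (4 * K * t) ^ (j + 1) / ((j + 1).factorial : ℝ))
      (4 * K * ((4 * K * t) ^ j / (j.factorial : ℝ))) s t := by
  have h1 : HasDerivAt (fun t : ℝ => 4 * K * t) (4 * K) t := by
    simpa using (hasDerivAt_id t).const_mul (4 * K)
  have h2 := (h1.pow (j + 1)).div_const ((j + 1).factorial : ℝ)
  refine (h2.hasDerivWithinAt (s := s)).congr_deriv ?_
  rw [Nat.factorial_succ]
  have h3 : (j.factorial : ℝ) ≠ 0 := by positivity
  have h4 : ((j : ℝ) + 1) ≠ 0 := by positivity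
  push_cast
  field_simp

lemma Lap_zero' : Lap (L.Dv (E := E)) 0 = 0 := by
  unfold Lap
  simp

lemma Lap_one' : Lap (L.Dv (E := E)) 1 = 0 := by
  unfold Lap
  simp

lemma C2_sum {ι : Type*} (s : Finset ι) {u : ι → Sm L E} {K : ι → ℝ} (h : ∀ i ∈ s, C2 (u i) (K i)) :
    C2 (∑ i ∈ s, u i) (∑ i ∈ s, K i) := by
  classical
  induction s using Finset.induction_on with
  | empty => simpa using C2.zero
  | insert i s hi ih =>
    rw [Finset.sum_insert hi, Finset.sum_insert hi]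
    exact (h i (Finset.mem_insert_self i s)).add (ih fun j hj => h j (Finset.mem_insert_of_mem hj))

lemma Hop_sum {ι : Type*} (s : Finset ι) (Q : Sm L E) (u : ι → Sm L E) :
    Hop Q (∑ i ∈ s, u i) = ∑ i ∈ s, Hop Q (u i) := by
  unfold Hop
  rw [Finset.sum_sub_distrib, Finset.mul_sum, ← Finset.smul_sum]
  congr 2
  unfold Lap
  rw [Finset.sum_comm]
  exact Finset.sum_congr rfl fun i _ => by rw [map_sum, map_sum]

lemma Hop_smul (Q : Sm L E) (c : ℝ) (u : Sm L E) : Hop Q (c • u) = c • Hop Q u := by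
  unfold Hop
  have h1 : Lap (L.Dv (E := E)) (c • u) = c • Lap (L.Dv (E := E)) u := by
    unfold Lap
    rw [Finset.smul_sum]
    exact Finset.sum_congr rfl fun i _ => by rw [Derivation.map_smul, Derivation.map_smul]
  rw [h1, mul_smul_comm, smul_sub, smul_comm]

/-- telescoping -/
lemma tele {Q : Sm L E} {A B : ℕ → Sm L E} (m : ℕ)
    (h0 : B 0 = (1 / 2 : ℝ) • Lap (L.Dv (E := E)) (A 0))
    (h1 : ∀ j, j < m → B (j + 1) = (1 / 2 : ℝ) • Lap (L.Dv (E := E)) (A (j + 1)) + Q * A j) :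
    ∑ j ∈ Finset.range (m + 1), (-1 : ℝ) ^ j • B j +
      Hop Q (∑ j ∈ Finset.range (m + 1), (-1 : ℝ) ^ j • A j) = (-1 : ℝ) ^ m • (Q * A m) := by
  rw [Hop_sum, ← Finset.sum_add_distrib]
  simp only [Hop_smul, ← smul_add]
  induction m with
  | zero =>
    simp only [zero_add, Finset.sum_range_one, pow_zero, one_smul, h0]
    unfold Hop
    abel
  | succ m ih =>
    rw [Finset.sum_range_succ, ih fun j hj => h1 j (by omega), h1 m (by omega)]
    unfold Hop
    rw [pow_succ, mul_neg_one, neg_smul, neg_smul, ← smul_neg, ← smul_neg, ← smul_add]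
    congr 1
    abel

/-- **The flow.** With the functions `A_j`, `B_j = A_j'`, `C_j = A_j''` of `dyson` for `m` large,
`u = ∑ (-1)^j A_j`, `v = ∑ (-1)^j B_j`, `w = ∑ (-1)^j C_j` (`j ≤ m`),
`v + H u = (-1)^m Q A_m`, `w + H v = (-1)^m Q B_m`. With `C2 Q K`:
`C2 (A_j t) ((4 K t)^j / j!)`, `C2 (B_0 t) 0`, `C2 (B_{j+1} t) (K (4 K t)^j / j!)`, by induction. -/
theorem flow [CompactSpace G] {Q : Sm L E} (hQ : DFin Q) {T : ℝ} (hT : 0 ≤ T) :
    ∃ C : ℝ, 0 < C ∧ ∀ ε : ℝ, 0 < ε → ∃ u v w : ℝ → Sm L E,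
      (∀ k, Sol T k u v) ∧ (∀ k, Sol T k v w) ∧ u 0 = 1 ∧
      (∀ t ∈ Icc 0 T, C2 (v t + Hop Q (u t)) ε ∧ C2 (w t + Hop Q (v t)) ε ∧
        C2 (u t) C ∧ C2 (v t) C) ∧
      ∀ S, Sym Q S → ∀ t, S (u t) = u t := by
  obtain ⟨K, hK, hQK⟩ := exists_C2 Q
  refine ⟨(1 + K) * Real.exp (4 * K * T), by positivity, fun ε hε => ?_⟩
  -- choice of `m`
  have hlim := (FloorSemiring.tendsto_pow_div_factorial_atTop (4 * K * T)).eventually
    (gt_mem_nhds (show (0 : ℝ) < ε / (4 * K * (1 + K)) by positivity))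
  obtain ⟨m0, hm0⟩ := Filter.eventually_atTop.1 hlim
  have hm1 := hm0 m0 le_rfl
  have hm2 := hm0 (m0 + 1) (by omega)
  set m := m0 + 1 with hm
  obtain ⟨A, B, C, hAB, hBC, hA0, hAj, hB0, hC0, hBj, hCj, hsym⟩ := dyson (L := L) hQ m T
  -- bounds
  have bA : ∀ j, j ≤ m → ∀ t ∈ Icc 0 T, C2 (A j t) ((4 * K * t) ^ j / (j.factorial : ℝ)) := by
    intro j
    induction j with
    | zero =>
      intro _
      have := heat_C2 (F := fun _ => 0) (b := fun _ => 1) (b' := fun _ => 0) hT (hAB 0 2)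
        (fun t _ => by rw [hB0, add_zero]) (fun t _ => hasDerivWithinAt_const _ _ _)
        (by rw [hA0]; exact C2.one) (fun t _ => C2.zero)
      simpa using this
    | succ j ih =>
      intro hj
      have ihj := ih (by omega)
      refine heat_C2 (F := fun t => Q * A j t)
        (b := fun t => (4 * K * t) ^ (j + 1) / ((j + 1).factorial : ℝ))
        (b' := fun t => 4 * K * ((4 * K * t) ^ j / (j.factorial : ℝ))) hT (hAB (j + 1) 2)
        (fun t _ => hBj j (by omega) t) (fun t _ => hasDeriv_pow K j _ t) ?_ ?_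
      · rw [hAj (j + 1) (by omega)]
        simpa using C2.zero
      · intro t ht
        exact hQK.mul (ihj t ht)
  have bB0 : ∀ t ∈ Icc 0 T, C2 (B 0 t) 0 := by
    refine heat_C2 (F := fun _ => 0) (b := fun _ => 0) (b' := fun _ => 0) hT (hBC 0 2)
        (fun t _ => by rw [hC0, add_zero]) (fun t _ => hasDerivWithinAt_const _ _ _) ?_
        (fun t _ => C2.zero)
    rw [hB0, hA0, Lap_one', smul_zero]
    exact C2.zero
  have bB : ∀ j, j + 1 ≤ m → ∀ t ∈ Icc 0 T,
      C2 (B (j + 1) t) (K * ((4 * K * t) ^ j / (j.factorial : ℝ))) := by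
    intro j
    induction j with
    | zero =>
      intro _
      have := heat_C2 (F := fun t => Q * B 0 t) (b := fun _ => K) (b' := fun _ => 0) hT (hBC 1 2)
        (fun t _ => hCj 0 (by omega) t) (fun t _ => hasDerivWithinAt_const _ _ _)
        (by
          rw [hBj 0 (by omega), hAj 1 (by omega), hA0, Lap_zero', smul_zero, zero_add, mul_one]
          exact hQK)
        (fun t ht => by
          have := hQK.mul (bB0 t ht)
          simpa using this)
      simpa using this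
    | succ j ih =>
      intro hj
      have ihj := ih (by omega)
      refine heat_C2 (F := fun t => Q * B (j + 1) t)
        (b := fun t => K * ((4 * K * t) ^ (j + 1) / ((j + 1).factorial : ℝ)))
        (b' := fun t => K * (4 * K * ((4 * K * t) ^ j / (j.factorial : ℝ)))) hT (hBC (j + 1 + 1) 2)
        (fun t _ => hCj (j + 1) (by omega) t) (fun t _ => (hasDeriv_pow K j _ t).const_mul K) ?_ ?_
      · rw [hBj (j + 1) (by omega), hAj (j + 1 + 1) (by omega), hAj (j + 1) (by omega), Lap_zero',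
          smul_zero, zero_add, mul_zero]
        simpa using C2.zero
      · intro t ht
        refine (hQK.mul (ihj t ht)).mono (le_of_eq ?_)
        ring
  have hmon : ∀ t ∈ Icc 0 T, ∀ j : ℕ,
      (4 * K * t) ^ j / (j.factorial : ℝ) ≤ (4 * K * T) ^ j / (j.factorial : ℝ) := by
    intro t ht j
    have h1 : 4 * K * t ≤ 4 * K * T := mul_le_mul_of_nonneg_left ht.2 (by positivity)
    have h2 : 0 ≤ 4 * K * t := mul_nonneg (by positivity) ht.1
    gcongr
  have habs : ∀ j : ℕ, |(-1 : ℝ) ^ j| = 1 := fun j => by rw [abs_pow, abs_neg, abs_one, one_pow]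
  have hexp : ∑ j ∈ Finset.range (m + 1), (4 * K * T) ^ j / (j.factorial : ℝ) ≤
      Real.exp (4 * K * T) := Real.sum_le_exp_of_nonneg (by positivity) _
  refine ⟨fun t => ∑ j ∈ Finset.range (m + 1), (-1 : ℝ) ^ j • A j t,
    fun t => ∑ j ∈ Finset.range (m + 1), (-1 : ℝ) ^ j • B j t,
    fun t => ∑ j ∈ Finset.range (m + 1), (-1 : ℝ) ^ j • C j t, fun k => ?_, fun k => ?_, ?_, ?_, ?_⟩
  · exact Sol.sum _ fun j _ => (hAB j k).smul _
  · exact Sol.sum _ fun j _ => (hBC j k).smul _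
  · show ∑ j ∈ Finset.range (m + 1), (-1 : ℝ) ^ j • A j 0 = 1
    rw [Finset.sum_eq_single 0]
    · rw [pow_zero, one_smul, hA0]
    · intro j _ hj
      rw [hAj j (by omega), smul_zero]
    · intro h
      exact absurd (Finset.mem_range.2 (by omega)) h
  · intro t ht
    have hexpt := (Finset.sum_le_sum fun j (_ : j ∈ Finset.range (m + 1)) => hmon t ht j).trans hexp
    refine ⟨?_, ?_, ?_, ?_⟩
    · have h1 := tele (Q := Q) (A := fun j => A j t) (B := fun j => B j t) m (hB0 t)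
        (fun j hj => hBj j hj t)
      rw [h1]
      refine ((hQK.mul (bA m le_rfl t ht)).smul ((-1 : ℝ) ^ m)).mono ?_
      rw [habs, one_mul]
      have h2 := hmon t ht m
      have h3 : (4 * K * T) ^ m / (m.factorial : ℝ) ≤ ε / (4 * K * (1 + K)) := hm2.le
      have h4 : 4 * K * (ε / (4 * K * (1 + K))) ≤ ε := by
        rw [mul_div_assoc', div_le_iff₀ (by positivity)]
        nlinarith [mul_pos hK hε, mul_pos (mul_pos hK hε) hK]
      exact (mul_le_mul_of_nonneg_left (h2.trans h3) (by positivity)).trans h4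
    · have h1 := tele (Q := Q) (A := fun j => B j t) (B := fun j => C j t) m (hC0 t)
        (fun j hj => hCj j hj t)
      rw [h1]
      have h0 := bB m0 (by omega) t ht
      refine ((hQK.mul h0).smul ((-1 : ℝ) ^ m)).mono ?_
      rw [habs, one_mul]
      have h2 := hmon t ht m0
      have h3 : (4 * K * T) ^ m0 / (m0.factorial : ℝ) ≤ ε / (4 * K * (1 + K)) := hm1.le
      have h4 : 4 * K * (K * (ε / (4 * K * (1 + K)))) ≤ ε := by
        have e : 4 * K * (K * (ε / (4 * K * (1 + K)))) = (K * ε) / (1 + K) := by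
          field_simp
        rw [e, div_le_iff₀ (by positivity)]
        nlinarith
      have h5 : 0 ≤ 4 * K := by positivity
      exact (mul_le_mul_of_nonneg_left (mul_le_mul_of_nonneg_left (h2.trans h3) hK.le) h5).trans h4
    · refine (C2_sum _ fun j hj => (bA j (by
        have := Finset.mem_range.1 hj; omega) t ht).smul ((-1 : ℝ) ^ j)).mono ?_
      simp only [habs, one_mul]
      have h2 : Real.exp (4 * K * T) ≤ (1 + K) * Real.exp (4 * K * T) := by
        have := Real.exp_pos (4 * K * T)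
        nlinarith
      exact hexpt.trans h2
    · have h1 : ∀ j ∈ Finset.range (m + 1), C2 ((-1 : ℝ) ^ j • B j t)
          (if j = 0 then 0 else K * ((4 * K * T) ^ (j - 1) / ((j - 1).factorial : ℝ))) := by
        intro j hj
        have hj' := Finset.mem_range.1 hj
        by_cases h : j = 0
        · subst h
          rw [if_pos rfl]
          have := (bB0 t ht).smul ((-1 : ℝ) ^ 0)
          simpa using this
        · rw [if_neg h]
          obtain ⟨i, rfl⟩ : ∃ i, j = i + 1 := ⟨j - 1, by omega⟩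
          rw [Nat.add_sub_cancel]
          refine ((bB i (by omega) t ht).smul ((-1 : ℝ) ^ (i + 1))).mono ?_
          rw [habs, one_mul]
          exact mul_le_mul_of_nonneg_left (hmon t ht i) hK.le
      refine (C2_sum _ h1).mono ?_
      rw [Finset.sum_range_succ']
      simp only [if_neg (Nat.succ_ne_zero _), Nat.add_sub_cancel, if_true, add_zero]
      rw [← Finset.mul_sum]
      have h2 : ∑ j ∈ Finset.range m, (4 * K * T) ^ j / (j.factorial : ℝ) ≤
          Real.exp (4 * K * T) := Real.sum_le_exp_of_nonneg (by positivity) _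
      have h3 := mul_le_mul_of_nonneg_left h2 hK.le
      have := Real.exp_pos (4 * K * T)
      nlinarith
  · intro S hS t
    rw [map_sum]
    refine Finset.sum_congr rfl fun j _ => ?_
    rw [map_smul, hsym S hS]

end

end Run7.h208.KS
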