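import Pool.Agent.Run7.h208.KS.GapD

/-!
# Piece GAP: Poincaré inequalities for blocks of links
-/

open MeasureTheory Matrix Set
open scoped Matrix.Norms.Frobenius ContDiff
open Pool.Agent.H906R3.YM

namespace Run7.h208.KS

set_option linter.unusedSectionVars false

noncomputable section

open GP

variable {G : Type*} [Group G] [TopologicalSpace G] {N n : ℕ} {L : LD G N n}
  [IsTopologicalGroup G] [CompactSpace G] [SecondCountableTopology G]
  [MeasurableSpace G] [BorelSpace G] (μ : Measure G) [IsProbabilityMeasure μ]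
  [μ.IsMulLeftInvariant] [μ.IsOpenPosMeasure] [μ.IsMulRightInvariant]
  {E : Type*} [Fintype E] [DecidableEq E]

/-- **Poincaré inequality for a cut**: `z` central, `z ^ m = 1`, `φ` invariant under `z` on `S`, and
the sum of the translates of `f` vanishes. -/
theorem gap_cut (hN : 0 < N) {c h κ R : ℝ} (hc : Cas L c) {φ : Sm L E} (hφ : HB φ h) (hh : 0 ≤ h)
    (hκ : 0 < κ) (hκ' : κ ≤ c / 8 - h) (hR : PathI L μ E R) (S : Finset E) {z : G}
    (hz : ∀ g, z * g = g * z) {m : ℕ} (hm : 0 < m) (hzm : z ^ m = 1)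
    (hS : lm (zS S z) φ = φ) (f : Sm L E)
    (hf : ∑ i ∈ Finset.range m, lm (zS S (z ^ i)) f = 0) :
    κ * L.I μ (f * f * nu φ) ≤ 1 / 2 * L.I μ (Gam (DS (L := L) S) f f * nu φ) := by
  obtain ⟨b, hb0, hb⟩ := exists_bd φ
  obtain ⟨Λ₀, hΛ0, hΛ₀⟩ := exists_bd
    ((1 / 2 : ℝ) • (Gam (DS (L := L) S) φ φ - Lap (DS (L := L) S) φ))
  have hm' : (0 : ℝ) < m := by exact_mod_cast hm
  have hcen : ∀ i e g, zS S (z ^ i) e * g = g * zS S (z ^ i) e := fun i e g =>
    zS_central hz i e g
  have hφi : ∀ i, lm (zS S (z ^ i)) φ = φ := fun i => lm_pow hS i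
  have hΩ : ∀ i, lm (zS S (z ^ i)) (expS (-φ)) = expS (-φ) := fun i => by
    rw [lm_expS, map_neg, hφi]
  set Pr : Sm L E → Prop := fun F => ∑ i ∈ Finset.range m, lm (zS S (z ^ i)) F = 0 with hPr
  have hPrmul : ∀ g, ∑ i ∈ Finset.range m, lm (zS S (z ^ i)) (g * expS (-φ)) =
      (∑ i ∈ Finset.range m, lm (zS S (z ^ i)) g) * expS (-φ) := by
    intro g
    rw [Finset.sum_mul]
    exact Finset.sum_congr rfl fun i _ => by rw [map_mul, hΩ]
  set V := (1 / 2 : ℝ) • (Gam (DS (L := L) S) φ φ - Lap (DS (L := L) S) φ)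
        + Λ₀ • (1 : Sm L E) with hVdef
  have hV0 : ∀ U, 0 ≤ L.ev U V := fun U => by
    rw [hVdef, map_add, map_smul (L.ev U) Λ₀, map_one, smul_eq_mul, mul_one]
    have := (abs_le.1 (hΛ₀ U)).1
    linarith
  have hVi : ∀ i, lm (zS S (z ^ i)) V = V := fun i => by
    rw [hVdef, map_add, map_smul, map_smul, map_one, map_sub, lm_Gam (hcen i), lm_Lap (hcen i),
      hφi]
  refine gap_abs μ hc hφ hh hκ hκ' S Pr ?_ ?_
    (Λ := 2 * (|R| + 1) * Real.exp (4 * b)) (Λ₀ := Λ₀) (by positivity) ?_ ?_ ?_ f ?_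
  · intro u v hu hv
    show ∑ i ∈ Finset.range m, lm (zS S (z ^ i)) (u + v) = 0
    simp only [map_add, Finset.sum_add_distrib]
    rw [show ∑ i ∈ Finset.range m, lm (zS S (z ^ i)) u = 0 from hu,
      show ∑ i ∈ Finset.range m, lm (zS S (z ^ i)) v = 0 from hv, add_zero]
  · intro a u hu
    show ∑ i ∈ Finset.range m, lm (zS S (z ^ i)) (a • u) = 0
    simp only [map_smul]
    rw [← Finset.smul_sum, show ∑ i ∈ Finset.range m, lm (zS S (z ^ i)) u = 0 from hu, smul_zero]
  · intro U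
    have := (abs_le.1 (hΛ₀ U)).1
    linarith
  · intro g hg
    have hg' : (∑ i ∈ Finset.range m, lm (zS S (z ^ i)) g) * expS (-φ) = 0 := by
      rw [← hPrmul]; exact hg
    have hg0 : ∑ i ∈ Finset.range m, lm (zS S (z ^ i)) g = 0 := by
      have h1 := congrArg (fun x => x * expS φ) hg'
      simp only [zero_mul] at h1
      rwa [mul_assoc, mul_comm (expS (-φ)), expS_inv, mul_one] at h1
    refine poin_weight μ S φ hb R g ?_
    -- the unweighted inequality
    have h1 : ∀ U, (m * L.ev U g) ^ 2 ≤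
        m * ∑ i ∈ Finset.range m, (L.ev (zS S (z ^ i) * U) g - L.ev U g) ^ 2 := by
      intro U
      have h2 : m * L.ev U g = ∑ i ∈ Finset.range m, -(L.ev (zS S (z ^ i) * U) g - L.ev U g) := by
        have h3 := congrArg (L.ev U) hg0
        rw [map_sum, map_zero] at h3
        simp only [ev_lm] at h3
        rw [Finset.sum_neg_distrib, Finset.sum_sub_distrib, h3, Finset.sum_const,
          Finset.card_range, nsmul_eq_mul]
        ring
      rw [h2]
      have h4 := sq_sum_le_card_mul_sum_sq (s := Finset.range m)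
        (f := fun i => -(L.ev (zS S (z ^ i) * U) g - L.ev U g))
      simp only [neg_sq, Finset.card_range] at h4
      exact h4
    have hcont : ∀ i, Continuous fun U : E → G =>
        (L.ev (zS S (z ^ i) * U) g - L.ev U g) ^ 2 := by
      intro i
      have hmul : Continuous fun U : E → G => zS S (z ^ i) * U := continuous_const.mul continuous_id
      exact (((Sm_cont g).comp hmul).sub (Sm_cont g)).pow 2
    have h2 : (m : ℝ) ^ 2 * L.I μ (g * g) ≤
        m * ∑ i ∈ Finset.range m, ∫ U, (L.ev (zS S (z ^ i) * U) g - L.ev U g) ^ 2 ∂(ME μ E) := by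
      rw [← integral_finsetSum _ fun i _ => integrable_cont μ (hcont i), ← integral_const_mul,
        I_apply, ← integral_const_mul]
      refine integral_mono (integrable_cont μ (continuous_const.mul (Sm_cont (g * g))))
        (integrable_cont μ (continuous_const.mul (continuous_finsetSum _ fun i _ => hcont i)))
        fun U => ?_
      refine le_trans (le_of_eq ?_) (h1 U)
      show (m : ℝ) ^ 2 * (g.1 U * g.1 U) = (m * g.1 U) ^ 2
      ring
    have h3 : ∑ i ∈ Finset.range m, ∫ U, (L.ev (zS S (z ^ i) * U) g - L.ev U g) ^ 2 ∂(ME μ E) ≤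
        ∑ i ∈ Finset.range m, R * L.I μ (Gam (DS (L := L) S) g g) := by
      refine Finset.sum_le_sum fun i _ => ?_
      refine hR S (zS S (z ^ i)) (fun e he => ?_) g
      unfold zS
      rw [if_neg he]
    rw [Finset.sum_const, Finset.card_range, nsmul_eq_mul] at h3
    have h4 := mul_le_mul_of_nonneg_left h3 hm'.le
    have h5 : (m : ℝ) ^ 2 * L.I μ (g * g) ≤
        (m : ℝ) ^ 2 * (R * L.I μ (Gam (DS (L := L) S) g g)) := by
      refine h2.trans (h4.trans (le_of_eq ?_))
      ring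
    exact le_of_mul_le_mul_left h5 (by positivity)
  · intro F hF δ hδ
    refine dense_block μ hN S hV0 Pr ?_ ?_ ?_ ?_ hF hδ
    · intro u v hu hv
      show ∑ i ∈ Finset.range m, lm (zS S (z ^ i)) (u + v) = 0
      simp only [map_add, Finset.sum_add_distrib]
      rw [show ∑ i ∈ Finset.range m, lm (zS S (z ^ i)) u = 0 from hu,
        show ∑ i ∈ Finset.range m, lm (zS S (z ^ i)) v = 0 from hv, add_zero]
    · intro a u hu
      show ∑ i ∈ Finset.range m, lm (zS S (z ^ i)) (a • u) = 0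
      simp only [map_smul]
      rw [← Finset.smul_sum, show ∑ i ∈ Finset.range m, lm (zS S (z ^ i)) u = 0 from hu, smul_zero]
    · intro u hu
      show ∑ i ∈ Finset.range m, lm (zS S (z ^ i)) (HH (DS (L := L) S) 1 V u) = 0
      have h1 : ∑ i ∈ Finset.range m, lm (zS S (z ^ i)) (HH (DS (L := L) S) 1 V u) =
          ∑ i ∈ Finset.range m, (HH (DS (L := L) S) 1 V (lm (zS S (z ^ i)) u)) :=
        Finset.sum_congr rfl fun i _ => lm_HH (hcen i) S (hVi i) u
      have h2 : ∀ w, BS S V w = HH (DS (L := L) S) 1 V w + w := fun w => rfl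
      have h3 : ∑ i ∈ Finset.range m, (HH (DS (L := L) S) 1 V (lm (zS S (z ^ i)) u)) =
          BS S V (∑ i ∈ Finset.range m, lm (zS S (z ^ i)) u)
            - ∑ i ∈ Finset.range m, lm (zS S (z ^ i)) u := by
        rw [map_sum]
        simp only [h2]
        rw [Finset.sum_add_distrib]
        abel
      rw [h1, h3, show ∑ i ∈ Finset.range m, lm (zS S (z ^ i)) u = 0 from hu, map_zero, sub_zero]
    · intro M u hu
      show ∑ i ∈ Finset.range m, lm (zS S (z ^ i)) (M.M u) = 0
      have h1 : ∑ i ∈ Finset.range m, lm (zS S (z ^ i)) (M.M u) =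
          M.M (∑ i ∈ Finset.range m, lm (zS S (z ^ i)) u) := by
        rw [map_sum]
        exact Finset.sum_congr rfl fun i _ => (M_lm μ M _ u).symm
      rw [h1, show ∑ i ∈ Finset.range m, lm (zS S (z ^ i)) u = 0 from hu, map_zero]
  · show ∑ i ∈ Finset.range m, lm (zS S (z ^ i)) (f * expS (-φ)) = 0
    rw [hPrmul, hf, zero_mul]

/-- the variance is bounded by the gradient -/
lemma GP.var_le {R : ℝ} (hR : PathI L μ E R) (f : Sm L E) :
    L.I μ (f * f) - L.I μ f ^ 2 ≤
      |R| * L.I μ (Gam (DS (L := L) (Finset.univ : Finset E)) f f) := by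
  set Γ := L.I μ (Gam (DS (L := L) (Finset.univ : Finset E)) f f) with hΓ
  have hG0 : 0 ≤ Γ := I_nonneg μ fun U => by
    unfold Gam
    rw [map_sum]
    exact Finset.sum_nonneg fun j _ => by rw [map_mul]; exact mul_self_nonneg _
  have hcf : Continuous f.1 := Sm_cont f
  have hc2 : Continuous fun p : (E → G) × (E → G) => f.1 (p.1 * p.2) * f.1 p.2 :=
    (hcf.comp (continuous_fst.mul continuous_snd)).mul (hcf.comp continuous_snd)
  have h1 : ∀ k : E → G, 2 * L.I μ (f * f) - 2 * ∫ U, f.1 (k * U) * f.1 U ∂(ME μ E) ≤ R * Γ := by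
    intro k
    have h2 := hR Finset.univ k (fun e he => absurd (Finset.mem_univ e) he) f
    refine le_trans (le_of_eq ?_) h2
    have hk : Continuous fun U : E → G => f.1 (k * U) :=
      hcf.comp (continuous_const.mul continuous_id)
    have e1 : ∀ U, (L.ev (k * U) f - L.ev U f) ^ 2 =
        f.1 (k * U) * f.1 (k * U) - 2 * (f.1 (k * U) * f.1 U) + f.1 U * f.1 U := by
      intro U
      show (f.1 (k * U) - f.1 U) ^ 2 = _
      ring
    have i1 : Integrable (fun U => f.1 (k * U) * f.1 (k * U)) (ME μ E) :=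
      integrable_cont μ (hk.mul hk)
    have i2 : Integrable (fun U => 2 * (f.1 (k * U) * f.1 U)) (ME μ E) :=
      (integrable_cont μ (hk.mul hcf)).const_mul 2
    have i3 : Integrable (fun U => f.1 U * f.1 U) (ME μ E) := integrable_cont μ (hcf.mul hcf)
    have i12 : Integrable (fun U => f.1 (k * U) * f.1 (k * U) - 2 * (f.1 (k * U) * f.1 U))
      (ME μ E) := i1.sub i2
    simp only [e1]
    rw [integral_add i12 i3, integral_sub i1 i2, integral_const_mul]
    have e2 : ∫ U, f.1 (k * U) * f.1 (k * U) ∂(ME μ E) = L.I μ (f * f) :=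
      integral_mul_left_eq_self (μ := ME μ E) (f * f).1 k
    have e3 : ∫ U, f.1 U * f.1 U ∂(ME μ E) = L.I μ (f * f) := rfl
    rw [e2, e3]
    ring
  have h2 : ∫ k, ∫ U, f.1 (k * U) * f.1 U ∂(ME μ E) ∂(ME μ E) = L.I μ f ^ 2 := by
    rw [integral_integral_swap]
    · have e1 : ∀ U, ∫ k, f.1 (k * U) * f.1 U ∂(ME μ E) = L.I μ f * f.1 U := by
        intro U
        rw [integral_mul_const]
        congr 1
        exact integral_mul_right_eq_self (μ := ME μ E) f.1 U
      simp only [e1]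
      rw [integral_const_mul, sq]
      rfl
    · exact hc2.integrable_of_hasCompactSupport (HasCompactSupport.of_compactSpace _)
  have hcI : Continuous fun k : E → G => ∫ U, f.1 (k * U) * f.1 U ∂(ME μ E) := by
    refine continuous_parametric_integral_of_continuous (μ := ME μ E)
      (f := fun k U => f.1 (k * U) * f.1 U) hc2 isCompact_univ |>.congr fun k => ?_
    rw [setIntegral_univ]
  have h3 : 2 * L.I μ (f * f) - 2 * L.I μ f ^ 2 ≤ R * Γ := by
    rw [← h2]
    have h4 : ∫ k, (2 * L.I μ (f * f) - 2 * ∫ U, f.1 (k * U) * f.1 U ∂(ME μ E)) ∂(ME μ E) ≤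
        ∫ _k : E → G, R * Γ ∂(ME μ E) :=
      integral_mono (integrable_cont μ (continuous_const.sub (continuous_const.mul hcI)))
        (integrable_const _) h1
    have i4 : Integrable (fun k : E → G => 2 * ∫ U, f.1 (k * U) * f.1 U ∂(ME μ E)) (ME μ E) :=
      (integrable_cont μ hcI).const_mul 2
    have e5 : ∫ k : E → G, 2 * ∫ U, f.1 (k * U) * f.1 U ∂(ME μ E) ∂(ME μ E) =
        2 * ∫ k, ∫ U, f.1 (k * U) * f.1 U ∂(ME μ E) ∂(ME μ E) := integral_const_mul _ _
    rw [integral_sub (integrable_const _) i4, e5, integral_const,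
      integral_const, probReal_univ, one_smul, one_smul] at h4
    exact h4
  have h5 : R * Γ ≤ |R| * Γ := mul_le_mul_of_nonneg_right (le_abs_self R) hG0
  have h6 : 0 ≤ |R| * Γ := mul_nonneg (abs_nonneg _) hG0
  linarith

/-- **Poincaré inequality for all links** -/
theorem gap_all (hN : 0 < N) {c h κ R : ℝ} (hc : Cas L c) {φ : Sm L E} (hφ : HB φ h) (hh : 0 ≤ h)
    (hκ : 0 < κ) (hκ' : κ ≤ c / 8 - h) (hR : PathI L μ E R) (f : Sm L E)
    (hf : L.I μ (f * nu φ) = 0) :
    κ * L.I μ (f * f * nu φ) ≤ 1 / 2 * L.I μ (Gam (L.Dv (E := E)) f f * nu φ) := by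
  rw [← DS_univ]
  set S : Finset E := Finset.univ with hS
  obtain ⟨b, hb0, hb⟩ := exists_bd φ
  obtain ⟨Λ₀, hΛ0, hΛ₀⟩ := exists_bd
    ((1 / 2 : ℝ) • (Gam (DS (L := L) S) φ φ - Lap (DS (L := L) S) φ))
  set Ω : Sm L E := expS (-φ) with hΩ
  set Pr : Sm L E → Prop := fun F => L.I μ (F * Ω) = 0 with hPr
  set V := (1 / 2 : ℝ) • (Gam (DS (L := L) S) φ φ - Lap (DS (L := L) S) φ)
        + Λ₀ • (1 : Sm L E) with hVdef
  have hV0 : ∀ U, 0 ≤ L.ev U V := fun U => by
    rw [hVdef, map_add, map_smul (L.ev U) Λ₀, map_one, smul_eq_mul, mul_one]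
    have := (abs_le.1 (hΛ₀ U)).1
    linarith
  have hνΩ : nu φ = Ω * Ω := nu_eq φ
  refine gap_abs μ hc hφ hh hκ hκ' S Pr ?_ ?_
    (Λ := 2 * (|(|R|)| + 1) * Real.exp (4 * b)) (Λ₀ := Λ₀) (by positivity) ?_ ?_ ?_ f ?_
  · intro u v hu hv
    show L.I μ ((u + v) * Ω) = 0
    rw [add_mul, map_add, show L.I μ (u * Ω) = 0 from hu, show L.I μ (v * Ω) = 0 from hv, add_zero]
  · intro a u hu
    show L.I μ ((a • u) * Ω) = 0
    rw [smul_mul_assoc, map_smul, show L.I μ (u * Ω) = 0 from hu, smul_zero]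
  · intro U
    have := (abs_le.1 (hΛ₀ U)).1
    linarith
  · intro g hg
    have hg0 : L.I μ (g * nu φ) = 0 := by
      rw [hνΩ, ← mul_assoc]; exact hg
    set a := L.I μ g with ha
    set g' := g - a • (1 : Sm L E) with hg'
    have hGam : Gam (DS (L := L) S) g' g' = Gam (DS (L := L) S) g g := by
      unfold Gam
      refine Finset.sum_congr rfl fun j _ => ?_
      rw [hg', map_sub, Derivation.map_smul, Derivation.map_one_eq_zero, smul_zero, sub_zero]
    have h1 : L.I μ (g' * g') = L.I μ (g * g) - a ^ 2 := by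
      have e : g' * g' = g * g - (2 * a) • g + (a ^ 2) • (1 : Sm L E) := by
        refine ev_ext fun W => ?_
        simp only [hg', map_mul, map_sub, map_add, map_smul, smul_eq_mul, map_one]
        ring
      rw [e, map_add, map_sub, map_smul, map_smul, smul_eq_mul, smul_eq_mul, I_one, ← ha]
      ring
    have h2 := poin_weight μ S φ hb |R| g' (by
      rw [h1, hGam]
      exact var_le μ hR g)
    rw [hGam] at h2
    refine le_trans ?_ h2
    have e : g' * g' * nu φ = g * g * nu φ - (2 * a) • (g * nu φ) + (a ^ 2) • nu φ := by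
      refine ev_ext fun W => ?_
      simp only [hg', map_mul, map_sub, map_add, map_smul, smul_eq_mul, map_one]
      ring
    rw [e, map_add, map_sub, map_smul, map_smul, hg0, smul_zero, sub_zero, smul_eq_mul]
    have h3 : 0 ≤ L.I μ (nu φ) := I_nonneg μ fun U => (ev_nu_pos φ U).le
    have h4 : 0 ≤ a ^ 2 * L.I μ (nu φ) := mul_nonneg (sq_nonneg _) h3
    linarith
  · intro F hF δ hδ
    obtain ⟨w₀, -, hw₀⟩ := dense_block μ hN S hV0 (fun _ => True) (fun _ _ _ _ => trivial)
      (fun _ _ _ => trivial) (fun _ _ => trivial) (fun _ _ _ => trivial) (F := F) trivial hδ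
    have hΩ1 : HH (DS (L := L) S) 1 V Ω = Λ₀ • Ω := by
      have h1 := HH_expS S φ 1 Λ₀
      rw [one_mul] at h1
      have h2 : LS S φ (1 : Sm L E) = 0 := by
        unfold LS Lap Gam
        have h3 : ∀ j, DS (L := L) S j (1 : Sm L E) = 0 := fun j => Derivation.map_one_eq_zero _
        simp only [h3, map_zero, mul_zero, Finset.sum_const_zero, smul_zero, sub_zero]
      rw [h2, zero_mul, neg_zero, zero_add] at h1
      exact h1
    have hΩpos : 0 < L.I μ (Ω * Ω) := by
      rcases (I_sq_nonneg μ Ω).lt_or_eq with h1 | h1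
      · exact h1
      · have h2 := eq_zero_of_I μ h1.symm
        have h3 : L.ev 1 Ω = 0 := by rw [h2, map_zero]
        have h4 : 0 < L.ev 1 Ω := Real.exp_pos _
        exact absurd h3 h4.ne'
    have hsym : L.I μ (Ω * HH (DS (L := L) S) 1 V w₀) = Λ₀ * L.I μ (Ω * w₀) := by
      have h1 := (fnS L μ S).enr_symm 1 V 0 Ω w₀
      unfold Fn.enr at h1
      rw [zero_smul, zero_smul, sub_zero, sub_zero] at h1
      have h2 : L.I μ (Ω * HH (DS (L := L) S) 1 V w₀) = L.I μ (w₀ * HH (DS (L := L) S) 1 V Ω) := h1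
      rw [h2, hΩ1, mul_smul_comm, map_smul, smul_eq_mul, mul_comm w₀]
    set t := L.I μ (Ω * w₀) / L.I μ (Ω * Ω) with ht
    have htΩ : t * L.I μ (Ω * Ω) = L.I μ (Ω * w₀) := div_mul_cancel₀ _ hΩpos.ne'
    refine ⟨w₀ - t • Ω, ?_, ?_⟩
    · show L.I μ ((w₀ - t • Ω) * Ω) = 0
      rw [sub_mul, map_sub, smul_mul_assoc, map_smul, smul_eq_mul, htΩ, mul_comm w₀, sub_self]
    · set e := HH (DS (L := L) S) 1 V w₀ + w₀ - F with he
      have h1 : HH (DS (L := L) S) 1 V (w₀ - t • Ω) + (w₀ - t • Ω) - F =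
          e - (t * (Λ₀ + 1)) • Ω := by
        rw [HH_sub, HH_smul, hΩ1, he]
        refine ev_ext fun W => ?_
        simp only [map_sub, map_add, map_smul, smul_eq_mul]
        ring
      have h2 : L.I μ (Ω * e) = t * (Λ₀ + 1) * L.I μ (Ω * Ω) := by
        have h3 : L.I μ (Ω * F) = 0 := by rw [mul_comm]; exact hF
        rw [he, mul_sub, mul_add, map_sub, map_add, hsym, h3, mul_assoc, mul_comm (Λ₀ + 1),
          ← mul_assoc, htΩ]
        ring
      have h3 : (fnS L μ S).nr (e - (t * (Λ₀ + 1)) • Ω) ^ 2 ≤ (fnS L μ S).nr e ^ 2 := by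
        have e1 : (fnS L μ S).nr (e - (t * (Λ₀ + 1)) • Ω) ^ 2 =
            L.I μ ((e - (t * (Λ₀ + 1)) • Ω) * (e - (t * (Λ₀ + 1)) • Ω)) := nr_sq _
        have e2 : (fnS L μ S).nr e ^ 2 = L.I μ (e * e) := nr_sq _
        have e3 : (e - (t * (Λ₀ + 1)) • Ω) * (e - (t * (Λ₀ + 1)) • Ω) =
            e * e - (2 * (t * (Λ₀ + 1))) • (Ω * e) + ((t * (Λ₀ + 1)) ^ 2) • (Ω * Ω) := by
          refine ev_ext fun W => ?_
          simp only [map_mul, map_sub, map_add, map_smul, smul_eq_mul]
          ring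
        rw [e1, e2, e3, map_add, map_sub, map_smul, map_smul, h2, smul_eq_mul, smul_eq_mul]
        have h4 : 0 ≤ (t * (Λ₀ + 1)) ^ 2 * L.I μ (Ω * Ω) := by positivity
        nlinarith
      rw [h1]
      exact ((pow_le_pow_iff_left₀ (nr_nonneg _) (nr_nonneg _) two_ne_zero).1 h3).trans hw₀
  · show L.I μ (f * expS (-φ) * Ω) = 0
    rw [mul_assoc, ← hνΩ]
    exact hf

end

end Run7.h208.KS
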