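import Pool.Agent.Run7.h208.KS.Boch
import Pool.Agent.H906R3.YM.Trial

/-!
# Piece GAP, part A: the operator of a block, integrated Bochner inequality
-/

open MeasureTheory Matrix Set
open scoped Matrix.Norms.Frobenius ContDiff
open Pool.Agent.H906R3.YM

namespace Run7.h208.KS

set_option linter.unusedSectionVars false

noncomputable section

section alg

variable {G : Type*} [Group G] [TopologicalSpace G] {N n : ℕ} {L : LD G N n}
  {E : Type*} [Fintype E] [DecidableEq E]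

/-- the density `exp (- 2 φ)` -/
def nu (φ : Sm L E) : Sm L E := expS (-(2 : ℝ) • φ)

/-- the operator `½ Δ_S f - Γ_S(φ, f)` -/
def LS (S : Finset E) (φ f : Sm L E) : Sm L E :=
  (1 / 2 : ℝ) • Lap (DS (L := L) S) f - Gam (DS (L := L) S) φ f

namespace GP

lemma ev_expS (F : Sm L E) (U : E → G) : L.ev U (expS F) = Real.exp (L.ev U F) := rfl

lemma ev_nu (φ : Sm L E) (U : E → G) : L.ev U (nu φ) = Real.exp (-(2 * L.ev U φ)) := by
  unfold nu
  rw [ev_expS, map_smul, smul_eq_mul]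
  congr 1
  ring

lemma ev_nu_pos (φ : Sm L E) (U : E → G) : 0 < L.ev U (nu φ) := by
  rw [ev_nu]; exact Real.exp_pos _

lemma Dv_nu (φ : Sm L E) (j : E × Fin n) : L.Dv j (nu φ) = -(2 : ℝ) • (nu φ * L.Dv j φ) := by
  unfold nu
  rw [Dv_expS, Derivation.map_smul, mul_smul_comm]

lemma Gam_nu (S : Finset E) (φ f : Sm L E) :
    Gam (DS (L := L) S) f (nu φ) = -(2 : ℝ) • (nu φ * Gam (DS (L := L) S) φ f) := by
  unfold Gam
  rw [Finset.mul_sum, Finset.smul_sum]
  refine Finset.sum_congr rfl fun j _ => ?_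
  have h : (DS (L := L) S j) (nu φ) = -(2 : ℝ) • (nu φ * DS (L := L) S j φ) := Dv_nu φ _
  rw [h, mul_smul_comm]
  congr 1
  ring

lemma expS_inv (φ : Sm L E) : expS φ * expS (-φ) = 1 := by
  refine ev_ext fun U => ?_
  rw [map_mul, ev_expS, ev_expS, map_neg, ← Real.exp_add, add_neg_cancel, Real.exp_zero, map_one]

lemma nu_eq (φ : Sm L E) : nu φ = expS (-φ) * expS (-φ) := by
  refine ev_ext fun U => ?_
  rw [map_mul, ev_expS, ev_nu, map_neg, ← Real.exp_add]
  congr 1
  ring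

lemma DS_expS (S : Finset E) (φ : Sm L E) (j : S × Fin n) :
    DS (L := L) S j (expS (-φ)) = -(expS (-φ) * DS (L := L) S j φ) := by
  have h : DS (L := L) S j (expS (-φ)) = expS (-φ) * DS (L := L) S j (-φ) := Dv_expS _ _
  rw [h]
  refine ev_ext fun U => ?_
  rw [map_mul, map_neg, map_neg, map_neg, map_mul, mul_neg]

lemma Gam_expS (S : Finset E) (φ f : Sm L E) :
    Gam (DS (L := L) S) f (expS (-φ)) = -(expS (-φ) * Gam (DS (L := L) S) φ f) := by
  unfold Gam
  rw [Finset.mul_sum, ← Finset.sum_neg_distrib]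
  refine Finset.sum_congr rfl fun j _ => ?_
  rw [DS_expS]
  ring

lemma Lap_expS (S : Finset E) (φ : Sm L E) :
    Lap (DS (L := L) S) (expS (-φ)) = expS (-φ) * (Gam (DS (L := L) S) φ φ - Lap (DS (L := L) S) φ) := by
  unfold Gam Lap
  rw [← Finset.sum_sub_distrib, Finset.mul_sum]
  refine Finset.sum_congr rfl fun j _ => ?_
  rw [DS_expS, map_neg, Derivation.leibniz, smul_eq_mul, smul_eq_mul, DS_expS]
  ring

/-- the operator `H_S` in terms of `f` -/
lemma HH_expS (S : Finset E) (φ f : Sm L E) (Λ₀ : ℝ) :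
    HH (DS (L := L) S) 1 ((1 / 2 : ℝ) • (Gam (DS (L := L) S) φ φ - Lap (DS (L := L) S) φ) + Λ₀ • (1 : Sm L E))
      (f * expS (-φ)) = -(LS S φ f * expS (-φ)) + Λ₀ • (f * expS (-φ)) := by
  unfold HH LS
  rw [Lap_mul, Gam_expS, Lap_expS]
  refine ev_ext fun U => ?_
  simp only [map_add, map_neg, map_smul, map_mul, map_sub, smul_eq_mul, map_one]
  ring

end GP

end alg

open GP

variable {G : Type*} [Group G] [TopologicalSpace G] {N n : ℕ} {L : LD G N n}
  [IsTopologicalGroup G] [CompactSpace G] [SecondCountableTopology G]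
  [MeasurableSpace G] [BorelSpace G] (μ : Measure G) [IsProbabilityMeasure μ]
  [μ.IsMulLeftInvariant] [μ.IsOpenPosMeasure] [μ.IsMulRightInvariant]
  {E : Type*} [Fintype E] [DecidableEq E]

/-- `∫ (𝓛 f) h ν = - ½ ∫ Γ(f, h) ν` -/
theorem LS_symm (S : Finset E) (φ f h : Sm L E) :
    L.I μ (LS S φ f * h * nu φ) = -(1 / 2 * L.I μ (Gam (DS (L := L) S) f h * nu φ)) := by
  have h1 : L.I μ ((h * nu φ) * Lap (DS (L := L) S) f) = -L.I μ (Gam (DS (L := L) S) (h * nu φ) f) :=
    (fnS L μ S).I_Lap (h * nu φ) f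
  have h2 : Gam (DS (L := L) S) (h * nu φ) f = Gam (DS (L := L) S) f h * nu φ
      + -(2 : ℝ) • (Gam (DS (L := L) S) φ f * h * nu φ) := by
    rw [Gam_comm, Gam_mul, Gam_nu]
    rw [mul_smul_comm]
    rw [add_comm]
    congr 1
    · ring
    · congr 1; ring
  have h3 : LS S φ f * h * nu φ = (1 / 2 : ℝ) • ((h * nu φ) * Lap (DS (L := L) S) f)
      - Gam (DS (L := L) S) φ f * h * nu φ := by
    unfold LS
    rw [sub_mul, sub_mul, smul_mul_assoc, smul_mul_assoc]
    congr 2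
    ring
  rw [h3, map_sub, map_smul, h1, h2, map_add, map_smul, smul_eq_mul, smul_eq_mul]
  ring

/-- integrated Bochner inequality: `∫ (𝓛 f)² ν ≥ κ ½ ∫ Γ(f, f) ν`, `κ = c / 8 - h` -/
theorem boch_int {c h : ℝ} (hc : Cas L c) {φ : Sm L E} (hφ : HB φ h) (hh : 0 ≤ h) (S : Finset E)
    (f : Sm L E) :
    (c / 8 - h) * (1 / 2 * L.I μ (Gam (DS (L := L) S) f f * nu φ)) ≤
      L.I μ (LS S φ f * LS S φ f * nu φ) := by
  have h1 : L.I μ (Gam (DS (L := L) S) f (LS S φ f) * nu φ) ≤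
      L.I μ (LS S φ ((1 / 2 : ℝ) • Gam (DS (L := L) S) f f) * 1 * nu φ
        - (c / 8 - h) • (Gam (DS (L := L) S) f f * nu φ)) := by
    refine I_mono μ fun U => ?_
    have h2 := boch_block hc hφ hh S f U
    rw [map_mul, map_sub, map_mul, map_mul, map_one, mul_one, map_smul, map_mul, smul_eq_mul,
      ← mul_assoc, ← sub_mul]
    exact mul_le_mul_of_nonneg_right h2 (ev_nu_pos φ U).le
  rw [map_sub, LS_symm, map_smul, smul_eq_mul] at h1
  have h3 : Gam (DS (L := L) S) ((1 / 2 : ℝ) • Gam (DS (L := L) S) f f) (1 : Sm L E) = 0 := by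
    unfold Gam
    refine Finset.sum_eq_zero fun j _ => ?_
    rw [Derivation.map_one_eq_zero, mul_zero]
  rw [h3, zero_mul, map_zero, mul_zero, neg_zero, zero_sub] at h1
  have h4 := LS_symm μ S φ f (LS S φ f)
  rw [h4]
  linarith

end

end Run7.h208.KS
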