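import Pool.Agent.Run7.h208.KS.GapA
import Pool.Agent.H906R3.YM.Dense

/-!
# Piece GAP, part B: the abstract gap
-/

open MeasureTheory Matrix Set
open scoped Matrix.Norms.Frobenius ContDiff
open Pool.Agent.H906R3.YM

namespace Run7.h208.KS

set_option linter.unusedSectionVars false

noncomputable section

variable {G : Type*} [Group G] [TopologicalSpace G] {N n : ℕ} {L : LD G N n}
  [IsTopologicalGroup G] [CompactSpace G] [SecondCountableTopology G]
  [MeasurableSpace G] [BorelSpace G] (μ : Measure G) [IsProbabilityMeasure μ]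
  [μ.IsMulLeftInvariant] [μ.IsOpenPosMeasure] [μ.IsMulRightInvariant]
  {E : Type*} [Fintype E] [DecidableEq E]

namespace GP

/-- the energy form in terms of `F = f exp (- φ)` -/
def qS (S : Finset E) (φ F : Sm L E) : ℝ :=
  1 / 2 * L.I μ (Gam (DS (L := L) S) (F * expS φ) (F * expS φ) * nu φ)

lemma mul_exp_exp (φ F : Sm L E) : F * expS φ * expS (-φ) = F := by
  rw [mul_assoc, expS_inv, mul_one]

lemma qS_nonneg (S : Finset E) (φ F : Sm L E) : 0 ≤ qS μ S φ F := by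
  unfold qS
  refine mul_nonneg (by norm_num) (I_nonneg μ fun U => ?_)
  rw [map_mul]
  refine mul_nonneg ?_ (ev_nu_pos φ U).le
  unfold Gam
  rw [map_sum]
  exact Finset.sum_nonneg fun j _ => by rw [map_mul]; exact mul_self_nonneg _

lemma qS_smul (S : Finset E) (φ F : Sm L E) (a : ℝ) : qS μ S φ (a • F) = a ^ 2 * qS μ S φ F := by
  unfold qS
  rw [smul_mul_assoc, Gam_smul, Gam_comm, Gam_smul, smul_smul, smul_mul_assoc, map_smul,
    smul_eq_mul]
  ring

lemma qS_HH (S : Finset E) (φ F : Sm L E) (Λ₀ : ℝ) :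
    L.I μ (F * HH (DS (L := L) S) 1 ((1 / 2 : ℝ) • (Gam (DS (L := L) S) φ φ
      - Lap (DS (L := L) S) φ) + Λ₀ • (1 : Sm L E)) F) = qS μ S φ F + Λ₀ * L.I μ (F * F) := by
  have h1 := HH_expS S φ (F * expS φ) Λ₀
  rw [mul_exp_exp] at h1
  have h2 := LS_symm μ S φ (F * expS φ) (F * expS φ)
  have h3 : LS S φ (F * expS φ) * (F * expS φ) * nu φ =
      F * (LS S φ (F * expS φ) * expS (-φ)) := by
    rw [nu_eq]
    have e : LS S φ (F * expS φ) * (F * expS φ) * (expS (-φ) * expS (-φ)) =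
        (F * expS φ * expS (-φ)) * (LS S φ (F * expS φ) * expS (-φ)) := by ring
    rw [e, mul_exp_exp]
  rw [h3] at h2
  rw [h1]
  have h4 : F * (-(LS S φ (F * expS φ) * expS (-φ)) + Λ₀ • F) =
      -(F * (LS S φ (F * expS φ) * expS (-φ))) + Λ₀ • (F * F) := by
    refine ev_ext fun U => ?_
    simp only [map_add, map_neg, map_smul, map_mul, smul_eq_mul]
    ring
  rw [h4, map_add, map_neg, h2, map_smul, smul_eq_mul, neg_neg]
  rfl

end GP

open GP

/-- **The abstract gap.** `Pr` a class of functions (in terms of `F = f exp (- φ)`), closed under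
the operations. Suppose `∫ F² ≤ Λ ½ ∫ Γ_S(f, f) ν` on `Pr` for some `Λ`, and that the range of
`1 + Λ₀ + H_S` is dense in `Pr`, `H_S F = exp (- φ) (- 𝓛 f)`. Then `κ ∫ f² ν ≤ ½ ∫ Γ_S(f, f) ν`.
Proof: let `λ₀ ≥ 1 / Λ > 0` be the infimum of `½ ∫ Γ_S(f, f) ν / ∫ f² ν` over `Pr`. By `approx_eig`
(for `fnS L μ S`, `g = 1`, `V = V_S + Λ₀ ≥ 0`, `V_S = ½ (Γ_S(φ, φ) - Δ_S φ)`, `E0 = λ₀ + Λ₀`) there
are approximate eigenfunctions; `boch_int` gives `λ₀² ≥ κ λ₀`, so `λ₀ ≥ κ`. -/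
theorem gap_abs {c h κ : ℝ} (hc : Cas L c) {φ : Sm L E} (hφ : HB φ h) (hh : 0 ≤ h)
    (hκ : 0 < κ) (hκ' : κ ≤ c / 8 - h) (S : Finset E) (Pr : Sm L E → Prop)
    (hadd : ∀ u v, Pr u → Pr v → Pr (u + v)) (hsmul : ∀ (a : ℝ) u, Pr u → Pr (a • u))
    {Λ Λ₀ : ℝ} (hΛ : 0 < Λ)
    (hV : ∀ U, 0 ≤ L.ev U ((1 / 2 : ℝ) • (Gam (DS (L := L) S) φ φ - Lap (DS (L := L) S) φ)) + Λ₀)
    (hpoin : ∀ f, Pr (f * expS (-φ)) →
      L.I μ (f * f * nu φ) ≤ Λ * (1 / 2 * L.I μ (Gam (DS (L := L) S) f f * nu φ)))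
    (hdense : ∀ F, Pr F → ∀ δ : ℝ, 0 < δ → ∃ w, Pr w ∧ (fnS L μ S).nr (HH (DS (L := L) S) 1
      ((1 / 2 : ℝ) • (Gam (DS (L := L) S) φ φ - Lap (DS (L := L) S) φ)
        + Λ₀ • (1 : Sm L E)) w + w - F) ≤ δ)
    (f : Sm L E) (hf : Pr (f * expS (-φ))) :
    κ * L.I μ (f * f * nu φ) ≤ 1 / 2 * L.I μ (Gam (DS (L := L) S) f f * nu φ) := by
  set V := (1 / 2 : ℝ) • (Gam (DS (L := L) S) φ φ - Lap (DS (L := L) S) φ)
        + Λ₀ • (1 : Sm L E) with hVdef
  have hII : ∀ F : Sm L E, L.I μ (F * expS φ * (F * expS φ) * nu φ) = L.I μ (F * F) := by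
    intro F
    rw [nu_eq]
    congr 1
    have e : F * expS φ * (F * expS φ) * (expS (-φ) * expS (-φ)) =
        (F * expS φ * expS (-φ)) * (F * expS φ * expS (-φ)) := by ring
    rw [e, mul_exp_exp]
  have hff : f * expS (-φ) * expS φ = f := by
    have := mul_exp_exp (-φ) f
    rwa [neg_neg] at this
  by_contra hcon
  rw [not_le] at hcon
  set F0 := f * expS (-φ) with hF0
  have hq0 : 1 / 2 * L.I μ (Gam (DS (L := L) S) f f * nu φ) = qS μ S φ F0 := by
    unfold qS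
    rw [hff]
  have hI0 : L.I μ (f * f * nu φ) = L.I μ (F0 * F0) := by
    rw [← hII F0, hff]
  rw [hq0, hI0] at hcon
  have hI0pos : 0 < L.I μ (F0 * F0) := by
    rcases (I_sq_nonneg μ F0).lt_or_eq with h1 | h1
    · exact h1
    · rw [← h1, mul_zero] at hcon
      exact absurd hcon (not_lt.2 (qS_nonneg μ S φ F0))
  -- normalised functions
  have hnorm : ∀ u, Pr u → 0 < L.I μ (u * u) → ∃ a : ℝ, Pr (a • u) ∧
      L.I μ ((a • u) * (a • u)) = 1 ∧ a ^ 2 * L.I μ (u * u) = 1 := by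
    intro u hu hpos
    have e : (1 / Real.sqrt (L.I μ (u * u))) ^ 2 * L.I μ (u * u) = 1 := by
      rw [div_pow, one_pow, Real.sq_sqrt hpos.le]
      field_simp
    refine ⟨1 / Real.sqrt (L.I μ (u * u)), hsmul _ _ hu, ?_, e⟩
    rw [smul_mul_smul_comm, map_smul, smul_eq_mul, ← sq]
    exact e
  set Q : Set ℝ := {x | ∃ u, Pr u ∧ L.I μ (u * u) = 1 ∧ x = qS μ S φ u} with hQ
  obtain ⟨a0, ha0, ha1, ha2⟩ := hnorm F0 hf hI0pos
  have hQne : Q.Nonempty := ⟨_, _, ha0, ha1, rfl⟩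
  have hQlow : ∀ x ∈ Q, 1 / Λ ≤ x := by
    rintro x ⟨u, hu, hu1, rfl⟩
    have h1 := hpoin (u * expS φ) (by rwa [mul_exp_exp])
    rw [hII, hu1] at h1
    rw [div_le_iff₀ hΛ, mul_comm]
    exact h1
  have hQb : BddBelow Q := ⟨1 / Λ, fun x hx => hQlow x hx⟩
  set lam := sInf Q with hlam
  have hlam0 : 0 < lam := lt_of_lt_of_le (by positivity) (le_csInf hQne hQlow)
  have hlam1 : ∀ u, Pr u → lam * L.I μ (u * u) ≤ qS μ S φ u := by
    intro u hu
    rcases (I_sq_nonneg μ u).lt_or_eq with h1 | h1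
    · obtain ⟨a, h2, h3, h4⟩ := hnorm u hu h1
      have h5 : lam ≤ qS μ S φ (a • u) := csInf_le hQb ⟨_, h2, h3, rfl⟩
      rw [qS_smul] at h5
      have h6 := mul_le_mul_of_nonneg_right h5 h1.le
      have h7 : a ^ 2 * qS μ S φ u * L.I μ (u * u) = (a ^ 2 * L.I μ (u * u)) * qS μ S φ u := by
        ring
      rw [h7, h4, one_mul] at h6
      exact h6
    · rw [← h1, mul_zero]
      exact qS_nonneg μ S φ u
  have hlamκ : lam < κ := by
    have h1 := hlam1 F0 hf
    by_contra hc2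
    rw [not_lt] at hc2
    have h2 := mul_le_mul_of_nonneg_right hc2 hI0pos.le
    linarith
  have hVnn : ∀ u : Sm L E, 0 ≤ qS μ S φ u + Λ₀ * L.I μ (u * u) := by
    intro u
    rw [← qS_HH μ S φ u Λ₀, ← hVdef]
    have h1 := (fnS L μ S).enr_eq 1 V 0 u u
    unfold Fn.enr at h1
    rw [zero_smul, sub_zero, zero_mul, sub_zero] at h1
    have h2 : L.I μ (u * HH (DS (L := L) S) 1 V u) =
        (1 : ℝ) ^ 2 / 2 * L.I μ (Gam (DS (L := L) S) u u) + 1 / (1 : ℝ) ^ 2 * L.I μ (V * (u * u)) :=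
      h1
    rw [h2]
    have h3 : 0 ≤ L.I μ (Gam (DS (L := L) S) u u) := by
      refine I_nonneg μ fun U => ?_
      unfold Gam
      rw [map_sum]
      exact Finset.sum_nonneg fun j _ => by rw [map_mul]; exact mul_self_nonneg _
    have h4 : 0 ≤ L.I μ (V * (u * u)) := by
      refine I_nonneg μ fun U => ?_
      rw [map_mul, map_mul]
      refine mul_nonneg ?_ (mul_self_nonneg _)
      rw [hVdef, map_add, map_smul (L.ev U) Λ₀, map_one, smul_eq_mul, mul_one]
      exact hV U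
    have h5 : (1 : ℝ) ^ 2 / 2 = 1 / 2 := by norm_num
    have h6 : 1 / (1 : ℝ) ^ 2 = 1 := by norm_num
    rw [h5, h6]
    linarith
  have hE0 : 0 ≤ lam + Λ₀ := by
    have h1 : 0 ≤ qS μ S φ (a0 • F0) + Λ₀ := by
      have := hVnn (a0 • F0)
      rwa [ha1, mul_one] at this
    have h2 : -Λ₀ ≤ lam := by
      refine le_csInf hQne ?_
      rintro x ⟨u, hu, hu1, rfl⟩
      have := hVnn u
      rw [hu1, mul_one] at this
      linarith
    linarith
  have henr : ∀ u : Sm L E, (fnS L μ S).enr 1 V (lam + Λ₀) u u =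
      qS μ S φ u - lam * L.I μ (u * u) := by
    intro u
    have h1 : (fnS L μ S).enr 1 V (lam + Λ₀) u u =
        L.I μ (u * (HH (DS (L := L) S) 1 V u - (lam + Λ₀) • u)) := rfl
    rw [h1, mul_sub, map_sub, mul_smul_comm, map_smul, smul_eq_mul, hVdef, qS_HH]
    ring
  have key : ∀ δ : ℝ, 0 < δ → (c / 8 - h) * lam ≤ (lam + δ) ^ 2 := by
    intro δ hδ
    obtain ⟨w, hw, hw1, hw2⟩ := approx_eig (S := fnS L μ S) Pr hadd hsmul (g := 1) (V := V)
      (E0 := lam + Λ₀) hE0 (fun u hu => by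
        rw [henr]
        have := hlam1 u hu
        linarith) (fun δ' hδ' => by
        obtain ⟨x, ⟨u, hu, hu1, rfl⟩, hx⟩ := exists_lt_of_csInf_lt hQne
          (show sInf Q < lam + δ' by rw [← hlam]; linarith)
        refine ⟨u, hu, hu1, ?_⟩
        rw [henr, hu1]
        linarith) hdense hδ
    have hw1' : L.I μ (w * w) = 1 := hw1
    set g := w * expS φ with hg
    have hgw : g * expS (-φ) = w := mul_exp_exp φ w
    have h1 : HH (DS (L := L) S) 1 V w = -(LS S φ g * expS (-φ)) + Λ₀ • w := by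
      have := HH_expS S φ g Λ₀
      rw [hgw] at this
      exact this
    have h2 : (fnS L μ S).nr (LS S φ g * expS (-φ)) ≤ lam + δ := by
      have e : LS S φ g * expS (-φ) =
          -(lam • w + (HH (DS (L := L) S) 1 V w - (lam + Λ₀) • w)) := by
        rw [h1]
        refine ev_ext fun U => ?_
        simp only [map_add, map_neg, map_smul, map_mul, map_sub, smul_eq_mul]
        ring
      rw [e, nr_neg]
      refine (nr_add _ _).trans ?_
      rw [nr_smul, abs_of_pos hlam0]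
      have h3 : (fnS L μ S).nr w = 1 := by
        unfold Fn.nr
        rw [hw1, Real.sqrt_one]
      rw [h3, mul_one]
      exact add_le_add le_rfl hw2
    have h3 : L.I μ (LS S φ g * LS S φ g * nu φ) ≤ (lam + δ) ^ 2 := by
      have e : LS S φ g * LS S φ g * nu φ = (LS S φ g * expS (-φ)) * (LS S φ g * expS (-φ)) := by
        rw [nu_eq]; ring
      rw [e]
      have h4 := pow_le_pow_left₀ (nr_nonneg (S := fnS L μ S) _) h2 2
      rw [nr_sq] at h4
      exact h4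
    have h5 := boch_int μ hc hφ hh S g
    have h6 := hlam1 w hw
    rw [hw1', mul_one] at h6
    have h7 : qS μ S φ w = 1 / 2 * L.I μ (Gam (DS (L := L) S) g g * nu φ) := rfl
    rw [h7] at h6
    have h8 := mul_le_mul_of_nonneg_left h6 (show 0 ≤ c / 8 - h by linarith)
    linarith
  have hgap : 0 < (c / 8 - h) * lam - lam ^ 2 := by
    have h1 : lam ^ 2 < (c / 8 - h) * lam := by
      rw [sq]
      exact mul_lt_mul_of_pos_right (by linarith) hlam0
    linarith
  set δ := min 1 (((c / 8 - h) * lam - lam ^ 2) / (2 * (2 * lam + 1))) with hδ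
  have hδ0 : 0 < δ := lt_min one_pos (by positivity)
  have h1 := key δ hδ0
  have h2 : δ ≤ 1 := min_le_left _ _
  have h3 : δ * (2 * (2 * lam + 1)) ≤ (c / 8 - h) * lam - lam ^ 2 := by
    have := min_le_right 1 (((c / 8 - h) * lam - lam ^ 2) / (2 * (2 * lam + 1)))
    rw [← hδ, le_div_iff₀ (by positivity)] at this
    exact this
  nlinarith [mul_nonneg hδ0.le (sub_nonneg.2 h2)]

end

end Run7.h208.KS
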