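import Pool.Agent.Run7.h208.KS.GapB
import Pool.Agent.H906R3.YM.Approx

/-!
# Piece GAP, part C: dense range
-/

open MeasureTheory Matrix Set
open scoped Matrix.Norms.Frobenius ContDiff
open Pool.Agent.H906R3.YM

namespace Run7.h208.KS

set_option linter.unusedSectionVars false

noncomputable section

namespace GP

section alg

variable {G : Type*} [Group G] [TopologicalSpace G] {N n : ℕ} {L : LD G N n}
  {E : Type*} [Fintype E] [DecidableEq E]

/-- `B u = H_S u + u` -/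
def BS (S : Finset E) (V : Sm L E) : Sm L E →ₗ[ℝ] Sm L E where
  toFun u := HH (DS (L := L) S) 1 V u + u
  map_add' u v := by
    have h := HH_sub (D := DS (L := L) S) 1 V (u + v) v
    rw [add_sub_cancel_right] at h
    rw [h]; abel
  map_smul' c u := by
    rw [HH_smul, RingHom.id_apply, smul_add]

/-- a smooth function on a compact space is bounded -/
lemma exists_bd [CompactSpace G] (V : Sm L E) : ∃ v : ℝ, 0 ≤ v ∧ ∀ U, |L.ev U V| ≤ v := by
  obtain ⟨C, hC⟩ := (isCompact_univ.image (Sm_cont V).norm).bddAbove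
  refine ⟨|C|, abs_nonneg _, fun U => ?_⟩
  exact (hC ⟨U, trivial, rfl⟩).trans (le_abs_self _)

end alg

end GP

open GP

variable {G : Type*} [Group G] [TopologicalSpace G] {N n : ℕ} {L : LD G N n}
  [IsTopologicalGroup G] [CompactSpace G] [SecondCountableTopology G]
  [MeasurableSpace G] [BorelSpace G] (μ : Measure G) [IsProbabilityMeasure μ]
  [μ.IsMulLeftInvariant] [μ.IsOpenPosMeasure] [μ.IsMulRightInvariant]
  {E : Type*} [Fintype E] [DecidableEq E]

namespace GP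

lemma fin_boundS (M : Moll L E μ) (S : Finset E) (V : Sm L E) : ∃ C : ℝ, 0 ≤ C ∧ ∀ u,
    (fnS L μ S).nr (BS S V (M.M u)) ≤ C * (fnS L μ S).nr u := by
  obtain ⟨ι, _, q, p, h⟩ := M.fin
  refine ⟨∑ i, (fnS L μ S).nr (q i) * (fnS L μ S).nr (BS S V (p i)),
    Finset.sum_nonneg fun i _ => mul_nonneg (nr_nonneg _) (nr_nonneg _), fun u => ?_⟩
  rw [h u, map_sum]
  refine (nr_sum _ _).trans ?_
  rw [Finset.sum_mul]
  refine Finset.sum_le_sum fun i _ => ?_
  rw [map_smul, nr_smul]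
  have h1 : |∫ W, L.ev W (q i) * L.ev W u ∂(ME μ E)| ≤
      (fnS L μ S).nr (q i) * (fnS L μ S).nr u := nr_cs (S := fnS L μ S) (q i) u
  calc _ ≤ (fnS L μ S).nr (q i) * (fnS L μ S).nr u * (fnS L μ S).nr (BS S V (p i)) :=
        mul_le_mul_of_nonneg_right h1 (nr_nonneg _)
    _ = _ := by ring

lemma Gam_nonnegS (M : Moll L E μ) (S : Finset E) (u : Sm L E) :
    0 ≤ L.I μ (Gam (DS (L := L) S) u (M.M (M.M u))) := by
  unfold Gam
  rw [map_sum]
  refine Finset.sum_nonneg fun j _ => ?_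
  have h1 : ∀ v, DS (L := L) S j (M.M v) = M.M (DS (L := L) S j v) := fun v => M.comm _ v
  rw [h1 (M.M u), ← M.symmI, ← h1]
  exact I_sq_nonneg μ _

end GP

/-- dense range: `Pr` is preserved by all mollifiers (copy of the proof of `approx_vac`) -/
theorem dense_block (hN : 0 < N) (S : Finset E) {V : Sm L E} (hV : ∀ U, 0 ≤ L.ev U V)
    (Pr : Sm L E → Prop) (hadd : ∀ u v, Pr u → Pr v → Pr (u + v))
    (hsmul : ∀ (a : ℝ) u, Pr u → Pr (a • u)) (hH : ∀ u, Pr u → Pr (HH (DS (L := L) S) 1 V u))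
    (hM : ∀ (M : Moll L E μ) u, Pr u → Pr (M.M u)) {F : Sm L E} (hF : Pr F) {δ : ℝ} (hδ : 0 < δ) :
    ∃ w, Pr w ∧ (fnS L μ S).nr (HH (DS (L := L) S) 1 V w + w - F) ≤ δ := by
  obtain ⟨v, hv0, hvU⟩ := exists_bd V
  have hnrE : ∀ u : Sm L E, (fnS L μ S).nr u = (fnE L μ E).nr u := fun u => rfl
  refine dense_range (S := fnS L μ S) Pr hadd hsmul (BS S V) (fun u hu => hadd _ _ (hH u hu) hu)
    (Λ := v + 1) (by positivity) ?_ hF hδ
  intro r hr η hη
  obtain ⟨M, hMU⟩ := exists_moll (L := L) (E := E) μ hN r (half_pos hη)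
  have hMr : (fnE L μ E).nr (M.M r - r) ≤ η / 2 := nr_le_of_abs μ (half_pos hη).le fun U => by
    rw [map_sub]; exact hMU U
  obtain ⟨C, hC0, hC⟩ := fin_boundS μ M S V
  refine ⟨M.M ∘ₗ M.M, fun u hu => hM M _ (hM M u hu), ?_, ?_, ?_, C, hC0, ?_⟩
  · have h1 : (M.M ∘ₗ M.M) r - r = M.M (M.M r - r) + (M.M r - r) := by
      rw [map_sub, LinearMap.comp_apply]; abel
    rw [h1]
    refine (nr_add _ _).trans ?_
    have h2 : (fnE L μ E).nr (M.M (M.M r - r)) ≤ (fnE L μ E).nr (M.M r - r) :=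
      M.contr (M.M r - r)
    rw [hnrE, hnrE]
    linarith
  · intro u
    have h1 : (fnE L μ E).nr (M.M (M.M u)) ≤ (fnE L μ E).nr (M.M u) := M.contr (M.M u)
    exact h1.trans (M.contr u)
  · intro u
    rw [LinearMap.comp_apply]
    set T := M.M (M.M u) with hT
    have h1 : (fnS L μ S).I (u * (BS S V T)) = L.I μ (u * HH (DS (L := L) S) 1 V T)
        + L.I μ (u * T) := by
      rw [← map_add, ← mul_add]; rfl
    have h2 : L.I μ (u * HH (DS (L := L) S) 1 V T) =
        1 ^ 2 / 2 * L.I μ (Gam (DS (L := L) S) u T) + 1 / 1 ^ 2 * L.I μ (V * (u * T)) := by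
      have h3 := (fnS L μ S).enr_eq 1 V 0 u T
      unfold Fn.enr at h3
      rw [zero_smul, sub_zero, zero_mul, sub_zero] at h3
      exact h3
    have h3 : 0 ≤ L.I μ (Gam (DS (L := L) S) u T) := Gam_nonnegS μ M S u
    have h4 : L.I μ (V * (u * T)) = L.I μ (V * (u * u)) + L.I μ ((V * u) * (T - u)) := by
      rw [← map_add]; congr 1; ring
    have h5 : 0 ≤ L.I μ (V * (u * u)) := I_nonneg μ fun U => by
      rw [map_mul, map_mul]
      exact mul_nonneg (hV U) (mul_self_nonneg _)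
    have h6 : |L.I μ ((V * u) * (T - u))| ≤ v * (fnE L μ E).nr u * (fnE L μ E).nr (T - u) := by
      refine (nr_cs (S := fnE L μ E) (V * u) (T - u)).trans ?_
      exact mul_le_mul_of_nonneg_right (nr_mul_le μ hv0 hvU) (nr_nonneg _)
    have h7 : L.I μ (u * T) = (fnE L μ E).nr u ^ 2 + L.I μ (u * (T - u)) := by
      have : (fnE L μ E).nr u ^ 2 = L.I μ (u * u) := nr_sq u
      rw [this, ← map_add]; congr 1; ring
    have h8 : |L.I μ (u * (T - u))| ≤ (fnE L μ E).nr u * (fnE L μ E).nr (T - u) :=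
      nr_cs (S := fnE L μ E) _ _
    rw [h1, h2, h4, h7, hnrE, hnrE]
    have h9 := (abs_le.1 h6).1
    have h10 := (abs_le.1 h8).1
    have h13 : (v + 1) * (fnE L μ E).nr u * (fnE L μ E).nr (T - u) =
        v * (fnE L μ E).nr u * (fnE L μ E).nr (T - u) +
          (fnE L μ E).nr u * (fnE L μ E).nr (T - u) := by ring
    rw [h13]
    have h14 : (1 : ℝ) ^ 2 / 2 = 1 / 2 := by norm_num
    have h15 : 1 / (1 : ℝ) ^ 2 = 1 := by norm_num
    rw [h14, h15]
    linarith
  · intro u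
    have h1 := hC (M.M u)
    refine h1.trans (mul_le_mul_of_nonneg_left ?_ hC0)
    exact M.contr u

end

end Run7.h208.KS
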