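import Pool.Agent.Run7.h208.KS.GapC

/-!
# Piece GAP, part D: translations by central elements, weights
-/

open MeasureTheory Matrix Set
open scoped Matrix.Norms.Frobenius ContDiff
open Pool.Agent.H906R3.YM

namespace Run7.h208.KS

set_option linter.unusedSectionVars false

noncomputable section

namespace GP

section alg

variable {G : Type*} [Group G] [TopologicalSpace G] {N n : ℕ} {L : LD G N n}
  {E : Type*} [Fintype E] [DecidableEq E]

lemma lm_expS (k : E → G) (φ : Sm L E) : lm k (expS φ) = expS (lm k φ) := rfl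

/-- left multiplication by central elements commutes with the derivations -/
lemma Dv_lm {k : E → G} (hk : ∀ e g, k e * g = g * k e) (j : E × Fin n) (F : Sm L E) :
    L.Dv j (lm k F) = lm k (L.Dv j F) := by
  refine ev_ext fun U => ?_
  show L.dF j.1 j.2 (lm k F).1 U = L.dF j.1 j.2 F.1 (k * U)
  unfold LD.dF
  congr 1
  funext t
  show F.1 (k * L.shift j.1 j.2 t U) = F.1 (L.shift j.1 j.2 t (k * U))
  have h1 : k * L.shift j.1 j.2 t U = L.shift j.1 j.2 t (k * U) := by
    unfold LD.shift
    funext e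
    rw [Pi.mul_apply, Pi.mul_apply, Pi.mul_apply, Pi.mul_apply, ← mul_assoc, hk, mul_assoc]
  rw [h1]

lemma lm_Gam {k : E → G} (hk : ∀ e g, k e * g = g * k e) (S : Finset E) (f h : Sm L E) :
    lm k (Gam (DS (L := L) S) f h) = Gam (DS (L := L) S) (lm k f) (lm k h) := by
  unfold Gam
  rw [map_sum]
  refine Finset.sum_congr rfl fun j _ => ?_
  have h1 : ∀ v : Sm L E, DS (L := L) S j (lm k v) = lm k (DS (L := L) S j v) :=
    fun v => Dv_lm hk _ v
  rw [map_mul, h1, h1]

lemma lm_Lap {k : E → G} (hk : ∀ e g, k e * g = g * k e) (S : Finset E) (f : Sm L E) :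
    lm k (Lap (DS (L := L) S) f) = Lap (DS (L := L) S) (lm k f) := by
  unfold Lap
  rw [map_sum]
  refine Finset.sum_congr rfl fun j _ => ?_
  have h1 : ∀ v : Sm L E, DS (L := L) S j (lm k v) = lm k (DS (L := L) S j v) :=
    fun v => Dv_lm hk _ v
  rw [h1, h1]

lemma lm_HH {k : E → G} (hk : ∀ e g, k e * g = g * k e) (S : Finset E) {V : Sm L E}
    (hV : lm k V = V) (f : Sm L E) :
    lm k (HH (DS (L := L) S) 1 V f) = HH (DS (L := L) S) 1 V (lm k f) := by
  unfold HH
  rw [map_add, map_neg, map_smul, map_smul, map_mul, hV, lm_Lap hk]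

lemma zS_central {S : Finset E} {z : G} (hz : ∀ g, z * g = g * z) (i : ℕ) (e : E) (g : G) :
    zS S (z ^ i) e * g = g * zS S (z ^ i) e := by
  unfold zS
  split_ifs
  · exact (Commute.pow_left (show Commute z g from hz g) i)
  · rw [one_mul, mul_one]

lemma lm_pow {S : Finset E} {z : G} {φ : Sm L E} (hS : lm (zS S z) φ = φ) (i : ℕ) :
    lm (zS S (z ^ i)) φ = φ := by
  induction i with
  | zero =>
    refine ev_ext fun U => ?_
    rw [ev_lm]
    congr 2
    funext e
    simp [zS]
  | succ i ih =>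
    have h1 : lm (zS S (z ^ (i + 1))) φ = lm (zS S (z ^ i)) (lm (zS S z) φ) := by
      refine ev_ext fun U => ?_
      rw [ev_lm, ev_lm, ev_lm]
      congr 2
      funext e
      simp only [zS, Pi.mul_apply]
      split_ifs
      · rw [pow_succ', mul_assoc]
      · simp
    rw [h1, hS, ih]

lemma DS_univ (f h : Sm L E) :
    Gam (DS (L := L) (Finset.univ : Finset E)) f h = Gam (L.Dv (E := E)) f h := by
  unfold Gam
  refine Fintype.sum_equiv ((Equiv.subtypeUnivEquiv (p := fun e : E => e ∈ Finset.univ)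
    fun e => Finset.mem_univ e).prodCongr (Equiv.refl (Fin n))) _ _ fun j => rfl

end alg

variable {G : Type*} [Group G] [TopologicalSpace G] {N n : ℕ} {L : LD G N n}
  [IsTopologicalGroup G] [CompactSpace G] [SecondCountableTopology G]
  [MeasurableSpace G] [BorelSpace G] (μ : Measure G) [IsProbabilityMeasure μ]
  [μ.IsMulLeftInvariant] [μ.IsOpenPosMeasure] [μ.IsMulRightInvariant]
  {E : Type*} [Fintype E] [DecidableEq E]

lemma I_lm (k : E → G) (u : Sm L E) : L.I μ (lm k u) = L.I μ u := by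
  rw [I_apply, I_apply]
  exact integral_mul_left_eq_self (μ := ME μ E) u.1 k

lemma M_lm (M : Moll L E μ) (k : E → G) (u : Sm L E) : M.M (lm k u) = lm k (M.M u) := by
  refine ev_ext fun U => ?_
  have h1 : lm k (M.ker (k * U)) = M.ker U := by
    refine ev_ext fun W => ?_
    rw [ev_lm]
    exact M.conj (fun e g => k e * g) (fun e g h => by
      congr 1
      group) U W
  rw [ev_lm, M.eqI, M.eqI, ← I_lm μ k (M.ker (k * U) * u), map_mul (lm k), h1]

/-- a Poincaré inequality is stable under the density `exp (- 2 φ)` -/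
lemma poin_weight (S : Finset E) (φ : Sm L E) {b : ℝ} (hb : ∀ U, |L.ev U φ| ≤ b) (R : ℝ)
    (f : Sm L E) (h : L.I μ (f * f) ≤ R * L.I μ (Gam (DS (L := L) S) f f)) :
    L.I μ (f * f * nu φ) ≤ (2 * (|R| + 1) * Real.exp (4 * b)) *
      (1 / 2 * L.I μ (Gam (DS (L := L) S) f f * nu φ)) := by
  have hG : ∀ U, 0 ≤ L.ev U (Gam (DS (L := L) S) f f) := fun U => by
    unfold Gam
    rw [map_sum]
    exact Finset.sum_nonneg fun j _ => by rw [map_mul]; exact mul_self_nonneg _
  have h1 : L.I μ (f * f * nu φ) ≤ Real.exp (2 * b) * L.I μ (f * f) := by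
    have e : Real.exp (2 * b) * L.I μ (f * f) = L.I μ (Real.exp (2 * b) • (f * f)) := by
      rw [map_smul, smul_eq_mul]
    rw [e]
    refine I_mono μ fun U => ?_
    rw [map_mul, map_smul, smul_eq_mul, mul_comm]
    refine mul_le_mul_of_nonneg_right ?_ (by rw [map_mul]; exact mul_self_nonneg _)
    rw [ev_nu]
    refine Real.exp_le_exp.2 ?_
    have := (abs_le.1 (hb U)).1
    linarith
  have h2 : L.I μ (Gam (DS (L := L) S) f f) ≤
      Real.exp (2 * b) * L.I μ (Gam (DS (L := L) S) f f * nu φ) := by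
    have e : Real.exp (2 * b) * L.I μ (Gam (DS (L := L) S) f f * nu φ) =
        L.I μ (Real.exp (2 * b) • (Gam (DS (L := L) S) f f * nu φ)) := by
      rw [map_smul, smul_eq_mul]
    rw [e]
    refine I_mono μ fun U => ?_
    rw [map_smul, map_mul, smul_eq_mul]
    have h3 : 1 ≤ Real.exp (2 * b) * L.ev U (nu φ) := by
      rw [ev_nu, ← Real.exp_add, ← Real.exp_zero]
      refine Real.exp_le_exp.2 ?_
      have := (abs_le.1 (hb U)).2
      linarith
    have h4 := mul_le_mul_of_nonneg_left h3 (hG U)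
    calc _ = L.ev U (Gam (DS (L := L) S) f f) * 1 := (mul_one _).symm
      _ ≤ _ := h4
      _ = _ := by ring
  have h0 : 0 ≤ L.I μ (Gam (DS (L := L) S) f f * nu φ) := I_nonneg μ fun U => by
    rw [map_mul]; exact mul_nonneg (hG U) (ev_nu_pos φ U).le
  have hG0 : 0 ≤ L.I μ (Gam (DS (L := L) S) f f) := I_nonneg μ hG
  have h3 : L.I μ (f * f) ≤ (|R| + 1) * L.I μ (Gam (DS (L := L) S) f f) := by
    refine h.trans (mul_le_mul_of_nonneg_right ?_ hG0)
    have := le_abs_self R
    linarith
  have hR : 0 ≤ |R| + 1 := by positivity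
  calc _ ≤ Real.exp (2 * b) * L.I μ (f * f) := h1
    _ ≤ Real.exp (2 * b) * ((|R| + 1) * L.I μ (Gam (DS (L := L) S) f f)) :=
        mul_le_mul_of_nonneg_left h3 (Real.exp_nonneg _)
    _ ≤ Real.exp (2 * b) * ((|R| + 1) * (Real.exp (2 * b) *
          L.I μ (Gam (DS (L := L) S) f f * nu φ))) :=
        mul_le_mul_of_nonneg_left (mul_le_mul_of_nonneg_left h2 hR) (Real.exp_nonneg _)
    _ = _ := by
      have : Real.exp (4 * b) = Real.exp (2 * b) * Real.exp (2 * b) := by
        rw [← Real.exp_add]; congr 1; ring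
      rw [this]; ring

end GP

end

end Run7.h208.KS
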