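import Pool.Agent.Run7.h208.KS.Flow

/-!
# Piece HESS: positivity and the Hessian bound along the flow
-/

open MeasureTheory Matrix Set
open scoped Matrix.Norms.Frobenius ContDiff
open Pool.Agent.H906R3.YM

namespace Run7.h208.KS

set_option linter.unusedSectionVars false

noncomputable section

variable {G : Type*} [Group G] [TopologicalSpace G] {N n : ℕ} {L : LD G N n}
  {E : Type*} [Fintype E] [DecidableEq E]

section abs

variable {A : Type*} [CommRing A] [Algebra ℝ A] {J : Type*} [Fintype J]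
  (D : J → Derivation ℝ A A) (σ : J → J → J → ℝ)

lemma lap_exp_abs {e φ : A} (he : ∀ j, D j e = -(e * D j φ)) :
    Lap D e = e * (Gam D φ φ - Lap D φ) := by
  unfold Lap Gam
  rw [← Finset.sum_sub_distrib, Finset.mul_sum]
  refine Finset.sum_congr rfl fun j _ => ?_
  rw [he, map_neg, Derivation.leibniz, he, smul_eq_mul, smul_eq_mul]
  ring

lemma log_abs {Q r e e' l g : A} (h : e * e' = 1) :
    -((-(Q * e - (1 / 2 : ℝ) • (e * (g - l))) + r) * e') =
      (1 / 2 : ℝ) • l - (1 / 2 : ℝ) • g + Q - r * e' := by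
  simp only [Algebra.smul_def]
  linear_combination (Q - algebraMap ℝ A (1 / 2) * (g - l)) * h

lemma D_gam_abs (hσ : ∀ i l u, D i (D l u) - D l (D i u) = ∑ k, σ i l k • D k u)
    (ha : ∀ i j k, σ i j k = -σ k j i) (φ : A) (j : J) :
    D j (Gam D φ φ) = (2 : ℝ) • Gam D φ (D j φ) := by
  have h2 : ∀ i, D j (D i φ * D i φ) = (2 : ℝ) • (D i φ * D i (D j φ)) -
      (2 : ℝ) • (D i φ * ∑ k, σ i j k • D k φ) := by
    intro i
    rw [← hσ, Derivation.leibniz, smul_eq_mul]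
    simp only [two_smul]
    ring
  have h3 : ∑ i, (D i φ * ∑ k, σ i j k • D k φ) = 0 := by
    set S : A := ∑ i, (D i φ * ∑ k, σ i j k • D k φ) with hS
    have h4 : S = ∑ i, ∑ k, σ i j k • (D i φ * D k φ) := by
      rw [hS]
      refine Finset.sum_congr rfl fun i _ => ?_
      rw [Finset.mul_sum]
      exact Finset.sum_congr rfl fun k _ => by rw [mul_smul_comm]
    have h5 : S = -S := by
      conv_lhs => rw [h4, Finset.sum_comm]
      rw [h4, ← Finset.sum_neg_distrib]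
      refine Finset.sum_congr rfl fun i _ => ?_
      rw [← Finset.sum_neg_distrib]
      refine Finset.sum_congr rfl fun k _ => ?_
      rw [ha, neg_smul, mul_comm]
    have h6 : (2 : ℝ) • S = 0 := by
      rw [two_smul]
      nth_rewrite 2 [h5]
      exact add_neg_cancel S
    have h7 := congrArg (fun x => (1 / 2 : ℝ) • x) h6
    simpa [smul_smul] using h7
  unfold Gam
  rw [map_sum, Finset.sum_congr rfl fun i _ => h2 i, Finset.sum_sub_distrib, ← Finset.smul_sum,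
    ← Finset.smul_sum, h3, smul_zero, sub_zero]

lemma D_GS_abs (hσ : ∀ i l u, D i (D l u) - D l (D i u) = ∑ k, σ i l k • D k u)
    (ha : ∀ i j k, σ i j k = -σ k j i) (hL : ∀ j u, Lap D (D j u) = D j (Lap D u)) (Q φ : A)
    (j : J) : D j ((1 / 2 : ℝ) • Lap D φ - (1 / 2 : ℝ) • Gam D φ φ + Q) =
      (1 / 2 : ℝ) • Lap D (D j φ) - Gam D φ (D j φ) + D j Q := by
  rw [map_add, map_sub, Derivation.map_smul, Derivation.map_smul, ← hL,
    D_gam_abs D σ hσ ha, smul_smul]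
  norm_num

/-- the derivative along a constant vector -/
def dq (q : J → ℝ) (f : A) : A := ∑ j, q j • D j f

lemma dq_GS_abs (hσ : ∀ i l u, D i (D l u) - D l (D i u) = ∑ k, σ i l k • D k u)
    (ha : ∀ i j k, σ i j k = -σ k j i) (hL : ∀ j u, Lap D (D j u) = D j (Lap D u)) (Q φ : A)
    (q : J → ℝ) : dq D q ((1 / 2 : ℝ) • Lap D φ - (1 / 2 : ℝ) • Gam D φ φ + Q) =
      (1 / 2 : ℝ) • Lap D (dq D q φ) - Gam D φ (dq D q φ) + dq D q Q := by
  have h1 : Lap D (dq D q φ) = ∑ j, q j • Lap D (D j φ) := by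
    unfold dq Lap
    simp only [map_sum, Derivation.map_smul, Finset.smul_sum]
    exact Finset.sum_comm
  have h2 : Gam D φ (dq D q φ) = ∑ j, q j • Gam D φ (D j φ) := by
    unfold dq
    rw [Gam_sum]
    exact Finset.sum_congr rfl fun j _ => Gam_smul _ _ _
  rw [h1, h2]
  unfold dq
  rw [Finset.smul_sum, ← Finset.sum_sub_distrib, ← Finset.sum_add_distrib]
  refine Finset.sum_congr rfl fun j _ => ?_
  rw [D_GS_abs D σ hσ ha hL, smul_add, smul_sub, smul_comm]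

lemma gam_split_abs (f a b c : A) : Gam D f (a + b - c) = Gam D f a + Gam D f b - Gam D f c := by
  have h := Gam_smul (D := D) f (-1) c
  rw [neg_one_smul, neg_one_smul] at h
  rw [sub_eq_add_neg, Gam_add, Gam_add, h, ← sub_eq_add_neg]

lemma ev_gam_abs (e : A →ₐ[ℝ] ℝ) (f g : A) : e (Gam D f g) = ∑ i, e (D i f) * e (D i g) := by
  unfold Gam
  rw [map_sum]
  exact Finset.sum_congr rfl fun i _ => map_mul _ _ _

lemma ev_dq_abs (e : A →ₐ[ℝ] ℝ) (q : J → ℝ) (i : J) (f : A) :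
    e (D i (dq D q f)) = ∑ j, q j * e (D i (D j f)) := by
  unfold dq
  rw [map_sum, map_sum]
  refine Finset.sum_congr rfl fun j _ => ?_
  rw [Derivation.map_smul, map_smul, smul_eq_mul]

lemma D_D_inv_abs {u t : A} (ht : t * u = 1) (d e : Derivation ℝ A A) :
    d (e t) = (t * t * t * d u * e u) + (t * t * t * d u * e u) - t * t * d (e u) := by
  rw [D_t ht, map_neg, Derivation.leibniz, Derivation.leibniz, D_t ht]
  simp only [smul_eq_mul]
  ring

end abs

lemma ev_Hop (U : E → G) (Q u : Sm L E) :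
    L.ev U (Hop Q u) = L.ev U Q * L.ev U u - 1 / 2 * L.ev U (Lap (L.Dv (E := E)) u) := by
  unfold Hop
  rw [map_sub, map_mul, map_smul, smul_eq_mul]

/-- Positivity. `λ = sup |Q| + 1`, barrier: `u > ½ exp (- λ t)` on `[0, T]`, as soon as
`ε < ½ exp (- λ T)`. (`maxp` for `W = - u`, `B = - ½ exp (- λ t)`.) -/
theorem flow_pos [CompactSpace G] (Q : Sm L E) {T : ℝ} (hT : 0 ≤ T) :
    ∃ m : ℝ, 0 < m ∧ ∀ u v : ℝ → Sm L E, Sol T 0 u v → u 0 = 1 →
      (∀ t ∈ Icc 0 T, ∀ U, |L.ev U (v t + Hop Q (u t))| ≤ m) →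
      ∀ t ∈ Icc 0 T, ∀ U, m < L.ev U (u t) := by
  obtain ⟨K, hK, hQ⟩ := exists_C2 Q
  refine ⟨1 / 4 * Real.exp (-((K + 1) * T)), by positivity, fun u v hS h0 hr => ?_⟩
  have hexp : ∀ t ∈ Icc 0 T, Real.exp (-((K + 1) * T)) ≤ Real.exp (-((K + 1) * t)) := by
    intro t ht
    refine Real.exp_le_exp.2 (neg_le_neg ?_)
    exact mul_le_mul_of_nonneg_left ht.2 (by linarith)
  have hS0 := hS [] (by simp)
  have key := maxp (X := E → G) hT (W := fun t U => -(L.ev U (u t)))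
    (W' := fun t U => -(L.ev U (v t))) (B := fun t => -(1 / 2 * Real.exp (-((K + 1) * t))))
    (B' := fun t => (K + 1) / 2 * Real.exp (-((K + 1) * t))) ?_ ?_ ?_ ?_ ?_
  · intro t ht U
    have h1 := key t ht U
    have h2 := hexp t ht
    have h3 := Real.exp_pos (-((K + 1) * T))
    simp only [neg_lt_neg_iff] at h1
    linarith
  · exact hS0.1.neg
  · intro U t ht
    exact (hS0.2 U t ht).neg
  · intro t _
    have h1 : HasDerivAt (fun t : ℝ => -((K + 1) * t)) (-((K + 1) * 1)) t :=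
      ((hasDerivAt_id' t).const_mul (K + 1)).fun_neg
    have h2 := (h1.exp.const_mul (1 / 2 : ℝ)).neg
    refine (h2.congr_deriv ?_).hasDerivWithinAt
    ring
  · intro U
    show -(L.ev U (u 0)) < -(1 / 2 * Real.exp (-((K + 1) * 0)))
    rw [h0, map_one, mul_zero, neg_zero, Real.exp_zero]
    norm_num
  · intro t ht U h1 h2
    have h3 := sp_max_lap (F := -(u t)) (U := U) (fun V => by
      rw [map_neg, map_neg]
      exact (h2 V).trans h1.ge)
    have h4 : Lap (L.Dv (E := E)) (-(u t)) = -Lap (L.Dv (E := E)) (u t) := by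
      unfold Lap
      rw [← Finset.sum_neg_distrib]
      exact Finset.sum_congr rfl fun j _ => by rw [map_neg, map_neg]
    rw [h4, map_neg] at h3
    have h5 := (abs_le.1 (hr t ht U)).1
    rw [map_add, ev_Hop] at h5
    have h6 : L.ev U (u t) = 1 / 2 * Real.exp (-((K + 1) * t)) := by
      have : -(L.ev U (u t)) = -(1 / 2 * Real.exp (-((K + 1) * t))) := h1
      linarith
    have h7 := (hQ U).1
    have h8 : L.ev U Q * L.ev U (u t) ≤ K * L.ev U (u t) := by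
      refine mul_le_mul_of_nonneg_right ((abs_le.1 h7).2) ?_
      rw [h6]; positivity
    have h9 := hexp t ht
    have h10 := Real.exp_pos (-((K + 1) * T))
    show -(L.ev U (v t)) < (K + 1) / 2 * Real.exp (-((K + 1) * t))
    rw [h6] at h8 h5
    nlinarith

lemma expS_mul (φ ψ : Sm L E) : expS φ * expS ψ = expS (φ + ψ) := by
  refine ev_ext fun U => ?_
  rw [map_mul]
  show Real.exp (L.ev U φ) * Real.exp (L.ev U ψ) = Real.exp (L.ev U (φ + ψ))
  rw [map_add, Real.exp_add]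

lemma expS_zero : expS (0 : Sm L E) = 1 := by
  refine ev_ext fun U => ?_
  show Real.exp (L.ev U 0) = _
  rw [map_zero, Real.exp_zero, map_one]

lemma ev_expS (φ : Sm L E) (U : E → G) : L.ev U (expS φ) = Real.exp (L.ev U φ) := rfl

lemma expS_neg_mul (φ : Sm L E) : expS (-φ) * expS φ = 1 := by
  rw [expS_mul, neg_add_cancel, expS_zero]

lemma Lap_expS_neg (φ : Sm L E) : Lap (L.Dv (E := E)) (expS (-φ)) =
    expS (-φ) * (Gam (L.Dv (E := E)) φ φ - Lap (L.Dv (E := E)) φ) :=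
  lap_exp_abs (A := Sm L E) (L.Dv (E := E)) fun j => by
    rw [Dv_expS, map_neg]
    exact mul_neg (expS (-φ)) ((L.Dv (E := E)) j φ)

/-- the logarithmic form of the equation: if `u = exp (- φ)`, `v = - H u + r`, then
`- v / u = ½ Δ φ - ½ |D φ|² + Q - r / u` -/
theorem log_eq {Q u v r φ : Sm L E} (hφ : u = expS (-φ)) (hv : v = -Hop Q u + r) :
    -(v * expS φ) = GS Q φ - r * expS φ := by
  have h3 : -(v * expS φ) = (1 / 2 : ℝ) • Lap (L.Dv (E := E)) φ - (1 / 2 : ℝ) • Gam (L.Dv (E := E)) φ φ + Q -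
      r * expS φ := by
    rw [hv, hφ]
    unfold Hop
    rw [Lap_expS_neg]
    exact log_abs (A := Sm L E) (expS_neg_mul φ)
  exact h3

/-- derivative of the equation along a constant vector `q` -/
def Dq (q : E × Fin n → ℝ) : Sm L E →ₗ[ℝ] Sm L E := ∑ j, q j • ((L.Dv (E := E)) j).toLinearMap

theorem Dq_apply (q : E × Fin n → ℝ) (f : Sm L E) : Dq q f = ∑ j, q j • (L.Dv (E := E)) j f := by
  unfold Dq
  rw [LinearMap.sum_apply]
  rfl

lemma Dq_eq (q : E × Fin n → ℝ) (f : Sm L E) : Dq q f = dq (L.Dv (E := E)) q f := Dq_apply q f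

/-- `D_q (½ Δ φ - ½ |D φ|² + Q) = ½ Δ ψ - Γ(φ, ψ) + D_q Q`, `ψ = D_q φ` (by the antisymmetry of the
structure constants) -/
theorem Dq_GS (Q φ : Sm L E) (q : E × Fin n → ℝ) :
    Dq q (GS Q φ) = (1 / 2 : ℝ) • Lap (L.Dv (E := E)) (Dq q φ) - Gam (L.Dv (E := E)) φ (Dq q φ) + Dq q Q := by
  rw [Dq_eq q (GS Q φ), Dq_eq q φ, Dq_eq q Q]
  have hσ : ∀ (i l : E × Fin n) (u : Sm L E),
      (L.Dv (E := E)) i ((L.Dv (E := E)) l u) - (L.Dv (E := E)) l ((L.Dv (E := E)) i u) = ∑ k, L.sig i l k • (L.Dv (E := E)) k u :=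
    fun i l u => Dv_comm (L := L) i l u
  have ha : ∀ i j k : E × Fin n, L.sig i j k = -L.sig k j i := fun i j k =>
    sig_anti (L := L) i j k
  have hL : ∀ (j : E × Fin n) (u : Sm L E), Lap (L.Dv (E := E)) ((L.Dv (E := E)) j u) = (L.Dv (E := E)) j (Lap (L.Dv (E := E)) u) :=
    fun j u => Lap_Dv (L := L) j u
  exact dq_GS_abs (A := Sm L E) (L.Dv (E := E)) L.sig hσ ha hL Q φ q

/-! ### estimates at a point -/

lemma ev_Gam (U : E → G) (f g : Sm L E) :
    L.ev U (Gam (L.Dv (E := E)) f g) = ∑ i, L.ev U ((L.Dv (E := E)) i f) * L.ev U ((L.Dv (E := E)) i g) :=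
  ev_gam_abs (A := Sm L E) (L.Dv (E := E)) (L.ev U) f g

lemma ev_Gam_self (U : E → G) (f : Sm L E) :
    L.ev U (Gam (L.Dv (E := E)) f f) = ∑ i, L.ev U ((L.Dv (E := E)) i f) ^ 2 := by
  rw [ev_Gam]
  exact Finset.sum_congr rfl fun i _ => (sq _).symm

lemma ev_Dv_Dq (U : E → G) (q : E × Fin n → ℝ) (i : E × Fin n) (f : Sm L E) :
    L.ev U ((L.Dv (E := E)) i (Dq q f)) = ∑ j, q j * L.ev U ((L.Dv (E := E)) i ((L.Dv (E := E)) j f)) := by
  rw [Dq_eq]
  exact ev_dq_abs (A := Sm L E) (L.Dv (E := E)) (L.ev U) q i f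

lemma Gam_split (f a b c : Sm L E) : Gam (L.Dv (E := E)) f (a + b - c) =
    Gam (L.Dv (E := E)) f a + Gam (L.Dv (E := E)) f b - Gam (L.Dv (E := E)) f c :=
  gam_split_abs (A := Sm L E) (L.Dv (E := E)) f a b c

/-- the Cauchy-Schwarz inequality -/
lemma gam_cs {f g : Sm L E} {U : E → G} {a b : ℝ} (ha : 0 ≤ a) (hb : 0 ≤ b)
    (h1 : L.ev U (Gam (L.Dv (E := E)) f f) ≤ a ^ 2) (h2 : L.ev U (Gam (L.Dv (E := E)) g g) ≤ b ^ 2) :
    |L.ev U (Gam (L.Dv (E := E)) f g)| ≤ a * b := by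
  refine abs_le_of_sq_le_sq ?_ (mul_nonneg ha hb)
  rw [ev_Gam_self] at h1 h2
  rw [ev_Gam, mul_pow]
  refine (Finset.sum_mul_sq_le_sq_mul_sq _ _ _).trans ?_
  exact mul_le_mul h1 h2 (Finset.sum_nonneg fun _ _ => sq_nonneg _) (sq_nonneg _)

lemma HB.gam {Q : Sm L E} {s : ℝ} (h : HB Q s) {q : E × Fin n → ℝ} (hq : ∑ j, q j ^ 2 = 1)
    (U : E → G) : L.ev U (Gam (L.Dv (E := E)) (Dq q Q) (Dq q Q)) ≤ s ^ 2 := by
  have h1 := h U q
  rw [hq, mul_one] at h1
  rw [ev_Gam_self]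
  simp only [ev_Dv_Dq]
  exact h1

lemma C2_gam {f : Sm L E} {K : ℝ} (h : C2 f K) {q : E × Fin n → ℝ} (hq : ∑ j, q j ^ 2 = 1)
    (U : E → G) : L.ev U (Gam (L.Dv (E := E)) (Dq q f) (Dq q f)) ≤ (Fintype.card (E × Fin n) * K) ^ 2 := by
  rw [ev_Gam_self]
  simp only [ev_Dv_Dq]
  have h1 : ∀ i : E × Fin n, (∑ j, q j * L.ev U ((L.Dv (E := E)) i ((L.Dv (E := E)) j f))) ^ 2 ≤
      Fintype.card (E × Fin n) * K ^ 2 := by
    intro i
    refine (Finset.sum_mul_sq_le_sq_mul_sq _ _ _).trans ?_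
    rw [hq, one_mul]
    have h2 : ∀ j ∈ (Finset.univ : Finset (E × Fin n)),
        L.ev U ((L.Dv (E := E)) i ((L.Dv (E := E)) j f)) ^ 2 ≤ K ^ 2 := by
      intro j _
      rw [← sq_abs]
      exact pow_le_pow_left₀ (abs_nonneg _) (((h U).2 i).2 j) 2
    refine (Finset.sum_le_card_nsmul _ _ _ h2).trans ?_
    rw [Finset.card_univ, nsmul_eq_mul]
  refine (Finset.sum_le_card_nsmul _ _ _ fun i _ => h1 i).trans ?_
  rw [Finset.card_univ, nsmul_eq_mul]
  exact le_of_eq (by ring)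

/-- the inverse of a positive function -/
lemma C2_inv {u t : Sm L E} (ht : t * u = 1) {m C : ℝ} (hm : 0 < m) (hu : ∀ U, m ≤ L.ev U u)
    (hC : C2 u C) : C2 t (1 / m + C / m ^ 2 + 2 * C ^ 2 / m ^ 3) := by
  intro U
  have hC0 : 0 ≤ C := (abs_nonneg _).trans (hC U).1
  have hx : L.ev U t * L.ev U u = 1 := by rw [← map_mul, ht, map_one]
  have hup : 0 < L.ev U u := hm.trans_le (hu U)
  have hxe : L.ev U t = 1 / L.ev U u := by
    field_simp
    exact hx
  have hx0 : 0 ≤ L.ev U t := by rw [hxe]; positivity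
  have hxm : L.ev U t ≤ 1 / m := by
    rw [hxe]
    exact one_div_le_one_div_of_le hm (hu U)
  have h1 : ∀ i, (L.Dv (E := E)) i t = -(t * t * (L.Dv (E := E)) i u) := fun i => D_t (A := Sm L E) ht ((L.Dv (E := E)) i)
  have h2 : ∀ i j, (L.Dv (E := E)) i ((L.Dv (E := E)) j t) = (t * t * t * (L.Dv (E := E)) i u * (L.Dv (E := E)) j u) +
      (t * t * t * (L.Dv (E := E)) i u * (L.Dv (E := E)) j u) - t * t * (L.Dv (E := E)) i ((L.Dv (E := E)) j u) := fun i j =>
    D_D_inv_abs (A := Sm L E) ht ((L.Dv (E := E)) i) ((L.Dv (E := E)) j)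
  have e1 : 0 ≤ 1 / m := by positivity
  have e2 : 0 ≤ C / m ^ 2 := by positivity
  have e3 : 0 ≤ 2 * C ^ 2 / m ^ 3 := by positivity
  have p2 : L.ev U t ^ 2 ≤ (1 / m) ^ 2 := pow_le_pow_left₀ hx0 hxm 2
  have p3 : L.ev U t ^ 3 ≤ (1 / m) ^ 3 := pow_le_pow_left₀ hx0 hxm 3
  have b2 : ∀ y : ℝ, |y| ≤ C → |L.ev U t ^ 2 * y| ≤ C / m ^ 2 := by
    intro y hy
    rw [abs_mul, abs_of_nonneg (by positivity : 0 ≤ L.ev U t ^ 2)]
    calc L.ev U t ^ 2 * |y| ≤ (1 / m) ^ 2 * C := mul_le_mul p2 hy (abs_nonneg _) (by positivity)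
      _ = C / m ^ 2 := by ring
  refine ⟨?_, fun i => ⟨?_, fun j => ?_⟩⟩
  · rw [abs_of_nonneg hx0]
    linarith
  · rw [h1, map_neg, abs_neg, map_mul, map_mul, ← sq]
    have := b2 _ ((hC U).2 i).1
    linarith
  · rw [h2, map_sub, map_add, map_mul, map_mul, map_mul, map_mul, map_mul, map_mul]
    have a1 := b2 _ (((hC U).2 i).2 j)
    have a2 : |L.ev U t ^ 3 * (L.ev U ((L.Dv (E := E)) i u) * L.ev U ((L.Dv (E := E)) j u))| ≤ C ^ 2 / m ^ 3 := by
      rw [abs_mul, abs_of_nonneg (by positivity : 0 ≤ L.ev U t ^ 3), abs_mul]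
      calc L.ev U t ^ 3 * (|L.ev U ((L.Dv (E := E)) i u)| * |L.ev U ((L.Dv (E := E)) j u)|)
          ≤ (1 / m) ^ 3 * (C * C) := mul_le_mul p3 (mul_le_mul ((hC U).2 i).1 ((hC U).2 j).1
            (abs_nonneg _) hC0) (by positivity) (by positivity)
        _ = C ^ 2 / m ^ 3 := by ring
    have e4 : L.ev U t * L.ev U t * L.ev U t * L.ev U ((L.Dv (E := E)) i u) * L.ev U ((L.Dv (E := E)) j u) +
        L.ev U t * L.ev U t * L.ev U t * L.ev U ((L.Dv (E := E)) i u) * L.ev U ((L.Dv (E := E)) j u) -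
        L.ev U t * L.ev U t * L.ev U ((L.Dv (E := E)) i ((L.Dv (E := E)) j u)) =
        2 * (L.ev U t ^ 3 * (L.ev U ((L.Dv (E := E)) i u) * L.ev U ((L.Dv (E := E)) j u))) -
          L.ev U t ^ 2 * L.ev U ((L.Dv (E := E)) i ((L.Dv (E := E)) j u)) := by ring
    rw [e4]
    refine (abs_sub _ _).trans ?_
    rw [abs_mul, abs_two]
    have e5 : 2 * C ^ 2 / m ^ 3 = 2 * (C ^ 2 / m ^ 3) := by ring
    rw [e5] at e3 ⊢
    linarith

/-- it is sufficient to check the Hessian bound for unit vectors -/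
lemma HB_of_unit {φ : Sm L E} {h : ℝ} (H : ∀ (U : E → G) (q : E × Fin n → ℝ), ∑ j, q j ^ 2 = 1 →
    ∑ i, (∑ j, q j * L.ev U ((L.Dv (E := E)) i ((L.Dv (E := E)) j φ))) ^ 2 ≤ h ^ 2) : HB φ h := by
  intro U q
  rcases (Finset.sum_nonneg fun j (_ : j ∈ Finset.univ) => sq_nonneg (q j)).eq_or_lt with h0 | h0
  · have h1 : ∀ j, q j = 0 := fun j => by
      have := (Finset.sum_eq_zero_iff_of_nonneg fun j _ => sq_nonneg (q j)).1 h0.symm j
        (Finset.mem_univ j)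
      exact pow_eq_zero_iff two_ne_zero |>.1 this
    simp [h1]
  · set r := Real.sqrt (∑ j, q j ^ 2) with hr
    have hr0 : 0 < r := Real.sqrt_pos.2 h0
    have hr2 : r ^ 2 = ∑ j, q j ^ 2 := Real.sq_sqrt h0.le
    have h1 := H U (fun j => q j / r) (by
      simp only [div_pow]
      rw [← Finset.sum_div, ← hr2, div_self (by positivity)])
    have h2 : ∀ i, (∑ j, q j / r * L.ev U ((L.Dv (E := E)) i ((L.Dv (E := E)) j φ))) =
        (∑ j, q j * L.ev U ((L.Dv (E := E)) i ((L.Dv (E := E)) j φ))) / r := by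
      intro i
      rw [Finset.sum_div]
      exact Finset.sum_congr rfl fun j _ => by ring
    simp only [h2, div_pow] at h1
    rw [← Finset.sum_div, div_le_iff₀ (by positivity)] at h1
    rw [← hr2]
    exact h1

/-- the unit sphere -/
abbrev Sph (J : Type*) [Fintype J] := {q : J → ℝ // ∑ j, q j ^ 2 = 1}

instance compact_Sph (J : Type*) [Fintype J] : CompactSpace (Sph J) := by
  have h1 : IsClosed {q : J → ℝ | ∑ j, q j ^ 2 = 1} :=
    isClosed_eq (by fun_prop) continuous_const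
  suffices h : IsCompact {q : J → ℝ | ∑ j, q j ^ 2 = 1} from isCompact_iff_compactSpace.1 h
  refine Metric.isCompact_of_isClosed_isBounded h1 ?_
  refine (Metric.isBounded_closedBall (x := (0 : J → ℝ)) (r := 1)).subset fun q hq => ?_
  rw [mem_closedBall_zero_iff, pi_norm_le_iff_of_nonneg zero_le_one]
  intro j
  have h2 : q j ^ 2 ≤ 1 := by
    rw [← show ∑ j, q j ^ 2 = 1 from hq]
    exact Finset.single_le_sum (f := fun j => q j ^ 2) (fun _ _ => sq_nonneg _)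
      (Finset.mem_univ j)
  rw [Real.norm_eq_abs]
  exact (sq_le_one_iff_abs_le_one _).1 h2

/-- the maximum principle for the square of the norm of a matrix -/
lemma max_sph {J X : Type*} [Fintype J] [TopologicalSpace X] [CompactSpace X] {T h : ℝ}
    (hT : 0 ≤ T) (hh : 0 < h) {x x' : J → J → ℝ → X → ℝ}
    (hc : ∀ i j, ContinuousOn (fun p : ℝ × X => x i j p.1 p.2) (Icc 0 T ×ˢ univ))
    (hd : ∀ i j U, ∀ t ∈ Icc 0 T, HasDerivWithinAt (fun s => x i j s U) (x' i j t U) (Icc 0 T) t)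
    (h0 : ∀ i j U, x i j 0 U = 0)
    (hm : ∀ t ∈ Icc 0 T, ∀ (U : X) (q : J → ℝ), ∑ j, q j ^ 2 = 1 →
      ∑ i, (∑ j, q j * x i j t U) ^ 2 = h ^ 2 →
      (∀ (V : X) (q' : J → ℝ), ∑ j, q' j ^ 2 = 1 → ∑ i, (∑ j, q' j * x i j t V) ^ 2 ≤ h ^ 2) →
      ∑ i, (∑ j, q j * x i j t U) * (∑ j, q j * x' i j t U) < 0) :
    ∀ t ∈ Icc 0 T, ∀ (U : X) (q : J → ℝ), ∑ j, q j ^ 2 = 1 →
      ∑ i, (∑ j, q j * x i j t U) ^ 2 < h ^ 2 := by
  have key := maxp (X := X × Sph J) hT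
    (W := fun t y => ∑ i, (∑ j, y.2.1 j * x i j t y.1) ^ 2)
    (W' := fun t y => 2 * ∑ i, (∑ j, y.2.1 j * x i j t y.1) * (∑ j, y.2.1 j * x' i j t y.1))
    (B := fun _ => h ^ 2) (B' := fun _ => 0) ?_ ?_ ?_ ?_ ?_
  · intro t ht U q hq
    exact key t ht (U, ⟨q, hq⟩)
  · -- continuity
    have h1 : ∀ i j : J, ContinuousOn (fun p : ℝ × (X × Sph J) => x i j p.1 p.2.1)
        (Icc 0 T ×ˢ univ) := by
      intro i j
      have h3 : Continuous fun p : ℝ × (X × Sph J) => (p.1, p.2.1) := by fun_prop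
      exact (hc i j).comp h3.continuousOn fun p hp => ⟨hp.1, mem_univ _⟩
    have h4 : ∀ j : J, Continuous fun p : ℝ × (X × Sph J) => p.2.2.1 j := fun j =>
      (continuous_apply j).comp (continuous_subtype_val.comp (continuous_snd.comp continuous_snd))
    refine continuousOn_finsetSum _ fun i _ => ?_
    refine ContinuousOn.pow (continuousOn_finsetSum _ fun j _ => ?_) 2
    exact (h4 j).continuousOn.mul (h1 i j)
  · -- derivative
    rintro ⟨U, q⟩ t ht
    have h1 : ∀ i : J, HasDerivWithinAt (fun s => ∑ j, q.1 j * x i j s U)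
        (∑ j, q.1 j * x' i j t U) (Icc 0 T) t := by
      intro i
      refine HasDerivWithinAt.fun_sum fun j _ => ?_
      exact (hd i j U t ht).const_mul _
    have h2 : HasDerivWithinAt (fun s => ∑ i, (∑ j, q.1 j * x i j s U) ^ 2)
        (∑ i, 2 * ((∑ j, q.1 j * x i j t U) * (∑ j, q.1 j * x' i j t U))) (Icc 0 T) t := by
      refine HasDerivWithinAt.fun_sum fun i _ => ?_
      have h3 := (h1 i).fun_pow 2
      refine h3.congr_deriv ?_
      simp
      ring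
    refine h2.congr_deriv ?_
    rw [← Finset.mul_sum]
  · intro t _
    exact hasDerivWithinAt_const _ _ _
  · -- the initial value
    rintro ⟨U, q⟩
    simp only [h0, mul_zero, Finset.sum_const_zero]
    norm_num
    positivity
  · -- the touching point
    rintro t ht ⟨U, ⟨q, hq⟩⟩ hW hmax
    have := hm t ht U q hq hW fun V q' hq' => hmax (V, ⟨q', hq'⟩)
    show 2 * ∑ i, (∑ j, q j * x i j t U) * (∑ j, q j * x' i j t U) < 0
    linarith

/-- **Hessian bound along the flow.** For `q` in the unit sphere of `E × Fin n → ℝ` (compact) let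
`ψ = D_q φ`, `W (t, (U, q)) = ½ Γ(ψ, ψ)`. At a time when `W ≤ ½ h²` everywhere one has `HB φ h`; at a
touching point `W' = Γ(ψ, ½ Δ ψ - Γ(φ, ψ)) + Γ(ψ, D_q Q) - Γ(ψ, D_q (r e^φ)) ≤
-(c / 8 - h) h² + h s + small < 0` by `boch_full` and `sp_max`. Apply `maxp` on
`(E → G) × sphere`. -/
theorem hess_flow [CompactSpace G] {c h s : ℝ} (hc : Cas L c) {Q : Sm L E} (hQ : HB Q s)
    (hs : 0 ≤ s) (hh : 0 < h) (hh2 : h ^ 2 + s < c / 8 * h) {T : ℝ} (hT : 0 ≤ T) (C : ℝ) :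
    ∃ ε : ℝ, 0 < ε ∧ ∀ u v : ℝ → Sm L E, Sol T 2 u v → u 0 = 1 →
      (∀ t ∈ Icc 0 T, C2 (v t + Hop Q (u t)) ε ∧ C2 (u t) C) →
      ∀ t ∈ Icc 0 T, ∀ φ : Sm L E, (∀ U, L.ev U φ = -Real.log (L.ev U (u t))) → HB φ h := by
  obtain ⟨m, hm, hpos⟩ := flow_pos Q hT
  set M : ℝ := 1 / m + |C| / m ^ 2 + 2 * |C| ^ 2 / m ^ 3 with hM
  have hM0 : 0 < M := by positivity
  set d : ℝ := c / 8 * h - (h ^ 2 + s) with hd
  have hd0 : 0 < d := by rw [hd]; linarith
  set ε : ℝ := min m (d / (4 * (Fintype.card (E × Fin n) + 1) * M + 1)) with hε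
  have hcard : (0 : ℝ) ≤ Fintype.card (E × Fin n) := by positivity
  have hε0 : 0 < ε := lt_min hm (by positivity)
  have hεd : 4 * Fintype.card (E × Fin n) * M * ε < d := by
    have h1 : ε ≤ d / (4 * (Fintype.card (E × Fin n) + 1) * M + 1) := min_le_right _ _
    rw [le_div_iff₀ (by positivity)] at h1
    nlinarith [mul_pos hε0 hM0]
  refine ⟨ε, hε0, fun u v hS h0 hr => ?_⟩
  have hup : ∀ t ∈ Icc 0 T, ∀ U, m < L.ev U (u t) :=
    hpos u v (hS.mono (by norm_num)) h0 fun t ht U =>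
      (((hr t ht).1 U).1).trans (min_le_left _ _)
  have hup0 : ∀ t ∈ Icc 0 T, ∀ U, 0 < L.ev U (u t) := fun t ht U => hm.trans (hup t ht U)
  -- the logarithm
  have hex : ∀ t, ∃ φ : Sm L E, t ∈ Icc 0 T → ∀ U, L.ev U φ = -Real.log (L.ev U (u t)) := by
    intro t
    by_cases ht : t ∈ Icc 0 T
    · obtain ⟨φ, hφ⟩ := exists_log (hup0 t ht)
      exact ⟨φ, fun _ => hφ⟩
    · exact ⟨0, fun h => absurd h ht⟩
  choose φ hφ using hex
  have hφS := hS.log hup0 hφ
  have huφ : ∀ t ∈ Icc 0 T, u t = expS (-(φ t)) := by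
    intro t ht
    refine ev_ext fun U => ?_
    rw [ev_expS, map_neg, hφ t ht, neg_neg, Real.exp_log (hup0 t ht U)]
  have hinv : ∀ t ∈ Icc 0 T, expS (φ t) * u t = 1 := by
    intro t ht
    rw [huφ t ht, mul_comm, expS_neg_mul]
  obtain ⟨r, hrd⟩ : ∃ r : ℝ → Sm L E, r = fun t => v t + Hop Q (u t) := ⟨_, rfl⟩
  have hφ' : ∀ t ∈ Icc 0 T, -(v t * expS (φ t)) = GS Q (φ t) - r t * expS (φ t) := by
    intro t ht
    refine log_eq (huφ t ht) ?_
    rw [hrd]
    beta_reduce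
    rw [add_comm (v t), neg_add_cancel_left]
  have hre : ∀ t ∈ Icc 0 T, C2 (r t * expS (φ t)) (4 * ε * M) := by
    intro t ht
    have h1 : C2 (u t) |C| := ((hr t ht).2).mono (le_abs_self C)
    have h2 := C2_inv (hinv t ht) hm (fun U => (hup t ht U).le) h1
    have h3 := ((hr t ht).1).mul h2
    rw [hrd]
    exact h3
  have key := max_sph (J := E × Fin n) (X := E → G) hT hh
    (x := fun i j t U => L.ev U ((L.Dv (E := E)) i ((L.Dv (E := E)) j (φ t))))
    (x' := fun i j t U => L.ev U ((L.Dv (E := E)) i ((L.Dv (E := E)) j (-(v t * expS (φ t)))))) ?_ ?_ ?_ ?_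
  · intro t ht ψ hψ
    have h1 : ψ = φ t := ev_ext fun U => by rw [hψ, hφ t ht]
    rw [h1]
    exact HB_of_unit fun U q hq => (key t ht U q hq).le
  · intro i j
    exact (hφS [i, j] (by simp)).1
  · intro i j U t ht
    exact (hφS [i, j] (by simp)).2 U t ht
  · intro i j U
    have h1 : φ 0 = 0 := by
      refine ev_ext fun V => ?_
      rw [hφ 0 (left_mem_Icc.2 hT), h0, map_one, Real.log_one, neg_zero, map_zero]
    rw [h1, map_zero, map_zero, map_zero]
  · -- the touching point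
    intro t ht U q hq hW hmax
    have hHB : HB (φ t) h := HB_of_unit hmax
    obtain ⟨ψ, hψ⟩ : ∃ ψ, ψ = Dq q (φ t) := ⟨_, rfl⟩
    have g1 : ∀ V, L.ev V (Gam (L.Dv (E := E)) ψ ψ) =
        ∑ i, (∑ j, q j * L.ev V ((L.Dv (E := E)) i ((L.Dv (E := E)) j (φ t)))) ^ 2 := by
      intro V
      rw [ev_Gam_self]
      simp only [hψ, ev_Dv_Dq]
    have g2 : L.ev U (Gam (L.Dv (E := E)) ψ ψ) = h ^ 2 := by
      rw [g1]; exact hW
    have hF : ∀ V, L.ev V ((1 / 2 : ℝ) • Gam (L.Dv (E := E)) ψ ψ) ≤ L.ev U ((1 / 2 : ℝ) • Gam (L.Dv (E := E)) ψ ψ) := by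
      intro V
      rw [map_smul, map_smul, g2, smul_eq_mul, smul_eq_mul, g1]
      have := hmax V q hq
      linarith
    have b1 := boch_full hc hHB hh.le ψ U
    have b2 := sp_max_lap hF
    have b3 := sp_max_gam hF (φ t)
    rw [map_sub, map_smul, b3, g2, smul_eq_mul, sub_zero] at b1
    have c1 := gam_cs (f := ψ) (g := Dq q Q) (U := U) hh.le hs g2.le (hQ.gam hq U)
    have c2 := gam_cs (f := ψ) (g := Dq q (r t * expS (φ t))) (U := U)
      (b := Fintype.card (E × Fin n) * (4 * ε * M)) hh.le (by positivity) g2.le (C2_gam (hre t ht) hq U)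
    have e1 : Dq q (-(v t * expS (φ t))) = ((1 / 2 : ℝ) • Lap (L.Dv (E := E)) ψ - Gam (L.Dv (E := E)) (φ t) ψ) +
        Dq q Q - Dq q (r t * expS (φ t)) := by
      rw [hφ' t ht, map_sub, Dq_GS, hψ]
    have c3 : ∑ i, (∑ j, q j * L.ev U ((L.Dv (E := E)) i ((L.Dv (E := E)) j (φ t)))) *
        (∑ j, q j * L.ev U ((L.Dv (E := E)) i ((L.Dv (E := E)) j (-(v t * expS (φ t)))))) =
        L.ev U (Gam (L.Dv (E := E)) ψ ((1 / 2 : ℝ) • Lap (L.Dv (E := E)) ψ - Gam (L.Dv (E := E)) (φ t) ψ)) +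
          L.ev U (Gam (L.Dv (E := E)) ψ (Dq q Q)) - L.ev U (Gam (L.Dv (E := E)) ψ (Dq q (r t * expS (φ t)))) := by
      have k1 := congrArg (L.ev U) (Gam_split ψ
        ((1 / 2 : ℝ) • Lap (L.Dv (E := E)) ψ - Gam (L.Dv (E := E)) (φ t) ψ) (Dq q Q) (Dq q (r t * expS (φ t))))
      rw [← e1, map_sub, map_add] at k1
      rw [← k1, ev_Gam]
      refine Finset.sum_congr rfl fun i _ => ?_
      rw [hψ, ev_Dv_Dq U q i (φ t), ev_Dv_Dq U q i (-(v t * expS (φ t)))]
    rw [c3]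
    have d1 := (abs_le.1 c1).2
    have d2 := (abs_le.1 c2).1
    have d3 : h * (4 * Fintype.card (E × Fin n) * M * ε) < h * d := mul_lt_mul_of_pos_left hεd hh
    have d4 : h * d = c / 8 * h ^ 2 - h ^ 3 - h * s := by rw [hd]; ring
    nlinarith

end

end Run7.h208.KS
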