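import Pool.Agent.Run7.h208.KS.Base

/-!
# Piece MAXP: maximum principle
-/

open MeasureTheory Matrix Set
open scoped Matrix.Norms.Frobenius ContDiff
open Pool.Agent.H906R3.YM

namespace Run7.h208.KS

set_option linter.unusedSectionVars false

noncomputable section

/-- Maximum principle with a barrier `B`. Proof: otherwise let `t₀` be the smallest time in the
compact projection of `{(t, x) | B t ≤ W t x}`; `t₀ > 0`, `W t₀ x = B t₀` for some `x`,
`W t₀ y ≤ B t₀` for all `y` by continuity, and `W s x - B s < 0` for `s < t₀` contradicts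
`W' t₀ x - B' t₀ < 0`. -/
theorem maxp {X : Type*} [TopologicalSpace X] [CompactSpace X] {T : ℝ} (hT : 0 ≤ T)
    {W W' : ℝ → X → ℝ} {B B' : ℝ → ℝ}
    (hc : ContinuousOn (fun p : ℝ × X => W p.1 p.2) (Icc 0 T ×ˢ univ))
    (hW : ∀ x, ∀ t ∈ Icc 0 T, HasDerivWithinAt (fun s => W s x) (W' t x) (Icc 0 T) t)
    (hB : ∀ t ∈ Icc 0 T, HasDerivWithinAt B (B' t) (Icc 0 T) t)
    (h0 : ∀ x, W 0 x < B 0)
    (hm : ∀ t ∈ Icc 0 T, ∀ x, W t x = B t → (∀ y, W t y ≤ B t) → W' t x < B' t) :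
    ∀ t ∈ Icc 0 T, ∀ x, W t x < B t := by
  by_contra hcon
  push Not at hcon
  obtain ⟨t₁, ht₁, x₁, hx₁⟩ := hcon
  set K : Set (ℝ × X) := Icc 0 T ×ˢ univ with hK
  have hKc : IsCompact K := isCompact_Icc.prod isCompact_univ
  have hKcl : IsClosed K := isClosed_Icc.prod isClosed_univ
  have hBc : ContinuousOn B (Icc 0 T) := fun t ht => (hB t ht).continuousWithinAt
  have hg : ContinuousOn (fun p : ℝ × X => W p.1 p.2 - B p.1) K :=
    hc.sub (hBc.comp continuousOn_fst fun p hp => hp.1)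
  set S : Set (ℝ × X) := K ∩ (fun p : ℝ × X => W p.1 p.2 - B p.1) ⁻¹' Ici 0 with hS
  have hScl : IsClosed S := hg.preimage_isClosed_of_isClosed hKcl isClosed_Ici
  have hSc : IsCompact S := hKc.of_isClosed_subset hScl inter_subset_left
  have hSne : S.Nonempty := ⟨(t₁, x₁), ⟨ht₁, mem_univ _⟩, by
    show 0 ≤ W t₁ x₁ - B t₁; linarith⟩
  obtain ⟨⟨t₀, x₀⟩, hp₀, hmin⟩ := hSc.exists_isMinOn hSne continuous_fst.continuousOn
  have ht₀ : t₀ ∈ Icc 0 T := hp₀.1.1
  have hw₀ : 0 ≤ W t₀ x₀ - B t₀ := hp₀.2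
  have hbefore : ∀ t ∈ Ico 0 t₀, ∀ y, W t y < B t := by
    intro t ht y
    by_contra hcon
    push Not at hcon
    have h1 : (t, y) ∈ S := ⟨⟨⟨ht.1, ht.2.le.trans ht₀.2⟩, mem_univ _⟩, by
      show 0 ≤ W t y - B t; linarith⟩
    have h2 : t₀ ≤ t := hmin h1
    exact absurd ht.2 (not_lt.2 h2)
  have ht₀pos : 0 < t₀ := by
    rcases ht₀.1.eq_or_lt with h | h
    · exfalso
      have := h0 x₀
      rw [← h] at hw₀
      linarith
    · exact h
  have hsub : Ico 0 t₀ ⊆ Icc 0 T := fun s hs => ⟨hs.1, hs.2.le.trans ht₀.2⟩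
  have hne : (nhdsWithin t₀ (Ico 0 t₀)).NeBot := by
    rw [← mem_closure_iff_nhdsWithin_neBot, closure_Ico ht₀pos.ne]
    exact ⟨ht₀pos.le, le_rfl⟩
  have hall : ∀ y, W t₀ y ≤ B t₀ := by
    intro y
    have h1 : ContinuousWithinAt (fun s => W s y - B s) (Ico 0 t₀) t₀ :=
      ((hW y t₀ ht₀).sub (hB t₀ ht₀)).continuousWithinAt.mono hsub
    have h2 : W t₀ y - B t₀ ≤ 0 := by
      refine le_of_tendsto h1 ?_
      filter_upwards [self_mem_nhdsWithin] with s hs
      have := hbefore s hs y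
      linarith
    linarith
  have heq : W t₀ x₀ = B t₀ := le_antisymm (hall x₀) (by linarith)
  have hlt := hm t₀ ht₀ x₀ heq hall
  have hder : HasDerivWithinAt (fun s => W s x₀ - B s) (W' t₀ x₀ - B' t₀) (Ico 0 t₀) t₀ :=
    ((hW x₀ t₀ ht₀).sub (hB t₀ ht₀)).mono hsub
  rw [hasDerivWithinAt_iff_tendsto_slope' (fun h => lt_irrefl _ h.2)] at hder
  have h3 : 0 ≤ W' t₀ x₀ - B' t₀ := by
    refine ge_of_tendsto hder ?_
    filter_upwards [self_mem_nhdsWithin] with s hs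
    rw [slope_def_field]
    have h4 := hbefore s hs x₀
    have h5 : W s x₀ - B s - (W t₀ x₀ - B t₀) ≤ 0 := by rw [heq]; linarith
    have h6 : s - t₀ ≤ 0 := by linarith [hs.2]
    exact div_nonneg_of_nonpos h5 h6
  linarith

variable {G : Type*} [Group G] [TopologicalSpace G] {N n : ℕ} {L : LD G N n}
  {E : Type*} [Fintype E] [DecidableEq E]

/-- at a maximum point the first derivatives vanish and the second ones are not positive -/
theorem sp_max {F : Sm L E} {U : E → G} (h : ∀ V, L.ev V F ≤ L.ev U F) (j : E × Fin n) :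
    L.ev U (L.Dv j F) = 0 ∧ L.ev U (L.Dv j (L.Dv j F)) ≤ 0 := by
  set f : ℝ → ℝ := fun t => F.1 (L.shift j.1 j.2 t U) with hf
  have h0 : L.shift j.1 j.2 0 U = U := L.shift_zero _ _ _
  have hd : ∀ s, HasDerivAt f (L.ev (L.shift j.1 j.2 s U) (L.Dv j F)) s := fun s =>
    hasDerivAt_dF F.2 j.1 j.2 U s
  have hd2 : ∀ s, HasDerivAt (fun t => L.ev (L.shift j.1 j.2 t U) (L.Dv j F))
      (L.ev (L.shift j.1 j.2 s U) (L.Dv j (L.Dv j F))) s := fun s =>
    hasDerivAt_dF (L.Dv j F).2 j.1 j.2 U s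
  have hmax : IsLocalMax f 0 := by
    refine Filter.Eventually.of_forall fun t => ?_
    show F.1 (L.shift j.1 j.2 t U) ≤ F.1 (L.shift j.1 j.2 0 U)
    rw [h0]
    exact h _
  have h1 : L.ev U (L.Dv j F) = 0 := by
    have := hmax.hasDerivAt_eq_zero (hd 0)
    rwa [h0] at this
  refine ⟨h1, ?_⟩
  by_contra hcon
  push Not at hcon
  have hderiv : deriv f = fun t => L.ev (L.shift j.1 j.2 t U) (L.Dv j F) :=
    funext fun s => (hd s).deriv
  have hdd : deriv (deriv f) 0 = L.ev U (L.Dv j (L.Dv j F)) := by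
    rw [hderiv, (hd2 0).deriv, h0]
  have hmin : IsLocalMin f 0 := isLocalMin_of_deriv_deriv_pos (by rw [hdd]; exact hcon)
    (by rw [hderiv]; show L.ev (L.shift j.1 j.2 0 U) (L.Dv j F) = 0; rw [h0]; exact h1)
    (hd 0).continuousAt
  have hconst : f =ᶠ[nhds 0] fun _ => f 0 := by
    filter_upwards [hmax, hmin] with t ht1 ht2
    exact le_antisymm ht1 ht2
  have h2 : deriv (deriv f) 0 = 0 := by
    have h3 : deriv f =ᶠ[nhds 0] deriv (fun _ => f 0) := hconst.deriv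
    rw [h3.deriv_eq]
    simp
  rw [hdd] at h2
  linarith

theorem sp_max_lap {F : Sm L E} {U : E → G} (h : ∀ V, L.ev V F ≤ L.ev U F) :
    L.ev U (Lap (L.Dv (E := E)) F) ≤ 0 := by
  unfold Lap
  rw [map_sum]
  exact Finset.sum_nonpos fun j _ => (sp_max h j).2

theorem sp_max_gam {F : Sm L E} {U : E → G} (h : ∀ V, L.ev V F ≤ L.ev U F) (φ : Sm L E) :
    L.ev U (Gam (L.Dv (E := E)) φ F) = 0 := by
  unfold Gam
  rw [map_sum]
  refine Finset.sum_eq_zero fun j _ => ?_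
  rw [map_mul, (sp_max h j).1, mul_zero]

end

end Run7.h208.KS
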