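import Mathlib

/-!
# Hamiltonian lattice gauge theory: the definitions of the model

Space is the periodic cubic lattice `(ℤ/l)^D`, the gauge group `G` is a closed connected
subgroup of `U(N)` and the Hamiltonian is the one of Kogut and Susskind,
`H = - (g ^ 2 / 2) Δ + g ^ (-2) ∑_p Re tr (1 - U_p)`, on functions of the link variables.
-/

open MeasureTheory Matrix
open scoped ContDiff Matrix.Norms.Frobenius ComplexConjugate

namespace Run7.h208.KS.Model

set_option linter.unusedSectionVars false

noncomputable section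

/-- Complex `N × N` matrices. -/
abbrev Mt (N : ℕ) := Matrix (Fin N) (Fin N) ℂ

/-- The unitary group `U(N)`. -/
abbrev UU (N : ℕ) := Matrix.unitaryGroup (Fin N) ℂ

/-- The matrix of an element of a subgroup of `U(N)`. -/
def mt {N : ℕ} {G : Subgroup (UU N)} (g : G) : Mt N := ((g : UU N) : Mt N)

/-- Links of the periodic lattice `(ℤ/l)^D`: base point and direction. -/
abbrev Link (D l : ℕ) := (Fin D → ZMod l) × Fin D

/-- Unit vector of the lattice in direction `i`. -/
def unitv {D l : ℕ} (i : Fin D) : Fin D → ZMod l := Pi.single i 1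

/-- An orthonormal basis `X` of the Lie algebra of `G`, that is of the real space of all matrices `Y`
with `exp (t Y) ∈ G` for all real `t`, with the scalar product `Re tr (Y* Z)`; `ex a t` is the
element `exp (t X_a)` of `G`. -/
structure LieBasis {N : ℕ} (G : Subgroup (UU N)) (n : ℕ) where
  X : Fin n → Mt N
  ex : Fin n → ℝ → G
  ex_eq : ∀ a t, mt (ex a t) = NormedSpace.exp (t • X a)
  orth : ∀ a b, (trace ((X a)ᴴ * X b)).re = if a = b then 1 else 0
  full : ∀ Y : Mt N, (∀ t : ℝ, ∃ g : G, mt g = NormedSpace.exp (t • Y)) →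
    Y ∈ Submodule.span ℝ (Set.range X)

section

variable {N n D l : ℕ} {G : Subgroup (UU N)}

/-- The Casimir operator of the adjoint representation is at least `c`:
`∑_a |[X_a, Y]|² ≥ c |Y|²` for all `Y` in the Lie algebra, `|Y|² = Re tr (Y* Y)`. -/
def CasimirBound (B : LieBasis G n) (c : ℝ) : Prop :=
  ∀ Y ∈ Submodule.span ℝ (Set.range B.X), c * (trace (Yᴴ * Y)).re ≤
    ∑ a, (trace ((B.X a * Y - Y * B.X a)ᴴ * (B.X a * Y - Y * B.X a))).re

/-- The product of the link variables around the plaquette at `x` in the directions `i`, `j`. -/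
def plaq (U : Link D l → G) (x : Fin D → ZMod l) (i j : Fin D) : G :=
  U (x, i) * U (x + unitv i, j) * (U (x + unitv j, i))⁻¹ * (U (x, j))⁻¹

/-- The magnetic energy `∑_p Re tr (1 - U_p)`, the sum over the plaquettes. -/
def magnetic [NeZero l] (U : Link D l → G) : ℝ :=
  ∑ x : Fin D → ZMod l, ∑ i : Fin D, ∑ j : Fin D,
    if i < j then (trace (1 - mt (plaq U x i j))).re else 0

/-- Smooth functions of the link variables: restrictions of smooth functions of the matrices. -/
def IsSmooth [NeZero l] (F : (Link D l → G) → ℂ) : Prop :=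
  ∃ f : (Link D l → Mt N) → ℂ, ContDiff ℝ ∞ f ∧ ∀ U, F U = f fun e => mt (U e)

/-- The derivative of `F` at `U` when the variable of the link `e` moves as `exp (t X_a) U_e`. -/
def dlink (B : LieBasis G n) (e : Link D l) (a : Fin n) (F : (Link D l → G) → ℂ)
    (U : Link D l → G) : ℂ :=
  deriv (fun t : ℝ => F (Function.update U e (B.ex a t * U e))) 0

/-- The scalar product of wave functions, `μ` being the Haar measure. -/
def inner [NeZero l] [MeasurableSpace G] (μ : Measure G) (Ψ Φ : (Link D l → G) → ℂ) : ℂ :=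
  ∫ U, conj (Ψ U) * Φ U ∂(Measure.pi fun _ : Link D l => μ)

/-- The energy `⟨F, H F⟩` of a smooth function `F`, as a quadratic form:
`(g ^ 2 / 2) ∑_{e, a} ∫ |D_{e, a} F| ^ 2 + g ^ (-2) ∫ (∑_p Re tr (1 - U_p)) |F| ^ 2`. -/
def energy [NeZero l] [MeasurableSpace G] (B : LieBasis G n) (μ : Measure G) (g : ℝ)
    (F : (Link D l → G) → ℂ) : ℝ :=
  g ^ 2 / 2 * (∑ e : Link D l, ∑ a : Fin n,
    ∫ U, ‖dlink B e a F U‖ ^ 2 ∂(Measure.pi fun _ : Link D l => μ)) +
  1 / g ^ 2 * ∫ U, magnetic U * ‖F U‖ ^ 2 ∂(Measure.pi fun _ : Link D l => μ)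

/-- Gauge transformation of the link variables. -/
def gauge (γ : (Fin D → ZMod l) → G) (U : Link D l → G) : Link D l → G :=
  fun e => γ e.1 * U e * (γ (e.1 + unitv e.2))⁻¹

/-- The ground state energy: the infimum of the energies of the smooth gauge invariant functions
`Ψ` of the link variables with `⟨Ψ, Ψ⟩ = 1`. -/
def groundEnergy (D l : ℕ) [NeZero l] [MeasurableSpace G] (B : LieBasis G n) (μ : Measure G)
    (g : ℝ) : ℝ :=
  sInf {E : ℝ | ∃ Ψ : (Link D l → G) → ℂ, IsSmooth Ψ ∧ (∀ γ U, Ψ (gauge γ U) = Ψ U) ∧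
    inner μ Ψ Ψ = 1 ∧ energy B μ g Ψ = E}

/-- `F` is a wave function with the static charges `q x`, `x` a lattice point, as seen by the
central element `z`: gauge transformation with `z` on a set `s` of points multiplies `F` by
`w ^ (total charge of s)`. -/
def Charged [NeZero l] (z : G) (w : ℂ) (q : (Fin D → ZMod l) → ℤ) (F : (Link D l → G) → ℂ) : Prop :=
  ∀ (s : Finset (Fin D → ZMod l)) (U : Link D l → G),
    F (gauge (fun x => if x ∈ s then z else 1) U) = w ^ (∑ x ∈ s, q x) * F U

/-- The total charge of the slab `0 ≤ x_i ≤ a`: the flux through the hyperplane between `a` and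
`a + 1` minus the one between `l - 1` and `0`. -/
def slabCharge [NeZero l] (q : (Fin D → ZMod l) → ℤ) (i : Fin D) (a : ZMod l) : ℤ :=
  ∑ x : Fin D → ZMod l, if (x i).val ≤ a.val then q x else 0

/-- The number of hyperplanes with nonzero flux (modulo the order of `w`), for the best choice of a
constant background flux in each direction. -/
def crossings [NeZero l] (w : ℂ) (q : (Fin D → ZMod l) → ℤ) : ℕ :=
  ∑ i : Fin D, (l - Finset.univ.sup fun a : ZMod l =>
    (Finset.univ.filter fun b : ZMod l => w ^ slabCharge q i b = w ^ slabCharge q i a).card)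

/-- The distance `∑_i |x_i - y_i|` of two points of the periodic lattice. -/
def dist1 (x y : Fin D → ZMod l) : ℕ := ∑ i, (x i - y i).valMinAbs.natAbs

end

/-- The group `SU(N)`. -/
def SU (N : ℕ) : Subgroup (UU N) where
  carrier := {g | (g : Mt N).det = 1}
  mul_mem' := by
    intro a b ha hb
    show ((a * b : UU N) : Mt N).det = 1
    have h : ((a * b : UU N) : Mt N) = (a : Mt N) * (b : Mt N) := rfl
    rw [h, det_mul, ha, hb, mul_one]
  one_mem' := by
    show ((1 : UU N) : Mt N).det = 1
    have h : ((1 : UU N) : Mt N) = 1 := rfl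
    rw [h, det_one]
  inv_mem' := by
    intro a ha
    show ((a⁻¹ : UU N) : Mt N).det = 1
    have h : ((a⁻¹ : UU N) : Mt N) = (a : Mt N)ᴴ := rfl
    rw [h, det_conjTranspose, show (a : Mt N).det = 1 from ha, star_one]

end

end Run7.h208.KS.Model
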