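import Pool.Agent.Run7.h208.KS.Base

/-!
# Piece PATH, part 2: translations of one link, supremum norm and `L²` norm
-/

open MeasureTheory Matrix Set
open scoped Matrix.Norms.Frobenius ContDiff
open Pool.Agent.H906R3.YM

namespace Run7.h208.KS

set_option linter.unusedSectionVars false

noncomputable section

variable {G : Type*} [Group G] [TopologicalSpace G] {N n : ℕ} {L : LD G N n}
  {E : Type*} [Fintype E] [DecidableEq E]

lemma ex_sup (F : Sm L E) {b : ℝ} (e : E)
    (hF : ∀ U a, |L.ev U (L.Dv (e, a) F)| ≤ b) (a : Fin n) (t : ℝ) (U : E → G) :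
    |L.ev (Pi.mulSingle e (L.ex a t) * U) F - L.ev U F| ≤ |t| * b := by
  have h := Convex.norm_image_sub_le_of_norm_hasDerivWithin_le (s := Set.univ)
    (f := fun s : ℝ => F.1 (L.shift e a s U))
    (f' := fun s => L.dF e a F.1 (L.shift e a s U)) (x := 0) (y := t) (C := b)
    (fun s _ => (hasDerivAt_dF F.2 e a U s).hasDerivWithinAt) (fun s _ => by
      rw [Real.norm_eq_abs]
      exact hF _ a) convex_univ (Set.mem_univ _) (Set.mem_univ _)
  simp only [L.shift_zero, sub_zero, Real.norm_eq_abs] at h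
  rw [mul_comm]
  exact h

variable [IsTopologicalGroup G] [CompactSpace G]

lemma sup_nhd (F : Sm L E) (e : E) {δ : ℝ} (hδ : 0 < δ) :
    ∀ᶠ g in nhds (1 : G), ∀ U : E → G, |L.ev (Pi.mulSingle e g * U) F - L.ev U F| ≤ δ := by
  have hc : Continuous fun p : G × (E → G) => |F.1 (Pi.mulSingle e p.1 * p.2) - F.1 p.2| := by
    have h00 : Continuous fun p : G × (E → G) => (Pi.mulSingle e p.1 : E → G) :=
      (continuous_mulSingle (A := fun _ : E => G) e).comp continuous_fst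
    have h0 : Continuous fun p : G × (E → G) => (Pi.mulSingle e p.1 * p.2 : E → G) :=
      h00.mul continuous_snd
    have h1 : Continuous fun p : G × (E → G) => F.1 (Pi.mulSingle e p.1 * p.2) :=
      (Sm_cont F).comp h0
    have h2 : Continuous fun p : G × (E → G) => F.1 p.2 := (Sm_cont F).comp continuous_snd
    exact (h1.sub h2).abs
  have h1 := (isCompact_univ (X := E → G)).eventually_forall_of_forall_eventually
    (x₀ := (1 : G)) (P := fun g U => |F.1 (Pi.mulSingle e g * U) - F.1 U| ≤ δ) (fun U _ => by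
      have h2 : |F.1 (Pi.mulSingle e (1 : G) * U) - F.1 U| < δ := by
        rw [Pi.mulSingle_one, one_mul, sub_self, abs_zero]
        exact hδ
      have h3 := (hc.continuousAt (x := ((1 : G), U))).eventually (gt_mem_nhds h2)
      exact h3.mono fun p hp => le_of_lt hp)
  exact h1.mono fun g hg U => hg U trivial

variable [SecondCountableTopology G] [MeasurableSpace G] [BorelSpace G] (μ : Measure G)
  [IsProbabilityMeasure μ] [μ.IsMulLeftInvariant]

lemma int_lm (k : E → G) (F : Sm L E) : L.I μ (lm k F) = L.I μ F :=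
  integral_mul_left_eq_self (μ := ME μ E) F.1 k

lemma ex_int (F : Sm L E) (e : E) (a : Fin n) (t : ℝ) :
    L.I μ ((lm (Pi.mulSingle e (L.ex a t)) F - F) * (lm (Pi.mulSingle e (L.ex a t)) F - F)) ≤
      t ^ 2 * L.I μ (L.Dv (e, a) F * L.Dv (e, a) F) := by
  obtain ⟨H, hH⟩ : ∃ H : Sm L E, H = lm (Pi.mulSingle e (L.ex a t)) F - F := ⟨_, rfl⟩
  rw [← hH]
  obtain ⟨α, hα⟩ : ∃ α, α = L.I μ (L.Dv (e, a) F * L.Dv (e, a) F) := ⟨_, rfl⟩
  obtain ⟨β, hβ⟩ : ∃ β, β = L.I μ (H * H) := ⟨_, rfl⟩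
  rw [← hα, ← hβ]
  have hα0 : 0 ≤ α := by rw [hα]; exact I_sq_nonneg μ _
  have hβ0 : 0 ≤ β := by rw [hβ]; exact I_sq_nonneg μ _
  -- the derivative of `s ↦ ∫ F (ex s U) H (U)`
  obtain ⟨C, hC⟩ : ∃ C, ∀ U, |(L.Dv (e, a) F).1 U| ≤ C := by
    have hcont := Sm_cont (L.Dv (e, a) F)
    obtain ⟨C, hC⟩ := (isCompact_univ.image hcont.norm).bddAbove
    exact ⟨C, fun U => hC ⟨U, trivial, rfl⟩⟩
  obtain ⟨C', hC'⟩ : ∃ C', ∀ U, |H.1 U| ≤ C' := by
    have hcont := Sm_cont H
    obtain ⟨C, hC⟩ := (isCompact_univ.image hcont.norm).bddAbove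
    exact ⟨C, fun U => hC ⟨U, trivial, rfl⟩⟩
  have hder : ∀ s, HasDerivAt (fun s => L.I μ (lm (Pi.mulSingle e (L.ex a s)) F * H))
      (L.I μ (lm (Pi.mulSingle e (L.ex a s)) (L.Dv (e, a) F) * H)) s := by
    intro s
    have hder := hasDerivAt_integral_of_dominated_loc_of_deriv_le (μ := ME μ E)
      (F := fun t U => F.1 (L.shift e a t U) * H.1 U)
      (F' := fun t U => (L.Dv (e, a) F).1 (L.shift e a t U) * H.1 U) (x₀ := s)
      (s := Set.univ)
      (bound := fun _ => C * C') Filter.univ_mem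
      (Filter.Eventually.of_forall fun t =>
        (Sm_cont (lm (Pi.mulSingle e (L.ex a t)) F * H)).aestronglyMeasurable)
      (integrable_cont μ (Sm_cont (lm (Pi.mulSingle e (L.ex a s)) F * H)))
      ((Sm_cont (lm (Pi.mulSingle e (L.ex a s)) (L.Dv (e, a) F) * H)).aestronglyMeasurable)
      (Filter.Eventually.of_forall fun U t _ => by
        rw [norm_mul]
        exact mul_le_mul (hC _) (hC' _) (norm_nonneg _) ((abs_nonneg _).trans (hC U)))
      (integrable_const _)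
      (Filter.Eventually.of_forall fun U t _ =>
        (hasDerivAt_dF F.2 e a U t).mul_const (H.1 U))
    exact hder.2
  have hbd : ∀ s, |L.I μ (lm (Pi.mulSingle e (L.ex a s)) (L.Dv (e, a) F) * H)| ≤
      Real.sqrt (α * β) := by
    intro s
    refine Real.abs_le_sqrt ?_
    refine (I_cs1 μ _ _).trans (le_of_eq ?_)
    have h1 : lm (Pi.mulSingle e (L.ex a s)) (L.Dv (e, a) F) *
        lm (Pi.mulSingle e (L.ex a s)) (L.Dv (e, a) F) =
        lm (Pi.mulSingle e (L.ex a s)) (L.Dv (e, a) F * L.Dv (e, a) F) := (map_mul _ _ _).symm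
    rw [h1, int_lm μ, ← hα, ← hβ]
  have h := Convex.norm_image_sub_le_of_norm_hasDerivWithin_le (s := Set.univ)
    (f := fun s : ℝ => L.I μ (lm (Pi.mulSingle e (L.ex a s)) F * H))
    (x := 0) (y := t) (C := Real.sqrt (α * β))
    (fun s _ => (hder s).hasDerivWithinAt) (fun s _ => by
      rw [Real.norm_eq_abs]
      exact hbd s) convex_univ (Set.mem_univ _) (Set.mem_univ _)
  have h0 : lm (Pi.mulSingle e (L.ex a 0)) F = F := by
    refine ev_ext fun U => ?_
    rw [ev_lm, L.ex_zero, Pi.mulSingle_one, one_mul]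
  simp only [h0, sub_zero, Real.norm_eq_abs] at h
  rw [← map_sub, ← sub_mul, ← hH, ← hβ, abs_of_nonneg hβ0] at h
  -- `β ≤ √(α β) |t|`
  rcases eq_or_lt_of_le hβ0 with hb | hb
  · rw [← hb]; positivity
  · have h1 : β ^ 2 ≤ (α * β) * t ^ 2 := by
      calc β ^ 2 ≤ (Real.sqrt (α * β) * |t|) ^ 2 := pow_le_pow_left₀ hβ0 h 2
        _ = _ := by rw [mul_pow, Real.sq_sqrt (by positivity), sq_abs]
    have h2 : β * β ≤ (t ^ 2 * α) * β := by nlinarith
    exact le_of_mul_le_mul_right h2 hb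

/-- the triangle inequality -/
lemma int_add (u v : Sm L E) {r s : ℝ} (hr : 0 ≤ r) (hs : 0 ≤ s)
    (hu : L.I μ (u * u) ≤ r ^ 2) (hv : L.I μ (v * v) ≤ s ^ 2) :
    L.I μ ((u + v) * (u + v)) ≤ (r + s) ^ 2 := by
  have h1 : (u + v) * (u + v) = u * u + (2 : ℝ) • (u * v) + v * v := by
    refine ev_ext fun U => ?_
    simp only [map_mul, map_add, map_smul, smul_eq_mul]; ring
  have h2 := I_cs1 μ u v
  have h3 : L.I μ (u * v) ≤ r * s := by
    refine (le_abs_self _).trans ?_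
    refine abs_le_of_sq_le_sq ?_ (mul_nonneg hr hs)
    refine h2.trans ?_
    rw [mul_pow]
    exact mul_le_mul hu hv (I_sq_nonneg μ v) (sq_nonneg r)
  rw [h1, map_add, map_add, map_smul, smul_eq_mul]
  nlinarith

lemma Gam_nonneg' (S : Finset E) (F : Sm L E) (U : E → G) : 0 ≤ L.ev U (Gam (DS S) F F) := by
  unfold Gam
  rw [map_sum]
  refine Finset.sum_nonneg fun j _ => ?_
  rw [map_mul]
  exact mul_self_nonneg _

lemma D_le_Gam (S : Finset E) (F : Sm L E) {e : E} (he : e ∈ S) (a : Fin n) :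
    L.I μ (L.Dv (e, a) F * L.Dv (e, a) F) ≤ L.I μ (Gam (DS S) F F) := by
  refine I_mono μ fun U => ?_
  unfold Gam
  rw [map_sum]
  have h1 : ∀ j : S × Fin n, 0 ≤ L.ev U (DS S j F * DS S j F) := fun j => by
    rw [map_mul]; exact mul_self_nonneg _
  have h2 := Finset.single_le_sum (f := fun j : S × Fin n => L.ev U (DS S j F * DS S j F))
    (s := Finset.univ) (fun j _ => h1 j) (Finset.mem_univ ((⟨e, he⟩, a) : S × Fin n))
  exact h2

lemma D_bdd (F : Sm L E) (e : E) : ∃ C, ∀ U a, |L.ev U (L.Dv (e, a) F)| ≤ C := by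
  have h1 : ∀ a, ∃ C, ∀ U, |L.ev U (L.Dv (e, a) F)| ≤ C := by
    intro a
    have hcont := Sm_cont (L.Dv (e, a) F)
    obtain ⟨C, hC⟩ := (isCompact_univ.image hcont.norm).bddAbove
    exact ⟨C, fun U => hC ⟨U, trivial, rfl⟩⟩
  choose C hC using h1
  refine ⟨∑ a, |C a|, fun U a => ?_⟩
  refine ((hC a U).trans (le_abs_self _)).trans ?_
  exact Finset.single_le_sum (f := fun a => |C a|) (fun a _ => abs_nonneg _) (Finset.mem_univ a)

lemma int_nhd (F : Sm L E) (e : E) {δ : ℝ} (hδ : 0 < δ) :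
    ∀ᶠ g in nhds (1 : G), L.I μ ((lm (Pi.mulSingle e g) F - F) *
      (lm (Pi.mulSingle e g) F - F)) ≤ δ ^ 2 := by
  refine (sup_nhd F e hδ).mono fun g hg => ?_
  have h1 : L.I μ ((lm (Pi.mulSingle e g) F - F) * (lm (Pi.mulSingle e g) F - F)) ≤
      L.I μ ((δ ^ 2) • (1 : Sm L E)) := by
    refine I_mono μ fun U => ?_
    rw [map_mul, map_sub, ev_lm, map_smul, map_one, smul_eq_mul, mul_one, ← sq, ← sq_abs]
    exact pow_le_pow_left₀ (abs_nonneg _) (hg U) 2
  rwa [map_smul, I_one, smul_eq_mul, mul_one] at h1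

lemma lm_mulSingle (F : Sm L E) (e : E) (g h : G) : lm (Pi.mulSingle e (g * h)) F - F =
    lm (Pi.mulSingle e h) (lm (Pi.mulSingle e g) F - F) + (lm (Pi.mulSingle e h) F - F) := by
  refine ev_ext fun U => ?_
  have h1 : L.ev U (lm (Pi.mulSingle e h) (lm (Pi.mulSingle e g) F - F)) =
      L.ev (Pi.mulSingle e h * U) (lm (Pi.mulSingle e g) F - F) := rfl
  rw [map_add, h1, map_sub, map_sub, map_sub, ev_lm, ev_lm, ev_lm, Pi.mulSingle_mul, mul_assoc]
  ring

end

end Run7.h208.KS
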