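import Pool.Agent.Run7.h208.KS.Path1
import Pool.Agent.Run7.h208.KS.Path2

/-!
# Piece PATH: path bounds on a connected closed subgroup of the unitary group
-/

open MeasureTheory Matrix Set
open scoped Matrix.Norms.Frobenius ContDiff
open Pool.Agent.H906R3.YM

namespace Run7.h208.KS

set_option linter.unusedSectionVars false

noncomputable section

variable {N n : ℕ} {G : Subgroup (UN N)}

section

variable {E : Type*} [Fintype E] [DecidableEq E]

lemma disp_sup [CompactSpace G] (B : Frame G n) (F : Sm B.toLD E) {b : ℝ}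
    (e : E) (hF : ∀ U a, |B.toLD.ev U (B.toLD.Dv (e, a) F)| ≤ b) :
    Disp B b (fun g r => ∀ U : E → G,
      |B.toLD.ev (Pi.mulSingle e g * U) F - B.toLD.ev U F| ≤ r) := by
  refine ⟨?_, ?_, ?_, ?_, ?_⟩
  · intro g h r s _ _ h1 h2 U
    have h3 := h1 (Pi.mulSingle e h * U)
    have h4 := h2 U
    rw [← mul_assoc, ← Pi.mulSingle_mul] at h3
    have h5 := (abs_add_le _ _).trans (add_le_add h3 h4)
    rwa [sub_add_sub_cancel] at h5
  · exact fun g r s hrs h U => (h U).trans hrs
  · exact fun a t U => ex_sup F e hF a t U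
  · exact fun δ hδ => sup_nhd F e hδ
  · exact fun g r h U => le_of_forall_pos_le_add fun δ hδ => h δ hδ U

lemma comb_insert (k : E → G) (e : E) (T : Finset E) (he : e ∉ T) (U : E → G) :
    ((fun e' => if e' ∈ insert e T then k e' else 1) * U : E → G) =
      Pi.mulSingle e (k e) * ((fun e => if e ∈ T then k e else 1) * U) := by
  funext e'
  by_cases h' : e' = e
  · subst h'
    simp [he]
  · simp [Pi.mulSingle_eq_of_ne h', h']

lemma sup_all [CompactSpace G] (B : Frame G n) {R : ℝ}
    (h : ∀ (b : ℝ) (P : G → ℝ → Prop), 0 ≤ b → Disp B b P → ∀ g : G, P g (R * b))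
    (k : E → G) (F : Sm B.toLD E) (b : ℝ) (hb : 0 ≤ b)
    (hF : ∀ U j, |B.toLD.ev U (B.toLD.Dv j F)| ≤ b) (T : Finset E) : ∀ (U : E → G),
      |B.toLD.ev ((fun e => if e ∈ T then k e else 1) * U) F - B.toLD.ev U F| ≤
        T.card * (R * b) := by
  induction T using Finset.induction_on with
  | empty =>
    intro U
    have : ((fun e => if e ∈ (∅ : Finset E) then k e else 1) * U : E → G) = U := by
      funext e; simp
    rw [this]; simp
  | insert e T he ih =>
    intro U
    rw [comb_insert k e T he U]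
    have h2 := h b _ hb (disp_sup B F e fun U a => hF U (e, a)) (k e)
      ((fun e => if e ∈ T then k e else 1) * U)
    have h3 := ih U
    rw [Finset.card_insert_of_notMem he]
    push_cast
    have h5 := (abs_add_le _ _).trans (add_le_add h2 h3)
    rw [sub_add_sub_cancel] at h5
    refine h5.trans (le_of_eq ?_)
    ring

end

/-- Path bound, supremum norm. By `Pool.Agent.TH618.YM.cartan` every `g` near `1` is an infinite
product of elements `ex a t` of total length at most `2 n ‖g - 1‖`; `G` is connected and compact,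
so every `g` is a product of boundedly many of them. Along `U ↦ ex a t · U` (link `e`) the function
`F` changes by at most `|t| sup |D_{e,a} F|` (`hasDerivAt_dF`). -/
theorem path_sup (hG : IsClosed (G : Set (UN N))) [ConnectedSpace G] (B : Frame G n)
    (E : Type*) [Fintype E] [DecidableEq E] : ∃ R : ℝ, 0 ≤ R ∧ PathS B.toLD E R := by
  have : CompactSpace G := cpG hG
  obtain ⟨R, hR, h⟩ := disp_bound hG B
  have main2 : ∀ (k : E → G) (F : Sm B.toLD E) (b : ℝ), 0 ≤ b →
      (∀ U j, |B.toLD.ev U (B.toLD.Dv j F)| ≤ b) → ∀ (U : E → G),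
      |B.toLD.ev (k * U) F - B.toLD.ev U F| ≤ Fintype.card E * R * b := by
    intro k F b hb hF U
    have h1 := sup_all B h k F b hb hF Finset.univ U
    simp only [Finset.mem_univ, if_true] at h1
    rw [mul_assoc]
    exact h1
  rcases isEmpty_or_nonempty (E × Fin n) with hE | ⟨⟨j⟩⟩
  · refine ⟨0, le_rfl, fun k F b _ U => ?_⟩
    have h1 := main2 k F 0 le_rfl (fun _ j => (hE.false j).elim) U
    rw [mul_zero] at h1
    rw [zero_mul]
    exact h1
  · refine ⟨Fintype.card E * R, by positivity, fun k F b hF U => ?_⟩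
    exact main2 k F b ((abs_nonneg _).trans (hF U j)) hF U

section

variable {E : Type*} [Fintype E] [DecidableEq E] [CompactSpace G] [SecondCountableTopology G]
  [MeasurableSpace G] [BorelSpace G] (μ : Measure G) [IsProbabilityMeasure μ]
  [μ.IsMulLeftInvariant]

lemma disp_int (B : Frame G n) (F : Sm B.toLD E) {b : ℝ} (hb : 0 ≤ b) (e : E)
    (hF : ∀ a, B.toLD.I μ (B.toLD.Dv (e, a) F * B.toLD.Dv (e, a) F) ≤ b ^ 2) :
    Disp B b (fun g r => 0 ≤ r ∧ B.toLD.I μ ((lm (Pi.mulSingle e g) F - F) *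
      (lm (Pi.mulSingle e g) F - F)) ≤ r ^ 2) := by
  refine ⟨?_, ?_, ?_, ?_, ?_⟩
  · rintro g h r s hr hs ⟨_, h1⟩ ⟨_, h2⟩
    refine ⟨add_nonneg hr hs, ?_⟩
    rw [lm_mulSingle]
    refine int_add μ _ _ hr hs ?_ h2
    rw [← map_mul, int_lm μ]
    exact h1
  · exact fun g r s hrs h => ⟨h.1.trans hrs, h.2.trans (pow_le_pow_left₀ h.1 hrs 2)⟩
  · intro a t
    refine ⟨by positivity, ?_⟩
    refine (ex_int μ F e a t).trans ?_
    rw [mul_pow, sq_abs]
    exact mul_le_mul_of_nonneg_left (hF a) (sq_nonneg t)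
  · exact fun δ hδ => (int_nhd μ F e hδ).mono fun g hg => ⟨hδ.le, hg⟩
  · intro g r h
    have h0 : 0 ≤ r := le_of_forall_pos_le_add fun δ hδ => (h δ hδ).1
    refine ⟨h0, ?_⟩
    have h1 : Real.sqrt (B.toLD.I μ ((lm (Pi.mulSingle e g) F - F) *
        (lm (Pi.mulSingle e g) F - F))) ≤ r := by
      refine le_of_forall_pos_le_add fun δ hδ => ?_
      exact Real.sqrt_le_iff.2 ⟨(h δ hδ).1, (h δ hδ).2⟩
    exact (Real.sqrt_le_iff.1 h1).2

lemma lm_insert {L : LD G N n} (F : Sm L E) (k : E → G) (e : E) (T : Finset E) (he : e ∉ T) :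
    lm (fun e' => if e' ∈ insert e T then k e' else 1) F - F =
      lm (fun e => if e ∈ T then k e else 1) (lm (Pi.mulSingle e (k e)) F - F) +
        (lm (fun e => if e ∈ T then k e else 1) F - F) := by
  refine ev_ext fun U => ?_
  have h1 : L.ev U (lm (fun e => if e ∈ T then k e else 1) (lm (Pi.mulSingle e (k e)) F - F)) =
      L.ev ((fun e => if e ∈ T then k e else 1) * U) (lm (Pi.mulSingle e (k e)) F - F) := rfl
  rw [map_add, h1, map_sub, map_sub, map_sub, ev_lm, ev_lm, ev_lm, comb_insert k e T he U]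
  ring

lemma int_all (B : Frame G n) {R : ℝ} (hR : 0 ≤ R)
    (h : ∀ (b : ℝ) (P : G → ℝ → Prop), 0 ≤ b → Disp B b P → ∀ g : G, P g (R * b))
    (k : E → G) (F : Sm B.toLD E) (b : ℝ) (hb : 0 ≤ b) (S : Finset E)
    (hF : ∀ e ∈ S, ∀ a, B.toLD.I μ (B.toLD.Dv (e, a) F * B.toLD.Dv (e, a) F) ≤ b ^ 2)
    (T : Finset E) (hT : T ⊆ S) :
    B.toLD.I μ ((lm (fun e => if e ∈ T then k e else 1) F - F) *
        (lm (fun e => if e ∈ T then k e else 1) F - F)) ≤ (T.card * (R * b)) ^ 2 := by
  induction T using Finset.induction_on with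
  | empty =>
    have h1 : lm (fun e => if e ∈ (∅ : Finset E) then k e else 1) F = F := by
      refine ev_ext fun U => ?_
      rw [ev_lm]
      have h2 : ((fun e => if e ∈ (∅ : Finset E) then k e else 1) * U : E → G) = U := by
        funext e; simp
      rw [h2]
    rw [h1, sub_self, zero_mul, map_zero]
    positivity
  | insert e T he ih =>
    have h2 := h b _ hb (disp_int μ B F hb e (hF e (hT (Finset.mem_insert_self e T)))) (k e)
    rw [lm_insert F k e T he, Finset.card_insert_of_notMem he]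
    push_cast
    have h3 : ((T.card : ℝ) + 1) * (R * b) = R * b + T.card * (R * b) := by ring
    rw [h3]
    refine int_add μ _ _ h2.1 (by positivity) ?_
      (ih fun x hx => hT (Finset.mem_insert_of_mem hx))
    rw [← map_mul, int_lm μ]
    exact h2.2

end

/-- Path bound, `L²` norm: the same, with
`∫ (F (ex a t · U) - F U)² ≤ t² ∫ (D_{e,a} F)²` by the invariance of the Haar measure. -/
theorem path_int (hG : IsClosed (G : Set (UN N))) [ConnectedSpace G] [MeasurableSpace G]
    [BorelSpace G] (μ : Measure G) [IsProbabilityMeasure μ] [μ.IsHaarMeasure] (B : Frame G n)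
    (E : Type*) [Fintype E] [DecidableEq E] : ∃ R : ℝ, 0 ≤ R ∧ PathI B.toLD μ E R := by
  have : CompactSpace G := cpG hG
  have : SecondCountableTopology G := scG G
  obtain ⟨R, hR, h⟩ := disp_bound hG B
  refine ⟨(Fintype.card E * R) ^ 2, by positivity, fun S k hk F => ?_⟩
  obtain ⟨b, hb⟩ : ∃ b, b = Real.sqrt (B.toLD.I μ (Gam (DS S) F F)) := ⟨_, rfl⟩
  have hb0 : 0 ≤ b := by rw [hb]; exact Real.sqrt_nonneg _
  have hb2 : b ^ 2 = B.toLD.I μ (Gam (DS S) F F) := by
    rw [hb, Real.sq_sqrt (I_nonneg μ (Gam_nonneg' S F))]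
  have hkS : (fun e => if e ∈ S then k e else 1) = k := by
    funext e
    by_cases he : e ∈ S
    · simp [he]
    · simp [he, hk e he]
  have h1 := int_all μ B hR h k F b hb0 S
    (fun e he a => by rw [hb2]; exact D_le_Gam μ S F he a) S subset_rfl
  rw [hkS] at h1
  have h2 : ∫ U, (B.toLD.ev (k * U) F - B.toLD.ev U F) ^ 2 ∂(ME μ E) =
      B.toLD.I μ ((lm k F - F) * (lm k F - F)) := by
    rw [I_apply]
    refine integral_congr_ae (Filter.Eventually.of_forall fun U => ?_)
    show (B.toLD.ev (k * U) F - B.toLD.ev U F) ^ 2 = B.toLD.ev U ((lm k F - F) * (lm k F - F))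
    rw [map_mul, map_sub, ev_lm, sq]
  have h3 : ∫ U, B.toLD.ev U (Gam (DS S) F F) ∂(ME μ E) = B.toLD.I μ (Gam (DS S) F F) := rfl
  rw [h2, h3, ← hb2]
  refine h1.trans ?_
  have h4 : (S.card : ℝ) ≤ Fintype.card E := by
    exact_mod_cast Finset.card_le_univ S
  calc ((S.card : ℝ) * (R * b)) ^ 2 ≤ (Fintype.card E * (R * b)) ^ 2 := by
        refine pow_le_pow_left₀ (by positivity) ?_ 2
        exact mul_le_mul_of_nonneg_right h4 (by positivity)
    _ = _ := by ring

end

end Run7.h208.KS
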