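import Mathlib

/-!
# The unitary group is path connected; determinant of the exponential
-/

open Matrix Set

namespace Run7.h208.KS

noncomputable section

open scoped Matrix.Norms.L2Operator in
/-- every unitary matrix is joined to the identity -/
lemma joined_one {N : ℕ} (u : unitary (Matrix (Fin N) (Fin N) ℂ)) :
    Joined (1 : unitary (Matrix (Fin N) (Fin N) ℂ)) u := by
  rcases Nat.eq_zero_or_pos N with hN | hN
  · subst hN
    have : u = 1 := Subsingleton.elim _ _
    rw [this]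
  have : NeZero N := ⟨hN.ne'⟩
  have hfin : (spectrum ℂ (u : Matrix (Fin N) (Fin N) ℂ)).Finite := Matrix.finite_spectrum _
  -- a point of the circle
  have hinf : (Metric.sphere (0 : ℂ) 1).Infinite := by
    refine Set.Infinite.mono ?_ (Set.infinite_range_of_injective
      (f := fun k : ℕ => Complex.exp (((1 / (k + 1) : ℝ) : ℂ) * Complex.I)) ?_)
    · rintro _ ⟨k, rfl⟩
      rw [mem_sphere_zero_iff_norm]
      exact Complex.norm_exp_ofReal_mul_I _
    · intro k l hkl
      have h1 := congrArg Complex.re hkl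
      simp only [Complex.exp_ofReal_mul_I_re] at h1
      have hb : ∀ m : ℕ, (1 / (m + 1) : ℝ) ∈ Icc 0 Real.pi := fun m => by
        refine ⟨by positivity, ?_⟩
        have h2 : (1 / (m + 1) : ℝ) ≤ 1 := by
          rw [div_le_one (by positivity)]
          have : (0 : ℝ) ≤ m := Nat.cast_nonneg m
          linarith
        linarith [Real.pi_gt_three]
      have h2 := Real.injOn_cos (hb k) (hb l) h1
      have h3 : (k : ℝ) + 1 = l + 1 := by
        have := congrArg (fun x : ℝ => x⁻¹) h2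
        simpa using this
      exact_mod_cast (by linarith : (k : ℝ) = l)
  obtain ⟨c, hc, hcn⟩ := (hinf.sdiff (hfin.union (Set.finite_singleton (1 : ℂ)))).nonempty
  have hc1 : ‖c‖ = 1 := by rwa [mem_sphere_zero_iff_norm] at hc
  have hcs : c ∉ spectrum ℂ (u : Matrix (Fin N) (Fin N) ℂ) := fun h => hcn (Or.inl h)
  have hcne : c ≠ 1 := fun h => hcn (Or.inr h)
  have hc0 : c ≠ 0 := by
    intro h; rw [h] at hc1; simp at hc1
  have hzu : star (-c⁻¹) * (-c⁻¹) = 1 := by
    have h2 : star c * c = 1 := by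
      rw [Complex.star_def, ← Complex.normSq_eq_conj_mul_self, Complex.normSq_eq_norm_sq, hc1]
      simp
    rw [star_neg, neg_mul_neg, star_inv₀, ← mul_inv, h2, inv_one]
  obtain ⟨v, hv⟩ : ∃ v : unitary (Matrix (Fin N) (Fin N) ℂ),
      (v : Matrix (Fin N) (Fin N) ℂ) = (-c⁻¹) • (u : Matrix (Fin N) (Fin N) ℂ) := by
    refine ⟨⟨(-c⁻¹) • (u : Matrix (Fin N) (Fin N) ℂ), ?_⟩, rfl⟩
    rw [Unitary.mem_iff]
    constructor
    · rw [star_smul, smul_mul_smul_comm, hzu, Unitary.coe_star_mul_self, one_smul]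
    · rw [star_smul, smul_mul_smul_comm, mul_comm (-c⁻¹), hzu, Unitary.mul_star_self_of_mem u.2, one_smul]
  have h1 : Joined (1 : unitary (Matrix (Fin N) (Fin N) ℂ)) v := by
    refine Unitary.joined _ _ ?_
    have h3 := (Unitary.norm_sub_one_lt_two_iff v.2).2 (by
      rw [hv]
      intro hmem
      apply hcs
      have h4 : (-1 : ℂ) = (-c⁻¹) • c := by
        rw [smul_eq_mul, neg_mul, inv_mul_cancel₀ hc0]
      have h5 : IsUnit (-c⁻¹) := isUnit_iff_ne_zero.2 (neg_ne_zero.2 (inv_ne_zero hc0))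
      rw [h4, ← h5.unit_spec] at hmem
      have h6 := spectrum.smul_mem_smul_iff (r := h5.unit) (s := c)
        (a := (u : Matrix (Fin N) (Fin N) ℂ))
      exact h6.1 hmem)
    exact h3
  have h2 : Joined v u := by
    refine Joined.symm (Unitary.joined _ _ ?_)
    rw [hv]
    have h3 : (-c⁻¹) • (u : Matrix (Fin N) (Fin N) ℂ) - (u : Matrix (Fin N) (Fin N) ℂ) =
        (-c⁻¹ - 1) • (u : Matrix (Fin N) (Fin N) ℂ) := by rw [sub_smul, one_smul]
    rw [h3, norm_smul]
    have h4 : ‖(u : Matrix (Fin N) (Fin N) ℂ)‖ = 1 := CStarRing.norm_coe_unitary u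
    rw [h4, mul_one]
    by_contra hge
    push Not at hge
    have h5 : ‖-c⁻¹ - 1‖ = ‖c⁻¹ + 1‖ := by rw [← norm_neg]; congr 1; ring
    rw [h5] at hge
    have h6 : ‖c⁻¹‖ = 1 := by rw [norm_inv, hc1, inv_one]
    have h7 : ‖c⁻¹ + 1‖ = ‖c⁻¹‖ + ‖(1 : ℂ)‖ := by
      rw [h6, norm_one]
      refine le_antisymm ?_ (by linarith)
      refine (norm_add_le _ _).trans ?_
      rw [h6, norm_one]
    have h8 := sameRay_iff_norm_add.2 h7
    have h9 := (sameRay_iff_of_norm_eq (by rw [h6, norm_one])).1 h8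
    apply hcne
    rw [← inv_inv c, h9, inv_one]
  exact h1.trans h2

/-- the unitary group is path connected -/
theorem pathConn_UN (N : ℕ) : PathConnectedSpace (Matrix.unitaryGroup (Fin N) ℂ) :=
  ⟨⟨1⟩, fun x y => (joined_one (N := N) x).symm.trans (joined_one (N := N) y)⟩

/-- determinant of the exponential of a skew-hermitian matrix -/
lemma det_exp_skew {N : ℕ} {A : Matrix (Fin N) (Fin N) ℂ} (hA : Aᴴ = -A) :
    (NormedSpace.exp A).det = Complex.exp A.trace := by
  obtain ⟨H, hH⟩ : ∃ H : Matrix (Fin N) (Fin N) ℂ, H = (-Complex.I) • A := ⟨_, rfl⟩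
  have hHh : H.IsHermitian := by
    rw [Matrix.IsHermitian, hH, conjTranspose_smul, hA]
    simp
  have hAH : A = Complex.I • H := by
    rw [hH, smul_smul]; simp
  have hs := hHh.spectral_theorem
  set U : Matrix (Fin N) (Fin N) ℂ := (hHh.eigenvectorUnitary : Matrix (Fin N) (Fin N) ℂ) with hU
  set d : Fin N → ℂ := fun i => Complex.I * (hHh.eigenvalues i : ℂ) with hd
  have hUu : U * star U = 1 := Unitary.mul_star_self_of_mem hHh.eigenvectorUnitary.2
  have hunit : IsUnit U := ⟨⟨U, star U, hUu, Unitary.star_mul_self_of_mem hHh.eigenvectorUnitary.2⟩, rfl⟩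
  have hinv : U⁻¹ = star U := Matrix.inv_eq_right_inv hUu
  have hA2 : A = U * Matrix.diagonal d * U⁻¹ := by
    rw [hinv, hAH]
    have h1 : H = U * Matrix.diagonal (fun i => (hHh.eigenvalues i : ℂ)) * star U := hs
    have h2 : Matrix.diagonal d = Complex.I • Matrix.diagonal (fun i => (hHh.eigenvalues i : ℂ)) := by
      rw [← Matrix.diagonal_smul]
      rfl
    rw [h2, mul_smul_comm, smul_mul_assoc, ← h1]
  rw [hA2, Matrix.exp_conj _ _ hunit, Matrix.exp_diagonal]
  rw [det_mul, det_mul, mul_right_comm, ← det_mul, Matrix.mul_nonsing_inv _ ((Matrix.isUnit_iff_isUnit_det _).1 hunit),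
    det_one, one_mul, det_diagonal]
  have htr : trace (U * Matrix.diagonal d * U⁻¹) = ∑ i, d i := by
    rw [trace_mul_cycle, Matrix.nonsing_inv_mul _ ((Matrix.isUnit_iff_isUnit_det _).1 hunit), one_mul, trace_diagonal]
  rw [htr, Complex.exp_sum]
  refine Finset.prod_congr rfl fun i _ => ?_
  rw [Complex.exp_eq_exp_ℂ]
  exact Pi.coe_exp (𝔸 := fun _ : Fin N => ℂ) d i

end

end Run7.h208.KS
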