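import Pool.Agent.Run7.h208.KS.Base
import Pool.Agent.Run7.h208.KS.SUN1

/-!
# Piece SUN: the special unitary group
-/

open MeasureTheory Matrix Set
open scoped Matrix.Norms.Frobenius ContDiff
open Pool.Agent.H906R3.YM

namespace Run7.h208.KS

set_option linter.unusedSectionVars false

noncomputable section

/-- `SU(N)` as a subgroup of the unitary group -/
def SUs (N : ℕ) : Subgroup (UN N) where
  carrier := {g | (g : Mat N).det = 1}
  mul_mem' := by
    intro a b ha hb
    show ((a * b : UN N) : Mat N).det = 1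
    have h : ((a * b : UN N) : Mat N) = (a : Mat N) * (b : Mat N) := rfl
    rw [h, det_mul, ha, hb, mul_one]
  one_mem' := by
    show ((1 : UN N) : Mat N).det = 1
    have h : ((1 : UN N) : Mat N) = 1 := rfl
    rw [h, det_one]
  inv_mem' := by
    intro a ha
    show ((a⁻¹ : UN N) : Mat N).det = 1
    have h : ((a⁻¹ : UN N) : Mat N) = (a : Mat N)ᴴ := rfl
    rw [h, det_conjTranspose, show (a : Mat N).det = 1 from ha, star_one]

theorem SUs_closed (N : ℕ) : IsClosed (SUs N : Set (UN N)) := by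
  have h : (SUs N : Set (UN N)) = (fun g : UN N => (g : Mat N).det) ⁻¹' {1} := rfl
  rw [h]
  exact isClosed_singleton.preimage (Continuous.matrix_det continuous_subtype_val)

/-- the diagonal matrix with the entry `z` at `i₀` and `1` elsewhere -/
def dg {N : ℕ} (i₀ : Fin N) (z : ℂ) : Mat N := Matrix.diagonal fun i => if i = i₀ then z else 1

lemma dg_unit {N : ℕ} (i₀ : Fin N) {z : ℂ} (hz : z * star z = 1) : dg i₀ z ∈ UN N := by
  rw [Matrix.mem_unitaryGroup_iff]
  unfold dg
  rw [star_eq_conjTranspose, diagonal_conjTranspose, diagonal_mul_diagonal, ← Matrix.diagonal_one]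
  congr 1
  funext i
  by_cases h : i = i₀
  · simp only [h, if_true, Pi.star_apply]
    exact hz
  · simp [h]

lemma dg_det {N : ℕ} (i₀ : Fin N) (z : ℂ) : (dg i₀ z).det = z := by
  unfold dg
  rw [det_diagonal, Finset.prod_ite_eq' Finset.univ i₀ (fun _ => z)]
  simp

lemma dg_one {N : ℕ} (i₀ : Fin N) : dg i₀ 1 = 1 := by
  unfold dg
  simp

lemma dg_cont {N : ℕ} (i₀ : Fin N) : Continuous (dg i₀) := by
  unfold dg
  refine Continuous.matrix_diagonal (continuous_pi fun i => ?_)
  by_cases h : i = i₀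
  · simp only [h, if_true]; exact continuous_id
  · simp only [h, if_false]; exact continuous_const

lemma det_UN {N : ℕ} (u : UN N) : (u : Mat N).det * star (u : Mat N).det = 1 := by
  have h := Matrix.mem_unitaryGroup_iff.1 u.2
  rw [← det_conjTranspose, ← det_mul, ← star_eq_conjTranspose, h, det_one]

/-- the retraction onto `SU(N)` -/
def retr {N : ℕ} (i₀ : Fin N) (u : UN N) : SUs N :=
  ⟨⟨(u : Mat N) * dg i₀ (star (u : Mat N).det), mul_mem u.2 (dg_unit i₀ (by
    rw [star_star, mul_comm]; exact det_UN u))⟩, by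
    show ((u : Mat N) * dg i₀ (star (u : Mat N).det)).det = 1
    rw [det_mul, dg_det]; exact det_UN u⟩

/-- `SU(N)` is connected -/
theorem SUs_conn (N : ℕ) : ConnectedSpace (SUs N) := by
  rcases Nat.eq_zero_or_pos N with hN | hN
  · subst hN
    have h1 : Subsingleton (SUs 0) := ⟨fun a b => Subtype.ext (Subtype.ext (Subsingleton.elim _ _))⟩
    exact { isPreconnected_univ := Set.subsingleton_univ.isPreconnected, toNonempty := ⟨1⟩ }
  · have h1 : PathConnectedSpace (UN N) := pathConn_UN N
    obtain ⟨i₀, -⟩ : ∃ i₀ : Fin N, i₀ = ⟨0, hN⟩ := ⟨_, rfl⟩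
    have hc : Continuous (retr i₀ : UN N → SUs N) := by
      refine Continuous.subtype_mk (Continuous.subtype_mk ?_ _) _
      refine continuous_subtype_val.mul ((dg_cont i₀).comp ?_)
      exact continuous_star.comp (Continuous.matrix_det continuous_subtype_val)
    have hs : Function.Surjective (retr i₀ : UN N → SUs N) := by
      intro g
      refine ⟨(g : UN N), Subtype.ext (Subtype.ext ?_)⟩
      show ((g : UN N) : Mat N) * dg i₀ (star ((g : UN N) : Mat N).det) = _
      rw [show ((g : UN N) : Mat N).det = 1 from g.2, star_one, dg_one, mul_one]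
    exact hs.connectedSpace hc

section lie

variable {N n : ℕ}

lemma SU_trace (B : Frame (SUs N) n) (a : Fin n) : trace (B.X a) = 0 := by
  have h1 : ∀ t : ℝ, Complex.exp ((t : ℂ) * trace (B.X a)) = 1 := by
    intro t
    have h2 : (t • B.X a)ᴴ = -(t • B.X a) := by
      rw [conjTranspose_smul, B.skewX, star_trivial, smul_neg]
    have h3 := det_exp_skew h2
    have h4 : trace (t • B.X a) = (t : ℂ) * trace (B.X a) := by
      rw [trace_smul, Complex.real_smul]
    rw [h4] at h3
    rw [← h3, ← B.ex_eq]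
    exact (B.ex a t).2
  have h2 : HasDerivAt (fun t : ℝ => Complex.exp ((t : ℂ) * trace (B.X a)))
      (Complex.exp (((0 : ℝ) : ℂ) * trace (B.X a)) * (1 * trace (B.X a))) 0 :=
    ((Complex.ofRealCLM.hasDerivAt (x := (0 : ℝ))).mul_const (trace (B.X a))).cexp
  have h3 : (fun t : ℝ => Complex.exp ((t : ℂ) * trace (B.X a))) = fun _ => (1 : ℂ) := by
    funext t; exact h1 t
  rw [h3] at h2
  have h4 := h2.unique (hasDerivAt_const (0 : ℝ) (1 : ℂ))
  simpa using h4

lemma SU_span (B : Frame (SUs N) n) {A : Mat N} (hA : Aᴴ = -A) (ht : trace A = 0) :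
    A ∈ Submodule.span ℝ (Set.range B.X) := by
  refine B.full A fun t => ?_
  have h1 : (t • A)ᴴ = -(t • A) := by
    rw [conjTranspose_smul, hA, star_trivial, smul_neg]
  have hU : (NormedSpace.exp (t • A) : Mat N) ∈ UN N := by
    rw [Matrix.mem_unitaryGroup_iff, star_eq_conjTranspose, ← Matrix.exp_conjTranspose, h1,
      ← Matrix.exp_add_of_commute _ _ (Commute.refl (t • A)).neg_right, add_neg_cancel,
      NormedSpace.exp_zero]
  have hd : (NormedSpace.exp (t • A) : Mat N).det = 1 := by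
    rw [det_exp_skew h1, trace_smul, ht, smul_zero, Complex.exp_zero]
  exact ⟨⟨⟨_, hU⟩, hd⟩, rfl⟩

lemma SU_expand (B : Frame (SUs N) n) {A : Mat N} (hA : Aᴴ = -A) (ht : trace A = 0) :
    ∑ a, ip (B.X a) A • B.X a = A := by
  obtain ⟨c, hc⟩ := (Submodule.mem_span_range_iff_exists_fun ℝ).1 (SU_span B hA ht)
  have h1 : ∀ a, ip (B.X a) A = c a := by
    intro a
    rw [← hc, map_sum]
    have h2 : ∀ b, ip (B.X a) (c b • B.X b) = if a = b then c b else 0 := by
      intro b
      rw [map_smul, smul_eq_mul, show ip (B.X a) (B.X b) = if a = b then 1 else 0 from B.orth a b]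
      split_ifs <;> simp
    rw [Finset.sum_congr rfl fun b _ => h2 b]
    simp
  rw [Finset.sum_congr rfl fun a _ => by rw [h1 a], hc]

/-- the orthogonal projection onto the Lie algebra of `SU(N)` -/
def prj (A : Mat N) : Mat N :=
  (1 / 2 : ℂ) • (A - Aᴴ) - ((1 / 2 : ℂ) * (1 / (N : ℂ)) * trace (A - Aᴴ)) • (1 : Mat N)

lemma ip_ct {X : Mat N} (hX : Xᴴ = -X) (A : Mat N) : ip X Aᴴ = -ip X A := by
  rw [ip_apply, ip_apply, hX]
  have h1 : trace (-X * Aᴴ) = star (trace (-A * Xᴴ)) := by
    rw [← trace_conjTranspose, conjTranspose_mul, conjTranspose_conjTranspose, conjTranspose_neg,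
      neg_mul, mul_neg]
  rw [h1, hX]
  have h2 : trace (-A * -X) = trace (X * A) := by rw [neg_mul_neg, trace_mul_comm]
  rw [h2, neg_mul, trace_neg]
  simp

lemma prj_skew (A : Mat N) : (prj A)ᴴ = -prj A := by
  unfold prj
  rw [conjTranspose_sub, conjTranspose_smul, conjTranspose_smul, conjTranspose_sub,
    conjTranspose_conjTranspose, conjTranspose_one]
  have h1 : star ((1 / 2 : ℂ) * (1 / (N : ℂ)) * trace (A - Aᴴ)) =
      -((1 / 2 : ℂ) * (1 / (N : ℂ)) * trace (A - Aᴴ)) := by
    rw [star_mul', star_mul', ← trace_conjTranspose, conjTranspose_sub,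
      conjTranspose_conjTranspose]
    have h2 : trace (Aᴴ - A) = -trace (A - Aᴴ) := by rw [← trace_neg, neg_sub]
    rw [h2]
    simp only [one_div, Complex.star_def, map_inv₀, map_ofNat, map_natCast]
    ring
  have h3 : star (1 / 2 : ℂ) = 1 / 2 := by simp
  rw [h1, h3, neg_smul, sub_neg_eq_add, neg_sub]
  have h4 : Aᴴ - A = -(A - Aᴴ) := by rw [neg_sub]
  rw [h4, smul_neg]
  abel

lemma prj_trace (hN : 1 ≤ N) (A : Mat N) : trace (prj A) = 0 := by
  unfold prj
  have hN' : (N : ℂ) ≠ 0 := by exact_mod_cast (by omega : N ≠ 0)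
  rw [trace_sub, trace_smul, trace_smul, trace_one, Fintype.card_fin, smul_eq_mul, smul_eq_mul]
  field_simp
  ring

lemma ip_prj {X : Mat N} (hX : Xᴴ = -X) (ht : trace X = 0) (A : Mat N) :
    ip X (prj A) = ip X A := by
  unfold prj
  rw [map_sub]
  have h1 : ip X ((1 / 2 : ℂ) • (A - Aᴴ)) = ip X A := by
    have h2 : (1 / 2 : ℂ) • (A - Aᴴ) = (1 / 2 : ℝ) • (A - Aᴴ) := by
      rw [← Complex.coe_smul]; norm_num
    rw [h2, map_smul, map_sub, ip_ct hX, smul_eq_mul]
    ring
  have h2 : ∀ c : ℂ, ip X (c • (1 : Mat N)) = 0 := by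
    intro c
    rw [ip_apply, mul_smul_comm, mul_one, trace_smul, trace_conjTranspose, ht]
    simp
  rw [h1, h2, sub_zero]

lemma prj_spec (hN : 1 ≤ N) (B : Frame (SUs N) n) (A : Mat N) :
    ∑ a, ip A (B.X a) • B.X a = prj A := by
  rw [← SU_expand B (prj_skew A) (prj_trace hN A)]
  refine Finset.sum_congr rfl fun a _ => ?_
  rw [ip_prj (B.skewX a) (SU_trace B a), ip_comm]

/-- matrix units -/
lemma ip_single (i j : Fin N) (z : ℂ) (X : Mat N) :
    ip (Matrix.single i j z) X = (star z * X i j).re := by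
  rw [ip_apply, conjTranspose_single, trace_single_mul]
  rfl

lemma entry_eq (i j : Fin N) (X : Mat N) :
    X i j = (ip (Matrix.single i j 1) X : ℂ) + (ip (Matrix.single i j Complex.I) X : ℂ) * Complex.I := by
  rw [ip_single, ip_single]
  apply Complex.ext <;> simp

/-- the completeness relation for `SU(N)` -/
lemma SU_compl (hN : 1 ≤ N) (B : Frame (SUs N) n) (i j k l : Fin N) :
    ∑ a, B.X a i j * B.X a k l =
      (if i = j ∧ k = l then 1 / (N : ℂ) else 0) - (if i = l ∧ j = k then 1 else 0) := by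
  have h1 : ∑ a, B.X a i j • B.X a = prj (Matrix.single i j 1) +
      Complex.I • prj (Matrix.single i j Complex.I) := by
    rw [← prj_spec hN B, ← prj_spec hN B, Finset.smul_sum, ← Finset.sum_add_distrib]
    refine Finset.sum_congr rfl fun a _ => ?_
    rw [entry_eq i j (B.X a), add_smul, Complex.coe_smul, mul_comm, mul_smul, Complex.coe_smul]
  have h2 : ∑ a, B.X a i j * B.X a k l = (∑ a, B.X a i j • B.X a) k l := by
    rw [Matrix.sum_apply]
    rfl
  rw [h2, h1]
  have hN' : (N : ℂ) ≠ 0 := by exact_mod_cast (by omega : N ≠ 0)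
  have ht : ∀ (p q : Fin N) (z : ℂ), trace (Matrix.single p q z) = z * if p = q then 1 else 0 := by
    intro p q z
    by_cases h : p = q
    · subst h; rw [Matrix.trace_single_eq_same, if_pos rfl, mul_one]
    · rw [Matrix.trace_single_eq_of_ne _ _ _ h, if_neg h, mul_zero]
  have hz : ∀ (p q : Fin N) (z : ℂ), (Matrix.single p q z : Mat N) k l =
      z * if p = k ∧ q = l then 1 else 0 := by
    intro p q z
    rw [Matrix.single_apply]
    split_ifs <;> simp
  have hone : (1 : Mat N) k l = if k = l then 1 else 0 := Matrix.one_apply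
  have h5 : (if j = i then (1 : ℂ) else 0) = if i = j then 1 else 0 := by simp only [eq_comm]
  have h6 : (if i = j ∧ k = l then 1 / (N : ℂ) else 0) =
      (if i = j then 1 else 0) * (if k = l then 1 else 0) * (1 / N) := by
    by_cases a1 : i = j <;> by_cases a2 : k = l <;> simp [a1, a2]
  have h7 : (if i = l ∧ j = k then (1 : ℂ) else 0) = if j = k ∧ i = l then 1 else 0 := by
    simp only [and_comm]
  unfold prj
  rw [conjTranspose_single, conjTranspose_single, trace_sub, trace_sub, ht, ht, ht, ht, h6, h7, h5]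
  simp only [Matrix.add_apply, Matrix.sub_apply, Matrix.smul_apply, smul_eq_mul,
    hz, hone, star_one, Complex.star_def, Complex.conj_I]
  have hI := Complex.I_mul_I
  generalize (if i = k ∧ j = l then (1 : ℂ) else 0) = e1
  generalize (if j = k ∧ i = l then (1 : ℂ) else 0) = e2
  generalize (if i = j then (1 : ℂ) else 0) = e3
  generalize (if k = l then (1 : ℂ) else 0) = e4
  linear_combination (e1 / 2 + e2 / 2 - e3 * e4 * (1 / (N : ℂ))) * hI

/-- the Casimir element -/
lemma SU_sum (hN : 1 ≤ N) (B : Frame (SUs N) n) (M : Mat N) :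
    ∑ a, B.X a * M * B.X a = (1 / (N : ℂ)) • M - trace M • (1 : Mat N) := by
  ext i l
  have h1 : (∑ a, B.X a * M * B.X a) i l = ∑ j, ∑ k, M j k * ∑ a, B.X a i j * B.X a k l := by
    rw [Matrix.sum_apply]
    simp only [Matrix.mul_apply, Finset.sum_mul, Finset.mul_sum]
    rw [Finset.sum_comm]
    rw [Finset.sum_congr rfl fun k _ => Finset.sum_comm]
    rw [Finset.sum_comm]
    refine Finset.sum_congr rfl fun j _ => Finset.sum_congr rfl fun k _ =>
      Finset.sum_congr rfl fun a _ => ?_
    ring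
  rw [h1]
  simp only [SU_compl hN B, mul_sub, Finset.sum_sub_distrib, Matrix.sub_apply, Matrix.smul_apply,
    smul_eq_mul]
  congr 1
  · rw [Finset.sum_eq_single i, Finset.sum_eq_single l]
    · simp [mul_comm]
    · intro k _ hk; simp [hk]
    · simp
    · intro j _ hj; simp [Ne.symm hj]
    · simp
  · by_cases h : i = l
    · subst h
      simp only [true_and, Matrix.one_apply_eq, mul_one, trace, Matrix.diag_apply]
      refine Finset.sum_congr rfl fun j _ => ?_
      simp
    · simp [h]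

/-- **Casimir operator of the adjoint representation of `SU(N)`**, with the scalar product
`Re tr (X* Y)`: `∑_a |[X_a, Y]|² = 2 N |Y|²` for `Y` in the Lie algebra (only `≥` is needed).
The Lie algebra is the space of the traceless skew-hermitian matrices (`Frame.full`);
`∑_a X_a M X_a = - tr M + M / N`. -/
theorem Cas_SU {N n : ℕ} (hN : 1 ≤ N) (B : Frame (SUs N) n) : Cas B.toLD (2 * N) := by
  intro q
  obtain ⟨Y, hY⟩ : ∃ Y, Y = ∑ k, q k • B.X k := ⟨_, rfl⟩
  have hYs : Yᴴ = -Y := by
    rw [hY, conjTranspose_sum, ← Finset.sum_neg_distrib]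
    refine Finset.sum_congr rfl fun k _ => ?_
    rw [conjTranspose_smul, B.skewX, star_trivial, smul_neg]
  have hYt : trace Y = 0 := by
    rw [hY, trace_sum]
    refine Finset.sum_eq_zero fun k _ => ?_
    rw [trace_smul, SU_trace, smul_zero]
  have hXX : ∀ a b, ip (B.X a) (B.X b) = if a = b then 1 else 0 := B.orth
  have hYX : ∀ k, ip Y (B.X k) = q k := by
    intro k
    rw [ip_comm, hY, map_sum]
    have h2 : ∀ b, ip (B.X k) (q b • B.X b) = if k = b then q b else 0 := by
      intro b
      rw [map_smul, smul_eq_mul, hXX]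
      split_ifs <;> simp
    rw [Finset.sum_congr rfl fun b _ => h2 b]
    simp
  have hYY : ip Y Y = ∑ k, q k ^ 2 := by
    conv_lhs => rw [show ip Y Y = ip Y (∑ k, q k • B.X k) by rw [← hY]]
    rw [map_sum]
    refine Finset.sum_congr rfl fun k _ => ?_
    rw [map_smul, hYX, smul_eq_mul]; ring
  -- the commutators
  have hZs : ∀ a, (B.X a * Y - Y * B.X a)ᴴ = -(B.X a * Y - Y * B.X a) := by
    intro a
    rw [conjTranspose_sub, conjTranspose_mul, conjTranspose_mul, hYs, B.skewX, neg_mul_neg,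
      neg_mul_neg, neg_sub]
  have hZt : ∀ a, trace (B.X a * Y - Y * B.X a) = 0 := by
    intro a
    rw [trace_sub, trace_mul_comm, sub_self]
  have hsc : ∀ a b, ∑ k, B.toLD.sc a b k * q k = -ip (B.X b) (B.X a * Y - Y * B.X a) := by
    intro a b
    have h1 : ∑ k, B.toLD.sc a b k * q k = ip Y (B.X a * B.X b - B.X b * B.X a) := by
      have h2 : ∑ k, B.toLD.sc a b k • B.X k = B.X a * B.X b - B.X b * B.X a := sc_spec a b
      rw [← h2, map_sum]
      refine Finset.sum_congr rfl fun k _ => ?_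
      rw [map_smul, hYX, smul_eq_mul]
    rw [h1, ip_apply, ip_apply, hYs, B.skewX]
    have h2 : trace (-Y * (B.X a * B.X b - B.X b * B.X a)) =
        -trace (-B.X b * (B.X a * Y - Y * B.X a)) := by
      have h3 : trace (Y * (B.X a * B.X b)) = trace (B.X b * (Y * B.X a)) := by
        rw [← Matrix.mul_assoc, trace_mul_comm]
      have h4 : trace (Y * (B.X b * B.X a)) = trace (B.X b * (B.X a * Y)) := by
        rw [trace_mul_comm, Matrix.mul_assoc]
      rw [neg_mul, neg_mul, mul_sub, mul_sub, trace_neg, trace_neg, trace_sub, trace_sub, h3, h4]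
      ring
    rw [h2, Complex.neg_re]
  have hsq : ∀ a, ∑ b, (∑ k, B.toLD.sc a b k * q k) ^ 2 =
      ip (B.X a * Y - Y * B.X a) (B.X a * Y - Y * B.X a) := by
    intro a
    obtain ⟨Z, hZ⟩ : ∃ Z, Z = B.X a * Y - Y * B.X a := ⟨_, rfl⟩
    have h1 := SU_expand B (A := Z) (by rw [hZ]; exact hZs a) (by rw [hZ]; exact hZt a)
    rw [← hZ]
    have h2 : ip Z Z = ip Z (∑ b, ip (B.X b) Z • B.X b) := by rw [h1]
    rw [h2, map_sum]
    refine Finset.sum_congr rfl fun b _ => ?_
    rw [hsc, ← hZ, map_smul, smul_eq_mul, ip_comm Z (B.X b)]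
    ring
  rw [Finset.sum_congr rfl fun a _ => hsq a]
  have hz2 : ∀ a, ip (B.X a * Y - Y * B.X a) (B.X a * Y - Y * B.X a) =
      2 * (trace (B.X a * 1 * B.X a * (Y * Y))).re - 2 * (trace (B.X a * Y * B.X a * Y)).re := by
    intro a
    rw [ip_apply, hZs]
    have h1 : trace (-(B.X a * Y - Y * B.X a) * (B.X a * Y - Y * B.X a)) =
        2 * trace (B.X a * 1 * B.X a * (Y * Y)) - 2 * trace (B.X a * Y * B.X a * Y) := by
      have h2 : -(B.X a * Y - Y * B.X a) * (B.X a * Y - Y * B.X a) =
          B.X a * (Y * Y * B.X a) + Y * (B.X a * B.X a * Y) - B.X a * Y * B.X a * Y -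
            Y * (B.X a * Y * B.X a) := by noncomm_ring
      rw [h2, trace_sub, trace_sub, trace_add, trace_mul_comm (B.X a) (Y * Y * B.X a),
        trace_mul_comm Y (B.X a * B.X a * Y), trace_mul_comm Y (B.X a * Y * B.X a),
        mul_one, Matrix.mul_assoc (Y * Y) (B.X a) (B.X a), trace_mul_comm (Y * Y) _,
        Matrix.mul_assoc (B.X a * B.X a) Y Y]
      ring
    rw [h1]
    simp
  rw [Finset.sum_congr rfl fun a _ => hz2 a, Finset.sum_sub_distrib, ← Finset.mul_sum,
    ← Finset.mul_sum, ← Complex.re_sum, ← Complex.re_sum, ← trace_sum, ← trace_sum,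
    ← Finset.sum_mul, ← Finset.sum_mul, SU_sum hN, SU_sum hN, hYt, trace_one, Fintype.card_fin]
  have hN' : (N : ℂ) ≠ 0 := by exact_mod_cast (by omega : N ≠ 0)
  have hNr : (N : ℝ) ≠ 0 := by exact_mod_cast (by omega : N ≠ 0)
  have h1 : trace (((1 / (N : ℂ)) • (1 : Mat N) - (N : ℂ) • (1 : Mat N)) * (Y * Y)) =
      ((1 / (N : ℝ) - N : ℝ) : ℂ) * trace (Y * Y) := by
    rw [← sub_smul, smul_mul_assoc, one_mul, trace_smul, smul_eq_mul]
    push_cast
    ring
  have h2 : trace (((1 / (N : ℂ)) • Y - (0 : ℂ) • (1 : Mat N)) * Y) =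
      ((1 / (N : ℝ) : ℝ) : ℂ) * trace (Y * Y) := by
    rw [zero_smul, sub_zero, smul_mul_assoc, trace_smul, smul_eq_mul]
    push_cast
    ring
  have h3 : ip Y Y = -(trace (Y * Y)).re := by
    rw [ip_apply, hYs, neg_mul, trace_neg, Complex.neg_re]
  rw [h1, h2, Complex.re_ofReal_mul, Complex.re_ofReal_mul, ← hYY, h3]
  apply le_of_eq
  ring

end lie

end

end Run7.h208.KS
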