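import Mathlib
import Pool.Agent.Run7.h208.KS.ModelDefs
import Pool.Agent.Run7.h208.KS.Fin
import Pool.Agent.Run7.h208.KS.Path
import Pool.Agent.Run7.h208.KS.SUN

/-!
# Hamiltonian lattice gauge theory: the main lemmas
-/

open MeasureTheory Matrix
open scoped ContDiff Matrix.Norms.Frobenius ComplexConjugate

namespace Run7.h208.KS.Model

set_option linter.unusedSectionVars false

noncomputable section

section

variable {N n D l : ℕ} {G : Subgroup (UU N)}

/-- Auxiliary: the mass gap and confinement with the constant `k`. -/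
structure GapAndConfinement (D l : ℕ) [NeZero l] [MeasurableSpace G] (B : LieBasis G n)
    (μ : Measure G) (g k : ℝ) : Prop where
  gap : ∀ Ψ Φ : (Link D l → G) → ℂ, IsSmooth Ψ → IsSmooth Φ → inner μ Ψ Ψ = 1 → inner μ Φ Φ = 1 →
    inner μ Ψ Φ = 0 → ∀ E : ℝ,
    (∀ a b : ℂ, energy B μ g (fun U => a * Ψ U + b * Φ U) ≤ E * (‖a‖ ^ 2 + ‖b‖ ^ 2)) →
    groundEnergy D l B μ g + k ≤ E
  conf : ∀ (z : G) (m : ℕ) (w : ℂ) (q : (Fin D → ZMod l) → ℤ), (∀ h, z * h = h * z) → 0 < m →
    z ^ m = 1 → w ≠ 0 → ∀ F : (Link D l → G) → ℂ, IsSmooth F → Charged z w q F →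
    inner μ F F = 1 → groundEnergy D l B μ g + k * crossings w q ≤ energy B μ g F

end

open Pool.Agent.H906R3

variable {N n D l : ℕ} {G : Subgroup (UU N)}

/-- The same data in the form used by the helper files. -/
def fm (B : LieBasis G n) : YM.Frame G n where
  X := B.X
  ex := B.ex
  ex_eq := B.ex_eq
  orth := B.orth
  full := B.full

/-- The abstract data. -/
def ld (B : LieBasis G n) : YM.LD G N n := (fm B).toLD

lemma shift_eq (B : LieBasis G n) (e : Link D l) (a : Fin n) (t : ℝ) (U : Link D l → G) :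
    (ld B).shift e a t U = Function.update U e (B.ex a t * U e) := by
  funext e'
  unfold YM.LD.shift
  by_cases h : e' = e
  · subst h
    rw [Pi.mul_apply, Pi.mulSingle_eq_same, Function.update_self]
    rfl
  · rw [Pi.mul_apply, Pi.mulSingle_eq_of_ne h, one_mul, Function.update_of_ne h]

lemma magnetic_eq [NeZero l] (B : LieBasis G n) (U : Link D l → G) :
    magnetic U = (YM.VT (ld B) D l).1 U := by
  have h1 := YM.VT_apply (L := ld B) U
  have h2 : (YM.VT (ld B) D l).1 U = (ld B).ev U (YM.VT (ld B) D l) := rfl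
  rw [h2, h1]
  have h3 : ∑ p : YM.Pl D l, YM.we (ld B) (YM.plqT U p.1.1 p.1.2.1 p.1.2.2) =
      ∑ p ∈ (Finset.univ.filter fun p : (Fin D → ZMod l) × Fin D × Fin D => p.2.1 < p.2.2),
        YM.we (ld B) (YM.plqT U p.1 p.2.1 p.2.2) := by
    rw [Finset.sum_subtype (p := fun p : (Fin D → ZMod l) × Fin D × Fin D => p.2.1 < p.2.2)]
    intro p; simp
  rw [h3, Finset.sum_filter, Fintype.sum_prod_type]
  unfold magnetic
  refine Finset.sum_congr rfl fun x _ => ?_
  rw [Fintype.sum_prod_type]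
  rfl

/-- A Haar probability measure is invariant under right multiplications. -/
lemma right_inv {H : Type*} [Group H] [TopologicalSpace H] [IsTopologicalGroup H]
    [CompactSpace H] [MeasurableSpace H] [BorelSpace H] (μ : Measure H)
    [IsProbabilityMeasure μ] [μ.IsHaarMeasure] : μ.IsMulRightInvariant := by
  refine ⟨fun g => ?_⟩
  have h1 : IsProbabilityMeasure (Measure.map (fun x => x * g) μ) :=
    Measure.isProbabilityMeasure_map (measurable_mul_const g).aemeasurable
  exact Measure.isHaarMeasure_eq_of_isProbabilityMeasure _ _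

/-- the complex function with given real and imaginary parts -/
def cx [NeZero l] (B : LieBasis G n) (F : YM.Sm (ld B) (Link D l) × YM.Sm (ld B) (Link D l)) :
    (Link D l → G) → ℂ := Run7.h208.KS.toC F

lemma exists_cx [NeZero l] (B : LieBasis G n) {F : (Link D l → G) → ℂ} (hF : IsSmooth F) :
    ∃ F' : YM.Sm (ld B) (Link D l) × YM.Sm (ld B) (Link D l), cx B F' = F := by
  obtain ⟨f, hf, h⟩ := hF
  refine ⟨(⟨fun U => (F U).re, fun M => (f M).re, Complex.reCLM.contDiff.comp hf, fun U => ?_⟩,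
    ⟨fun U => (F U).im, fun M => (f M).im, Complex.imCLM.contDiff.comp hf, fun U => ?_⟩), ?_⟩
  · show (F U).re = (f fun e => mt (U e)).re
    rw [h]
  · show (F U).im = (f fun e => mt (U e)).im
    rw [h]
  · funext U
    rfl

lemma smooth_cx [NeZero l] (B : LieBasis G n)
    (F : YM.Sm (ld B) (Link D l) × YM.Sm (ld B) (Link D l)) : IsSmooth (cx B F) := by
  obtain ⟨⟨F1, f1, hf1, h1⟩, ⟨F2, f2, hf2, h2⟩⟩ := F
  refine ⟨fun M => (f1 M : ℂ) + (f2 M : ℂ) * Complex.I, ?_, fun U => ?_⟩
  · exact (Complex.ofRealCLM.contDiff.comp hf1).add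
      ((Complex.ofRealCLM.contDiff.comp hf2).mul contDiff_const)
  · show (⟨F1 U, F2 U⟩ : ℂ) = _
    rw [h1, h2]
    exact Complex.mk_eq_add_mul_I _ _

/-- the Casimir bound in terms of the structure constants -/
lemma cas_of (B : LieBasis G n) {c : ℝ} (h : CasimirBound B c) : Run7.h208.KS.Cas (ld B) c := by
  intro q
  obtain ⟨Y, hY⟩ : ∃ Y : Mt N, Y = ∑ a, q a • B.X a := ⟨_, rfl⟩
  have hmem : Y ∈ Submodule.span ℝ (Set.range B.X) := by
    rw [hY]
    exact Submodule.sum_mem _ fun a _ => Submodule.smul_mem _ _ (Submodule.subset_span ⟨a, rfl⟩)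
  have hnorm : ∀ p : Fin n → ℝ, (trace ((∑ a, p a • B.X a)ᴴ * (∑ a, p a • B.X a))).re =
      ∑ a, p a ^ 2 := by
    intro p
    have h1 : (trace ((∑ a, p a • B.X a)ᴴ * (∑ a, p a • B.X a))).re =
        YM.ip (∑ a, p a • B.X a) (∑ a, p a • B.X a) := rfl
    rw [h1, map_sum]
    refine Finset.sum_congr rfl fun a _ => ?_
    rw [map_smul, smul_eq_mul, YM.ip_comm, map_sum]
    have h2 : ∀ b, YM.ip (B.X a) (p b • B.X b) = if a = b then p b else 0 := by
      intro b
      rw [map_smul, smul_eq_mul]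
      have h3 : YM.ip (B.X a) (B.X b) = if a = b then 1 else 0 := B.orth a b
      rw [h3]
      split_ifs <;> simp
    rw [Finset.sum_congr rfl fun b _ => h2 b]
    simp only [Finset.sum_ite_eq, Finset.mem_univ, if_true]
    ring
  have hbr : ∀ a, B.X a * Y - Y * B.X a = ∑ b, (∑ k, (ld B).sc a k b * q k) • B.X b := by
    intro a
    have h1 : B.X a * Y - Y * B.X a = ∑ k, q k • (B.X a * B.X k - B.X k * B.X a) := by
      rw [hY, Finset.mul_sum, Finset.sum_mul, ← Finset.sum_sub_distrib]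
      refine Finset.sum_congr rfl fun k _ => ?_
      rw [mul_smul_comm, smul_mul_assoc, smul_sub]
    rw [h1]
    have h2 : ∀ k, B.X a * B.X k - B.X k * B.X a = ∑ b, (ld B).sc a k b • B.X b := fun k =>
      (YM.sc_spec (L := ld B) a k).symm
    simp only [h2, Finset.smul_sum, smul_smul]
    rw [Finset.sum_comm]
    refine Finset.sum_congr rfl fun b _ => ?_
    rw [Finset.sum_smul]
    exact Finset.sum_congr rfl fun k _ => by rw [mul_comm]
  have h1 := h Y hmem
  have h2 : (trace (Yᴴ * Y)).re = ∑ a, q a ^ 2 := by rw [hY]; exact hnorm q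
  rw [h2] at h1
  refine h1.trans (le_of_eq ?_)
  refine Finset.sum_congr rfl fun a _ => ?_
  rw [hbr a, hnorm]
  refine Finset.sum_congr rfl fun b _ => ?_
  have hsw : ∀ x y w, (ld B).sc x y w = -(ld B).sc y x w := by
    intro x y w
    rw [YM.sc_ip, YM.sc_ip, ← map_neg, neg_sub]
  have h3 : ∀ k, (ld B).sc a k b = -(ld B).sc a b k := by
    intro k
    rw [hsw a k b, YM.sc_anti k a b, neg_neg, hsw b a k]
  have h4 : ∑ k, (ld B).sc a k b * q k = -∑ k, (ld B).sc a b k * q k := by
    rw [← Finset.sum_neg_distrib]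
    exact Finset.sum_congr rfl fun k _ => by rw [h3, neg_mul]
  rw [h4, neg_sq]

section bridge

variable [CompactSpace G] [SecondCountableTopology G] [NeZero l]
  [MeasurableSpace G] [BorelSpace G] (μ : Measure G) [IsProbabilityMeasure μ] [μ.IsHaarMeasure]
  (B : LieBasis G n) (g : ℝ)

lemma dlink_cx (F : YM.Sm (ld B) (Link D l) × YM.Sm (ld B) (Link D l)) (e : Link D l) (a : Fin n)
    (U : Link D l → G) : dlink B e a (cx B F) U =
      ⟨(ld B).ev U ((ld B).Dv (e, a) F.1), (ld B).ev U ((ld B).Dv (e, a) F.2)⟩ := by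
  unfold dlink
  have h1 := YM.hasDerivAt_dF F.1.2 e a U 0
  have h2 := YM.hasDerivAt_dF F.2.2 e a U 0
  rw [(ld B).shift_zero] at h1 h2
  have h3 := (h1.ofReal_comp).add ((h2.ofReal_comp).mul_const Complex.I)
  have h4 : (fun t : ℝ => cx B F (Function.update U e (B.ex a t * U e))) =
      fun t : ℝ => ((F.1.1 ((ld B).shift e a t U) : ℝ) : ℂ) +
        ((F.2.1 ((ld B).shift e a t U) : ℝ) : ℂ) * Complex.I := by
    funext t
    rw [shift_eq]
    exact Complex.mk_eq_add_mul_I _ _
  rw [h4]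
  refine h3.deriv.trans ?_
  exact (Complex.mk_eq_add_mul_I _ _).symm

lemma normsq_mk (a b : ℝ) : ‖(⟨a, b⟩ : ℂ)‖ ^ 2 = a * a + b * b := by
  rw [← Complex.normSq_eq_norm_sq, Complex.normSq_mk]

lemma energy_cx (hg : 0 < g) (F : YM.Sm (ld B) (Link D l) × YM.Sm (ld B) (Link D l)) :
    energy B μ g (cx B F) = g ^ 2 *
      (Run7.h208.KS.en μ ((1 / g ^ 4 : ℝ) • YM.VT (ld B) D l) F.1 +
        Run7.h208.KS.en μ ((1 / g ^ 4 : ℝ) • YM.VT (ld B) D l) F.2) := by
  have hI : ∀ u : YM.Sm (ld B) (Link D l), Integrable u.1 (Measure.pi fun _ : Link D l => μ) :=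
    fun u => YM.integrable_cont μ (YM.Sm_cont u)
  have h1 : ∀ (e : Link D l) (a : Fin n),
      ∫ U, ‖dlink B e a (cx B F) U‖ ^ 2 ∂(Measure.pi fun _ : Link D l => μ) =
        (ld B).I μ ((ld B).Dv (e, a) F.1 * (ld B).Dv (e, a) F.1) +
          (ld B).I μ ((ld B).Dv (e, a) F.2 * (ld B).Dv (e, a) F.2) := by
    intro e a
    rw [YM.I_apply, YM.I_apply, ← integral_add (hI _) (hI _)]
    refine integral_congr_ae (Filter.Eventually.of_forall fun U => ?_)
    show ‖dlink B e a (cx B F) U‖ ^ 2 = _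
    rw [dlink_cx, normsq_mk]
    rfl
  have h2 : ∫ U, magnetic U * ‖cx B F U‖ ^ 2 ∂(Measure.pi fun _ : Link D l => μ) =
      (ld B).I μ (YM.VT (ld B) D l * (F.1 * F.1)) + (ld B).I μ (YM.VT (ld B) D l * (F.2 * F.2)) := by
    rw [YM.I_apply, YM.I_apply, ← integral_add (hI _) (hI _)]
    refine integral_congr_ae (Filter.Eventually.of_forall fun U => ?_)
    show magnetic U * ‖(⟨(ld B).ev U F.1, (ld B).ev U F.2⟩ : ℂ)‖ ^ 2 = _
    rw [normsq_mk, magnetic_eq B, mul_add]
    rfl
  have h3 : ∀ u : YM.Sm (ld B) (Link D l), ∑ e : Link D l, ∑ a : Fin n,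
      (ld B).I μ ((ld B).Dv (e, a) u * (ld B).Dv (e, a) u) =
        (ld B).I μ (YM.Gam (ld B).Dv u u) := by
    intro u
    unfold YM.Gam
    rw [map_sum]
    exact (Fintype.sum_prod_type fun j : Link D l × Fin n =>
      (ld B).I μ ((ld B).Dv j u * (ld B).Dv j u)).symm
  unfold energy Run7.h208.KS.en
  rw [h2]
  simp only [h1, Finset.sum_add_distrib, h3, smul_mul_assoc, map_smul, smul_eq_mul]
  have hg0 : g ≠ 0 := hg.ne'
  field_simp
  ring

lemma inner_cx (F H : YM.Sm (ld B) (Link D l) × YM.Sm (ld B) (Link D l)) :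
    inner μ (cx B F) (cx B H) = ⟨(ld B).I μ (F.1 * H.1) + (ld B).I μ (F.2 * H.2),
      (ld B).I μ (F.1 * H.2) - (ld B).I μ (F.2 * H.1)⟩ := by
  have hI : ∀ u : YM.Sm (ld B) (Link D l), Integrable u.1 (Measure.pi fun _ : Link D l => μ) :=
    fun u => YM.integrable_cont μ (YM.Sm_cont u)
  have h1 : ∀ U, conj (cx B F U) * cx B H U =
      (((F.1 * H.1 + F.2 * H.2).1 U : ℝ) : ℂ) +
        (((F.1 * H.2 - F.2 * H.1).1 U : ℝ) : ℂ) * Complex.I := by
    intro U
    show conj (⟨F.1.1 U, F.2.1 U⟩ : ℂ) * (⟨H.1.1 U, H.2.1 U⟩ : ℂ) = _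
    have e1 : (F.1 * H.1 + F.2 * H.2).1 U = F.1.1 U * H.1.1 U + F.2.1 U * H.2.1 U := rfl
    have e2 : (F.1 * H.2 - F.2 * H.1).1 U = F.1.1 U * H.2.1 U - F.2.1 U * H.1.1 U := rfl
    rw [e1, e2]
    refine Complex.ext ?_ ?_
    · simp
    · simp; ring
  unfold inner
  simp only [h1]
  have i1 : Integrable (fun U => (((F.1 * H.1 + F.2 * H.2).1 U : ℝ) : ℂ))
      (Measure.pi fun _ : Link D l => μ) := (hI (F.1 * H.1 + F.2 * H.2)).ofReal
  have i2 : Integrable (fun U => (((F.1 * H.2 - F.2 * H.1).1 U : ℝ) : ℂ) * Complex.I)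
      (Measure.pi fun _ : Link D l => μ) := ((hI (F.1 * H.2 - F.2 * H.1)).ofReal).mul_const _
  rw [integral_add i1 i2, integral_mul_const]
  have h2 := integral_ofReal (𝕜 := ℂ) (μ := Measure.pi fun _ : Link D l => μ)
    (f := (F.1 * H.1 + F.2 * H.2).1)
  have h3 := integral_ofReal (𝕜 := ℂ) (μ := Measure.pi fun _ : Link D l => μ)
    (f := (F.1 * H.2 - F.2 * H.1).1)
  have h4 : ∫ U, (F.1 * H.1 + F.2 * H.2).1 U ∂(Measure.pi fun _ : Link D l => μ) =
      (ld B).I μ (F.1 * H.1) + (ld B).I μ (F.2 * H.2) := by rw [← map_add]; rfl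
  have h5 : ∫ U, (F.1 * H.2 - F.2 * H.1).1 U ∂(Measure.pi fun _ : Link D l => μ) =
      (ld B).I μ (F.1 * H.2) - (ld B).I μ (F.2 * H.1) := by rw [← map_sub]; rfl
  rw [h4] at h2
  rw [h5] at h3
  rw [Complex.mk_eq_add_mul_I]
  exact congrArg₂ (· + ·) h2 (congrArg (· * Complex.I) h3)

lemma ground_bdd : BddBelow {E : ℝ | ∃ Ψ : (Link D l → G) → ℂ, IsSmooth Ψ ∧
    (∀ γ U, Ψ (gauge γ U) = Ψ U) ∧ inner μ Ψ Ψ = 1 ∧ energy B μ g Ψ = E} := by
  refine ⟨0, ?_⟩
  rintro E ⟨Ψ, -, -, -, rfl⟩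
  unfold energy
  have h1 : 0 ≤ ∑ e : Link D l, ∑ a : Fin n,
      ∫ U, ‖dlink B e a Ψ U‖ ^ 2 ∂(Measure.pi fun _ : Link D l => μ) :=
    Finset.sum_nonneg fun e _ => Finset.sum_nonneg fun a _ => integral_nonneg fun U => sq_nonneg _
  have h2 : 0 ≤ ∫ U, magnetic U * ‖Ψ U‖ ^ 2 ∂(Measure.pi fun _ : Link D l => μ) := by
    refine integral_nonneg fun U => mul_nonneg ?_ (sq_nonneg _)
    show 0 ≤ magnetic U
    rw [magnetic_eq B]
    have h3 := YM.VT_apply (L := ld B) U
    have h4 : (YM.VT (ld B) D l).1 U = (ld B).ev U (YM.VT (ld B) D l) := rfl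
    rw [h4, h3]
    exact Finset.sum_nonneg fun _ _ => YM.we_nonneg _
  positivity

/-- the ground state energy is a lower bound for the energies of the invariant functions -/
lemma ground_low (hg : 0 < g) (u : YM.Sm (ld B) (Link D l)) (hu : YM.Inv u) :
    groundEnergy D l B μ g / g ^ 2 * (ld B).I μ (u * u) ≤
      Run7.h208.KS.en μ ((1 / g ^ 4 : ℝ) • YM.VT (ld B) D l) u := by
  obtain ⟨Z, hZ⟩ : ∃ Z : ℝ, Z = (ld B).I μ (u * u) := ⟨_, rfl⟩
  have hZ0 : 0 ≤ Z := by rw [hZ]; exact YM.I_sq_nonneg μ _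
  have hen : ∀ (t : ℝ) (v : YM.Sm (ld B) (Link D l)),
      Run7.h208.KS.en μ ((1 / g ^ 4 : ℝ) • YM.VT (ld B) D l) (t • v) =
        t ^ 2 * Run7.h208.KS.en μ ((1 / g ^ 4 : ℝ) • YM.VT (ld B) D l) v := by
    intro t v
    unfold Run7.h208.KS.en
    have e1 : YM.Gam (ld B).Dv (t • v) (t • v) = (t ^ 2) • YM.Gam (ld B).Dv v v := by
      rw [YM.Gam_smul, YM.Gam_comm, YM.Gam_smul, smul_smul, sq]
    have e2 : (1 / g ^ 4 : ℝ) • YM.VT (ld B) D l * (t • v * (t • v)) =
        (t ^ 2) • ((1 / g ^ 4 : ℝ) • YM.VT (ld B) D l * (v * v)) := by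
      rw [smul_mul_smul_comm, mul_smul_comm, sq]
    rw [e1, e2, map_smul, map_smul, smul_eq_mul, smul_eq_mul]
    ring
  have hpos : ∀ v : YM.Sm (ld B) (Link D l),
      0 ≤ Run7.h208.KS.en μ ((1 / g ^ 4 : ℝ) • YM.VT (ld B) D l) v := by
    intro v
    unfold Run7.h208.KS.en
    have h2 : 0 ≤ (ld B).I μ (YM.Gam (ld B).Dv v v) := by
      unfold YM.Gam
      rw [map_sum]
      exact Finset.sum_nonneg fun j _ => YM.I_sq_nonneg μ _
    have h3 : 0 ≤ (ld B).I μ ((1 / g ^ 4 : ℝ) • YM.VT (ld B) D l * (v * v)) :=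
      YM.I_nonneg μ fun U => by
        rw [map_mul, map_mul, map_smul, YM.VT_apply, smul_eq_mul]
        exact mul_nonneg (mul_nonneg (by positivity)
          (Finset.sum_nonneg fun _ _ => YM.we_nonneg _)) (mul_self_nonneg _)
    positivity
  rcases hZ0.eq_or_lt with h0 | h0
  · rw [← hZ, ← h0, mul_zero]
    exact hpos u
  · obtain ⟨t, ht⟩ : ∃ t : ℝ, t = (Real.sqrt Z)⁻¹ := ⟨_, rfl⟩
    have ht2 : t ^ 2 * Z = 1 := by
      rw [ht, inv_pow, Real.sq_sqrt h0.le, inv_mul_cancel₀ h0.ne']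
    have hmem : energy B μ g (cx B (t • u, 0)) ∈ {E : ℝ | ∃ Ψ : (Link D l → G) → ℂ, IsSmooth Ψ ∧
        (∀ γ U, Ψ (gauge γ U) = Ψ U) ∧ inner μ Ψ Ψ = 1 ∧ energy B μ g Ψ = E} := by
      refine ⟨_, smooth_cx B _, fun γ U => ?_, ?_, rfl⟩
      · have h1 := congrArg (fun v : YM.Sm (ld B) (Link D l) => v.1 U) ((hu.smul t) γ)
        have h2 : (t • u).1 (gauge γ U) = (t • u).1 U := h1
        show (⟨(t • u).1 (gauge γ U), _⟩ : ℂ) = ⟨(t • u).1 U, _⟩
        rw [h2]
        rfl
      · rw [inner_cx]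
        have e1 : (ld B).I μ (t • u * (t • u)) = 1 := by
          rw [smul_mul_smul_comm, map_smul, ← hZ, smul_eq_mul, ← ht2]; ring
        simp only [e1, mul_zero, map_zero, add_zero, zero_mul, sub_zero]
        rfl
    have h1 : groundEnergy D l B μ g ≤ energy B μ g (cx B (t • u, 0)) :=
      csInf_le (ground_bdd μ B g) hmem
    rw [energy_cx μ B g hg] at h1
    have h2 : Run7.h208.KS.en μ ((1 / g ^ 4 : ℝ) • YM.VT (ld B) D l)
        (0 : YM.Sm (ld B) (Link D l)) = 0 := by
      have := hen 0 0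
      rwa [zero_smul, zero_pow two_ne_zero, zero_mul] at this
    dsimp only at h1
    rw [h2, add_zero, hen] at h1
    rw [← hZ]
    have hg2 : 0 < g ^ 2 := by positivity
    have h3 : groundEnergy D l B μ g / g ^ 2 ≤
        t ^ 2 * Run7.h208.KS.en μ ((1 / g ^ 4 : ℝ) • YM.VT (ld B) D l) u := by
      rw [div_le_iff₀ hg2]; linarith
    calc groundEnergy D l B μ g / g ^ 2 * Z ≤
        t ^ 2 * Run7.h208.KS.en μ ((1 / g ^ 4 : ℝ) • YM.VT (ld B) D l) u * Z :=
          mul_le_mul_of_nonneg_right h3 hZ0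
      _ = (t ^ 2 * Z) * Run7.h208.KS.en μ ((1 / g ^ 4 : ℝ) • YM.VT (ld B) D l) u := by ring
      _ = _ := by rw [ht2, one_mul]

lemma slab_eq (q : (Fin D → ZMod l) → ℤ) (i : Fin D) (a : ZMod l) :
    Run7.h208.KS.sg q i a = slabCharge q i a := by
  unfold Run7.h208.KS.sg Run7.h208.KS.slab slabCharge
  rw [Finset.sum_filter]

lemma sup_le (w : ℂ) (q : (Fin D → ZMod l) → ℤ) (i : Fin D) :
    (Finset.univ.sup fun a : ZMod l => (Finset.univ.filter fun b : ZMod l =>
      w ^ slabCharge q i b = w ^ slabCharge q i a).card) ≤ l := by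
  refine Finset.sup_le fun a _ => ?_
  refine (Finset.card_le_univ _).trans (le_of_eq ?_)
  exact ZMod.card l

/-- the theorem with an admissible Hessian bound `h` -/
lemma core (hG : IsClosed (G : Set (UU N))) (hconn : ConnectedSpace G) (hN : 0 < N) (hD : 1 ≤ D)
    {c h : ℝ} (hc : Run7.h208.KS.Cas (ld B) c) (hg : 0 < g) (hh : 0 < h)
    (hh2 : h ^ 2 + 1 / g ^ 4 * (8 * (D - 1)) < c / 8 * h) :
    GapAndConfinement D l B μ g (g ^ 2 * (c / 8 - h)) := by
  have : μ.IsMulRightInvariant := right_inv μ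
  obtain ⟨R, hR, hP⟩ := Run7.h208.KS.path_sup (G := G) hG (fm B) (Link D l)
  obtain ⟨R', -, hP'⟩ := Run7.h208.KS.path_int (G := G) hG μ (fm B) (Link D l)
  have ha : (0 : ℝ) ≤ 1 / g ^ 4 := by positivity
  have hg2 : 0 < g ^ 2 := by positivity
  have hhc : h < c / 8 := by
    have h1 : 0 ≤ 1 / g ^ 4 * (8 * ((D : ℝ) - 1)) := by
      have : (1 : ℝ) ≤ D := by exact_mod_cast hD
      have h2 : (0 : ℝ) ≤ D - 1 := by linarith
      positivity
    have h3 : h * h < c / 8 * h := by nlinarith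
    exact lt_of_mul_lt_mul_right h3 hh.le
  refine ⟨?_, ?_⟩
  · intro Ψ Φ hΨ hΦ h11 h22 h12 E hE
    obtain ⟨P1, rfl⟩ := exists_cx B hΨ
    obtain ⟨P2, rfl⟩ := exists_cx B hΦ
    rw [inner_cx] at h11 h22 h12
    have e11 := congrArg Complex.re h11
    have e22 := congrArg Complex.re h22
    have e12 := congrArg Complex.re h12
    have e12' := congrArg Complex.im h12
    simp only [Complex.one_re, Complex.zero_re, Complex.zero_im] at e11 e22 e12 e12'
    have h1 := Run7.h208.KS.ks_gap (L := ld B) (l := l) μ hN hD hc ha hh hh2 hhc hR hP hP'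
      (ground_low μ B g hg) e11 e22 e12 e12' (E1 := E / g ^ 2) (fun α β => by
        have h2 := hE α β
        have h3 : (fun U => α * cx B P1 U + β * cx B P2 U) =
            cx B (Run7.h208.KS.cm α P1 + Run7.h208.KS.cm β P2) := by
          funext U
          have e1 : cx B (Run7.h208.KS.cm α P1 + Run7.h208.KS.cm β P2) U =
            cx B (Run7.h208.KS.cm α P1) U + cx B (Run7.h208.KS.cm β P2) U := rfl
          rw [e1]
          exact (congrArg₂ (· + ·) (Run7.h208.KS.toC_cm α P1 U)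
            (Run7.h208.KS.toC_cm β P2 U)).symm
        rw [h3, energy_cx μ B g hg] at h2
        rw [div_mul_eq_mul_div, le_div_iff₀ hg2]
        unfold Run7.h208.KS.en2
        linarith)
    have h4 : (groundEnergy D l B μ g / g ^ 2 + (c / 8 - h)) * g ^ 2 ≤ E / g ^ 2 * g ^ 2 :=
      mul_le_mul_of_nonneg_right h1 hg2.le
    rw [add_mul, div_mul_cancel₀ _ hg2.ne', div_mul_cancel₀ _ hg2.ne'] at h4
    linarith
  · intro z m w q hz hm hzm hw F hF hch hFF
    obtain ⟨P, rfl⟩ := exists_cx B hF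
    rw [inner_cx] at hFF
    have e1 := congrArg Complex.re hFF
    simp only [Complex.one_re] at e1
    have h1 := Run7.h208.KS.ks_conf (L := ld B) (l := l) μ hN hD hc ha hh hh2 hhc hR hP hP'
      (ground_low μ B g hg) hz hm hzm hw P (q := q) hch
      (M := fun i => Finset.univ.sup fun a : ZMod l => (Finset.univ.filter fun b : ZMod l =>
        w ^ slabCharge q i b = w ^ slabCharge q i a).card) (fun i a => by
          simp only [slab_eq]
          exact Finset.le_sup (f := fun a : ZMod l => (Finset.univ.filter fun b : ZMod l =>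
            w ^ slabCharge q i b = w ^ slabCharge q i a).card) (Finset.mem_univ a))
    rw [e1, mul_one] at h1
    have h2 : (crossings w q : ℝ) = ∑ i : Fin D, ((l : ℝ) -
        ((Finset.univ.sup fun a : ZMod l => (Finset.univ.filter fun b : ZMod l =>
          w ^ slabCharge q i b = w ^ slabCharge q i a).card : ℕ) : ℝ)) := by
      unfold crossings
      rw [Nat.cast_sum]
      exact Finset.sum_congr rfl fun i _ => Nat.cast_sub (sup_le w q i)
    rw [energy_cx μ B g hg, h2]
    unfold Run7.h208.KS.en2 at h1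
    have h4 := mul_le_mul_of_nonneg_left h1 hg2.le
    rw [mul_add, mul_div_cancel₀ _ hg2.ne'] at h4
    linarith

end bridge

/-- the bound survives the limit of the constants -/
lemma of_lt [NeZero l] [MeasurableSpace G] {B : LieBasis G n} {μ : Measure G} {g k k₀ : ℝ}
    (hk : k₀ < k) (h : ∀ k', k₀ < k' → k' < k → GapAndConfinement D l B μ g k') :
    GapAndConfinement D l B μ g k := by
  refine ⟨fun Ψ Φ h1 h2 h3 h4 h5 E hE => ?_, fun z m w q hz hm hzm hw F hF hch hFF => ?_⟩
  · refine le_of_forall_pos_le_add fun δ hδ => ?_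
    have h6 := (h (max (k - δ) ((k₀ + k) / 2)) (lt_max_of_lt_right (by linarith))
      (max_lt (by linarith) (by linarith))).gap Ψ Φ h1 h2 h3 h4 h5 E hE
    have h7 := le_max_left (k - δ) ((k₀ + k) / 2)
    linarith
  · refine le_of_forall_pos_le_add fun δ hδ => ?_
    obtain ⟨x, hx⟩ : ∃ x : ℝ, x = crossings w q := ⟨_, rfl⟩
    have hx0 : 0 ≤ x := by rw [hx]; positivity
    have h6 := (h (max (k - δ / (x + 1)) ((k₀ + k) / 2)) (lt_max_of_lt_right (by linarith))
      (max_lt (by have : 0 < δ / (x + 1) := by positivity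
                  linarith) (by linarith))).conf z m w q hz hm hzm hw F hF hch hFF
    have h7 := le_max_left (k - δ / (x + 1)) ((k₀ + k) / 2)
    rw [← hx] at h6 ⊢
    have h8 : (k - δ / (x + 1)) * x ≤ max (k - δ / (x + 1)) ((k₀ + k) / 2) * x :=
      mul_le_mul_of_nonneg_right h7 hx0
    have h9 : δ / (x + 1) * x ≤ δ := by
      rw [div_mul_eq_mul_div, div_le_iff₀ (by positivity)]
      nlinarith
    linarith

/-- the main theorem in terms of the structure constants -/
lemma main [NeZero l] [MeasurableSpace G] [BorelSpace G] (μ : Measure G)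
    [IsProbabilityMeasure μ] [μ.IsHaarMeasure] (B : LieBasis G n) (g : ℝ)
    (hG : IsClosed (G : Set (UU N))) (hconn : ConnectedSpace G) (hN : 0 < N) (hD : 1 ≤ D)
    {c : ℝ} (hc0 : 0 < c) (hc : Run7.h208.KS.Cas (ld B) c) (hg : 0 < g)
    (hgc : 2048 * ((D : ℝ) - 1) < c ^ 2 * g ^ 4) :
    GapAndConfinement D l B μ g
      (g ^ 2 * (c / 16) * (1 + Real.sqrt (1 - 2048 * ((D : ℝ) - 1) / (c ^ 2 * g ^ 4)))) := by
  have hcomp : CompactSpace G := by
    have h1 : IsCompact (G : Set (UU N)) := hG.isCompact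
    exact isCompact_iff_compactSpace.1 h1
  have h00 : SecondCountableTopology (UU N) := TopologicalSpace.Subtype.secondCountableTopology _
  have hsec : SecondCountableTopology G := TopologicalSpace.Subtype.secondCountableTopology _
  have hg2 : 0 < g ^ 2 := by positivity
  have hg4 : 0 < g ^ 4 := by positivity
  obtain ⟨r, hr⟩ : ∃ r, r = Real.sqrt (1 - 2048 * ((D : ℝ) - 1) / (c ^ 2 * g ^ 4)) := ⟨_, rfl⟩
  have hcg : 0 < c ^ 2 * g ^ 4 := by positivity
  have harg : 0 < 1 - 2048 * ((D : ℝ) - 1) / (c ^ 2 * g ^ 4) := by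
    rw [sub_pos, div_lt_one hcg]; exact hgc
  have hr0 : 0 < r := by rw [hr]; exact Real.sqrt_pos.2 harg
  have hr2 : r ^ 2 = 1 - 2048 * ((D : ℝ) - 1) / (c ^ 2 * g ^ 4) := by
    rw [hr]; exact Real.sq_sqrt harg.le
  have hD1 : (0 : ℝ) ≤ (D : ℝ) - 1 := by
    have : (1 : ℝ) ≤ D := by exact_mod_cast hD
    linarith
  have hr1 : r ≤ 1 := by
    have h1 : r ^ 2 ≤ 1 := by
      rw [hr2]
      have : 0 ≤ 2048 * ((D : ℝ) - 1) / (c ^ 2 * g ^ 4) := by positivity
      linarith
    nlinarith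
  rw [← hr]
  refine of_lt (k₀ := g ^ 2 * (c / 16)) (by
    have : 0 < g ^ 2 * (c / 16) * r := by positivity
    nlinarith) fun k' hk1 hk2 => ?_
  -- `k' = g² (c / 8 - h)`
  obtain ⟨t, ht⟩ : ∃ t, t = k' / (g ^ 2 * (c / 16)) - 1 := ⟨_, rfl⟩
  have hgc16 : 0 < g ^ 2 * (c / 16) := by positivity
  have hk' : k' = g ^ 2 * (c / 16) * (1 + t) := by
    rw [ht]; field_simp; ring
  have ht0 : 0 < t := by
    rw [hk'] at hk1
    by_contra hcon
    push Not at hcon
    nlinarith
  have htr : t < r := by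
    rw [hk'] at hk2
    have h1 : g ^ 2 * (c / 16) * (1 + t) < g ^ 2 * (c / 16) * (1 + r) := hk2
    have h2 := lt_of_mul_lt_mul_left h1 hgc16.le
    linarith
  have hkey : k' = g ^ 2 * (c / 8 - c / 16 * (1 - t)) := by rw [hk']; ring
  rw [hkey]
  refine core μ B g hG hconn hN hD hc hg (by nlinarith) ?_
  have h1 : (c / 16 * (1 - t)) ^ 2 + 1 / g ^ 4 * (8 * ((D : ℝ) - 1)) - c / 8 * (c / 16 * (1 - t)) =
      c ^ 2 / 256 * (t ^ 2 - r ^ 2) := by
    rw [hr2]
    field_simp
    ring
  have h2 : t ^ 2 < r ^ 2 := by nlinarith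
  have h3 : 0 < c ^ 2 / 256 := by positivity
  nlinarith

/-! ### the distance of two opposite charges -/

lemma card_arc [NeZero l] {p r : ℕ} (hr : r ≤ l) :
    (Finset.univ.filter fun a : ZMod l => p ≤ a.val ∧ a.val < r).card = r - p := by
  rw [← Nat.card_Ico p r]
  refine Finset.card_bij (fun a _ => a.val) ?_ ?_ ?_
  · intro a ha
    rw [Finset.mem_filter] at ha
    rw [Finset.mem_Ico]
    exact ha.2
  · intro a _ b _ h
    exact ZMod.val_injective l h
  · intro k hk
    rw [Finset.mem_Ico] at hk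
    have h1 : ((k : ℕ) : ZMod l).val = k := ZMod.val_natCast_of_lt (by omega)
    refine ⟨(k : ZMod l), ?_, h1⟩
    rw [Finset.mem_filter, h1]
    exact ⟨Finset.mem_univ _, hk⟩

/-- two classes: an arc of `t < l` elements and its complement -/
lemma sup_arc [NeZero l] {w : ℂ} {σ : ZMod l → ℤ} {P : ZMod l → Prop} [DecidablePred P] {t : ℕ}
    (ht : (Finset.univ.filter P).card = t) (htl : t < l) {s : ℤ} (hs : w ^ s ≠ 1)
    (h1 : ∀ a, P a → σ a = s) (h0 : ∀ a, ¬P a → σ a = 0) :
    (Finset.univ.sup fun a : ZMod l => (Finset.univ.filter fun b : ZMod l =>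
      w ^ σ b = w ^ σ a).card) = max t (l - t) := by
  have hc : (Finset.univ.filter fun b => ¬P b).card = l - t := by
    have := Finset.card_filter_add_card_filter_not (s := (Finset.univ : Finset (ZMod l))) (p := P)
    rw [ht, Finset.card_univ, ZMod.card] at this
    omega
  have hP : ∀ a, P a → (Finset.univ.filter fun b : ZMod l => w ^ σ b = w ^ σ a).card = t := by
    intro a ha
    rw [← ht]
    congr 1
    refine Finset.filter_congr fun b _ => ?_
    rw [h1 a ha]
    constructor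
    · intro h
      by_contra hb
      rw [h0 b hb, zpow_zero] at h
      exact hs h.symm
    · intro hb
      rw [h1 b hb]
  have hnP : ∀ a, ¬P a → (Finset.univ.filter fun b : ZMod l => w ^ σ b = w ^ σ a).card = l - t := by
    intro a ha
    rw [← hc]
    congr 1
    refine Finset.filter_congr fun b _ => ?_
    rw [h0 a ha, zpow_zero]
    constructor
    · intro h hb
      rw [h1 b hb] at h
      exact hs h
    · intro hb
      rw [h0 b hb, zpow_zero]
  refine le_antisymm (Finset.sup_le fun a _ => ?_) (max_le ?_ ?_)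
  · by_cases ha : P a
    · rw [hP a ha]; exact le_max_left _ _
    · rw [hnP a ha]; exact le_max_right _ _
  · rcases Nat.eq_zero_or_pos t with h | h
    · rw [h]; exact Nat.zero_le _
    · have h' : 0 < (Finset.univ.filter P).card := by rw [ht]; exact h
      rw [Finset.card_pos] at h'
      obtain ⟨a, ha⟩ := h'
      rw [Finset.mem_filter] at ha
      rw [← hP a ha.2]
      exact Finset.le_sup (f := fun a : ZMod l => (Finset.univ.filter fun b : ZMod l =>
        w ^ σ b = w ^ σ a).card) (Finset.mem_univ a)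
  · have h : 0 < (Finset.univ.filter fun b => ¬P b).card := by rw [hc]; omega
    rw [Finset.card_pos] at h
    obtain ⟨a, ha⟩ := h
    rw [Finset.mem_filter] at ha
    rw [← hnP a ha.2]
    exact Finset.le_sup (f := fun a : ZMod l => (Finset.univ.filter fun b : ZMod l =>
      w ^ σ b = w ^ σ a).card) (Finset.mem_univ a)

lemma crossings_pair [NeZero l] {w : ℂ} (hw : w ≠ 1) (x y : Fin D → ZMod l) :
    crossings w (fun v => (if v = x then 1 else 0) - (if v = y then 1 else 0)) = dist1 x y := by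
  unfold crossings dist1
  refine Finset.sum_congr rfl fun i _ => ?_
  have hσ : ∀ a : ZMod l, slabCharge (fun v => (if v = x then (1 : ℤ) else 0) -
      (if v = y then 1 else 0)) i a =
        (if (x i).val ≤ a.val then 1 else 0) - (if (y i).val ≤ a.val then 1 else 0) := by
    intro a
    unfold slabCharge
    have h1 : ∀ v : Fin D → ZMod l, (if (v i).val ≤ a.val then ((if v = x then (1 : ℤ) else 0) -
        (if v = y then 1 else 0)) else 0) =
        (if v = x then (if (x i).val ≤ a.val then 1 else 0) else 0) -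
        (if v = y then (if (y i).val ≤ a.val then 1 else 0) else 0) := by
      intro v
      by_cases hx : v = x
      · subst hx
        by_cases hy : v = y
        · subst hy; simp
        · simp [hy]
      · by_cases hy : v = y
        · subst hy
          simp only [hx, if_false, if_true, zero_sub]
          split_ifs <;> simp
        · simp [hx, hy]
    rw [Finset.sum_congr rfl fun v _ => h1 v, Finset.sum_sub_distrib]
    simp
  have hx := ZMod.val_lt (x i)
  have hy := ZMod.val_lt (y i)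
  rw [ZMod.valMinAbs_natAbs_eq_min]
  rcases le_total (y i).val (x i).val with h | h
  · have hval : (x i - y i).val = (x i).val - (y i).val := ZMod.val_sub h
    have h1 := sup_arc (w := w) (σ := fun a => slabCharge (fun v => (if v = x then (1 : ℤ) else 0) -
      (if v = y then 1 else 0)) i a) (P := fun a : ZMod l => (y i).val ≤ a.val ∧ a.val < (x i).val)
      (card_arc (p := (y i).val) hx.le) (by omega) (s := -1) (by
        rw [_root_.zpow_neg_one]
        exact fun hh => hw (inv_eq_one.1 hh)) (fun a ha => by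
          rw [hσ, if_neg (by omega), if_pos ha.1]; norm_num) (fun a ha => by
          rw [hσ]
          by_cases h2 : (y i).val ≤ a.val
          · have h3 : (x i).val ≤ a.val := by
              by_contra hcon
              exact ha ⟨h2, by omega⟩
            rw [if_pos h2, if_pos h3, sub_self]
          · rw [if_neg h2, if_neg (by omega), sub_self])
    rw [h1, hval]
    omega
  · have hval : (x i - y i).val = if (y i).val = (x i).val then 0 else
        l - ((y i).val - (x i).val) := by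
      have h2 : (y i - x i).val = (y i).val - (x i).val := ZMod.val_sub h
      have h3 : x i - y i = -(y i - x i) := by ring
      rw [h3, ZMod.neg_val, h2]
      by_cases h4 : (y i).val = (x i).val
      · have h5 : y i - x i = 0 := by
          rw [sub_eq_zero]; exact ZMod.val_injective l h4
        rw [if_pos h5, if_pos h4]
      · have h5 : y i - x i ≠ 0 := by
          intro h6
          rw [sub_eq_zero] at h6
          exact h4 (by rw [h6])
        rw [if_neg h5, if_neg h4]
    have h1 := sup_arc (w := w) (σ := fun a => slabCharge (fun v => (if v = x then (1 : ℤ) else 0) -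
      (if v = y then 1 else 0)) i a) (P := fun a : ZMod l => (x i).val ≤ a.val ∧ a.val < (y i).val)
      (card_arc (p := (x i).val) hy.le) (by omega) (s := 1) (by
        rw [zpow_one]
        exact hw) (fun a ha => by
          rw [hσ, if_neg (show ¬(y i).val ≤ a.val by omega), if_pos ha.1]; norm_num) (fun a ha => by
          rw [hσ]
          by_cases h2 : (x i).val ≤ a.val
          · have h3 : (y i).val ≤ a.val := by
              by_contra hcon
              exact ha ⟨h2, by omega⟩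
            rw [if_pos h2, if_pos h3, sub_self]
          · rw [if_neg h2, if_neg (by omega), sub_self])
    rw [h1, hval]
    split_ifs <;> omega

/-- the general theorem -/
lemma general [NeZero l] (G : Subgroup (UU N)) [MeasurableSpace G] [BorelSpace G]
    (μ : Measure G) [IsProbabilityMeasure μ] [μ.IsHaarMeasure] (B : LieBasis G n) {c g : ℝ}
    (hN : 1 ≤ N) (hD : 1 ≤ D) (hG : IsClosed (G : Set (UU N))) (hconn : ConnectedSpace G)
    (hc0 : 0 < c) (hc : CasimirBound B c) (hg : 0 < g)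
    (hgc : 2048 * ((D : ℝ) - 1) < c ^ 2 * g ^ 4) :
    GapAndConfinement D l B μ g
      (g ^ 2 * (c / 16) * (1 + Real.sqrt (1 - 2048 * ((D : ℝ) - 1) / (c ^ 2 * g ^ 4)))) :=
  main μ B g hG hconn hN hD hc0 (cas_of B hc) hg hgc

/-- the theorem for `SU(N)` in the 't Hooft scaling -/
lemma special [NeZero l] [MeasurableSpace (SU N)] [BorelSpace (SU N)]
    (μ : Measure (SU N)) [IsProbabilityMeasure μ] [μ.IsHaarMeasure] (B : LieBasis (SU N) n)
    {lam g : ℝ} (hN : 1 ≤ N) (hD : 1 ≤ D) (hlam : 0 < lam) (hg : 0 < g) (hgl : g ^ 2 = lam / N)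
    (hlam2 : 512 * ((D : ℝ) - 1) < lam ^ 2) :
    GapAndConfinement D l B μ g
      (lam / 8 * (1 + Real.sqrt (1 - 512 * ((D : ℝ) - 1) / lam ^ 2))) := by
  have hN0 : (0 : ℝ) < N := by exact_mod_cast hN
  have hc : Run7.h208.KS.Cas (ld B) (2 * N) := Run7.h208.KS.Cas_SU hN (fm B)
  have hg4 : g ^ 4 = lam ^ 2 / N ^ 2 := by
    have : g ^ 4 = (g ^ 2) ^ 2 := by ring
    rw [this, hgl, div_pow]
  have h1 : ((2 : ℝ) * N) ^ 2 * g ^ 4 = 4 * lam ^ 2 := by
    rw [hg4]; field_simp; ring
  have h2 := main μ B g (Run7.h208.KS.SUs_closed N) (Run7.h208.KS.SUs_conn N) hN hD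
    (c := 2 * N) (by positivity) hc hg (l := l) (by rw [h1]; linarith)
  rw [h1] at h2
  have h3 : g ^ 2 * (2 * (N : ℝ) / 16) = lam / 8 := by
    rw [hgl]; field_simp; ring
  have h4 : 2048 * ((D : ℝ) - 1) / (4 * lam ^ 2) = 512 * ((D : ℝ) - 1) / lam ^ 2 := by
    field_simp; ring
  rw [h3, h4] at h2
  exact h2

end

end Run7.h208.KS.Model
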