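import Pool.Agent.Run7.h208.KS.Base
import Pool.Agent.TH618.YM.Cartan

/-!
# Piece PATH, part 1: displacements of the elements of a connected closed subgroup
-/

open MeasureTheory Matrix Set
open scoped Matrix.Norms.Frobenius ContDiff
open Pool.Agent.H906R3.YM

namespace Run7.h208.KS

set_option linter.unusedSectionVars false

noncomputable section

variable {N n : ℕ} {G : Subgroup (UN N)}

/-! ### displacements -/

/-- `P g r`: the displacement of `g` is at most `r` -/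
structure Disp (B : Frame G n) (b : ℝ) (P : G → ℝ → Prop) : Prop where
  mul : ∀ g h r s, 0 ≤ r → 0 ≤ s → P g r → P h s → P (g * h) (r + s)
  mono : ∀ g r s, r ≤ s → P g r → P g s
  ex : ∀ a t, P (B.ex a t) (|t| * b)
  nhd : ∀ δ : ℝ, 0 < δ → ∀ᶠ g in nhds (1 : G), P g δ
  cl : ∀ g r, (∀ δ : ℝ, 0 < δ → P g (r + δ)) → P g r

lemma cpG (hG : IsClosed (G : Set (UN N))) : CompactSpace G :=
  isCompact_iff_compactSpace.1 hG.isCompact

lemma scG (G : Subgroup (UN N)) : SecondCountableTopology G := by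
  have h00 : SecondCountableTopology (UN N) := TopologicalSpace.Subtype.secondCountableTopology _
  exact TopologicalSpace.Subtype.secondCountableTopology _

lemma mt_emb : Topology.IsEmbedding (mt : G → Mat N) :=
  Topology.IsEmbedding.subtypeVal.comp Topology.IsEmbedding.subtypeVal

lemma ev_norm {p : G → Prop} (h : ∀ᶠ g in nhds (1 : G), p g) :
    ∃ r : ℝ, 0 < r ∧ ∀ g : G, ‖mt g - 1‖ < r → p g := by
  rw [mt_emb.toIsInducing.nhds_eq_comap, Filter.eventually_comap] at h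
  obtain ⟨r, hr, h1⟩ := Metric.eventually_nhds_iff.1 h
  refine ⟨r, hr, fun g hg => h1 ?_ g rfl⟩
  rw [dist_eq_norm]
  exact hg

lemma norm_inv (g : G) : ‖mt g⁻¹ - 1‖ = ‖mt g - 1‖ := by
  have h1 : mt g⁻¹ - 1 = -(mt g⁻¹ * (mt g - 1)) := by
    rw [mul_sub, mul_one, ← Pool.Agent.TH618.YM.mt_mul, inv_mul_cancel,
      Pool.Agent.TH618.YM.mt_one]
    abel
  rw [h1, norm_neg, Pool.Agent.TH618.YM.norm_mt_mul]

section disp

variable {B : Frame G n} {b : ℝ} {P : G → ℝ → Prop}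

lemma Disp.one (h : Disp B b P) : P 1 0 := by
  refine h.cl _ _ fun δ hδ => ?_
  rw [zero_add]
  exact (h.nhd δ hδ).self_of_nhds

lemma Disp.list (h : Disp B b P) (hb : 0 ≤ b) {ε : ℝ} :
    ∀ l : List (Fin n × ℝ), (∀ p ∈ l, |p.2| ≤ ε) →
      P (l.map fun p => B.ex p.1 p.2).prod (l.length * (ε * b)) := by
  intro l
  induction l with
  | nil => intro _; simpa using h.one
  | cons p l ih =>
    intro hl
    have h1 := ih fun q hq => hl q (List.mem_cons_of_mem _ hq)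
    have h2 : |p.2| ≤ ε := hl p List.mem_cons_self
    have hε : 0 ≤ ε := (abs_nonneg _).trans h2
    have h3 := h.mono _ _ _ (mul_le_mul_of_nonneg_right h2 hb) (h.ex p.1 p.2)
    have h4 := h.mul _ _ _ _ (by positivity) (by positivity) h3 h1
    rw [List.map_cons, List.prod_cons, List.length_cons]
    refine h.mono _ _ _ (le_of_eq ?_) h4
    push_cast; ring

lemma Disp.Ph0 (h : Disp B b P) (hb : 0 ≤ b) {ε : ℝ} {c : Fin n → ℝ} (hc : ∀ a, |c a| ≤ ε) :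
    P (Pool.Agent.TH618.YM.Ph0 B c) (n * (ε * b)) := by
  have h1 := h.list hb (ε := ε) (List.ofFn fun a => (a, c a)) (fun p hp => by
    rw [List.mem_ofFn] at hp
    obtain ⟨a, rfl⟩ := hp
    exact hc a)
  rw [List.map_ofFn, List.length_ofFn] at h1
  exact h1

end disp

/-- every `g` is a product of elements `ex a t` up to a quadratic error -/
lemma quad (hG : IsClosed (G : Set (UN N))) (B : Frame G n) : ∃ K : ℝ, 0 < K ∧ ∀ g : G,
    ∃ c : Fin n → ℝ, (∀ a, |c a| ≤ ‖mt g - 1‖) ∧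
      ‖mt ((Pool.Agent.TH618.YM.Ph0 B c)⁻¹ * g) - 1‖ ≤ K * ‖mt g - 1‖ ^ 2 := by
  have : CompactSpace G := cpG hG
  have : SecondCountableTopology G := scG G
  let _ : MeasurableSpace G := borel G
  have : BorelSpace G := ⟨rfl⟩
  obtain ⟨C, hC, hcar⟩ := Pool.Agent.TH618.YM.cartan B hG
  refine ⟨Real.sqrt C + (n ^ 2 + n), by positivity, fun g => ?_⟩
  obtain ⟨ε, hε⟩ : ∃ ε, ε = ‖mt g - 1‖ := ⟨_, rfl⟩
  have hε0 : 0 ≤ ε := by rw [hε]; exact norm_nonneg _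
  obtain ⟨c, hc⟩ : ∃ c : Fin n → ℝ, c = fun a => ip (B.X a) (mt g - 1) := ⟨_, rfl⟩
  have hcε : ∀ a, |c a| ≤ ε := fun a => by
    rw [hc, hε]
    simp only
    refine (Pool.Agent.W793.YM.abs_ip_le _ _).trans ?_
    rw [Pool.Agent.TH618.YM.norm_XB, one_mul]
  refine ⟨c, by rw [← hε]; exact hcε, ?_⟩
  rw [← hε]
  obtain ⟨w, hw⟩ : ∃ w : Mat N, w = (mt g - 1) - ∑ a, c a • B.X a := ⟨_, rfl⟩
  obtain ⟨r, hr⟩ : ∃ r : Mat N, r = mt (Pool.Agent.TH618.YM.Ph0 B c) - 1 - ∑ a, c a • B.X a :=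
    ⟨_, rfl⟩
  have hw2 : ‖w‖ ^ 2 = ε ^ 2 - ∑ a, c a ^ 2 := by
    rw [hw, hc, hε]
    exact Pool.Agent.TH618.YM.norm_perp (X := B.X) B.orth _
  have hw3 : ‖w‖ ^ 2 ≤ C * ε ^ 4 := by
    have h1 := hcar g
    rw [← hε] at h1
    have e1 : ∑ a, ip (B.X a) (mt g - 1) ^ 2 = ∑ a, c a ^ 2 := by rw [hc]
    rw [e1] at h1
    rw [hw2]; linarith
  have hw4 : ‖w‖ ≤ Real.sqrt C * ε ^ 2 := by
    refine abs_le_of_sq_le_sq' ?_ (by positivity) |>.2
    rw [mul_pow, Real.sq_sqrt hC.le]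
    calc ‖w‖ ^ 2 ≤ C * ε ^ 4 := hw3
      _ = _ := by ring
  have hrb : ‖r‖ ≤ (n ^ 2 + n) * ε ^ 2 := by
    rw [hr]; exact Pool.Agent.TH618.YM.Ph0_dev B c hcε
  have hh1 : mt ((Pool.Agent.TH618.YM.Ph0 B c)⁻¹ * g) - 1 =
      mt (Pool.Agent.TH618.YM.Ph0 B c)⁻¹ * (w - r) := by
    have e1 : w - r = mt g - mt (Pool.Agent.TH618.YM.Ph0 B c) := by
      rw [hw, hr]; abel
    have e2 : mt (Pool.Agent.TH618.YM.Ph0 B c)⁻¹ * mt (Pool.Agent.TH618.YM.Ph0 B c) = 1 := by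
      rw [← Pool.Agent.TH618.YM.mt_mul, inv_mul_cancel]; rfl
    rw [e1, mul_sub, e2, Pool.Agent.TH618.YM.mt_mul]
  rw [hh1, Pool.Agent.TH618.YM.norm_mt_mul]
  calc ‖w - r‖ ≤ ‖w‖ + ‖r‖ := norm_sub_le _ _
    _ ≤ Real.sqrt C * ε ^ 2 + (n ^ 2 + n) * ε ^ 2 := add_le_add hw4 hrb
    _ = _ := by ring

/-- the displacement of the elements near `1` -/
lemma near (hG : IsClosed (G : Set (UN N))) (B : Frame G n) : ∃ ρ : ℝ, 0 < ρ ∧
    ∀ (b : ℝ) (P : G → ℝ → Prop), 0 ≤ b → Disp B b P → ∀ g : G, ‖mt g - 1‖ ≤ ρ →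
      P g (2 * n * ‖mt g - 1‖ * b) := by
  obtain ⟨K, hK, hq⟩ := quad hG B
  refine ⟨1 / (2 * K), by positivity, fun b P hb hP g hg => ?_⟩
  obtain ⟨ε, hε⟩ : ∃ ε, ε = ‖mt g - 1‖ := ⟨_, rfl⟩
  rw [← hε] at hg ⊢
  have hε0 : 0 ≤ ε := by rw [hε]; exact norm_nonneg _
  have key : ∀ j : ℕ, ∃ h k : G, g = h * k ∧ P h (2 * n * b * ε * (1 - (1 / 2) ^ j)) ∧
      ‖mt k - 1‖ ≤ ε * (1 / 2) ^ j := by
    intro j
    induction j with
    | zero =>
      refine ⟨1, g, (one_mul g).symm, ?_, ?_⟩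
      · rw [pow_zero, sub_self, mul_zero]; exact hP.one
      · rw [pow_zero, mul_one, hε]
    | succ j ih =>
      obtain ⟨h, k, hgk, hPh, hk⟩ := ih
      obtain ⟨c, hc, hk'⟩ := hq k
      refine ⟨h * Pool.Agent.TH618.YM.Ph0 B c, (Pool.Agent.TH618.YM.Ph0 B c)⁻¹ * k, ?_, ?_, ?_⟩
      · rw [hgk]; group
      · have h1 := hP.Ph0 hb (fun a => (hc a).trans hk)
        have h0 : (0 : ℝ) ≤ 1 - (1 / 2) ^ j := by
          have : ((1 : ℝ) / 2) ^ j ≤ 1 := pow_le_one₀ (by norm_num) (by norm_num)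
          linarith
        have h2 := hP.mul _ _ _ _ (by positivity) (by positivity) hPh h1
        refine hP.mono _ _ _ (le_of_eq ?_) h2
        rw [pow_succ]; ring
      · have h1 : K * ‖mt k - 1‖ ≤ 1 / 2 := by
          have h2 : ‖mt k - 1‖ ≤ 1 / (2 * K) := by
            refine hk.trans ?_
            calc ε * (1 / 2) ^ j ≤ ε * 1 :=
                  mul_le_mul_of_nonneg_left (pow_le_one₀ (by norm_num) (by norm_num)) hε0
              _ ≤ _ := by rw [mul_one]; exact hg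
          calc K * ‖mt k - 1‖ ≤ K * (1 / (2 * K)) := mul_le_mul_of_nonneg_left h2 hK.le
            _ = 1 / 2 := by field_simp
        calc _ ≤ K * ‖mt k - 1‖ ^ 2 := hk'
          _ = (K * ‖mt k - 1‖) * ‖mt k - 1‖ := by ring
          _ ≤ (1 / 2) * (ε * (1 / 2) ^ j) := mul_le_mul h1 hk (norm_nonneg _) (by norm_num)
          _ = _ := by rw [pow_succ]; ring
  refine hP.cl _ _ fun δ hδ => ?_
  obtain ⟨r, hr, hr'⟩ := ev_norm (hP.nhd δ hδ)
  have hlim : Filter.Tendsto (fun j : ℕ => ε * (1 / 2 : ℝ) ^ j) Filter.atTop (nhds 0) := by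
    have := (tendsto_pow_atTop_nhds_zero_of_lt_one (r := (1 / 2 : ℝ)) (by norm_num)
      (by norm_num)).const_mul ε
    rwa [mul_zero] at this
  obtain ⟨j, hj⟩ := (hlim.eventually (gt_mem_nhds hr)).exists
  obtain ⟨h, k, hgk, hPh, hk⟩ := key j
  have h1 : P k δ := hr' k (lt_of_le_of_lt hk hj)
  have h0 : (0 : ℝ) ≤ 1 - (1 / 2) ^ j := by
    have : ((1 : ℝ) / 2) ^ j ≤ 1 := pow_le_one₀ (by norm_num) (by norm_num)
    linarith
  have h2 := hP.mul _ _ _ _ (by positivity) hδ.le hPh h1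
  rw [hgk]
  refine hP.mono _ _ _ ?_ h2
  have h3 : (0 : ℝ) ≤ (1 / 2) ^ j := by positivity
  have h4 : 0 ≤ 2 * n * b * ε := by positivity
  nlinarith [mul_nonneg h4 h3]

/-- uniform displacement bound -/
lemma disp_bound (hG : IsClosed (G : Set (UN N))) [ConnectedSpace G] (B : Frame G n) :
    ∃ R : ℝ, 0 ≤ R ∧ ∀ (b : ℝ) (P : G → ℝ → Prop), 0 ≤ b → Disp B b P → ∀ g : G, P g (R * b) := by
  have : CompactSpace G := cpG hG
  obtain ⟨ρ, hρ, hnear⟩ := near hG B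
  obtain ⟨W, hW⟩ : ∃ W : Set G, W = {g : G | ‖mt g - 1‖ < ρ} := ⟨_, rfl⟩
  have hWo : IsOpen W := by
    rw [hW]
    exact isOpen_lt ((Pool.Agent.TH618.YM.mt_cont.sub continuous_const).norm) continuous_const
  have hW1 : (1 : G) ∈ W := by
    rw [hW]
    show ‖mt (1 : G) - 1‖ < ρ
    rw [Pool.Agent.TH618.YM.mt_one, sub_self, norm_zero]
    exact hρ
  have hWP : ∀ g ∈ W, ∀ (b : ℝ) (P : G → ℝ → Prop), 0 ≤ b → Disp B b P → P g (2 * n * ρ * b) := by
    intro g hg b P hb hP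
    rw [hW] at hg
    refine hP.mono _ _ _ ?_ (hnear b P hb hP g (le_of_lt hg))
    have h1 : ‖mt g - 1‖ ≤ ρ := le_of_lt hg
    have : 2 * n * ‖mt g - 1‖ * b ≤ 2 * n * ρ * b := by gcongr
    exact this
  -- the subgroup of the elements with a bound
  let H : Subgroup G :=
    { carrier := {g | ∃ R : ℝ, 0 ≤ R ∧ ∀ (b : ℝ) (P : G → ℝ → Prop), 0 ≤ b → Disp B b P →
        P g (R * b) ∧ P g⁻¹ (R * b)}
      mul_mem' := by
        rintro g h ⟨R, hR, h1⟩ ⟨R', hR', h2⟩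
        refine ⟨R + R', add_nonneg hR hR', fun b P hb hP => ?_⟩
        obtain ⟨h3, h4⟩ := h1 b P hb hP
        obtain ⟨h5, h6⟩ := h2 b P hb hP
        refine ⟨?_, ?_⟩
        · rw [add_mul]
          exact hP.mul _ _ _ _ (by positivity) (by positivity) h3 h5
        · rw [_root_.mul_inv_rev, add_mul, add_comm]
          exact hP.mul _ _ _ _ (by positivity) (by positivity) h6 h4
      one_mem' := ⟨0, le_rfl, fun b P hb hP => by
        rw [inv_one, zero_mul]; exact ⟨hP.one, hP.one⟩⟩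
      inv_mem' := by
        rintro g ⟨R, hR, h1⟩
        refine ⟨R, hR, fun b P hb hP => ?_⟩
        rw [inv_inv]
        exact (h1 b P hb hP).symm }
  have hWH : W ⊆ (H : Set G) := by
    intro g hg
    refine ⟨2 * n * ρ, by positivity, fun b P hb hP => ⟨hWP g hg b P hb hP, ?_⟩⟩
    refine hWP g⁻¹ ?_ b P hb hP
    rw [hW] at hg ⊢
    show ‖mt g⁻¹ - 1‖ < ρ
    rw [norm_inv]
    exact hg
  have hHo : IsOpen (H : Set G) :=
    H.isOpen_of_mem_nhds (Filter.mem_of_superset (hWo.mem_nhds hW1) hWH)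
  have hHc : IsClosed (H : Set G) := H.isClosed_of_isOpen hHo
  have hHu : (H : Set G) = univ := IsClopen.eq_univ ⟨hHc, hHo⟩ ⟨1, H.one_mem⟩
  have hmain : ∃ R : ℝ, 0 ≤ R ∧ ∀ g ∈ (univ : Set G), ∀ (b : ℝ) (P : G → ℝ → Prop), 0 ≤ b →
      Disp B b P → P g (R * b) := by
    refine isCompact_univ.induction_on (p := fun s : Set G => ∃ R : ℝ, 0 ≤ R ∧ ∀ g ∈ s,
      ∀ (b : ℝ) (P : G → ℝ → Prop), 0 ≤ b → Disp B b P → P g (R * b)) ?_ ?_ ?_ ?_
    · exact ⟨0, le_rfl, fun g hg => absurd hg (Set.notMem_empty g)⟩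
    · rintro s t hst ⟨R, hR, h⟩
      exact ⟨R, hR, fun g hg => h g (hst hg)⟩
    · rintro s t ⟨R, hR, h⟩ ⟨R', hR', h'⟩
      refine ⟨max R R', le_max_of_le_left hR, fun g hg b P hb hP => ?_⟩
      rcases hg with hg | hg
      · exact hP.mono _ _ _ (mul_le_mul_of_nonneg_right (le_max_left _ _) hb) (h g hg b P hb hP)
      · exact hP.mono _ _ _ (mul_le_mul_of_nonneg_right (le_max_right _ _) hb) (h' g hg b P hb hP)
    · intro g _
      have hg : g ∈ (H : Set G) := by rw [hHu]; trivial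
      obtain ⟨R, hR, h1⟩ := hg
      refine ⟨(fun x => g * x) '' W, ?_, R + 2 * n * ρ, by positivity, ?_⟩
      · have h2 : (fun x => g * x) '' W ∈ nhds g := by
          have h3 : IsOpen ((fun x => g * x) '' W) := (Homeomorph.mulLeft g).isOpenMap W hWo
          exact h3.mem_nhds ⟨1, hW1, mul_one g⟩
        exact mem_nhdsWithin_of_mem_nhds h2
      · rintro _ ⟨x, hx, rfl⟩ b P hb hP
        rw [add_mul]
        exact hP.mul _ _ _ _ (by positivity) (by positivity) (h1 b P hb hP).1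
          (hWP x hx b P hb hP)
  obtain ⟨R, hR, h⟩ := hmain
  exact ⟨R, hR, fun b P hb hP g => h g trivial b P hb hP⟩

end

end Run7.h208.KS
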