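import Pool.Agent.Run7.h208.KS.Base

/-!
# Piece VT, first part: derivatives of matrix valued functions along constant vectors
-/

open MeasureTheory Matrix Set
open scoped Matrix.Norms.Frobenius ContDiff
open Pool.Agent.H906R3.YM

namespace Run7.h208.KS

set_option linter.unusedSectionVars false

noncomputable section

variable {G : Type*} [Group G] [TopologicalSpace G] {N n : ℕ} {L : LD G N n}
  {E : Type*} [Fintype E] [DecidableEq E]

variable (L) in
/-- `F'` is the derivative of the matrix valued function `F` along the constant vector `q` -/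
def DM (q : E × Fin n → ℝ) (F F' : (E → G) → Mat N) : Prop :=
  ∃ Fj : E × Fin n → (E → G) → Mat N, (∀ j, SmM L (Fj j)) ∧
    (∀ j U, HasDerivAt (fun t => F (L.shift j.1 j.2 t U)) (Fj j U) 0) ∧
    ∀ U, F' U = ∑ j, q j • Fj j U

variable {q : E × Fin n → ℝ}

lemma DM.smM {F F' : (E → G) → Mat N} (h : DM L q F F') : SmM L F' := by
  obtain ⟨Fj, h1, -, h3⟩ := h
  have : F' = fun U => ∑ j, q j • Fj j U := funext h3
  rw [this]
  exact SmM.sum _ fun j => (h1 j).smul _

lemma DM.const (A : Mat N) : DM L q (fun _ => A) (fun _ => 0) :=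
  ⟨fun _ _ => 0, fun _ => SmM.const 0, fun _ _ => hasDerivAt_const _ _, fun U => by simp⟩

lemma DM.mul {F F' H H' : (E → G) → Mat N} (hF : DM L q F F') (hH : DM L q H H')
    (sF : SmM L F) (sH : SmM L H) :
    DM L q (fun U => F U * H U) (fun U => F' U * H U + F U * H' U) := by
  obtain ⟨Fj, h1, h2, h3⟩ := hF
  obtain ⟨Hj, k1, k2, k3⟩ := hH
  refine ⟨fun j U => Fj j U * H U + F U * Hj j U,
    fun j => ((h1 j).mul sH).add (sF.mul (k1 j)), fun j U => ?_, fun U => ?_⟩
  · have h := (h2 j U).mul (k2 j U)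
    simp only [L.shift_zero] at h
    exact h
  · beta_reduce
    rw [h3, k3, Finset.sum_mul, Finset.mul_sum, ← Finset.sum_add_distrib]
    refine Finset.sum_congr rfl fun j _ => ?_
    rw [smul_add, smul_mul_assoc, mul_smul_comm]

lemma DM.add {F F' H H' : (E → G) → Mat N} (hF : DM L q F F') (hH : DM L q H H') :
    DM L q (fun U => F U + H U) (fun U => F' U + H' U) := by
  obtain ⟨Fj, h1, h2, h3⟩ := hF
  obtain ⟨Hj, k1, k2, k3⟩ := hH
  refine ⟨fun j U => Fj j U + Hj j U, fun j => (h1 j).add (k1 j), fun j U => (h2 j U).add (k2 j U),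
    fun U => ?_⟩
  beta_reduce
  rw [h3, k3, ← Finset.sum_add_distrib]
  exact Finset.sum_congr rfl fun j _ => (smul_add _ _ _).symm

lemma ctL_smul' (c : ℝ) (B : Mat N) : (c • B)ᴴ = c • Bᴴ := by
  have := (ctL N).map_smul c B
  simpa [ctL_apply] using this

lemma DM.ct {F F' : (E → G) → Mat N} (hF : DM L q F F') :
    DM L q (fun U => (F U)ᴴ) (fun U => (F' U)ᴴ) := by
  obtain ⟨Fj, h1, h2, h3⟩ := hF
  refine ⟨fun j U => (Fj j U)ᴴ, fun j => (h1 j).ct, fun j U => hasDeriv_ct (h2 j U), fun U => ?_⟩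
  beta_reduce
  rw [h3, conjTranspose_sum]
  exact Finset.sum_congr rfl fun j _ => ctL_smul' _ _

variable (L) in
/-- the matrix of the vector `q` at the link `e` -/
def Yq (q : E × Fin n → ℝ) (e : E) : Mat N := ∑ a, q (e, a) • L.X a

lemma Yq_ct (q : E × Fin n → ℝ) (e : E) : (Yq L q e)ᴴ = -Yq L q e := by
  unfold Yq
  rw [conjTranspose_sum, ← Finset.sum_neg_distrib]
  refine Finset.sum_congr rfl fun a _ => ?_
  rw [ctL_smul', skew, smul_neg]

lemma ip_Yq (q : E × Fin n → ℝ) (e : E) :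
    ip (Yq L q e) (Yq L q e) = ∑ a, q (e, a) ^ 2 := by
  have h1 : ∀ a, ip (L.X a) (Yq L q e) = q (e, a) := by
    intro a
    unfold Yq
    rw [map_sum]
    simp only [map_smul, ip_X, smul_eq_mul, mul_ite, mul_one, mul_zero, Finset.sum_ite_eq,
      Finset.mem_univ, if_true]
  have h2 : ip (Yq L q e) (Yq L q e) = ∑ a, q (e, a) * ip (Yq L q e) (L.X a) := by
    have h3 : ip (Yq L q e) (∑ a, q (e, a) • L.X a) = ∑ a, q (e, a) * ip (Yq L q e) (L.X a) := by
      rw [map_sum]
      exact Finset.sum_congr rfl fun a _ => by rw [map_smul, smul_eq_mul]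
    exact h3
  rw [h2]
  refine Finset.sum_congr rfl fun a _ => ?_
  rw [ip_comm, h1]
  ring

lemma DM.link (q : E × Fin n → ℝ) (e : E) :
    DM L q (fun U => L.rho (U e)) (fun U => Yq L q e * L.rho (U e)) := by
  refine ⟨fun j U => L.vf j.1 j.2 (L.mat U) e, fun j => ⟨fun M => L.vf j.1 j.2 M e,
    contDiff_pi.1 (L.contDiff_vf j.1 j.2) e, fun U => rfl⟩,
    fun j U => hasDerivAt_pi.1 (L.hasDerivAt_mat j.1 j.2 U) e, fun U => ?_⟩
  beta_reduce
  rw [Fintype.sum_prod_type, Finset.sum_eq_single e]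
  · unfold Yq LD.vf
    rw [Finset.sum_mul]
    refine Finset.sum_congr rfl fun a _ => ?_
    rw [Pi.single_eq_same, smul_mul_assoc]
    rfl
  · intro e' _ he'
    refine Finset.sum_eq_zero fun a _ => ?_
    unfold LD.vf
    beta_reduce
    rw [Pi.single_eq_of_ne (Ne.symm he'), smul_zero]
  · simp

lemma sum_Dv_lin {F F' : (E → G) → Mat N} (hF : DM L q F F') (sF : SmM L F)
    (ℓ : Mat N →L[ℝ] ℝ) : ∑ j, q j • L.Dv j (lin ℓ F sF) = lin ℓ F' hF.smM := by
  obtain ⟨Fj, h1, h2, h3⟩ := id hF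
  refine ev_ext fun U => ?_
  rw [map_sum]
  have e1 : ∀ j, L.ev U (q j • L.Dv j (lin ℓ F sF)) = q j * ℓ (Fj j U) := by
    intro j
    rw [map_smul, smul_eq_mul, ev_apply, Dv_lin ℓ F sF j U (h2 j U)]
  rw [Finset.sum_congr rfl fun j _ => e1 j, ev_apply, lin_apply, h3, map_sum]
  exact Finset.sum_congr rfl fun j _ => by rw [map_smul, smul_eq_mul]

lemma DM.neg {F F' : (E → G) → Mat N} (hF : DM L q F F') :
    DM L q (fun U => -F U) (fun U => -F' U) := by
  obtain ⟨Fj, h1, h2, h3⟩ := hF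
  refine ⟨fun j U => -Fj j U, fun j => ?_, fun j U => (h2 j U).neg, fun U => ?_⟩
  · have := (h1 j).smul (-1)
    simpa using this
  · beta_reduce
    rw [h3, ← Finset.sum_neg_distrib]
    exact Finset.sum_congr rfl fun j _ => (smul_neg _ _).symm

lemma DM.congr {F F' H' : (E → G) → Mat N} (hF : DM L q F F') (h : ∀ U, F' U = H' U) :
    DM L q F H' := by
  have : F' = H' := funext h
  rwa [← this]

/-- a product of four factors -/
lemma DM.mul4 {A B C H A' B' C' H' : (E → G) → Mat N} (hA : DM L q A A') (hB : DM L q B B')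
    (hC : DM L q C C') (hH : DM L q H H') (sA : SmM L A) (sB : SmM L B) (sC : SmM L C)
    (sH : SmM L H) :
    DM L q (fun U => A U * B U * C U * H U) (fun U => A' U * B U * C U * H U +
      A U * B' U * C U * H U + A U * B U * C' U * H U + A U * B U * C U * H' U) := by
  refine (((hA.mul hB sA sB).mul hC (sA.mul sB) sC).mul hH ((sA.mul sB).mul sC) sH).congr ?_
  intro U
  simp only [add_mul]

/-- second derivatives -/
lemma sum_Dv_Dv_lin {w : E × Fin n → ℝ} {F F' F'' : (E → G) → Mat N} (hF : DM L q F F')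
    (hF' : DM L w F' F'') (sF : SmM L F) (ℓ : Mat N →L[ℝ] ℝ) (U : E → G) :
    ∑ i, w i * ∑ j, q j * L.ev U (L.Dv i (L.Dv j (lin ℓ F sF))) = ℓ (F'' U) := by
  have h1 := sum_Dv_lin hF sF ℓ
  have h2 := sum_Dv_lin hF' hF.smM ℓ
  rw [← h1] at h2
  have h3 := congrArg (fun f => L.ev U f) h2
  simp only [map_sum, map_smul, smul_eq_mul, Derivation.map_smul] at h3
  have h4 : L.ev U (lin ℓ F'' hF'.smM) = ℓ (F'' U) := rfl
  rw [h4] at h3
  exact h3

end

end Run7.h208.KS
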