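import Pool.Agent.Run7.h208.KS.VTs

/-!
# Piece VT, fourth part: finite dimensional spaces stable under the derivations
-/

open MeasureTheory Matrix Set
open scoped Matrix.Norms.Frobenius ContDiff
open Pool.Agent.H906R3.YM

namespace Run7.h208.KS

set_option linter.unusedSectionVars false

noncomputable section

variable {G : Type*} [Group G] [TopologicalSpace G] {N n : ℕ} {L : LD G N n}
  {E : Type*} [Fintype E] [DecidableEq E]

/-- finitely generated and stable under the derivations -/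
def Stb (W : Submodule ℝ (Sm L E)) : Prop := W.FG ∧ ∀ j, ∀ f ∈ W, L.Dv j f ∈ W

lemma Stb.mul {W W' : Submodule ℝ (Sm L E)} (h : Stb W) (h' : Stb W') : Stb (W * W') := by
  refine ⟨h.1.mul h'.1, fun j f hf => ?_⟩
  induction hf using Submodule.mul_induction_on' with
  | mem_mul_mem m hm m' hm' =>
    rw [Derivation.leibniz, smul_eq_mul, smul_eq_mul, mul_comm m' _]
    exact add_mem (Submodule.mul_mem_mul hm (h'.2 j m' hm'))
      (Submodule.mul_mem_mul (h.2 j m hm) hm')
  | add x _ y _ hx hy => rw [map_add]; exact add_mem hx hy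

lemma Stb.sup {W W' : Submodule ℝ (Sm L E)} (h : Stb W) (h' : Stb W') : Stb (W ⊔ W') := by
  refine ⟨h.1.sup h'.1, fun j f hf => ?_⟩
  obtain ⟨a, ha, b, hb, rfl⟩ := Submodule.mem_sup.1 hf
  rw [map_add]
  exact Submodule.add_mem_sup (h.2 j a ha) (h'.2 j b hb)

lemma Stb.one : Stb (Submodule.span ℝ {(1 : Sm L E)}) := by
  refine ⟨⟨{1}, by simp⟩, fun j f hf => ?_⟩
  obtain ⟨c, rfl⟩ := Submodule.mem_span_singleton.1 hf
  rw [Derivation.map_smul, Derivation.map_one_eq_zero, smul_zero]
  exact zero_mem _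

lemma Stb.iSup {ι : Type*} [Finite ι] {W : ι → Submodule ℝ (Sm L E)} (h : ∀ i, Stb (W i)) :
    Stb (⨆ i, W i) := by
  refine ⟨Submodule.fg_iSup _ fun i => (h i).1, fun j f hf => ?_⟩
  induction hf using Submodule.iSup_induction' with
  | mem i x hx => exact Submodule.mem_iSup_of_mem i ((h i).2 j x hx)
  | zero => rw [map_zero]; exact zero_mem _
  | add x y _ _ hx hy => rw [map_add]; exact add_mem hx hy

/-- all linear functionals of `F` belong to `W` -/
def EW (W : Submodule ℝ (Sm L E)) (F : (E → G) → Mat N) : Prop :=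
  ∀ (ℓ : Mat N →L[ℝ] ℝ) (hF : SmM L F), lin ℓ F hF ∈ W

lemma EW.mono {W W' : Submodule ℝ (Sm L E)} {F : (E → G) → Mat N} (h : EW W F) (hW : W ≤ W') :
    EW W' F := fun ℓ hF => hW (h ℓ hF)

lemma EW.mul {W W' : Submodule ℝ (Sm L E)} {F F' : (E → G) → Mat N} (h : EW W F) (h' : EW W' F')
    (sF : SmM L F) (sF' : SmM L F') : EW (W * W') (fun U => F U * F' U) := by
  intro ℓ hF
  let b := Module.finBasis ℝ (Mat N)
  have h1 : lin ℓ (fun U => F U * F' U) hF = ∑ k, lin (LinearMap.toContinuousLinearMap (b.coord k)) F sF *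
      lin (ℓ.comp (LinearMap.toContinuousLinearMap (LinearMap.mulLeft ℝ (b k)))) F' sF' := by
    refine ev_ext fun U => ?_
    rw [map_sum]
    show ℓ (F U * F' U) = ∑ k, b.coord k (F U) * ℓ (b k * F' U)
    conv_lhs => rw [← b.sum_repr (F U)]
    rw [Finset.sum_mul, map_sum]
    refine Finset.sum_congr rfl fun k _ => ?_
    rw [smul_mul_assoc, map_smul, smul_eq_mul]
    rfl
  rw [h1]
  exact Submodule.sum_mem _ fun k _ => Submodule.mul_mem_mul (h _ sF) (h' _ sF')

lemma EW.ct {W : Submodule ℝ (Sm L E)} {F : (E → G) → Mat N} (h : EW W F) (sF : SmM L F) :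
    EW W (fun U => (F U)ᴴ) := by
  intro ℓ hF
  exact h (ℓ.comp (ctL N)) sF

/-- the functions of one link -/
def Wl (L : LD G N n) (e : E) : Submodule ℝ (Sm L E) :=
  LinearMap.range
    ({ toFun := fun ℓ => lin ℓ (fun U : E → G => L.rho (U e)) (SmM.link e)
       map_add' := fun _ _ => rfl
       map_smul' := fun _ _ => rfl } : (Mat N →L[ℝ] ℝ) →ₗ[ℝ] Sm L E)

lemma Stb.link (e : E) : Stb (Wl L e) := by
  refine ⟨?_, fun j f hf => ?_⟩
  · unfold Wl
    rw [LinearMap.range_eq_map]
    exact Submodule.FG.map _ Module.Finite.fg_top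
  · obtain ⟨ℓ, rfl⟩ := hf
    by_cases he : e = j.1
    · refine ⟨ℓ.comp (LinearMap.toContinuousLinearMap (LinearMap.mulLeft ℝ (L.X j.2))), ?_⟩
      refine ev_ext fun U => ?_
      have h1 : HasDerivAt (fun t => L.rho (L.shift j.1 j.2 t U e)) (L.X j.2 * L.rho (U e)) 0 := by
        have := hasDerivAt_pi.1 (L.hasDerivAt_mat j.1 j.2 U) e
        have h2 : L.vf j.1 j.2 (L.mat U) e = L.X j.2 * L.rho (U e) := by
          unfold LD.vf
          rw [he, Pi.single_eq_same]
          rfl
        rw [h2] at this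
        exact this
      exact (Dv_lin ℓ (fun U : E → G => L.rho (U e)) (SmM.link e) j U h1).symm
    · refine ⟨0, ?_⟩
      refine ev_ext fun U => ?_
      have h1 : HasDerivAt (fun t => L.rho (L.shift j.1 j.2 t U e)) 0 0 := by
        have := hasDerivAt_pi.1 (L.hasDerivAt_mat j.1 j.2 U) e
        have h2 : L.vf j.1 j.2 (L.mat U) e = 0 := by
          unfold LD.vf
          rw [Pi.single_eq_of_ne he]
        rw [h2] at this
        exact this
      have h3 := (Dv_lin ℓ (fun U : E → G => L.rho (U e)) (SmM.link e) j U h1).symm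
      rw [map_zero] at h3
      exact h3

lemma EW.link (e : E) : EW (Wl L e) (fun U : E → G => L.rho (U e)) := by
  intro ℓ hF
  exact ⟨ℓ, rfl⟩

end

end Run7.h208.KS
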