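import Pool.Agent.Run7.h208.KS.VTt

/-!
# Piece VT, third part: the second derivatives of the magnetic energy
-/

open MeasureTheory Matrix Set
open scoped Matrix.Norms.Frobenius ContDiff
open Pool.Agent.H906R3.YM

namespace Run7.h208.KS

set_option linter.unusedSectionVars false

noncomputable section

section one

variable {G : Type*} [Group G] [TopologicalSpace G] {N n : ℕ} {L : LD G N n}
  {E : Type*} [Fintype E] [DecidableEq E]

lemma DM.congr₀ {q : E × Fin n → ℝ} {F F' H : (E → G) → Mat N} (hF : DM L q F F')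
    (h : ∀ U, F U = H U) : DM L q H F' := by
  have : F = H := funext h
  rwa [← this]

lemma DM.cmul {q : E × Fin n → ℝ} {F F' : (E → G) → Mat N} (hF : DM L q F F') (sF : SmM L F)
    (Y : Mat N) : DM L q (fun U => Y * F U) (fun U => Y * F' U) :=
  ((DM.const Y).mul hF (SmM.const Y) sF).congr fun U => by rw [zero_mul, zero_add]

lemma DM.mulc {q : E × Fin n → ℝ} {F F' : (E → G) → Mat N} (hF : DM L q F F') (sF : SmM L F)
    (Y : Mat N) : DM L q (fun U => F U * Y) (fun U => F' U * Y) :=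
  (hF.mul (DM.const Y) sF (SmM.const Y)).congr fun U => by rw [mul_zero, add_zero]

lemma isU_rho (g : G) : IsU (L.rho g) := ⟨L.unit' g, L.unit g⟩

lemma fn_Yq_sq (q : E × Fin n → ℝ) (e : E) : fn (Yq L q e) ^ 2 = ∑ a, q (e, a) ^ 2 := by
  unfold fn
  rw [Real.sq_sqrt (ip_self_nonneg _), ip_Yq]

lemma four_fn (w : E × Fin n → ℝ) (e1 e2 e3 e4 : E) :
    fn (Yq L w e1) + fn (Yq L w e2) + fn ((Yq L w e3)ᴴ) + fn ((Yq L w e4)ᴴ) ≤
      2 * Real.sqrt (∑ a, w (e1, a) ^ 2 + ∑ a, w (e2, a) ^ 2 + ∑ a, w (e3, a) ^ 2 +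
        ∑ a, w (e4, a) ^ 2) := by
  rw [fn_ct, fn_ct]
  have h := four_sum (a := fn (Yq L w e1)) (b := fn (Yq L w e2)) (c := fn (Yq L w e3))
    (d := fn (Yq L w e4))
  rw [fn_Yq_sq, fn_Yq_sq, fn_Yq_sq, fn_Yq_sq] at h
  exact h

/-- bound for one plaquette -/
lemma plq_second (w q : E × Fin n → ℝ) (e1 e2 e3 e4 : E) {F : (E → G) → Mat N} (sF : SmM L F)
    (hF : ∀ U, F U = 1 - L.rho (U e1) * L.rho (U e2) * (L.rho (U e3))ᴴ * (L.rho (U e4))ᴴ)
    (U : E → G) :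
    |∑ i, w i * ∑ j, q j * L.ev U (L.Dv i (L.Dv j (lin (ip 1) F sF)))| ≤
      4 * (Real.sqrt (∑ a, w (e1, a) ^ 2 + ∑ a, w (e2, a) ^ 2 + ∑ a, w (e3, a) ^ 2 +
          ∑ a, w (e4, a) ^ 2) *
        Real.sqrt (∑ a, q (e1, a) ^ 2 + ∑ a, q (e2, a) ^ 2 + ∑ a, q (e3, a) ^ 2 +
          ∑ a, q (e4, a) ^ 2)) := by
  obtain ⟨Y1, hY1⟩ : ∃ Y : Mat N, Y = Yq L q e1 := ⟨_, rfl⟩
  obtain ⟨Y2, hY2⟩ : ∃ Y : Mat N, Y = Yq L q e2 := ⟨_, rfl⟩
  obtain ⟨Y3, hY3⟩ : ∃ Y : Mat N, Y = (Yq L q e3)ᴴ := ⟨_, rfl⟩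
  obtain ⟨Y4, hY4⟩ : ∃ Y : Mat N, Y = (Yq L q e4)ᴴ := ⟨_, rfl⟩
  obtain ⟨W1, hW1⟩ : ∃ Y : Mat N, Y = Yq L w e1 := ⟨_, rfl⟩
  obtain ⟨W2, hW2⟩ : ∃ Y : Mat N, Y = Yq L w e2 := ⟨_, rfl⟩
  obtain ⟨W3, hW3⟩ : ∃ Y : Mat N, Y = (Yq L w e3)ᴴ := ⟨_, rfl⟩
  obtain ⟨W4, hW4⟩ : ∃ Y : Mat N, Y = (Yq L w e4)ᴴ := ⟨_, rfl⟩
  have sA : SmM L fun U : E → G => L.rho (U e1) := SmM.link e1
  have sB : SmM L fun U : E → G => L.rho (U e2) := SmM.link e2
  have sC : SmM L fun U : E → G => (L.rho (U e3))ᴴ := (SmM.link e3).ct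
  have sH : SmM L fun U : E → G => (L.rho (U e4))ᴴ := (SmM.link e4).ct
  have qA : DM L q (fun U => L.rho (U e1)) (fun U => Y1 * L.rho (U e1)) := hY1 ▸ DM.link q e1
  have qB : DM L q (fun U => L.rho (U e2)) (fun U => Y2 * L.rho (U e2)) := hY2 ▸ DM.link q e2
  have qC : DM L q (fun U => (L.rho (U e3))ᴴ) (fun U => (L.rho (U e3))ᴴ * Y3) :=
    (DM.link q e3).ct.congr fun U => by rw [conjTranspose_mul, hY3]
  have qH : DM L q (fun U => (L.rho (U e4))ᴴ) (fun U => (L.rho (U e4))ᴴ * Y4) :=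
    (DM.link q e4).ct.congr fun U => by rw [conjTranspose_mul, hY4]
  have wA : DM L w (fun U => L.rho (U e1)) (fun U => W1 * L.rho (U e1)) := hW1 ▸ DM.link w e1
  have wB : DM L w (fun U => L.rho (U e2)) (fun U => W2 * L.rho (U e2)) := hW2 ▸ DM.link w e2
  have wC : DM L w (fun U => (L.rho (U e3))ᴴ) (fun U => (L.rho (U e3))ᴴ * W3) :=
    (DM.link w e3).ct.congr fun U => by rw [conjTranspose_mul, hW3]
  have wH : DM L w (fun U => (L.rho (U e4))ᴴ) (fun U => (L.rho (U e4))ᴴ * W4) :=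
    (DM.link w e4).ct.congr fun U => by rw [conjTranspose_mul, hW4]
  have wA' : DM L w (fun U => Y1 * L.rho (U e1)) (fun U => Y1 * W1 * L.rho (U e1)) :=
    (wA.cmul sA Y1).congr fun U => by rw [Matrix.mul_assoc]
  have wB' : DM L w (fun U => Y2 * L.rho (U e2)) (fun U => Y2 * W2 * L.rho (U e2)) :=
    (wB.cmul sB Y2).congr fun U => by rw [Matrix.mul_assoc]
  have wC' : DM L w (fun U => (L.rho (U e3))ᴴ * Y3) (fun U => (L.rho (U e3))ᴴ * W3 * Y3) :=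
    wC.mulc sC Y3
  have wH' : DM L w (fun U => (L.rho (U e4))ᴴ * Y4) (fun U => (L.rho (U e4))ᴴ * W4 * Y4) :=
    wH.mulc sH Y4
  have f1 := DM.mul4 qA qB qC qH sA sB sC sH
  have f2 : DM L q F (fun U => -(Y1 * L.rho (U e1) * L.rho (U e2) * (L.rho (U e3))ᴴ *
      (L.rho (U e4))ᴴ +
      L.rho (U e1) * (Y2 * L.rho (U e2)) * (L.rho (U e3))ᴴ * (L.rho (U e4))ᴴ +
      L.rho (U e1) * L.rho (U e2) * ((L.rho (U e3))ᴴ * Y3) * (L.rho (U e4))ᴴ +
      L.rho (U e1) * L.rho (U e2) * (L.rho (U e3))ᴴ * ((L.rho (U e4))ᴴ * Y4))) :=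
    (((DM.const 1).add f1.neg).congr₀ (H := F) fun U => by rw [hF]; abel).congr fun U => by
      rw [zero_add]
  have g1 := DM.mul4 wA' wB wC wH qA.smM sB sC sH
  have g2 := DM.mul4 wA wB' wC wH sA qB.smM sC sH
  have g3 := DM.mul4 wA wB wC' wH sA sB qC.smM sH
  have g4 := DM.mul4 wA wB wC wH' sA sB sC qH.smM
  have g := (((g1.add g2).add g3).add g4).neg
  rw [sum_Dv_Dv_lin f2 g sF (ip 1) U]
  have hb := plq_bd (isU_rho (L := L) (U e1)) (isU_rho (L := L) (U e2)) (isU_rho (L := L) (U e3)).ct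
    (isU_rho (L := L) (U e4)).ct Y1 Y2 Y3 Y4 W1 W2 W3 W4
  rw [map_neg, abs_neg, ip_apply, conjTranspose_one, one_mul]
  refine hb.trans ?_
  have k1 := four_fn (L := L) w e1 e2 e3 e4
  have k2 := four_fn (L := L) q e1 e2 e3 e4
  rw [← hW1, ← hW2, ← hW3, ← hW4] at k1
  rw [← hY1, ← hY2, ← hY3, ← hY4] at k2
  have k3 : 0 ≤ fn Y1 + fn Y2 + fn Y3 + fn Y4 := by
    have := fn_nonneg Y1
    have := fn_nonneg Y2
    have := fn_nonneg Y3
    have := fn_nonneg Y4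
    positivity
  refine (mul_le_mul k1 k2 k3 (by positivity)).trans (le_of_eq ?_)
  ring

end one

/-! ### counting plaquettes -/

section count

variable {D l : ℕ} [NeZero l]

lemma sum_pair (g : Fin D → ℝ) :
    ∑ μ, ∑ ν, (if μ < ν then g μ + g ν else 0) = (D - 1) * ∑ μ, g μ := by
  have h1 : ∑ μ, ∑ ν, (if μ < ν then g μ + g ν else 0) =
      ∑ μ, ∑ ν, (if μ < ν then g μ else 0) + ∑ μ, ∑ ν, (if μ < ν then g ν else 0) := by
    rw [← Finset.sum_add_distrib]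
    refine Finset.sum_congr rfl fun μ _ => ?_
    rw [← Finset.sum_add_distrib]
    refine Finset.sum_congr rfl fun ν _ => ?_
    split_ifs <;> simp
  have h2 : ∑ μ, ∑ ν, (if μ < ν then g ν else 0) = ∑ μ, ∑ ν, (if ν < μ then g μ else 0) :=
    Finset.sum_comm
  rw [h1, h2, ← Finset.sum_add_distrib, Finset.mul_sum]
  refine Finset.sum_congr rfl fun μ _ => ?_
  rw [← Finset.sum_add_distrib]
  have h3 : ∀ ν, ((if μ < ν then g μ else 0) + (if ν < μ then g μ else 0) : ℝ) =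
      g μ - (if μ = ν then g μ else 0) := by
    intro ν
    rcases lt_trichotomy μ ν with h | h | h
    · rw [if_pos h, if_neg (not_lt_of_gt h), if_neg h.ne]; ring
    · subst h; simp
    · rw [if_neg (not_lt_of_gt h), if_pos h, if_neg h.ne']; ring
  rw [Finset.sum_congr rfl fun ν _ => h3 ν, Finset.sum_sub_distrib, Finset.sum_ite_eq]
  simp
  ring

/-- every link lies in `2 (D - 1)` plaquettes -/
lemma sum_plq (f : Ed D l → ℝ) :
    ∑ p : Pl D l, (f (p.1.1, p.1.2.1) + f (p.1.1 + eT p.1.2.1, p.1.2.2) +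
      f (p.1.1 + eT p.1.2.2, p.1.2.1) + f (p.1.1, p.1.2.2)) = 2 * (D - 1) * ∑ e, f e := by
  classical
  have h0 := Finset.sum_subtype (F := inferInstance) (p := fun p : (Fin D → ZMod l) × Fin D × Fin D => p.2.1 < p.2.2)
    (Finset.univ.filter fun p : (Fin D → ZMod l) × Fin D × Fin D => p.2.1 < p.2.2)
    (fun p => by simp)
    (fun p => f (p.1, p.2.1) + f (p.1 + eT p.2.1, p.2.2) + f (p.1 + eT p.2.2, p.2.1) +
      f (p.1, p.2.2))
  refine h0.symm.trans ?_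
  rw [Finset.sum_filter, Fintype.sum_prod_type]
  set g : Fin D → ℝ := fun μ => ∑ x, f (x, μ) with hg
  have h1 : ∑ e, f e = ∑ μ, g μ := by
    rw [Fintype.sum_prod_type, Finset.sum_comm]
  rw [h1, mul_assoc, ← sum_pair, Finset.mul_sum, Finset.sum_comm, Fintype.sum_prod_type]
  refine Finset.sum_congr rfl fun μ _ => ?_
  rw [Finset.mul_sum]
  refine Finset.sum_congr rfl fun ν _ => ?_
  by_cases h : μ < ν
  · simp only [if_pos h]
    rw [Finset.sum_add_distrib, Finset.sum_add_distrib, Finset.sum_add_distrib]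
    have e1 : ∑ x : Fin D → ZMod l, f (x + eT μ, ν) = g ν :=
      Equiv.sum_comp (Equiv.addRight (eT μ)) fun x => f (x, ν)
    have e2 : ∑ x : Fin D → ZMod l, f (x + eT ν, μ) = g μ :=
      Equiv.sum_comp (Equiv.addRight (eT ν)) fun x => f (x, μ)
    rw [e1, e2]
    show g μ + g ν + g μ + g ν = _
    ring
  · simp only [if_neg h]
    simp

end count

section main

variable {G : Type*} [Group G] [TopologicalSpace G] {N n : ℕ} {L : LD G N n} {D l : ℕ} [NeZero l]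

lemma bil_sum {E : Type*} [Fintype E] [DecidableEq E] {ι : Type*} (s : Finset ι)
    (f : ι → Sm L E) (w q : E × Fin n → ℝ) (U : E → G) :
    ∑ i, w i * ∑ j, q j * L.ev U (L.Dv i (L.Dv j (∑ p ∈ s, f p))) =
      ∑ p ∈ s, ∑ i, w i * ∑ j, q j * L.ev U (L.Dv i (L.Dv j (f p))) := by
  simp only [map_sum, Finset.mul_sum]
  rw [Finset.sum_congr rfl fun i _ => Finset.sum_comm]
  rw [Finset.sum_comm]

/-- the bilinear form of the second derivatives -/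
lemma bil_VT (hD : 1 ≤ D) (w q : Ed D l × Fin n → ℝ) (U : Ed D l → G) :
    |∑ i, w i * ∑ j, q j * L.ev U (L.Dv i (L.Dv j (VT L D l)))| ≤
      8 * (D - 1) * (Real.sqrt (∑ i, w i ^ 2) * Real.sqrt (∑ i, q i ^ 2)) := by
  have hD' : (0 : ℝ) ≤ 2 * ((D : ℝ) - 1) := by
    have : (1 : ℝ) ≤ D := by exact_mod_cast hD
    linarith
  unfold VT
  rw [bil_sum]
  refine (Finset.abs_sum_le_sum_abs _ _).trans ?_
  set S : (Ed D l × Fin n → ℝ) → Pl D l → ℝ := fun w p =>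
    ∑ a, w ((p.1.1, p.1.2.1), a) ^ 2 + ∑ a, w ((p.1.1 + eT p.1.2.1, p.1.2.2), a) ^ 2 +
      ∑ a, w ((p.1.1 + eT p.1.2.2, p.1.2.1), a) ^ 2 + ∑ a, w ((p.1.1, p.1.2.2), a) ^ 2 with hS
  have hS0 : ∀ w p, 0 ≤ S w p := fun w p => by rw [hS]; positivity
  have h2 : ∀ p : Pl D l, |∑ i, w i * ∑ j, q j * L.ev U (L.Dv i (L.Dv j
      (lin (ip 1) _ (SmM_plqT (L := L) p.1.1 p.1.2.1 p.1.2.2))))| ≤
      4 * (Real.sqrt (S w p) * Real.sqrt (S q p)) := by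
    intro p
    refine plq_second w q _ _ _ _ _ (fun U => ?_) U
    unfold plqT
    rw [map_mul, map_mul, map_mul, L.rho_inv, L.rho_inv]
  have h3 : ∀ w, ∑ p, S w p = 2 * (D - 1) * ∑ i, w i ^ 2 := by
    intro w
    rw [Fintype.sum_prod_type (f := fun i => w i ^ 2)]
    exact sum_plq (fun e => ∑ a, w (e, a) ^ 2)
  refine (Finset.sum_le_sum fun p _ => h2 p).trans ?_
  rw [← Finset.mul_sum]
  have h4 := Real.sum_sqrt_mul_sqrt_le (Finset.univ : Finset (Pl D l)) (f := S w) (g := S q)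
    (fun p => hS0 w p) (fun p => hS0 q p)
  rw [h3, h3, Real.sqrt_mul hD', Real.sqrt_mul hD'] at h4
  have h5 : Real.sqrt (2 * ((D : ℝ) - 1)) * Real.sqrt (2 * ((D : ℝ) - 1)) = 2 * ((D : ℝ) - 1) :=
    Real.mul_self_sqrt hD'
  calc 4 * ∑ p, Real.sqrt (S w p) * Real.sqrt (S q p)
      ≤ 4 * ((Real.sqrt (2 * ((D : ℝ) - 1)) * Real.sqrt (∑ i, w i ^ 2)) *
        (Real.sqrt (2 * ((D : ℝ) - 1)) * Real.sqrt (∑ i, q i ^ 2))) := by linarith
    _ = 4 * ((Real.sqrt (2 * ((D : ℝ) - 1)) * Real.sqrt (2 * ((D : ℝ) - 1))) *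
        (Real.sqrt (∑ i, w i ^ 2) * Real.sqrt (∑ i, q i ^ 2))) := by ring
    _ = _ := by rw [h5]; ring

/-- **Second derivatives of the magnetic energy.** -/
theorem HB_VT' (hD : 1 ≤ D) : HB (VT L D l) (8 * (D - 1)) := by
  intro U q
  set a : Ed D l × Fin n → ℝ := fun i => ∑ j, q j * L.ev U (L.Dv i (L.Dv j (VT L D l))) with ha
  have h1 := bil_VT (L := L) hD a q U
  have h2 : ∑ i, a i * ∑ j, q j * L.ev U (L.Dv i (L.Dv j (VT L D l))) = ∑ i, a i ^ 2 :=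
    Finset.sum_congr rfl fun i _ => by rw [sq]
  rw [h2] at h1
  have h3 : 0 ≤ ∑ i, a i ^ 2 := Finset.sum_nonneg fun _ _ => sq_nonneg _
  have h4 : 0 ≤ ∑ i, q i ^ 2 := Finset.sum_nonneg fun _ _ => sq_nonneg _
  rw [abs_of_nonneg h3] at h1
  show ∑ i, a i ^ 2 ≤ _
  set s := Real.sqrt (∑ i, a i ^ 2) with hs
  set t := Real.sqrt (∑ i, q i ^ 2) with ht
  have hs2 : s ^ 2 = ∑ i, a i ^ 2 := Real.sq_sqrt h3
  have ht2 : t ^ 2 = ∑ i, q i ^ 2 := Real.sq_sqrt h4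
  have hs0 : 0 ≤ s := Real.sqrt_nonneg _
  have ht0 : 0 ≤ t := Real.sqrt_nonneg _
  have hK : (0 : ℝ) ≤ 8 * ((D : ℝ) - 1) := by
    have : (1 : ℝ) ≤ D := by exact_mod_cast hD
    linarith
  rw [← hs2] at h1 ⊢
  rw [← ht2]
  rcases hs0.eq_or_lt with h0 | h0
  · rw [← h0]
    have := sq_nonneg (8 * ((D : ℝ) - 1) * t)
    nlinarith
  · have h5 : s ≤ 8 * ((D : ℝ) - 1) * t := by
      have h6 : s * s ≤ s * (8 * ((D : ℝ) - 1) * t) := by nlinarith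
      exact le_of_mul_le_mul_left h6 h0
    calc s ^ 2 ≤ (8 * ((D : ℝ) - 1) * t) ^ 2 := by gcongr
      _ = _ := by ring

end main

end

end Run7.h208.KS
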