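import Pool.Agent.Run7.h208.KS.VTa

/-!
# Piece VT, second part: traces of products with two insertions
-/

open MeasureTheory Matrix Set
open scoped Matrix.Norms.Frobenius ContDiff
open Pool.Agent.H906R3.YM

namespace Run7.h208.KS

set_option linter.unusedSectionVars false

noncomputable section

variable {N : ℕ}

/-- unitary matrices -/
def IsU (A : Mat N) : Prop := Aᴴ * A = 1 ∧ A * Aᴴ = 1

lemma IsU.one : IsU (1 : Mat N) := by constructor <;> simp

lemma IsU.mul {A B : Mat N} (hA : IsU A) (hB : IsU B) : IsU (A * B) := by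
  constructor
  · rw [conjTranspose_mul]
    calc Bᴴ * Aᴴ * (A * B) = Bᴴ * (Aᴴ * A) * B := by simp only [Matrix.mul_assoc]
      _ = 1 := by rw [hA.1, mul_one, hB.1]
  · rw [conjTranspose_mul]
    calc A * B * (Bᴴ * Aᴴ) = A * (B * Bᴴ) * Aᴴ := by simp only [Matrix.mul_assoc]
      _ = 1 := by rw [hB.2, mul_one, hA.2]

lemma IsU.ct {A : Mat N} (hA : IsU A) : IsU Aᴴ := by
  constructor
  · rw [conjTranspose_conjTranspose]; exact hA.2
  · rw [conjTranspose_conjTranspose]; exact hA.1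

lemma ip_self_nonneg (A : Mat N) : 0 ≤ ip A A := by
  rw [ip_apply, ← sum_co_sq]
  exact Finset.sum_nonneg fun _ _ => sq_nonneg _

lemma ip_cs (A B : Mat N) : (ip A B) ^ 2 ≤ ip A A * ip B B := by
  refine sq_le_of_forall fun t => ?_
  have h1 := ip_self_nonneg (A + t • B)
  rw [map_add, map_smul, ip_comm (A + t • B) A, ip_comm (A + t • B) B, map_add, map_add,
    map_smul, map_smul, ip_comm B A, smul_eq_mul, smul_eq_mul, smul_eq_mul] at h1
  nlinarith

/-- the norm of a matrix -/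
def fn (A : Mat N) : ℝ := Real.sqrt (ip A A)

lemma fn_nonneg (A : Mat N) : 0 ≤ fn A := Real.sqrt_nonneg _

lemma abs_ip_le (A B : Mat N) : |ip A B| ≤ fn A * fn B := by
  unfold fn
  rw [← Real.sqrt_mul (ip_self_nonneg A)]
  exact Real.abs_le_sqrt (ip_cs A B)

lemma fn_ct (A : Mat N) : fn Aᴴ = fn A := by
  unfold fn
  rw [ip_apply, ip_apply, conjTranspose_conjTranspose, trace_mul_comm]

/-- a product of unitary matrices with two insertions -/
lemma tr5 {a b c : Mat N} (ha : IsU a) (hb : IsU b) (hc : IsU c) (Z W : Mat N) :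
    |(trace (a * Z * b * W * c)).re| ≤ fn Z * fn W := by
  have h1 : trace (a * Z * b * W * c) = trace (((c * a * Z * b)ᴴ)ᴴ * W) := by
    rw [conjTranspose_conjTranspose, trace_mul_comm]
    simp only [Matrix.mul_assoc]
  have h2 : fn ((c * a * Z * b)ᴴ) = fn Z := by
    rw [fn_ct]
    unfold fn
    congr 1
    rw [ip_apply, ip_apply]
    congr 1
    have e1 : (c * a * Z * b)ᴴ * (c * a * Z * b) =
        bᴴ * (Zᴴ * (aᴴ * (cᴴ * c) * a) * Z * b) := by
      simp only [conjTranspose_mul, Matrix.mul_assoc]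
    rw [e1, hc.1, mul_one, ha.1, mul_one, trace_mul_comm]
    have e2 : Zᴴ * Z * b * bᴴ = Zᴴ * Z * (b * bᴴ) := by simp only [Matrix.mul_assoc]
    rw [e2, hb.2, mul_one]
  rw [h1, ← ip_apply, ← h2]
  exact abs_ip_le _ _

/-- the sixteen terms of the second derivative of a plaquette -/
lemma plq_bd {A B C H : Mat N} (uA : IsU A) (uB : IsU B) (uC : IsU C) (uH : IsU H)
    (Y1 Y2 Y3 Y4 W1 W2 W3 W4 : Mat N) :
    |(trace (((Y1 * W1 * A) * B * C * H + (Y1 * A) * (W2 * B) * C * H +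
        (Y1 * A) * B * (C * W3) * H + (Y1 * A) * B * C * (H * W4)) +
      ((W1 * A) * (Y2 * B) * C * H + A * (Y2 * W2 * B) * C * H +
        A * (Y2 * B) * (C * W3) * H + A * (Y2 * B) * C * (H * W4)) +
      ((W1 * A) * B * (C * Y3) * H + A * (W2 * B) * (C * Y3) * H +
        A * B * (C * W3 * Y3) * H + A * B * (C * Y3) * (H * W4)) +
      ((W1 * A) * B * C * (H * Y4) + A * (W2 * B) * C * (H * Y4) +
        A * B * (C * W3) * (H * Y4) + A * B * C * (H * W4 * Y4)))).re| ≤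
    (fn W1 + fn W2 + fn W3 + fn W4) * (fn Y1 + fn Y2 + fn Y3 + fn Y4) := by
  have u1 := IsU.one (N := N)
  have t11 := abs_le.1 (tr5 u1 u1 (((uA.mul uB).mul uC).mul uH) Y1 W1)
  have t12 := abs_le.1 (tr5 u1 uA ((uB.mul uC).mul uH) Y1 W2)
  have t13 := abs_le.1 (tr5 u1 ((uA.mul uB).mul uC) uH Y1 W3)
  have t14 := abs_le.1 (tr5 u1 (((uA.mul uB).mul uC).mul uH) u1 Y1 W4)
  have t21 := abs_le.1 (tr5 u1 uA ((uB.mul uC).mul uH) W1 Y2)
  have t22 := abs_le.1 (tr5 uA u1 ((uB.mul uC).mul uH) Y2 W2)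
  have t23 := abs_le.1 (tr5 uA (uB.mul uC) uH Y2 W3)
  have t24 := abs_le.1 (tr5 uA ((uB.mul uC).mul uH) u1 Y2 W4)
  have t31 := abs_le.1 (tr5 u1 ((uA.mul uB).mul uC) uH W1 Y3)
  have t32 := abs_le.1 (tr5 uA (uB.mul uC) uH W2 Y3)
  have t33 := abs_le.1 (tr5 ((uA.mul uB).mul uC) u1 uH W3 Y3)
  have t34 := abs_le.1 (tr5 ((uA.mul uB).mul uC) uH u1 Y3 W4)
  have t41 := abs_le.1 (tr5 u1 (((uA.mul uB).mul uC).mul uH) u1 W1 Y4)
  have t42 := abs_le.1 (tr5 uA ((uB.mul uC).mul uH) u1 W2 Y4)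
  have t43 := abs_le.1 (tr5 ((uA.mul uB).mul uC) uH u1 W3 Y4)
  have t44 := abs_le.1 (tr5 (((uA.mul uB).mul uC).mul uH) u1 u1 W4 Y4)
  simp only [Matrix.mul_assoc, one_mul, mul_one] at t11 t12 t13 t14 t21 t22 t23 t24
  simp only [Matrix.mul_assoc, one_mul, mul_one] at t31 t32 t33 t34 t41 t42 t43 t44
  simp only [trace_add, Complex.add_re, Matrix.mul_assoc]
  rw [abs_le]
  constructor
  · linarith [t11.1, t12.1, t13.1, t14.1, t21.1, t22.1, t23.1, t24.1, t31.1, t32.1, t33.1, t34.1,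
      t41.1, t42.1, t43.1, t44.1]
  · linarith [t11.2, t12.2, t13.2, t14.2, t21.2, t22.2, t23.2, t24.2, t31.2, t32.2, t33.2, t34.2,
      t41.2, t42.2, t43.2, t44.2]

/-- four numbers -/
lemma four_sum {a b c d : ℝ} : a + b + c + d ≤ 2 * Real.sqrt (a ^ 2 + b ^ 2 + c ^ 2 + d ^ 2) := by
  have h1 : (a + b + c + d) / 2 ≤ Real.sqrt (a ^ 2 + b ^ 2 + c ^ 2 + d ^ 2) := by
    refine Real.le_sqrt_of_sq_le ?_
    nlinarith [sq_nonneg (a - b), sq_nonneg (a - c), sq_nonneg (a - d), sq_nonneg (b - c),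
      sq_nonneg (b - d), sq_nonneg (c - d)]
  linarith

end

end Run7.h208.KS
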